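import Pool.Agent.Helper22.AE.Defs

/-!
# ExactOrder (MP_fb29e9_nt): definitions

Paper plan: /team-store/h76_EO_plan.md, README /team-store/h76_EO_README.md. The project continues AlmostEveryDomain (Helper22/AE).
-/

open MeasureTheory Real Set Filter Topology

set_option autoImplicit false

namespace Pool.Agent.Helper76.EO

open Pool.Agent.Helper22.AE

/-- bounds for a support function and its radius of curvature (no positivity) -/
structure Bdd2 (B : ℝ) (H : ℝ → ℝ) : Prop where
  smooth : ContDiff ℝ 2 H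
  per : Function.Periodic H (2 * π)
  b0 : ∀ θ, |H θ| ≤ B
  b1 : ∀ θ, |deriv H θ| ≤ B
  b2 : ∀ θ, |rho H θ| ≤ B

/-- the block sum with the Fourier transform replaced by its boundary integral (no positivity needed) -/
noncomputable def Vt (φ : ℝ × ℝ → ℝ) (G : ℝ → ℝ) (δ : ℝ) (n : ℕ) : ℂ :=
  ∑ k ∈ blk n, (-(1 / (2 * π * Complex.I * (nk k : ℂ))) * ∫ α in (-π)..π,
    ((cos α * rho G (tk k + α) : ℝ) : ℂ) * ee (-(nk k * gph G k α))) * fhat φ (δ * k.1) (δ * k.2)

/-- the set of good angles -/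
def gs : Set ℝ := Icc (-π) π ∩ {α | 1 / 2 ≤ |cos α|}

/-- the general exponential sum over the block: deterministic weights `c`, amplitude `a0 + b0 * rho H` -/
noncomputable def TS (n : ℕ) (B : Finset (ℤ × ℤ)) (c : ℤ × ℤ → ℂ) (a0 b0 R α : ℝ) (H : ℝ → ℝ) : ℂ :=
  ∑ k ∈ B, c k * (((a0 + b0 * rho H (tk k + α) : ℝ) : ℂ)) * ee (-(R * nk k * gph H k α))

/-- length of the primitive vector in the direction of `k` -/
noncomputable def prm (k : ℤ × ℤ) : ℝ := nk k / (Int.gcd k.1 k.2 : ℝ)

/-- the cross product -/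
def crs (k k' : ℤ × ℤ) : ℤ := k.1 * k'.2 - k.2 * k'.1

/-- the number of the arc of level `j` containing `tk k + α` -/
noncomputable def aix (j : ℕ) (α : ℝ) (k : ℤ × ℤ) : ℕ := ⌊(2 : ℝ) ^ j * Int.fract ((tk k + α) / (2 * π))⌋₊

/-- scale of the bump of level `j` -/
noncomputable def lamj (j : ℕ) : ℝ := 2 * 4 ^ j / π ^ 2

/-- centre of the arc number `i` of level `j` -/
noncomputable def ctr (j i : ℕ) : ℝ := (2 * i + 1) * π / 2 ^ j

/-- the bump of level `j` at the arc number `i`: one on the arc, zero on the other arcs of the same parity -/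
noncomputable def bmp (j i : ℕ) (θ : ℝ) : ℝ := Real.smoothTransition (2 - lamj j * (1 - cos (θ - ctr j i)))

/-- truncation to `[-1, 1]` -/
noncomputable def clip (x : ℝ) : ℝ := max (-1) (min 1 x)

/-- the uniform probability measure on `[-1, 1]` -/
noncomputable def mu : Measure ℝ := (2 : ENNReal)⁻¹ • volume.restrict (Icc (-1) 1)

/-- the sample space -/
abbrev Sp : Type := ℕ × ℕ → ℝ

/-- independent coordinates, uniform on `[-1, 1]` -/
noncomputable def PP : Measure Sp := Measure.infinitePi (fun _ : ℕ × ℕ => mu)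

/-- a family of amplitudes and functions -/
structure Fam where
  a : ℕ × ℕ → ℝ
  f : ℕ × ℕ → ℝ → ℝ

/-- smooth periodic functions with summable derivatives of every order -/
structure Fam.Good (F : Fam) : Prop where
  smooth : ∀ p, ContDiff ℝ (⊤ : ℕ∞) (F.f p)
  per : ∀ p, Function.Periodic (F.f p) (2 * π)
  summ : ∀ s : ℕ, ∃ M : ℕ × ℕ → ℝ, Summable M ∧ ∀ p θ, |F.a p| * |iteratedDeriv s (F.f p) θ| ≤ M p

/-- the random series -/
noncomputable def Psi (F : Fam) (ω : Sp) (θ : ℝ) : ℝ := ∑' p, F.a p * clip (ω p) * F.f p θ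

/-- the random support function -/
noncomputable def Hr (F : Fam) (H₀ : ℝ → ℝ) (ω : Sp) (θ : ℝ) : ℝ := H₀ θ + Psi F ω θ

/-- the level used at the scale `2^N` for the block `2^n` -/
noncomputable def Q0 (N n : ℕ) : ℝ := (log (2 ^ N)) ^ (3 / 8 : ℝ) * ((2 : ℝ) ^ n) ^ (1 / 4 : ℝ)

noncomputable def lvl (N n : ℕ) : ℕ := Nat.clog 2 ⌈2 ^ n * Q0 N n⌉₊

/-- the family contains the bumps of all levels `j ≥ 1` with amplitudes `am j` -/
def Fam.Wav (F : Fam) (am : ℕ → ℝ) : Prop := ∀ j i : ℕ, 1 ≤ j → i < 2 ^ j → F.f (j, i) = bmp j i ∧ F.a (j, i) = am j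

/-- the explicit family: trigonometric functions in row `0` with amplitudes `e`, bumps in row `j ≥ 1` with amplitudes `am j` -/
noncomputable def famF (e am : ℕ → ℝ) : Fam where
  a p := if p.1 = 0 then e (p.2 / 2) else if p.2 < 2 ^ p.1 then am p.1 else 0
  f p θ := if p.1 = 0 then (if p.2 % 2 = 0 then cos ((p.2 / 2 : ℕ) * θ) else sin ((p.2 / 2 : ℕ) * θ)) else bmp p.1 p.2 θ

/-- the first `L` pairs of trigonometric coefficients -/
noncomputable def wv (e : ℕ → ℝ) (L : ℕ) (u : Sp) : (Fin L → ℝ) × (Fin L → ℝ) :=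
  (fun l => e l * clip (u (0, 2 * (l : ℕ))), fun l => e l * clip (u (0, 2 * (l : ℕ) + 1)))

/-- the block without the points with a short primitive vector -/
noncomputable def Bq (n : ℕ) (Q : ℝ) : Finset (ℤ × ℤ) := by
  classical exact (blk n).filter (fun k => Q < prm k)

/-- indices of the arcs of level `j` and parity `c` -/
def cls (j c : ℕ) : Finset (ℕ × ℕ) := ((Finset.range (2 ^ j)).filter (fun i => i % 2 = c)).map ⟨fun i => (j, i), fun _ _ h => (Prod.mk.inj h).2⟩

end Pool.Agent.Helper76.EO
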