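import Mathlib

/-!
# EO-F0: slow stage functions and amplitudes

PROOF of `stage`. Choose `N_1 < N_2 < ...` with `m² ≤ N_m` and `∑_{N ≥ N_m} f m N ≤ 2^(-m)`; `st N = max {m : N_m ≤ N}` (`0` if `N < N_1`). On
`N_m ≤ N < N_{m+1}` `st N = m`, so `∑_N f (st N) N ≤ ∑_N f 0 N + ∑_m 2^(-m)`. (A way to build it: strictly monotone sequence by
`exists_strictMono_subsequence`-type recursion; `st N = Nat.findGreatest (fun m => Nm m ≤ N) N` with `Nm 0 = 0`.)
PROOF of `amp`. `T(j) = {N : ∃ n, n (st N + 1) ≤ N ∧ j ≤ 2n+3}` is nonempty: for `n = j` and `N` large `j (√N + 1) ≤ N`. `N(j) = sInf T(j)`,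
`am j = 2^(-N(j)/4)`. Third property: `N ∈ T(j)`, so `N(j) ≤ N`. Summability: `n (st (N(j)) + 1) ≤ N(j)` with `n ≥ (j-3)/2`; `N(j) → ∞`, so
`st (N(j)) → ∞`: for every `A`, `N(j) ≥ A j` for `j` large; hence `am j 2^j (4^j)^s ≤ 2^(-j)` for `j` large.
-/

open Real Set Filter Topology

set_option autoImplicit false

namespace Pool.Agent.Helper76.EO

theorem stage (f : ℕ → ℕ → ℝ) (hf0 : ∀ m N, 0 ≤ f m N) (hf : ∀ m, Summable (f m)) :
    ∃ st : ℕ → ℕ, Monotone st ∧ Tendsto st atTop atTop ∧ (∀ N, st N * st N ≤ N) ∧ Summable (fun N => f (st N) N) := by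
  classical
  -- tails
  have hK : ∀ m : ℕ, ∃ K : ℕ, ∀ i ≥ K, ∑' N, f m (N + i) ≤ (1 / 2 : ℝ) ^ m := by
    intro m
    have h1 := tendsto_sum_nat_add (f m)
    have h2 : ∀ᶠ i in atTop, ∑' N, f m (N + i) < (1 / 2 : ℝ) ^ m :=
      h1.eventually_lt_const (by positivity)
    obtain ⟨K, hK⟩ := eventually_atTop.1 h2
    exact ⟨K, fun i hi => (hK i hi).le⟩
  choose K hK using hK
  obtain ⟨M, hM0, hMs⟩ : ∃ M : ℕ → ℕ, M 0 = 0 ∧
      ∀ m, M (m + 1) = max (K (m + 1)) (max ((m + 1) * (m + 1)) (M m + 1)) :=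
    ⟨fun m => Nat.rec 0 (fun m x => max (K (m + 1)) (max ((m + 1) * (m + 1)) (x + 1))) m,
      rfl, fun m => rfl⟩
  have hM1 : ∀ m, M m + 1 ≤ M (m + 1) := by
    intro m
    rw [hMs]
    exact (le_max_right _ _).trans (le_max_right _ _)
  have hM2 : ∀ m, m * m ≤ M m := by
    intro m
    cases m with
    | zero => exact Nat.zero_le _
    | succ m => rw [hMs]; exact (le_max_left _ _).trans (le_max_right _ _)
  have hM3 : ∀ m, K (m + 1) ≤ M (m + 1) := by
    intro m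
    rw [hMs]
    exact le_max_left _ _
  have hMm : ∀ m, m ≤ M m := by
    intro m
    induction m with
    | zero => exact Nat.zero_le _
    | succ m ih => exact (Nat.succ_le_succ ih).trans (hM1 m)
  set st : ℕ → ℕ := fun N => Nat.findGreatest (fun m => M m ≤ N) N with hst
  have hs1 : ∀ N, M (st N) ≤ N := by
    intro N
    have h0 : M 0 ≤ N := by rw [hM0]; exact Nat.zero_le _
    exact Nat.findGreatest_spec (P := fun m => M m ≤ N) (m := 0) (Nat.zero_le _) h0
  have hs2 : ∀ N m, M m ≤ N → m ≤ st N := by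
    intro N m h
    exact Nat.le_findGreatest ((hMm m).trans h) h
  refine ⟨st, ?_, ?_, ?_, ?_⟩
  · intro N N' h
    exact hs2 N' _ ((hs1 N).trans h)
  · refine tendsto_atTop.2 fun m => eventually_atTop.2 ⟨M m, fun N hN => hs2 N m hN⟩
  · intro N
    exact (hM2 _).trans (hs1 N)
  · -- summability
    set g : ℕ → ℕ → ℝ := fun m N => if M m ≤ N then f m N else 0 with hg
    have hg0 : ∀ m N, 0 ≤ g m N := by
      intro m N
      simp only [hg]
      split_ifs
      · exact hf0 m N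
      · exact le_rfl
    have hgt : ∀ m n, ∑ N ∈ Finset.range n, g m N ≤ ∑' N, f m (N + M m) := by
      intro m n
      have h1 : ∑ N ∈ Finset.range n, g m N ≤ ∑ N ∈ Finset.range (M m + n), g m N :=
        Finset.sum_le_sum_of_subset_of_nonneg (Finset.range_mono (by omega)) (fun i _ _ => hg0 m i)
      refine h1.trans ?_
      rw [Finset.sum_range_add]
      have h2 : ∑ x ∈ Finset.range (M m), g m x = 0 := by
        refine Finset.sum_eq_zero fun x hx => ?_
        have := Finset.mem_range.1 hx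
        simp only [hg]
        rw [if_neg (by omega)]
      have h3 : ∀ x, g m (M m + x) = f m (x + M m) := by
        intro x
        simp only [hg]
        rw [if_pos (by omega), add_comm]
      rw [h2, zero_add]
      simp only [h3]
      exact ((summable_nat_add_iff (M m)).2 (hf m)).sum_le_tsum _ (fun i _ => hf0 m _)
    refine summable_of_sum_range_le (c := ∑' N, f 0 N + 2) (fun N => hf0 _ _) fun n => ?_
    have h1 : ∀ N ∈ Finset.range n, f (st N) N ≤ ∑ m ∈ Finset.range (n + 1), g m N := by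
      intro N hN
      have hN' := Finset.mem_range.1 hN
      have h2 : st N ∈ Finset.range (n + 1) := by
        rw [Finset.mem_range]
        have := (hMm (st N)).trans (hs1 N)
        omega
      have h3 : g (st N) N = f (st N) N := by
        simp only [hg]
        rw [if_pos (hs1 N)]
      rw [← h3]
      exact Finset.single_le_sum (f := fun m => g m N) (fun i _ => hg0 i N) h2
    refine (Finset.sum_le_sum h1).trans ?_
    rw [Finset.sum_comm, Finset.sum_range_succ']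
    have h4 : ∑ N ∈ Finset.range n, g 0 N ≤ ∑' N, f 0 N := by
      have := hgt 0 n
      simpa [hM0] using this
    have h5 : ∑ k ∈ Finset.range n, ∑ N ∈ Finset.range n, g (k + 1) N ≤ 2 := by
      have h6 : ∀ k ∈ Finset.range n, ∑ N ∈ Finset.range n, g (k + 1) N ≤ (1 / 2 : ℝ) ^ (k + 1) :=
        fun k _ => (hgt (k + 1) n).trans (hK (k + 1) _ (hM3 k))
      refine (Finset.sum_le_sum h6).trans ?_
      have h7 : ∀ k ∈ Finset.range n, (1 / 2 : ℝ) ^ (k + 1) ≤ (1 / 2 : ℝ) ^ k := fun k _ => by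
        rw [pow_succ]
        have : (0 : ℝ) < (1 / 2) ^ k := by positivity
        linarith
      refine (Finset.sum_le_sum h7).trans ?_
      exact sum_geometric_two_le n
    linarith

theorem amp {st : ℕ → ℕ} (h1 : Monotone st) (h2 : Tendsto st atTop atTop) (h3 : ∀ N, st N * st N ≤ N) :
    ∃ am : ℕ → ℝ, (∀ j, 0 < am j ∧ am j ≤ 1) ∧ (∀ s : ℕ, Summable (fun j => am j * 2 ^ j * (4 ^ j) ^ s)) ∧
      ∀ N n j : ℕ, n * (st N + 1) ≤ N → j ≤ 2 * n + 3 → (2 : ℝ) ^ (-(N : ℝ) / 4) ≤ am j := by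
  classical
  set T : ℕ → Set ℕ := fun j => {N | ∃ n, n * (st N + 1) ≤ N ∧ j ≤ 2 * n + 3} with hT
  have hne : ∀ j, (T j).Nonempty := by
    intro j
    refine ⟨(2 * j + 2) * (2 * j + 2), j, ?_, by omega⟩
    have h4 : st ((2 * j + 2) * (2 * j + 2)) ≤ 2 * j + 2 := Nat.mul_self_le_mul_self_iff.1 (h3 _)
    nlinarith
  set Nj : ℕ → ℕ := fun j => sInf (T j) with hNj
  have hmem : ∀ j, Nj j ∈ T j := fun j => Nat.sInf_mem (hne j)
  refine ⟨fun j => (2 : ℝ) ^ (-(Nj j : ℝ) / 4), ?_, ?_, ?_⟩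
  · intro j
    refine ⟨Real.rpow_pos_of_pos (by norm_num) _, ?_⟩
    refine Real.rpow_le_one_of_one_le_of_nonpos (by norm_num) ?_
    have : (0 : ℝ) ≤ Nj j := Nat.cast_nonneg _
    linarith
  · intro s
    have hA : ∀ᶠ m in atTop, 32 + 32 * s ≤ st m := tendsto_atTop.1 h2 _
    obtain ⟨m0, hm0⟩ := eventually_atTop.1 hA
    refine Summable.of_norm_bounded_eventually_nat (g := fun j => (1 / 2 : ℝ) ^ j)
      (summable_geometric_of_lt_one (by norm_num) (by norm_num)) ?_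
    refine eventually_atTop.2 ⟨2 * m0 + 6, fun j hj => ?_⟩
    obtain ⟨n, hn1, hn2⟩ := hmem j
    have hn3 : n ≤ Nj j := (Nat.le_mul_of_pos_right n (by omega)).trans hn1
    have hst : 32 + 32 * s ≤ st (Nj j) := hm0 _ (by omega)
    have hbig : (8 + 8 * s) * j ≤ Nj j := by
      have h5 : n * (32 + 32 * s) ≤ Nj j :=
        (Nat.mul_le_mul_left n (hst.trans (Nat.le_succ _))).trans hn1
      have h6 : j ≤ 4 * n := by omega
      calc (8 + 8 * s) * j ≤ (8 + 8 * s) * (4 * n) := Nat.mul_le_mul_left _ h6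
        _ = n * (32 + 32 * s) := by ring
        _ ≤ Nj j := h5
    have hbig' : (8 + 8 * (s : ℝ)) * j ≤ Nj j := by exact_mod_cast hbig
    have e1 : (2 : ℝ) ^ (-(Nj j : ℝ) / 4) * 2 ^ j * (4 ^ j) ^ s =
        (2 : ℝ) ^ (-(Nj j : ℝ) / 4 + j + 2 * j * s) := by
      rw [Real.rpow_add (by norm_num), Real.rpow_add (by norm_num), Real.rpow_natCast]
      congr 1
      rw [← pow_mul, show (4 : ℝ) = 2 ^ 2 by norm_num, ← pow_mul]
      rw [← Real.rpow_natCast]
      congr 1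
      push_cast
      ring
    have e2 : (1 / 2 : ℝ) ^ j = (2 : ℝ) ^ (-(j : ℝ)) := by
      rw [Real.rpow_neg (by norm_num), Real.rpow_natCast, one_div, inv_pow]
    rw [e1, e2, Real.norm_of_nonneg (Real.rpow_nonneg (by norm_num) _)]
    refine Real.rpow_le_rpow_of_exponent_le (by norm_num) ?_
    have hj0 : (0 : ℝ) ≤ j := Nat.cast_nonneg _
    nlinarith
  · intro N n j h4 h5
    have h6 : Nj j ≤ N := Nat.sInf_le ⟨n, h4, h5⟩
    refine Real.rpow_le_rpow_of_exponent_le (by norm_num) ?_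
    have : (Nj j : ℝ) ≤ N := by exact_mod_cast h6
    linarith

theorem low_amp (k : ℕ) {κ : ℝ} (hκ : 0 < κ) : ∃ e : ℕ → ℝ, (∀ l, 0 < e l ∧ e l ≤ 1) ∧
    (∀ s : ℕ, Summable (fun l : ℕ => e l * (l : ℝ) ^ s)) ∧ ∀ s ≤ k, ∑' l : ℕ, e l * (l : ℝ) ^ s ≤ κ := by
  have hsum : ∀ s : ℕ, Summable (fun l : ℕ => (l : ℝ) ^ s * (1 / 2 : ℝ) ^ l) := fun s =>
    summable_pow_mul_geometric_of_norm_lt_one s (by norm_num)
  set B : ℝ := 1 + ∑ s ∈ Finset.range (k + 1), ∑' l : ℕ, (l : ℝ) ^ s * (1 / 2 : ℝ) ^ l with hB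
  have hnn : ∀ s : ℕ, 0 ≤ ∑' l : ℕ, (l : ℝ) ^ s * (1 / 2 : ℝ) ^ l := fun s =>
    tsum_nonneg fun l => by positivity
  have hB1 : 1 ≤ B := by
    have := Finset.sum_nonneg (s := Finset.range (k + 1)) (fun s _ => hnn s)
    linarith
  have hBs : ∀ s ≤ k, ∑' l : ℕ, (l : ℝ) ^ s * (1 / 2 : ℝ) ^ l ≤ B := by
    intro s hs
    have := Finset.single_le_sum (f := fun s => ∑' l : ℕ, (l : ℝ) ^ s * (1 / 2 : ℝ) ^ l)
      (fun i _ => hnn i) (Finset.mem_range.2 (Nat.lt_succ_of_le hs))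
    linarith
  set c : ℝ := min 1 (κ / B) with hc
  have hB0 : 0 < B := by linarith
  have hc0 : 0 < c := lt_min one_pos (div_pos hκ hB0)
  have hc1 : c ≤ 1 := min_le_left _ _
  have hcB : c * B ≤ κ := by
    have := min_le_right 1 (κ / B)
    calc c * B ≤ κ / B * B := mul_le_mul_of_nonneg_right this hB0.le
      _ = κ := div_mul_cancel₀ _ hB0.ne'
  have hf : ∀ s : ℕ, (fun l : ℕ => c * (1 / 2 : ℝ) ^ l * (l : ℝ) ^ s) =
      fun l : ℕ => c * ((l : ℝ) ^ s * (1 / 2 : ℝ) ^ l) := by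
    intro s
    funext l
    ring
  refine ⟨fun l => c * (1 / 2 : ℝ) ^ l, fun l => ⟨by positivity, ?_⟩, fun s => ?_, fun s hs => ?_⟩
  · have : (1 / 2 : ℝ) ^ l ≤ 1 := pow_le_one₀ (by norm_num) (by norm_num)
    calc c * (1 / 2 : ℝ) ^ l ≤ 1 * 1 := mul_le_mul hc1 this (by positivity) (by norm_num)
      _ = 1 := one_mul 1
  · rw [hf s]
    exact (hsum s).mul_left c
  · rw [hf s, tsum_mul_left]
    exact (mul_le_mul_of_nonneg_left (hBs s hs) hc0.le).trans hcB

end Pool.Agent.Helper76.EO
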