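import Pool.Agent.Helper76.EO.Base

/-!
# EO-S2: random series of functions

PROOF. `|clip x| ≤ 1`, `clip` continuous. `Psi_smooth`: `contDiff_tsum` (bounds on `iteratedFDeriv`, `norm_iteratedFDeriv_eq_norm_iteratedDeriv`).
`Psi_iter`: `iteratedDeriv_tsum` or induction with `hasDerivAt_tsum`. `Psi_bound`: `Psi_iter` and `tsum` of norms. `Psi_cont`: `Psi_iter` and
`continuous_tsum` (each term continuous in `(ω, θ)`, summable bound). `Psi_split`: split the summable family into `A` and its complement; on `A` the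
sample `A.piecewise 0 ω` contributes `clip 0 = 0`. `Hr_bdd`: `B1 = ∑ M₀ + ∑ M₁ + ∑ M₂` from `summ` for `s = 0, 1, 2`, `rho (H₀ + ψ) = rho H₀ + ψ + ψ''`.
-/

open MeasureTheory Real Set Filter Topology

set_option autoImplicit false

namespace Pool.Agent.Helper76.EO

open Pool.Agent.Helper22.AE

theorem clip_cont : Continuous clip := by
  unfold clip
  fun_prop

theorem clip_le (x : ℝ) : |clip x| ≤ 1 := by
  unfold clip
  rw [abs_le]
  exact ⟨le_max_left _ _, max_le (by norm_num) (min_le_left _ _)⟩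

private theorem clip_zero : clip 0 = 0 := by
  unfold clip
  norm_num

private theorem it_term (F : Fam) (ω : Sp) (s : ℕ) (p : ℕ × ℕ) (θ : ℝ) :
    iteratedDeriv s (fun θ => F.a p * clip (ω p) * F.f p θ) θ =
      F.a p * clip (ω p) * iteratedDeriv s (F.f p) θ :=
  iteratedDeriv_const_mul_field _ _

private theorem abs_term (F : Fam) (ω : Sp) (p : ℕ × ℕ) (y : ℝ) :
    |F.a p * clip (ω p) * y| ≤ |F.a p| * |y| := by
  rw [abs_mul, abs_mul]
  have h := clip_le (ω p)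
  have h1 := abs_nonneg (F.a p)
  calc |F.a p| * |clip (ω p)| * |y| ≤ |F.a p| * 1 * |y| := by gcongr
    _ = |F.a p| * |y| := by ring

private theorem norm_it {F : Fam} {s : ℕ} {M : ℕ × ℕ → ℝ}
    (h : ∀ p θ, |F.a p| * |iteratedDeriv s (F.f p) θ| ≤ M p) (ω : Sp) (p : ℕ × ℕ) (θ : ℝ) :
    ‖iteratedFDeriv ℝ s (fun θ => F.a p * clip (ω p) * F.f p θ) θ‖ ≤ M p := by
  rw [norm_iteratedFDeriv_eq_norm_iteratedDeriv, it_term, Real.norm_eq_abs]
  exact (abs_term F ω p _).trans (h p θ)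

private theorem term_smooth {F : Fam} (hF : F.Good) (ω : Sp) (p : ℕ × ℕ) :
    ContDiff ℝ (⊤ : ℕ∞) (fun θ => F.a p * clip (ω p) * F.f p θ) :=
  contDiff_const.mul (hF.smooth p)

theorem Psi_smooth {F : Fam} (hF : F.Good) (ω : Sp) : ContDiff ℝ (⊤ : ℕ∞) (Psi F ω) := by
  choose M hM1 hM2 using hF.summ
  exact contDiff_tsum (v := M) (fun p => term_smooth hF ω p) (fun k _ => hM1 k)
    (fun k p θ _ => norm_it (hM2 k) ω p θ)

theorem Psi_per {F : Fam} (hF : F.Good) (ω : Sp) : Function.Periodic (Psi F ω) (2 * π) := by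
  intro θ
  unfold Psi
  congr 1
  funext p
  rw [hF.per p θ]

theorem Psi_iter {F : Fam} (hF : F.Good) (ω : Sp) (s : ℕ) (θ : ℝ) :
    iteratedDeriv s (Psi F ω) θ = ∑' p, F.a p * clip (ω p) * iteratedDeriv s (F.f p) θ := by
  choose M hM1 hM2 using hF.summ
  have h1 : iteratedFDeriv ℝ s (Psi F ω) θ =
      ∑' p, iteratedFDeriv ℝ s (fun θ => F.a p * clip (ω p) * F.f p θ) θ :=
    iteratedFDeriv_tsum_apply (N := ⊤) (v := M) (fun p => term_smooth hF ω p) (fun k _ => hM1 k)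
      (fun k p θ _ => norm_it (hM2 k) ω p θ) le_top θ
  have h2 : Summable (fun p => iteratedFDeriv ℝ s (fun θ => F.a p * clip (ω p) * F.f p θ) θ) :=
    Summable.of_norm_bounded (hM1 s) (fun p => norm_it (hM2 s) ω p θ)
  rw [iteratedDeriv_eq_iteratedFDeriv, h1, ContinuousMultilinearMap.tsum_eval h2]
  congr 1
  funext p
  rw [← iteratedDeriv_eq_iteratedFDeriv, it_term]

theorem Psi_bound {F : Fam} (hF : F.Good) {s : ℕ} {M : ℕ × ℕ → ℝ} (hM : Summable M)
    (h : ∀ p θ, |F.a p| * |iteratedDeriv s (F.f p) θ| ≤ M p) (ω : Sp) (θ : ℝ) :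
    |iteratedDeriv s (Psi F ω) θ| ≤ ∑' p, M p := by
  rw [Psi_iter hF, ← Real.norm_eq_abs]
  exact tsum_of_norm_bounded hM.hasSum (fun p => (abs_term F ω p _).trans (h p θ))

theorem Psi_cont {F : Fam} (hF : F.Good) (s : ℕ) :
    Continuous (fun q : Sp × ℝ => iteratedDeriv s (Psi F q.1) q.2) := by
  obtain ⟨M, hM1, hM2⟩ := hF.summ s
  have h1 : (fun q : Sp × ℝ => iteratedDeriv s (Psi F q.1) q.2) =
      fun q => ∑' p, F.a p * clip (q.1 p) * iteratedDeriv s (F.f p) q.2 := by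
    funext q
    rw [Psi_iter hF]
  rw [h1]
  refine continuous_tsum (u := M) (fun p => ?_) hM1 (fun p q => ?_)
  · have h2 : Continuous (iteratedDeriv s (F.f p)) :=
      (hF.smooth p).continuous_iteratedDeriv s (by exact_mod_cast le_top)
    have h3 : Continuous (fun q : Sp × ℝ => clip (q.1 p)) :=
      clip_cont.comp ((continuous_apply p).comp continuous_fst)
    exact (continuous_const.mul h3).mul (h2.comp continuous_snd)
  · rw [Real.norm_eq_abs]
    exact (abs_term F q.1 p _).trans (hM2 p q.2)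

private theorem summ_term {F : Fam} (hF : F.Good) (ω : Sp) (θ : ℝ) :
    Summable (fun p => F.a p * clip (ω p) * F.f p θ) := by
  obtain ⟨M, hM1, hM2⟩ := hF.summ 0
  refine Summable.of_norm_bounded hM1 (fun p => ?_)
  rw [Real.norm_eq_abs]
  refine (abs_term F ω p _).trans ?_
  have := hM2 p θ
  rwa [iteratedDeriv_zero] at this

theorem Psi_split {F : Fam} (hF : F.Good) (A : Finset (ℕ × ℕ)) (u ω : Sp) (θ : ℝ) :
    Psi F (A.piecewise u ω) θ = Psi F (A.piecewise 0 ω) θ + ∑ p ∈ A, F.a p * clip (u p) * F.f p θ := by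
  unfold Psi
  rw [← (summ_term hF (A.piecewise u ω) θ).sum_add_tsum_compl (s := A),
    ← (summ_term hF (A.piecewise 0 ω) θ).sum_add_tsum_compl (s := A)]
  have h1 : ∑ p ∈ A, F.a p * clip (A.piecewise u ω p) * F.f p θ =
      ∑ p ∈ A, F.a p * clip (u p) * F.f p θ :=
    Finset.sum_congr rfl fun p hp => by rw [Finset.piecewise_eq_of_mem _ _ _ hp]
  have h2 : ∑ p ∈ A, F.a p * clip (A.piecewise (0 : Sp) ω p) * F.f p θ = 0 := by
    refine Finset.sum_eq_zero fun p hp => ?_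
    rw [Finset.piecewise_eq_of_mem _ _ _ hp]
    change F.a p * clip 0 * F.f p θ = 0
    rw [clip_zero]
    ring
  have h3 : (∑' p : ((A : Set (ℕ × ℕ))ᶜ : Set (ℕ × ℕ)),
      F.a p * clip (A.piecewise u ω p) * F.f p θ) =
      ∑' p : ((A : Set (ℕ × ℕ))ᶜ : Set (ℕ × ℕ)),
        F.a p * clip (A.piecewise (0 : Sp) ω p) * F.f p θ := by
    congr 1
    funext p
    have hp : (p : ℕ × ℕ) ∉ A := fun h => p.2 (by simpa using h)
    rw [Finset.piecewise_eq_of_notMem _ _ _ hp, Finset.piecewise_eq_of_notMem _ _ _ hp]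
  rw [h1, h2, h3]
  ring

theorem Hr_bdd {F : Fam} (hF : F.Good) : ∃ B1 : ℝ, 0 ≤ B1 ∧ ∀ (B : ℝ) (H₀ : ℝ → ℝ), Bdd2 B H₀ → ∀ ω, Bdd2 (B + B1) (Hr F H₀ ω) := by
  choose M hM1 hM2 using hF.summ
  have hM0 : ∀ s p, 0 ≤ M s p := fun s p =>
    (mul_nonneg (abs_nonneg _) (abs_nonneg _)).trans (hM2 s p 0)
  have hT0 : ∀ s, 0 ≤ ∑' p, M s p := fun s => tsum_nonneg (hM0 s)
  refine ⟨∑' p, M 0 p + ∑' p, M 1 p + ∑' p, M 2 p, by have := hT0 0; have := hT0 1; have := hT0 2; linarith, ?_⟩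
  intro B H₀ hB ω
  have hs : ContDiff ℝ (⊤ : ℕ∞) (Psi F ω) := Psi_smooth hF ω
  have hs2 : ContDiff ℝ 2 (Psi F ω) := by exact_mod_cast (contDiff_infty.1 hs) 2
  have b0 : ∀ θ, |Psi F ω θ| ≤ ∑' p, M 0 p := fun θ => by
    have := Psi_bound hF (hM1 0) (hM2 0) ω θ
    rwa [iteratedDeriv_zero] at this
  have b1 : ∀ θ, |deriv (Psi F ω) θ| ≤ ∑' p, M 1 p := fun θ => by
    have := Psi_bound hF (hM1 1) (hM2 1) ω θ
    rwa [iteratedDeriv_one] at this
  have b2 : ∀ θ, |deriv (deriv (Psi F ω)) θ| ≤ ∑' p, M 2 p := fun θ => by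
    have := Psi_bound hF (hM1 2) (hM2 2) ω θ
    rwa [iteratedDeriv_succ, iteratedDeriv_one] at this
  have d1 : deriv (Hr F H₀ ω) = fun θ => deriv H₀ θ + deriv (Psi F ω) θ := by
    funext θ
    exact deriv_add (hB.smooth.differentiable (by norm_num) θ) (hs2.differentiable (by norm_num) θ)
  have dd : ∀ {f : ℝ → ℝ}, ContDiff ℝ 2 f → Differentiable ℝ (deriv f) := by
    intro f hf
    have h1 : ContDiff ℝ (1 + 1) f := by
      have : (1 + 1 : WithTop ℕ∞) = 2 := by norm_num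
      rw [this]; exact hf
    exact (contDiff_succ_iff_deriv.1 h1).2.2.differentiable (by norm_num)
  have d2 : ∀ θ, deriv (deriv (Hr F H₀ ω)) θ =
      deriv (deriv H₀) θ + deriv (deriv (Psi F ω)) θ := by
    intro θ
    rw [d1]
    exact deriv_add (dd hB.smooth θ) (dd hs2 θ)
  have t0 := hT0 0
  have t1 := hT0 1
  have t2 := hT0 2
  refine ⟨hB.smooth.add hs2, ?_, ?_, ?_, ?_⟩
  · intro θ
    change H₀ (θ + 2 * π) + Psi F ω (θ + 2 * π) = H₀ θ + Psi F ω θ
    rw [hB.per θ, Psi_per hF ω θ]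
  · intro θ
    have h1 := hB.b0 θ
    have h2 := b0 θ
    have h3 := abs_add_le (H₀ θ) (Psi F ω θ)
    change |H₀ θ + Psi F ω θ| ≤ _
    linarith
  · intro θ
    have h1 := hB.b1 θ
    have h2 := b1 θ
    have h3 := abs_add_le (deriv H₀ θ) (deriv (Psi F ω) θ)
    rw [d1]
    change |deriv H₀ θ + deriv (Psi F ω) θ| ≤ _
    linarith
  · intro θ
    have h1 := hB.b2 θ
    have h2 := b0 θ
    have h4 := b2 θ
    have h5 : rho (Hr F H₀ ω) θ = rho H₀ θ + Psi F ω θ + deriv (deriv (Psi F ω)) θ := by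
      unfold rho
      rw [d2 θ]
      change H₀ θ + Psi F ω θ + _ = _
      ring
    rw [h5]
    have h6 := abs_add_le (rho H₀ θ + Psi F ω θ) (deriv (deriv (Psi F ω)) θ)
    have h7 := abs_add_le (rho H₀ θ) (Psi F ω θ)
    linarith

end Pool.Agent.Helper76.EO
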