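import Pool.Agent.Helper76.EO.S1
import Pool.Agent.Helper76.EO.S2

/-!
# EO-F1: the explicit family

PROOF of `famF_good`. Row `0`: `|iteratedDeriv s (cos (l ·))| ≤ l^s`, amplitude `e l`, each `l` occurs twice. Row `j ≥ 1`: `2^j` bumps of amplitude
`am j`, `|iteratedDeriv s| ≤ C_s (4^j)^s` (`bmp_bound`). `M (0, q) = e (q/2) (q/2)^s`, `M (j, i) = am j C_s (4^j)^s` for `i < 2^j`, `0` otherwise;
summable (`summable_prod_of_nonneg`, and for row `0` the sum over `q` is twice the sum over `l`, `q = 2l, 2l+1`).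
PROOF of `fam_small`. The total of `M` for the family `famF e (κ₂ am)` is `2 ∑ e l l^s + κ₂ C_s ∑ am j 2^j (4^j)^s ≤ κ/2 + κ₂ C'_s`, `s ≤ k`: take `κ₂`
small. `Psi_bound`.
PROOF of `Hr_head`: `Psi_split` with `A = ({0} ×ˢ range (2L))`; the sum over `A` is `∑_{l<L}` of the cosine and the sine term (`Finset.sum_range` in
pairs, `Finset.sum_range_succ` induction on `L`).
-/

open MeasureTheory Real Set Filter Topology

set_option autoImplicit false

namespace Pool.Agent.Helper76.EO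

open Pool.Agent.Helper22.AE

/-! ### the bounds -/

private noncomputable def M1 (e : ℕ → ℝ) (s : ℕ) (p : ℕ × ℕ) : ℝ :=
  if p.1 = 0 then e (p.2 / 2) * ((p.2 / 2 : ℕ) : ℝ) ^ s else 0

private noncomputable def M2 (am : ℕ → ℝ) (C : ℝ) (s : ℕ) (p : ℕ × ℕ) : ℝ :=
  if p.2 < 2 ^ p.1 then am p.1 * (C * (4 ^ p.1) ^ s) else 0

private lemma M1_hasSum {e : ℕ → ℝ} {s : ℕ} (hes : Summable (fun l : ℕ => e l * (l : ℝ) ^ s)) :
    HasSum (M1 e s) (2 * ∑' l : ℕ, e l * (l : ℝ) ^ s) := by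
  have hinj : Function.Injective (fun q : ℕ => ((0, q) : ℕ × ℕ)) := fun a b h => (Prod.mk.inj h).2
  rw [← hinj.hasSum_iff]
  · have h1 : HasSum (fun l : ℕ => e l * (l : ℝ) ^ s) (∑' l : ℕ, e l * (l : ℝ) ^ s) := hes.hasSum
    have e1 : (fun k : ℕ => (M1 e s ∘ fun q : ℕ => ((0, q) : ℕ × ℕ)) (2 * k)) = fun l : ℕ => e l * (l : ℝ) ^ s := by
      funext k
      simp only [Function.comp_apply, M1, if_true]
      rw [show 2 * k / 2 = k by omega]
    have e2 : (fun k : ℕ => (M1 e s ∘ fun q : ℕ => ((0, q) : ℕ × ℕ)) (2 * k + 1)) = fun l : ℕ => e l * (l : ℝ) ^ s := by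
      funext k
      simp only [Function.comp_apply, M1, if_true]
      rw [show (2 * k + 1) / 2 = k by omega]
    rw [two_mul]
    refine HasSum.even_add_odd ?_ ?_
    · rw [e1]; exact h1
    · rw [e2]; exact h1
  · rintro ⟨a, b⟩ hab
    unfold M1
    rw [if_neg]
    intro h
    simp only at h
    subst h
    exact hab ⟨b, rfl⟩

private lemma row_hasSum (j : ℕ) (c : ℝ) :
    HasSum (fun i : ℕ => if i < 2 ^ j then c else 0) (2 ^ j * c) := by
  have h : HasSum (fun i : ℕ => if i < 2 ^ j then c else 0)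
      (∑ i ∈ Finset.range (2 ^ j), (if i < 2 ^ j then c else 0)) :=
    hasSum_sum_of_ne_finset_zero (fun b hb => if_neg (by simpa using hb))
  have e : ∑ i ∈ Finset.range (2 ^ j), (if i < 2 ^ j then c else 0) = 2 ^ j * c := by
    rw [Finset.sum_congr rfl fun i hi => if_pos (Finset.mem_range.1 hi), Finset.sum_const, Finset.card_range, nsmul_eq_mul]
    push_cast
    ring
  rw [e] at h
  exact h

private lemma M2_nonneg {am : ℕ → ℝ} (ham : ∀ j, 0 ≤ am j) {C : ℝ} (hC : 0 ≤ C) (s : ℕ) (p : ℕ × ℕ) : 0 ≤ M2 am C s p := by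
  unfold M2
  split_ifs
  · have := ham p.1
    positivity
  · exact le_rfl

private lemma M2_hasSum {am : ℕ → ℝ} (ham : ∀ j, 0 ≤ am j) {C : ℝ} (hC : 0 ≤ C) {s : ℕ}
    (hams : Summable (fun j => am j * 2 ^ j * (4 ^ j) ^ s)) :
    HasSum (M2 am C s) (C * ∑' j, am j * 2 ^ j * (4 ^ j) ^ s) := by
  have hrow : ∀ j, HasSum (fun i => M2 am C s (j, i)) (2 ^ j * (am j * (C * (4 ^ j) ^ s))) := fun j => row_hasSum j _
  have heq : (fun j => ∑' i, M2 am C s (j, i)) = fun j => C * (am j * 2 ^ j * (4 ^ j) ^ s) := by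
    funext j
    rw [(hrow j).tsum_eq]
    ring
  have hsum : Summable (M2 am C s) := by
    rw [summable_prod_of_nonneg (fun p => M2_nonneg ham hC s p)]
    refine ⟨fun j => (hrow j).summable, ?_⟩
    rw [heq]
    exact hams.mul_left C
  have h := hsum.hasSum
  rw [hsum.tsum_prod, heq, tsum_mul_left] at h
  exact h

private lemma M1_nonneg {e : ℕ → ℝ} (he : ∀ l, 0 ≤ e l) (s : ℕ) (p : ℕ × ℕ) : 0 ≤ M1 e s p := by
  unfold M1
  split_ifs
  · have := he (p.2 / 2)
    positivity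
  · exact le_rfl

private lemma fam_bd {e am : ℕ → ℝ} (he : ∀ l, 0 ≤ e l) (ham : ∀ j, 0 ≤ am j) {C : ℝ} (hC0 : 0 ≤ C) {s : ℕ}
    (hC : ∀ (j i : ℕ) (θ : ℝ), |iteratedDeriv s (bmp j i) θ| ≤ C * (4 ^ j) ^ s) (p : ℕ × ℕ) (θ : ℝ) :
    |(famF e am).a p| * |iteratedDeriv s ((famF e am).f p) θ| ≤ M1 e s p + M2 am C s p := by
  obtain ⟨j, q⟩ := p
  by_cases hj : j = 0
  · subst hj
    have h2 : 0 ≤ M2 am C s (0, q) := M2_nonneg ham hC0 s _
    have ha : (famF e am).a (0, q) = e (q / 2) := by simp [famF]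
    have hM : M1 e s (0, q) = e (q / 2) * ((q / 2 : ℕ) : ℝ) ^ s := by simp [M1]
    have hd : |iteratedDeriv s ((famF e am).f (0, q)) θ| ≤ ((q / 2 : ℕ) : ℝ) ^ s := by
      rcases Nat.mod_two_eq_zero_or_one q with hq | hq
      · have hf : (famF e am).f (0, q) = fun θ => cos (((q / 2 : ℕ) : ℝ) * θ) := by
          funext t
          simp [famF, hq]
        rw [hf, iteratedDeriv_comp_const_mul contDiff_cos, abs_mul, abs_pow, Nat.abs_cast]
        exact mul_le_of_le_one_right (by positivity) (abs_iteratedDeriv_cos_le_one s _)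
      · have hf : (famF e am).f (0, q) = fun θ => sin (((q / 2 : ℕ) : ℝ) * θ) := by
          funext t
          simp [famF, hq]
        rw [hf, iteratedDeriv_comp_const_mul contDiff_sin, abs_mul, abs_pow, Nat.abs_cast]
        exact mul_le_of_le_one_right (by positivity) (abs_iteratedDeriv_sin_le_one s _)
    rw [ha, hM, abs_of_nonneg (he _)]
    have := mul_le_mul_of_nonneg_left hd (he (q / 2))
    linarith
  · have h1 : 0 ≤ M1 e s (j, q) := M1_nonneg he s _
    have hf : (famF e am).f (j, q) = bmp j q := by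
      funext t
      simp [famF, hj]
    have hM : M2 am C s (j, q) = if q < 2 ^ j then am j * (C * (4 ^ j) ^ s) else 0 := rfl
    by_cases hq : q < 2 ^ j
    · have ha : (famF e am).a (j, q) = am j := by simp [famF, hj, hq]
      rw [hf, ha, hM, if_pos hq, abs_of_nonneg (ham j)]
      have := mul_le_mul_of_nonneg_left (hC j q θ) (ham j)
      linarith
    · have ha : (famF e am).a (j, q) = 0 := by simp [famF, hj, hq]
      rw [ha, hM, if_neg hq, abs_zero, zero_mul, add_zero]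
      exact h1

theorem famF_good {e am : ℕ → ℝ} (he : ∀ l, 0 < e l ∧ e l ≤ 1) (hes : ∀ s : ℕ, Summable (fun l : ℕ => e l * (l : ℝ) ^ s))
    (ham : ∀ j, 0 < am j ∧ am j ≤ 1) (hams : ∀ s : ℕ, Summable (fun j => am j * 2 ^ j * (4 ^ j) ^ s)) :
    (famF e am).Good where
  smooth := by
    rintro ⟨j, q⟩
    by_cases hj : j = 0
    · subst hj
      rcases Nat.mod_two_eq_zero_or_one q with hq | hq
      · have hf : (famF e am).f (0, q) = fun θ => cos (((q / 2 : ℕ) : ℝ) * θ) := by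
          funext t
          simp [famF, hq]
        rw [hf]
        exact contDiff_cos.comp (contDiff_const.mul contDiff_id)
      · have hf : (famF e am).f (0, q) = fun θ => sin (((q / 2 : ℕ) : ℝ) * θ) := by
          funext t
          simp [famF, hq]
        rw [hf]
        exact contDiff_sin.comp (contDiff_const.mul contDiff_id)
    · have hf : (famF e am).f (j, q) = bmp j q := by
        funext t
        simp [famF, hj]
      rw [hf]
      exact bmp_smooth j q
  per := by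
    rintro ⟨j, q⟩
    by_cases hj : j = 0
    · subst hj
      rcases Nat.mod_two_eq_zero_or_one q with hq | hq
      · have hf : (famF e am).f (0, q) = fun θ => cos (((q / 2 : ℕ) : ℝ) * θ) := by
          funext t
          simp [famF, hq]
        rw [hf]
        intro θ
        show cos (((q / 2 : ℕ) : ℝ) * (θ + 2 * π)) = cos (((q / 2 : ℕ) : ℝ) * θ)
        rw [mul_add, cos_add_nat_mul_two_pi]
      · have hf : (famF e am).f (0, q) = fun θ => sin (((q / 2 : ℕ) : ℝ) * θ) := by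
          funext t
          simp [famF, hq]
        rw [hf]
        intro θ
        show sin (((q / 2 : ℕ) : ℝ) * (θ + 2 * π)) = sin (((q / 2 : ℕ) : ℝ) * θ)
        rw [mul_add, sin_add_nat_mul_two_pi]
    · have hf : (famF e am).f (j, q) = bmp j q := by
        funext t
        simp [famF, hj]
      rw [hf]
      exact bmp_per j q
  summ := by
    intro s
    obtain ⟨C, hC0, hC⟩ := bmp_bound s
    exact ⟨fun p => M1 e s p + M2 am C s p,
      (M1_hasSum (hes s)).summable.add (M2_hasSum (fun j => (ham j).1.le) hC0 (hams s)).summable,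
      fun p θ => fam_bd (fun l => (he l).1.le) (fun j => (ham j).1.le) hC0 hC p θ⟩

theorem famF_wav (e am : ℕ → ℝ) : (famF e am).Wav am := by
  intro j i hj hi
  have hj' : j ≠ 0 := by omega
  refine ⟨?_, ?_⟩
  · funext t
    simp [famF, hj']
  · simp [famF, hj', hi]

theorem fam_small {e am : ℕ → ℝ} (he : ∀ l, 0 < e l ∧ e l ≤ 1) (hes : ∀ s : ℕ, Summable (fun l : ℕ => e l * (l : ℝ) ^ s))
    (ham : ∀ j, 0 < am j ∧ am j ≤ 1) (hams : ∀ s : ℕ, Summable (fun j => am j * 2 ^ j * (4 ^ j) ^ s)) (k : ℕ) {κ : ℝ}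
    (hκ : 0 < κ) (hek : ∀ s ≤ k, ∑' l : ℕ, e l * (l : ℝ) ^ s ≤ κ / 4) :
    ∃ κ₂ : ℝ, 0 < κ₂ ∧ κ₂ ≤ 1 ∧ ∀ ω, ∀ s ≤ k, ∀ θ, |iteratedDeriv s (Psi (famF e (fun j => κ₂ * am j)) ω) θ| ≤ κ := by
  choose C hC0 hC using bmp_bound
  set T : ℕ → ℝ := fun s => C s * ∑' j, am j * 2 ^ j * (4 ^ j) ^ s with hT
  have hT0 : ∀ s, 0 ≤ T s := by
    intro s
    refine mul_nonneg (hC0 s) (tsum_nonneg fun j => ?_)
    have := (ham j).1
    positivity
  set D : ℝ := ∑ s ∈ Finset.range (k + 1), T s with hD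
  have hD0 : 0 ≤ D := Finset.sum_nonneg fun s _ => hT0 s
  have hTD : ∀ s ≤ k, T s ≤ D := fun s hs =>
    Finset.single_le_sum (f := T) (fun s _ => hT0 s) (Finset.mem_range.2 (Nat.lt_succ_of_le hs))
  set κ₂ : ℝ := min 1 (κ / (2 * (D + 1))) with hκ₂
  have hpos : 0 < κ₂ := lt_min one_pos (by positivity)
  have hle1 : κ₂ ≤ 1 := min_le_left _ _
  refine ⟨κ₂, hpos, hle1, fun ω s hs θ => ?_⟩
  have ham2 : ∀ j, 0 < κ₂ * am j ∧ κ₂ * am j ≤ 1 := fun j =>
    ⟨mul_pos hpos (ham j).1, mul_le_one₀ hle1 (ham j).1.le (ham j).2⟩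
  have hfun : ∀ s : ℕ, (fun j => κ₂ * am j * 2 ^ j * (4 ^ j) ^ s) = fun j => κ₂ * (am j * 2 ^ j * (4 ^ j) ^ s) := by
    intro s
    funext j
    ring
  have hams2 : ∀ s : ℕ, Summable (fun j => κ₂ * am j * 2 ^ j * (4 ^ j) ^ s) := by
    intro s
    rw [hfun s]
    exact (hams s).mul_left κ₂
  have hgood : (famF e (fun j => κ₂ * am j)).Good := famF_good he hes ham2 hams2
  have hM1 := M1_hasSum (hes s)
  have hM2 := M2_hasSum (fun j => (ham2 j).1.le) (hC0 s) (hams2 s)
  have hb := Psi_bound hgood (s := s) (hM1.summable.add hM2.summable)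
    (fun p θ => fam_bd (fun l => (he l).1.le) (fun j => (ham2 j).1.le) (hC0 s) (hC s) p θ) ω θ
  refine hb.trans ?_
  rw [(hM1.add hM2).tsum_eq, hfun s, tsum_mul_left]
  have h1 := hek s hs
  have h2 : C s * (κ₂ * ∑' j, am j * 2 ^ j * (4 ^ j) ^ s) ≤ κ / 2 := by
    have h3 : C s * (κ₂ * ∑' j, am j * 2 ^ j * (4 ^ j) ^ s) = κ₂ * T s := by
      rw [hT]
      ring
    rw [h3]
    calc κ₂ * T s ≤ (κ / (2 * (D + 1))) * (D + 1) :=
          mul_le_mul (min_le_right _ _) ((hTD s hs).trans (by linarith)) (hT0 s) (by positivity)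
      _ = κ / 2 := by
          field_simp
  linarith

theorem Hr_head {e am : ℕ → ℝ} (hF : (famF e am).Good) (H₀ : ℝ → ℝ) (L : ℕ) (u ω : Sp) :
    Hr (famF e am) H₀ ((({0} : Finset ℕ) ×ˢ Finset.range (2 * L)).piecewise u ω) =
      Hw (Hr (famF e am) H₀ ((({0} : Finset ℕ) ×ˢ Finset.range (2 * L)).piecewise 0 ω)) (wv e L u) := by
  funext θ
  unfold Hr Hw
  rw [Psi_split hF, ← add_assoc]
  congr 1
  rw [Finset.sum_product, Finset.sum_singleton]
  have key : ∀ L : ℕ, ∑ y ∈ Finset.range (2 * L), (famF e am).a (0, y) * clip (u (0, y)) * (famF e am).f (0, y) θ =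
      ∑ l ∈ Finset.range L, (e l * clip (u (0, 2 * l)) * cos ((l : ℕ) * θ) +
        e l * clip (u (0, 2 * l + 1)) * sin ((l : ℕ) * θ)) := by
    intro L
    induction L with
    | zero => simp
    | succ L ih =>
      rw [show 2 * (L + 1) = 2 * L + 1 + 1 by ring, Finset.sum_range_succ, Finset.sum_range_succ, ih,
        Finset.sum_range_succ, add_assoc]
      congr 1
      have a1 : (famF e am).a (0, 2 * L) = e L := by simp [famF]
      have a2 : (famF e am).a (0, 2 * L + 1) = e L := by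
        simp only [famF, if_true]
        rw [show (2 * L + 1) / 2 = L by omega]
      have f1 : (famF e am).f (0, 2 * L) θ = cos ((L : ℕ) * θ) := by simp [famF]
      have f2 : (famF e am).f (0, 2 * L + 1) θ = sin ((L : ℕ) * θ) := by
        simp only [famF, if_true]
        rw [if_neg (by omega), show (2 * L + 1) / 2 = L by omega]
      rw [a1, a2, f1, f2]
  rw [key L, Finset.sum_range]
  rfl

end Pool.Agent.Helper76.EO
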