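import Pool.Agent.Helper76.EO.S3
import Pool.Agent.Helper22.AE.E0

/-!
# EO-F2: the law of the first coefficients against the Gaussian measure

PROOF. For measurable `E`: the coordinates `u (0, q)`, `q < 2L`, are independent with law `mu` (`infinitePi_map_restrict` or `infinitePi_map_eval` and
independence), `clip u = u` a.s., so the law of `wv e L u` is the product of the uniform laws on `[-e l, e l]`, of density
`∏ (2 e l)^(-2)` on the box `B` (with respect to `volume`). On the box the Gaussian density `gd w = exp (-π (∑ w.1² + ∑ w.2²)) ≥ exp (-2πL)` (`e l ≤ 1`).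
So `P ≤ ∏ (2 e l)^(-2) volume (E ∩ B) ≤ ∏ (2 e l)^(-2) exp (2πL) gm E`. For general `E` use `toMeasurable (gm L) E`.
(A convenient way: the map `[-1,1]^(2L) → box` is linear with determinant `∏ e l ^2`; or prove `Measure.map (wv e L) PP ≤ c • gm L` with
`Measure.pi`/`Measure.prod` and `Measure.pi_eq` on rectangles through `withDensity`; a generic inequality of measures on rectangles is NOT enough, use
densities: `mu.map (e * ·) = (2e)⁻¹ • volume.restrict [-e, e]`, product of such measures `= (∏ (2e)⁻¹) • volume.restrict box`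
(`Measure.pi` of `restrict` is `Measure.restrict_pi_pi`).)
-/

open MeasureTheory Real Set Filter Topology

set_option autoImplicit false

namespace Pool.Agent.Helper76.EO

open Pool.Agent.Helper22.AE

private lemma h74_clip_meas : Measurable clip := by
  unfold clip
  fun_prop

private lemma h74_mu {a : ℝ} (ha : 0 < a) {s : Set ℝ} (hs : MeasurableSet s) :
    (2 * ENNReal.ofReal a) * mu ((fun x => a * clip x) ⁻¹' s) = volume (s ∩ Icc (-a) a) := by
  have hφ : Measurable (fun x => a * clip x) := h74_clip_meas.const_mul a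
  have h1 : (fun x => a * clip x) ⁻¹' s ∩ Icc (-1) 1 = (fun x => a * x) ⁻¹' (s ∩ Icc (-a) a) := by
    ext x
    simp only [mem_inter_iff, mem_preimage, mem_Icc]
    constructor
    · rintro ⟨h, h2, h3⟩
      have hc : clip x = x := by
        unfold clip
        rw [min_eq_right h3, max_eq_right h2]
      rw [hc] at h
      exact ⟨h, by nlinarith, by nlinarith⟩
    · rintro ⟨h, h2, h3⟩
      have h4 : -1 ≤ x := by
        by_contra hcon
        nlinarith [not_le.1 hcon]
      have h5 : x ≤ 1 := by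
        by_contra hcon
        nlinarith [not_le.1 hcon]
      have hc : clip x = x := by
        unfold clip
        rw [min_eq_right h5, max_eq_right h4]
      rw [hc]
      exact ⟨h, h4, h5⟩
  unfold mu
  rw [Measure.smul_apply, Measure.restrict_apply (hφ hs), h1, Real.volume_preimage_mul_left ha.ne', smul_eq_mul,
    abs_of_pos (inv_pos.2 ha)]
  have h2 : (2 : ENNReal) * 2⁻¹ = 1 := ENNReal.mul_inv_cancel (by norm_num) (by norm_num)
  have h3 : ENNReal.ofReal a * ENNReal.ofReal a⁻¹ = 1 := by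
    rw [← ENNReal.ofReal_mul ha.le, mul_inv_cancel₀ ha.ne', ENNReal.ofReal_one]
  calc 2 * ENNReal.ofReal a * (2⁻¹ * (ENNReal.ofReal a⁻¹ * volume (s ∩ Icc (-a) a))) =
      (2 * 2⁻¹) * (ENNReal.ofReal a * ENNReal.ofReal a⁻¹) * volume (s ∩ Icc (-a) a) := by ring
    _ = volume (s ∩ Icc (-a) a) := by rw [h2, h3, one_mul, one_mul]

/-- the coordinates -/
private def h74_j (L : ℕ) : Fin L ⊕ Fin L → ℕ × ℕ := Sum.elim (fun l => (0, 2 * (l : ℕ))) (fun l => (0, 2 * (l : ℕ) + 1))

private lemma h74_j_inj (L : ℕ) : Function.Injective (h74_j L) := by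
  rintro (x | x) (y | y) h
  · have := (Prod.mk.inj h).2
    congr 1
    exact Fin.ext (by omega)
  · have := (Prod.mk.inj h).2
    omega
  · have := (Prod.mk.inj h).2
    omega
  · have := (Prod.mk.inj h).2
    congr 1
    exact Fin.ext (by omega)

private def h74_a (e : ℕ → ℝ) (L : ℕ) : Fin L ⊕ Fin L → ℝ := Sum.elim (fun l => e l) (fun l => e l)

private noncomputable def h74_G (e : ℕ → ℝ) (L : ℕ) (u : Sp) : Fin L ⊕ Fin L → ℝ :=
  fun i => h74_a e L i * clip (u (h74_j L i))

private lemma h74_G_meas (e : ℕ → ℝ) (L : ℕ) : Measurable (h74_G e L) := by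
  refine measurable_pi_iff.2 fun i => ?_
  exact (h74_clip_meas.comp (measurable_pi_apply _)).const_mul _

private lemma h74_rect (e : ℕ → ℝ) (L : ℕ) (s : Fin L ⊕ Fin L → Set ℝ) (hs : ∀ i, MeasurableSet (s i)) :
    PP (h74_G e L ⁻¹' (Set.pi univ s)) = ∏ i, mu ((fun x => h74_a e L i * clip x) ⁻¹' s i) := by
  classical
  have hext : ∀ i, Function.extend (h74_j L) (fun i => (fun x => h74_a e L i * clip x) ⁻¹' s i) (fun _ => univ)
      (h74_j L i) = (fun x => h74_a e L i * clip x) ⁻¹' s i := fun i =>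
    (h74_j_inj L).extend_apply _ _ i
  have h1 : h74_G e L ⁻¹' (Set.pi univ s) =
      Set.pi ((Finset.univ : Finset (Fin L ⊕ Fin L)).map ⟨h74_j L, h74_j_inj L⟩ : Finset (ℕ × ℕ))
        (Function.extend (h74_j L) (fun i => (fun x => h74_a e L i * clip x) ⁻¹' s i) (fun _ => univ)) := by
    ext u
    simp only [mem_preimage, Set.mem_pi, mem_univ, true_implies, Finset.coe_map, Function.Embedding.coeFn_mk,
      Finset.coe_univ, image_univ, mem_range, forall_exists_index, forall_apply_eq_imp_iff, hext]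
    rfl
  rw [h1]
  unfold PP
  rw [Measure.infinitePi_pi, Finset.prod_map]
  · refine Finset.prod_congr rfl fun i _ => ?_
    show mu (Function.extend (h74_j L) _ _ (h74_j L i)) = _
    rw [hext]
  · intro p hp
    rw [Finset.mem_map] at hp
    obtain ⟨i, -, rfl⟩ := hp
    show MeasurableSet (Function.extend (h74_j L) _ _ (h74_j L i))
    rw [hext]
    exact (h74_clip_meas.const_mul _) (hs i)

private lemma h74_law (e : ℕ → ℝ) (he : ∀ l, 0 < e l ∧ e l ≤ 1) (L : ℕ) :
    (∏ i, (2 * ENNReal.ofReal (h74_a e L i))) • PP.map (h74_G e L) =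
      (volume : Measure (Fin L ⊕ Fin L → ℝ)).restrict (Set.pi univ fun i => Icc (-h74_a e L i) (h74_a e L i)) := by
  rw [volume_pi, Measure.restrict_pi_pi]
  symm
  refine Measure.pi_eq fun s hs => ?_
  rw [Measure.smul_apply, Measure.map_apply (h74_G_meas e L) (MeasurableSet.univ_pi hs), h74_rect e L s hs,
    smul_eq_mul, ← Finset.prod_mul_distrib]
  refine Finset.prod_congr rfl fun i _ => ?_
  rw [h74_mu _ (hs i), Measure.restrict_apply (hs i)]
  rcases i with l | l
  · exact (he l).1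
  · exact (he l).1

private lemma h74_box (e : ℕ → ℝ) (he : ∀ l, 0 < e l ∧ e l ≤ 1) (L : ℕ) (x : Fin L ⊕ Fin L → ℝ)
    (hx : x ∈ Set.pi univ fun i => Icc (-h74_a e L i) (h74_a e L i)) :
    1 ≤ ENNReal.ofReal (exp (2 * π * L)) *
      ENNReal.ofReal (gd (MeasurableEquiv.sumPiEquivProdPi (fun _ : Fin L ⊕ Fin L => ℝ) x)) := by
  rw [← ENNReal.ofReal_mul (exp_pos _).le, ← ENNReal.ofReal_one]
  apply ENNReal.ofReal_le_ofReal
  have h1 : ∀ i, x i ^ 2 ≤ 1 := by
    intro i
    have h2 := hx i (mem_univ i)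
    have h3 : h74_a e L i ≤ 1 ∧ 0 < h74_a e L i := by
      rcases i with l | l
      · exact ⟨(he l).2, (he l).1⟩
      · exact ⟨(he l).2, (he l).1⟩
    have h4 := h2.1
    have h5 := h2.2
    nlinarith
  have h2 : ∑ l : Fin L, x (Sum.inl l) ^ 2 ≤ L := by
    calc ∑ l : Fin L, x (Sum.inl l) ^ 2 ≤ ∑ l : Fin L, (1 : ℝ) := Finset.sum_le_sum fun l _ => h1 _
      _ = L := by simp
  have h3 : ∑ l : Fin L, x (Sum.inr l) ^ 2 ≤ L := by
    calc ∑ l : Fin L, x (Sum.inr l) ^ 2 ≤ ∑ l : Fin L, (1 : ℝ) := Finset.sum_le_sum fun l _ => h1 _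
      _ = L := by simp
  have h4 : gd (MeasurableEquiv.sumPiEquivProdPi (fun _ : Fin L ⊕ Fin L => ℝ) x) =
      exp (-π * (∑ l : Fin L, x (Sum.inl l) ^ 2 + ∑ l : Fin L, x (Sum.inr l) ^ 2)) := rfl
  rw [h4, ← Real.exp_add]
  apply Real.one_le_exp
  have := pi_pos
  nlinarith

theorem density {e : ℕ → ℝ} (he : ∀ l, 0 < e l ∧ e l ≤ 1) (L : ℕ) : ∃ C : ℝ, 0 ≤ C ∧
    ∀ E : Set ((Fin L → ℝ) × (Fin L → ℝ)), PP.real {u : Sp | wv e L u ∈ E} ≤ C * (gm L).real E := by
  set D : ENNReal := ∏ i, (2 * ENNReal.ofReal (h74_a e L i)) with hD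
  have ha : ∀ i, 0 < h74_a e L i := by
    rintro (l | l)
    · exact (he l).1
    · exact (he l).1
  have hD0 : D ≠ 0 := by
    rw [hD, Finset.prod_ne_zero_iff]
    intro i _
    have := ENNReal.ofReal_pos.2 (ha i)
    exact mul_ne_zero (by norm_num) this.ne'
  have hDt : D ≠ ⊤ := by
    rw [hD]
    exact ENNReal.prod_ne_top fun i _ => ENNReal.mul_ne_top (by norm_num) ENNReal.ofReal_ne_top
  have hK : D⁻¹ * ENNReal.ofReal (exp (2 * π * L)) ≠ ⊤ :=
    ENNReal.mul_ne_top (ENNReal.inv_ne_top.2 hD0) ENNReal.ofReal_ne_top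
  refine ⟨(D⁻¹ * ENNReal.ofReal (exp (2 * π * L))).toReal, ENNReal.toReal_nonneg, fun E => ?_⟩
  set T := MeasurableEquiv.sumPiEquivProdPi (fun _ : Fin L ⊕ Fin L => ℝ) with hT
  have key : PP {u : Sp | wv e L u ∈ E} ≤ D⁻¹ * ENNReal.ofReal (exp (2 * π * L)) * gm L E := by
    set E' := toMeasurable (gm L) E with hE'
    have hE'm : MeasurableSet E' := measurableSet_toMeasurable _ _
    have hT' : MeasurableSet (T ⁻¹' E') := T.measurable hE'm
    have h1 : PP {u : Sp | wv e L u ∈ E} ≤ (PP.map (h74_G e L)) (T ⁻¹' E') := by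
      rw [Measure.map_apply (h74_G_meas e L) hT']
      refine measure_mono fun u hu => ?_
      show T (h74_G e L u) ∈ E'
      exact subset_toMeasurable (gm L) E hu
    have h2 : D * (PP.map (h74_G e L)) (T ⁻¹' E') =
        volume (T ⁻¹' E' ∩ Set.pi univ fun i => Icc (-h74_a e L i) (h74_a e L i)) := by
      rw [← Measure.restrict_apply hT', ← h74_law e he L, Measure.smul_apply, smul_eq_mul]
    have hgm : Measurable (fun w : (Fin L → ℝ) × (Fin L → ℝ) => ENNReal.ofReal (gd w)) := by
      have h : Continuous (fun w : (Fin L → ℝ) × (Fin L → ℝ) => gd w) := by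
        unfold gd
        fun_prop
      exact h.measurable.ennreal_ofReal
    have h3 : volume (T ⁻¹' E' ∩ Set.pi univ fun i => Icc (-h74_a e L i) (h74_a e L i)) ≤
        ENNReal.ofReal (exp (2 * π * L)) * gm L E' := by
      calc volume (T ⁻¹' E' ∩ Set.pi univ fun i => Icc (-h74_a e L i) (h74_a e L i))
          = ∫⁻ x in (T ⁻¹' E' ∩ Set.pi univ fun i => Icc (-h74_a e L i) (h74_a e L i)), 1 := by
            rw [setLIntegral_one]
        _ ≤ ∫⁻ x in (T ⁻¹' E' ∩ Set.pi univ fun i => Icc (-h74_a e L i) (h74_a e L i)),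
            ENNReal.ofReal (exp (2 * π * L)) * ENNReal.ofReal (gd (T x)) := by
            refine setLIntegral_mono ((hgm.comp T.measurable).const_mul _) fun x hx => ?_
            exact h74_box e he L x hx.2
        _ ≤ ∫⁻ x in T ⁻¹' E', ENNReal.ofReal (exp (2 * π * L)) * ENNReal.ofReal (gd (T x)) :=
            lintegral_mono_set inter_subset_left
        _ = ENNReal.ofReal (exp (2 * π * L)) * ∫⁻ x in T ⁻¹' E', ENNReal.ofReal (gd (T x)) :=
            lintegral_const_mul _ (hgm.comp T.measurable)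
        _ = ENNReal.ofReal (exp (2 * π * L)) * ∫⁻ w in E', ENNReal.ofReal (gd w) := by
            rw [(volume_measurePreserving_sumPiEquivProdPi (fun _ : Fin L ⊕ Fin L => ℝ)).setLIntegral_comp_preimage
              hE'm hgm]
        _ = ENNReal.ofReal (exp (2 * π * L)) * gm L E' := by
            unfold gm
            rw [withDensity_apply _ hE'm]
    have h4 : (PP.map (h74_G e L)) (T ⁻¹' E') = D⁻¹ * (D * (PP.map (h74_G e L)) (T ⁻¹' E')) := by
      rw [← mul_assoc, ENNReal.inv_mul_cancel hD0 hDt, one_mul]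
    calc PP {u : Sp | wv e L u ∈ E} ≤ (PP.map (h74_G e L)) (T ⁻¹' E') := h1
      _ = D⁻¹ * (D * (PP.map (h74_G e L)) (T ⁻¹' E')) := h4
      _ ≤ D⁻¹ * (ENNReal.ofReal (exp (2 * π * L)) * gm L E') := by
          rw [h2]
          exact mul_le_mul_right h3 _
      _ = D⁻¹ * ENNReal.ofReal (exp (2 * π * L)) * gm L E := by
          rw [hE', measure_toMeasurable, ← mul_assoc]
  unfold Measure.real
  rw [← ENNReal.toReal_mul]
  exact ENNReal.toReal_mono (ENNReal.mul_ne_top hK (measure_ne_top _ _)) key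

end Pool.Agent.Helper76.EO
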