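import Pool.Agent.Helper76.EO.S2
import Pool.Agent.Helper22.AE.C3
import Pool.Agent.Helper22.AE.G6

/-!
# EO-F3: continuity of the block sums in the sample; the bad events are open

PROOF. `Vt` is a finite sum of parametric integrals over `[-π, π]` of
`cos α · rho (R Hr ω + s) (tk k + α) · ee(-(nk k gph (R Hr ω + s) k α))`, jointly continuous in `(ω, α)`: `rho_affine`, `gph_affine`, and
`Psi_cont` for `s = 0, 1, 2` (`iteratedDeriv 1 = deriv`, `iteratedDeriv 2 = deriv (deriv ·)`; `deriv (Hr ω) = deriv H₀ + deriv (Psi ω)`).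
`intervalIntegral.continuous_parametric_intervalIntegral_of_continuous'`. `bad_open`: union of open sets.
-/

open MeasureTheory Real Set Filter Topology

set_option autoImplicit false

namespace Pool.Agent.Helper76.EO

open Pool.Agent.Helper22.AE

private lemma f3_cd {H : ℝ → ℝ} (h : ContDiff ℝ 2 H) : ContDiff ℝ 1 (deriv H) :=
  ((contDiff_succ_iff_deriv (n := 1)).1 (by simpa [one_add_one_eq_two] using h)).2.2

private lemma f3_Psi2 {F : Fam} (hF : F.Good) (ω : Sp) : ContDiff ℝ 2 (Psi F ω) :=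
  contDiff_infty.1 (Psi_smooth hF ω) 2

private lemma f3_Hr2 {F : Fam} (hF : F.Good) {H₀ : ℝ → ℝ} (h0 : ContDiff ℝ 2 H₀) (ω : Sp) : ContDiff ℝ 2 (Hr F H₀ ω) := by
  unfold Hr
  exact h0.add (f3_Psi2 hF ω)

private lemma f3_d1 {F : Fam} (hF : F.Good) {H₀ : ℝ → ℝ} (h0 : ContDiff ℝ 2 H₀) (ω : Sp) :
    deriv (Hr F H₀ ω) = fun θ => deriv H₀ θ + deriv (Psi F ω) θ := by
  funext θ
  unfold Hr
  exact deriv_fun_add ((h0.differentiable (by norm_num)) θ) (((f3_Psi2 hF ω).differentiable (by norm_num)) θ)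

private lemma f3_d2 {F : Fam} (hF : F.Good) {H₀ : ℝ → ℝ} (h0 : ContDiff ℝ 2 H₀) (ω : Sp) (θ : ℝ) :
    deriv (deriv (Hr F H₀ ω)) θ = deriv (deriv H₀) θ + deriv (deriv (Psi F ω)) θ := by
  rw [f3_d1 hF h0]
  exact deriv_fun_add (((f3_cd h0).differentiable (by norm_num)) θ)
    (((f3_cd (f3_Psi2 hF ω)).differentiable (by norm_num)) θ)

private lemma f3_c0 {F : Fam} (hF : F.Good) : Continuous (fun q : Sp × ℝ => Psi F q.1 q.2) := by
  simpa using Psi_cont hF 0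

private lemma f3_c1 {F : Fam} (hF : F.Good) : Continuous (fun q : Sp × ℝ => deriv (Psi F q.1) q.2) := by
  simpa using Psi_cont hF 1

private lemma f3_c2 {F : Fam} (hF : F.Good) : Continuous (fun q : Sp × ℝ => deriv (deriv (Psi F q.1)) q.2) := by
  simpa [iteratedDeriv_succ] using Psi_cont hF 2

private lemma f3_rho {F : Fam} (hF : F.Good) {H₀ : ℝ → ℝ} (h0 : ContDiff ℝ 2 H₀) (t : ℝ) :
    Continuous (fun q : Sp × ℝ => rho (Hr F H₀ q.1) (t + q.2)) := by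
  have h2 : Continuous (deriv (deriv H₀)) := (f3_cd h0).continuous_deriv (le_refl _)
  have hm : Continuous (fun q : Sp × ℝ => (q.1, t + q.2)) := by fun_prop
  have e : (fun q : Sp × ℝ => rho (Hr F H₀ q.1) (t + q.2)) = fun q : Sp × ℝ =>
      (H₀ (t + q.2) + Psi F q.1 (t + q.2)) + (deriv (deriv H₀) (t + q.2) + deriv (deriv (Psi F q.1)) (t + q.2)) := by
    funext q
    unfold rho
    rw [f3_d2 hF h0]
    rfl
  rw [e]
  exact ((h0.continuous.comp (by fun_prop)).add ((f3_c0 hF).comp hm)).add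
    ((h2.comp (by fun_prop)).add ((f3_c2 hF).comp hm))

private lemma f3_gph {F : Fam} (hF : F.Good) {H₀ : ℝ → ℝ} (h0 : ContDiff ℝ 2 H₀) (k : ℤ × ℤ) :
    Continuous (fun q : Sp × ℝ => gph (Hr F H₀ q.1) k q.2) := by
  have h1 : Continuous (deriv H₀) := (f3_cd h0).continuous
  have hm : Continuous (fun q : Sp × ℝ => (q.1, tk k + q.2)) := by fun_prop
  have e : (fun q : Sp × ℝ => gph (Hr F H₀ q.1) k q.2) = fun q : Sp × ℝ =>
      (H₀ (tk k + q.2) + Psi F q.1 (tk k + q.2)) * cos q.2 -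
        (deriv H₀ (tk k + q.2) + deriv (Psi F q.1) (tk k + q.2)) * sin q.2 := by
    funext q
    unfold gph
    rw [f3_d1 hF h0]
    rfl
  rw [e]
  exact (((h0.continuous.comp (by fun_prop)).add ((f3_c0 hF).comp hm)).mul (by fun_prop)).sub
    (((h1.comp (by fun_prop)).add ((f3_c1 hF).comp hm)).mul (by fun_prop))

theorem Vt_cont {F : Fam} (hF : F.Good) {H₀ : ℝ → ℝ} (h0 : ContDiff ℝ 2 H₀) (φ : ℝ × ℝ → ℝ) (δ s R : ℝ) (n : ℕ) :
    Continuous (fun ω : Sp => Vt φ (fun θ => R * Hr F H₀ ω θ + s) δ n) := by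
  unfold Vt
  refine continuous_finsetSum _ fun k _ => ?_
  refine Continuous.mul (Continuous.mul continuous_const ?_) continuous_const
  refine intervalIntegral.continuous_parametric_intervalIntegral_of_continuous' ?_ _ _
  have e : (Function.uncurry fun (ω : Sp) (α : ℝ) =>
      ((cos α * rho (fun θ => R * Hr F H₀ ω θ + s) (tk k + α) : ℝ) : ℂ) *
        ee (-(nk k * gph (fun θ => R * Hr F H₀ ω θ + s) k α))) = fun q : Sp × ℝ =>
      ((cos q.2 * (R * rho (Hr F H₀ q.1) (tk k + q.2) + s) : ℝ) : ℂ) *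
        ee (-(nk k * (R * gph (Hr F H₀ q.1) k q.2 + s * cos q.2))) := by
    funext q
    rw [Function.uncurry_def]
    simp only
    rw [rho_affine (f3_Hr2 hF h0 q.1), gph_affine (f3_Hr2 hF h0 q.1)]
  rw [e]
  refine Continuous.mul ?_ ?_
  · refine Complex.continuous_ofReal.comp ?_
    exact (by fun_prop : Continuous (fun q : Sp × ℝ => cos q.2)).mul
      ((continuous_const.mul (f3_rho hF h0 (tk k))).add continuous_const)
  · refine ee_cont.comp ?_
    refine Continuous.neg ?_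
    refine continuous_const.mul ?_
    exact (continuous_const.mul (f3_gph hF h0 k)).add (by fun_prop)

/-- the event that some block in the set `I` of blocks is larger than `X` -/
def badE (F : Fam) (H₀ : ℝ → ℝ) (φ : ℝ × ℝ → ℝ) (N : ℕ) (I : Set ℕ) (X : ℝ) : Set Sp :=
  {ω | ∃ n ∈ I, ∃ σ : ℝ, (σ = 1 ∨ σ = -1) ∧ ∃ R ∈ Icc ((2 : ℝ) ^ N) (2 * 2 ^ N),
    X < ‖Vt φ (fun θ => R * Hr F H₀ ω θ + σ * ((2 : ℝ) ^ N) ^ (-(1 / 2) : ℝ)) (((2 : ℝ) ^ N) ^ (-(1 / 2) : ℝ)) n‖}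

theorem bad_open {F : Fam} (hF : F.Good) {H₀ : ℝ → ℝ} (h0 : ContDiff ℝ 2 H₀) (φ : ℝ × ℝ → ℝ) (N : ℕ) (I : Set ℕ) (X : ℝ) :
    IsOpen (badE F H₀ φ N I X) := by
  have e : badE F H₀ φ N I X = ⋃ n ∈ I, ⋃ σ ∈ {σ : ℝ | σ = 1 ∨ σ = -1}, ⋃ R ∈ Icc ((2 : ℝ) ^ N) (2 * 2 ^ N),
      {ω | X < ‖Vt φ (fun θ => R * Hr F H₀ ω θ + σ * ((2 : ℝ) ^ N) ^ (-(1 / 2) : ℝ)) (((2 : ℝ) ^ N) ^ (-(1 / 2) : ℝ)) n‖} := by
    ext ω
    simp only [badE, mem_iUnion, mem_ofPred_eq, exists_prop]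
  rw [e]
  refine isOpen_biUnion fun n _ => isOpen_biUnion fun σ _ => isOpen_biUnion fun R _ => ?_
  exact isOpen_lt continuous_const (Vt_cont hF h0 φ _ _ R n).norm

end Pool.Agent.Helper76.EO
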