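import Pool.Agent.Helper76.EO.Base
import Pool.Agent.Helper22.AE.C4

/-!
# EO-L9a: supremum over a short interval of radii, with constants uniform in `H₀`

PROOF. The proof of `sobolev_b` (Helper22/AE/C4) with the constant `C₀ = 2 * max B 1` (`|H₀|, |H₀'| ≤ B`, so `|gph H₀ k α| ≤ 2B ≤ C₀`, `C₀ > 0`) in
place of the constant of `gph_bdd`. Private lemmas of C4 have to be copied (rename them).
-/

open MeasureTheory Real Set Filter Topology

set_option autoImplicit false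

namespace Pool.Agent.Helper76.EO

open Pool.Agent.Helper22.AE

open Classical in
/-- the list of weights -/
private noncomputable def wB {L : ℕ} (H₀ : ℝ → ℝ) (C₀ : ℝ) (n : ℕ) (b : ℝ → ℤ × ℤ → ℂ) :
    Option (Option (Fin L ⊕ Fin L)) → ℝ → ℤ × ℤ → ℂ
  | none => b
  | some none => fun α k => if k ∈ blk n then
      b α k * ((nk k / 2 ^ (n + 1) * (gph H₀ k α / C₀) : ℝ) : ℂ) else 0
  | some (some (Sum.inl l)) => fun α k => if k ∈ blk n then
      b α k * ((nk k / 2 ^ (n + 1) * ((cl l α * zk k ^ (l : ℕ)).re / (1 + (l : ℕ))) : ℝ) : ℂ) else 0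
  | some (some (Sum.inr l)) => fun α k => if k ∈ blk n then
      b α k * ((nk k / 2 ^ (n + 1) * ((cl l α * zk k ^ (l : ℕ)).im / (1 + (l : ℕ))) : ℝ) : ℂ) else 0

private theorem blk_nk {n : ℕ} {k : ℤ × ℤ} (hk : k ∈ blk n) : |nk k / 2 ^ (n + 1)| ≤ 1 := by
  classical
  unfold blk at hk
  rw [Finset.mem_filter] at hk
  have h0 : 0 ≤ nk k := norm_nonneg _
  rw [abs_of_nonneg (by positivity), div_le_one (by positivity)]
  exact hk.2.2.le

private theorem gph_cont {H₀ : ℝ → ℝ} (h0 : ContDiff ℝ 2 H₀) (k : ℤ × ℤ) : Continuous (fun α => gph H₀ k α) :=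
  continuous_iff_continuousAt.2 fun α => (gph_hasDerivAt h0 k α).continuousAt

private theorem clz_cont (l : ℕ) (k : ℤ × ℤ) : Continuous (fun α => cl l α * zk k ^ l) := by
  unfold cl
  fun_prop

private theorem clz_norm (l : ℕ) (k : ℤ × ℤ) (α : ℝ) : ‖cl l α * zk k ^ l‖ ≤ 1 + l := by
  rw [norm_mul, norm_pow, zk_norm, one_pow, mul_one]
  exact cl_norm_le l α

private theorem wB_cont {L : ℕ} {H₀ : ℝ → ℝ} (h0 : ContDiff ℝ 2 H₀) (C₀ : ℝ) (n : ℕ) (b : ℝ → ℤ × ℤ → ℂ)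
    (hb : ∀ k, Continuous (fun α => b α k)) (i : Option (Option (Fin L ⊕ Fin L))) (k : ℤ × ℤ) :
    Continuous (fun α => wB H₀ C₀ n b i α k) := by
  rcases i with _ | _ | l | l
  · exact hb k
  · by_cases hk : k ∈ blk n
    · simp only [wB, if_pos hk]
      have h1 := gph_cont h0 k
      exact (hb k).mul (Complex.continuous_ofReal.comp (continuous_const.mul (h1.div_const _)))
    · simp only [wB, if_neg hk]
      exact continuous_const
  · by_cases hk : k ∈ blk n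
    · simp only [wB, if_pos hk]
      have h1 := Complex.continuous_re.comp (clz_cont l k)
      exact (hb k).mul (Complex.continuous_ofReal.comp (continuous_const.mul (h1.div_const _)))
    · simp only [wB, if_neg hk]
      exact continuous_const
  · by_cases hk : k ∈ blk n
    · simp only [wB, if_pos hk]
      have h1 := Complex.continuous_im.comp (clz_cont l k)
      exact (hb k).mul (Complex.continuous_ofReal.comp (continuous_const.mul (h1.div_const _)))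
    · simp only [wB, if_neg hk]
      exact continuous_const

private theorem wB_norm {L : ℕ} {H₀ : ℝ → ℝ} {C₀ : ℝ} (hC₀ : 0 < C₀) (hg : ∀ k α, |gph H₀ k α| ≤ C₀) (n : ℕ)
    (b : ℝ → ℤ × ℤ → ℂ) (hb : ∀ α k, ‖b α k‖ ≤ 1) (i : Option (Option (Fin L ⊕ Fin L))) (α : ℝ) (k : ℤ × ℤ) :
    ‖wB H₀ C₀ n b i α k‖ ≤ 1 := by
  have key : ∀ x : ℝ, |x| ≤ 1 → k ∈ blk n → ‖b α k * ((nk k / 2 ^ (n + 1) * x : ℝ) : ℂ)‖ ≤ 1 := by
    intro x hx hk
    rw [norm_mul, Complex.norm_real, Real.norm_eq_abs, abs_mul]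
    have h1 := blk_nk hk
    have h2 : |nk k / 2 ^ (n + 1)| * |x| ≤ 1 * 1 := mul_le_mul h1 hx (abs_nonneg _) zero_le_one
    calc ‖b α k‖ * (|nk k / 2 ^ (n + 1)| * |x|) ≤ 1 * (1 * 1) :=
          mul_le_mul (hb α k) h2 (by positivity) zero_le_one
      _ = 1 := by norm_num
  rcases i with _ | _ | l | l
  · exact hb α k
  · by_cases hk : k ∈ blk n
    · simp only [wB, if_pos hk]
      apply key _ _ hk
      rw [abs_div, abs_of_pos hC₀, div_le_one hC₀]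
      exact hg k α
    · simp only [wB, if_neg hk, norm_zero, zero_le_one]
  · by_cases hk : k ∈ blk n
    · simp only [wB, if_pos hk]
      apply key _ _ hk
      have hl : (0 : ℝ) < 1 + ((l : ℕ) : ℝ) := by positivity
      rw [abs_div, abs_of_pos hl, div_le_one hl]
      exact (Complex.abs_re_le_norm _).trans (clz_norm l k α)
    · simp only [wB, if_neg hk, norm_zero, zero_le_one]
  · by_cases hk : k ∈ blk n
    · simp only [wB, if_pos hk]
      apply key _ _ hk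
      have hl : (0 : ℝ) < 1 + ((l : ℕ) : ℝ) := by positivity
      rw [abs_div, abs_of_pos hl, div_le_one hl]
      exact (Complex.abs_im_le_norm _).trans (clz_norm l k α)
    · simp only [wB, if_neg hk, norm_zero, zero_le_one]

private theorem Sb_hasDerivAt {L : ℕ} (H₀ : ℝ → ℝ) (n : ℕ) (b : ℝ → ℤ × ℤ → ℂ) (α : ℝ)
    (w : (Fin L → ℝ) × (Fin L → ℝ)) (R : ℝ) :
    HasDerivAt (fun R => Sb H₀ n b R α w)
      (∑ k ∈ blk n, b α k * (((-(nk k * gph (Hw H₀ w) k α) : ℝ) : ℂ) *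
        (2 * π * Complex.I * ee (-(R * nk k * gph (Hw H₀ w) k α))))) R := by
  unfold Sb
  apply HasDerivAt.fun_sum
  intro k _
  apply HasDerivAt.const_mul
  have h1 : HasDerivAt (fun R : ℝ => -(R * nk k * gph (Hw H₀ w) k α)) (-(nk k * gph (Hw H₀ w) k α)) R := by
    refine (((hasDerivAt_id R).mul_const (nk k)).mul_const (gph (Hw H₀ w) k α)).fun_neg.congr_deriv ?_
    ring
  have h2 := (ee_hasDerivAt (-(R * nk k * gph (Hw H₀ w) k α))).scomp R h1
  refine h2.congr_deriv ?_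
  rw [Complex.real_smul]

private theorem Sb_deriv_eq {L : ℕ} {H₀ : ℝ → ℝ} (h0 : ContDiff ℝ 2 H₀) {C₀ : ℝ} (hC₀ : 0 < C₀) (n : ℕ)
    (b : ℝ → ℤ × ℤ → ℂ) (α : ℝ) (w : (Fin L → ℝ) × (Fin L → ℝ)) (R : ℝ) :
    (∑ k ∈ blk n, b α k * (((-(nk k * gph (Hw H₀ w) k α) : ℝ) : ℂ) *
        (2 * π * Complex.I * ee (-(R * nk k * gph (Hw H₀ w) k α))))) =
      -(2 * π * Complex.I * 2 ^ (n + 1)) * ((C₀ : ℂ) * Sb H₀ n (wB H₀ C₀ n b (some none : Option (Option (Fin L ⊕ Fin L)))) R α w +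
        ∑ l : Fin L, ((((1 + (l : ℕ)) * w.1 l : ℝ) : ℂ) * Sb H₀ n (wB H₀ C₀ n b (some (some (Sum.inl l)))) R α w +
          (((1 + (l : ℕ)) * w.2 l : ℝ) : ℂ) * Sb H₀ n (wB H₀ C₀ n b (some (some (Sum.inr l)))) R α w)) := by
  have e : ∀ k ∈ blk n, b α k * (((-(nk k * gph (Hw H₀ w) k α) : ℝ) : ℂ) *
        (2 * π * Complex.I * ee (-(R * nk k * gph (Hw H₀ w) k α)))) =
      -(2 * π * Complex.I * 2 ^ (n + 1)) * ((C₀ : ℂ) * (wB H₀ C₀ n b (some none : Option (Option (Fin L ⊕ Fin L))) α k *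
          ee (-(R * nk k * gph (Hw H₀ w) k α))) +
        ∑ l : Fin L, ((((1 + (l : ℕ)) * w.1 l : ℝ) : ℂ) * (wB H₀ C₀ n b (some (some (Sum.inl l))) α k *
            ee (-(R * nk k * gph (Hw H₀ w) k α))) +
          (((1 + (l : ℕ)) * w.2 l : ℝ) : ℂ) * (wB H₀ C₀ n b (some (some (Sum.inr l))) α k *
            ee (-(R * nk k * gph (Hw H₀ w) k α))))) := by
    intro k hk
    have e1 : (C₀ : ℂ) * (wB H₀ C₀ n b (some none : Option (Option (Fin L ⊕ Fin L))) α k *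
          ee (-(R * nk k * gph (Hw H₀ w) k α))) =
        ((gph H₀ k α : ℝ) : ℂ) * (b α k * ((nk k / 2 ^ (n + 1) : ℝ) : ℂ) * ee (-(R * nk k * gph (Hw H₀ w) k α))) := by
      simp only [wB, if_pos hk]
      have hC : (C₀ : ℂ) ≠ 0 := by exact_mod_cast hC₀.ne'
      push_cast
      field_simp
    have e2 : ∀ l : Fin L, (((1 + (l : ℕ)) * w.1 l : ℝ) : ℂ) * (wB H₀ C₀ n b (some (some (Sum.inl l))) α k *
            ee (-(R * nk k * gph (Hw H₀ w) k α))) +
          (((1 + (l : ℕ)) * w.2 l : ℝ) : ℂ) * (wB H₀ C₀ n b (some (some (Sum.inr l))) α k *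
            ee (-(R * nk k * gph (Hw H₀ w) k α))) =
        ((w.1 l * (cl l α * zk k ^ (l : ℕ)).re + w.2 l * (cl l α * zk k ^ (l : ℕ)).im : ℝ) : ℂ) *
          (b α k * ((nk k / 2 ^ (n + 1) : ℝ) : ℂ) * ee (-(R * nk k * gph (Hw H₀ w) k α))) := by
      intro l
      simp only [wB, if_pos hk]
      generalize (cl l α * zk k ^ (l : ℕ)).re = x
      generalize (cl l α * zk k ^ (l : ℕ)).im = y
      have hl : (1 + ((l : ℕ) : ℂ)) ≠ 0 := by
        have : (1 + ((l : ℕ) : ℂ)) = (((1 + (l : ℕ)) : ℕ) : ℂ) := by push_cast; rfl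
        rw [this]
        exact Nat.cast_ne_zero.2 (by omega)
      push_cast
      field_simp
    rw [e1, Finset.sum_congr rfl fun l _ => e2 l, ← Finset.sum_mul, ← Complex.ofReal_sum, ← add_mul,
      ← Complex.ofReal_add]
    have e3 : gph H₀ k α + ∑ l : Fin L, (w.1 l * (cl l α * zk k ^ (l : ℕ)).re + w.2 l * (cl l α * zk k ^ (l : ℕ)).im) =
        gph (Hw H₀ w) k α := by
      rw [gph_Hw h0]
      rfl
    rw [e3]
    push_cast
    field_simp
  rw [Finset.sum_congr rfl e, ← Finset.mul_sum]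
  congr 1
  rw [Finset.sum_add_distrib]
  congr 1
  · rw [← Finset.mul_sum]
    rfl
  · rw [Finset.sum_comm]
    refine Finset.sum_congr rfl fun l _ => ?_
    rw [Finset.sum_add_distrib, ← Finset.mul_sum, ← Finset.mul_sum]
    rfl

private theorem Sb_cont {L : ℕ} (H₀ : ℝ → ℝ) (n : ℕ) (b : ℝ → ℤ × ℤ → ℂ) (α : ℝ)
    (w : (Fin L → ℝ) × (Fin L → ℝ)) : Continuous (fun R => Sb H₀ n b R α w) :=
  continuous_iff_continuousAt.2 fun R => (Sb_hasDerivAt H₀ n b α w R).continuousAt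

private theorem gph_B {B : ℝ} {H₀ : ℝ → ℝ} (h : Bdd2 B H₀) (k : ℤ × ℤ) (α : ℝ) : |gph H₀ k α| ≤ 2 * max B 1 := by
  unfold gph
  have h1 := abs_sub (H₀ (tk k + α) * cos α) (deriv H₀ (tk k + α) * sin α)
  rw [abs_mul, abs_mul] at h1
  have hB0 : 0 ≤ max B 1 := zero_le_one.trans (le_max_right _ _)
  have h2 : |H₀ (tk k + α)| * |cos α| ≤ max B 1 * 1 :=
    mul_le_mul ((h.b0 _).trans (le_max_left _ _)) (abs_cos_le_one _) (abs_nonneg _) hB0
  have h3 : |deriv H₀ (tk k + α)| * |sin α| ≤ max B 1 * 1 :=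
    mul_le_mul ((h.b1 _).trans (le_max_left _ _)) (abs_sin_le_one _) (abs_nonneg _) hB0
  linarith

theorem sobolev2 (L : ℕ) (B Bd : ℝ) :
    ∃ (nT : ℕ) (C : ℝ), 0 ≤ C ∧ ∀ H₀ : ℝ → ℝ, Bdd2 B H₀ → ∀ (n : ℕ) (b : ℝ → ℤ × ℤ → ℂ), (∀ k, Continuous (fun α => b α k)) →
      (∀ α k, ‖b α k‖ ≤ 1) → ∃ b' : Fin nT → ℝ → ℤ × ℤ → ℂ, (∀ i k, Continuous (fun α => b' i α k)) ∧
        (∀ i α k, ‖b' i α k‖ ≤ 1) ∧ ∀ (Ra : ℝ) (w : (Fin L → ℝ) × (Fin L → ℝ)), ‖w‖ ≤ Bd → ∀ (α : ℝ),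
          ∀ R ∈ Icc Ra (Ra + 1 / 2 ^ n), ‖Sb H₀ n b R α w‖ ≤
            C * ∑ i, ∫ R' in Icc Ra (Ra + 1 / 2 ^ n), 2 ^ n * ‖Sb H₀ n (b' i) R' α w‖ := by
  obtain ⟨C₀, hC₀e⟩ : ∃ C₀ : ℝ, C₀ = 2 * max B 1 := ⟨_, rfl⟩
  have hC₀ : 0 < C₀ := by
    rw [hC₀e]
    have : (1 : ℝ) ≤ max B 1 := le_max_right _ _
    linarith
  set c : ℝ := C₀ + (1 + L) * |Bd| with hc
  have hc0 : 0 ≤ c := by positivity
  have hπ := pi_pos
  set e : Option (Option (Fin L ⊕ Fin L)) ≃ Fin (Fintype.card (Option (Option (Fin L ⊕ Fin L)))) :=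
    Fintype.equivFin _ with he
  refine ⟨Fintype.card (Option (Option (Fin L ⊕ Fin L))), 1 + 4 * π * c, by positivity, ?_⟩
  intro H₀ hH n b hbc hb1
  have h0 : ContDiff ℝ 2 H₀ := hH.smooth
  have hg : ∀ k α, |gph H₀ k α| ≤ C₀ := fun k α => by rw [hC₀e]; exact gph_B hH k α
  refine ⟨fun i => wB H₀ C₀ n b (e.symm i), fun i k => wB_cont h0 C₀ n b hbc _ k,
      fun i α k => wB_norm hC₀ hg n b hb1 _ α k, ?_⟩
  intro Ra w hw α R hR
  set I : Option (Option (Fin L ⊕ Fin L)) → ℝ := fun t =>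
    ∫ R' in Icc Ra (Ra + 1 / 2 ^ n), 2 ^ n * ‖Sb H₀ n (wB H₀ C₀ n b t) R' α w‖ with hI
  have hsum : ∑ i, ∫ R' in Icc Ra (Ra + 1 / 2 ^ n), 2 ^ n * ‖Sb H₀ n (wB H₀ C₀ n b (e.symm i)) R' α w‖ = ∑ t, I t :=
    Equiv.sum_comp e.symm I
  rw [hsum]
  have hI0 : ∀ t, 0 ≤ I t := fun t => setIntegral_nonneg measurableSet_Icc fun x _ => by positivity
  have hcont : ∀ t : Option (Option (Fin L ⊕ Fin L)), Continuous (fun R' => ‖Sb H₀ n (wB H₀ C₀ n b t) R' α w‖) :=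
    fun t => (Sb_cont H₀ n (wB H₀ C₀ n b t) α w).norm
  have hint : ∀ t : Option (Option (Fin L ⊕ Fin L)), IntegrableOn (fun R' => 2 ^ n * ‖Sb H₀ n (wB H₀ C₀ n b t) R' α w‖) (Icc Ra (Ra + 1 / 2 ^ n)) :=
    fun t => (continuous_const.mul (hcont t)).continuousOn.integrableOn_compact isCompact_Icc
  -- bound of the derivative
  have hder : ∀ R', ‖(∑ k ∈ blk n, b α k * (((-(nk k * gph (Hw H₀ w) k α) : ℝ) : ℂ) *
        (2 * π * Complex.I * ee (-(R' * nk k * gph (Hw H₀ w) k α)))))‖ ≤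
      4 * π * c * ∑ t : Option (Fin L ⊕ Fin L), 2 ^ n * ‖Sb H₀ n (wB H₀ C₀ n b (some t)) R' α w‖ := by
    intro R'
    rw [Sb_deriv_eq h0 hC₀, norm_mul]
    have e1 : ‖-(2 * (π : ℂ) * Complex.I * 2 ^ (n + 1))‖ = 4 * π * 2 ^ n := by
      rw [norm_neg, norm_mul, norm_mul, norm_mul, Complex.norm_I, Complex.norm_real, Real.norm_eq_abs,
        abs_of_pos hπ, norm_pow, pow_succ]
      norm_num
      ring
    rw [e1]
    have hw1 : ∀ l, |w.1 l| ≤ |Bd| := fun l =>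
      ((norm_le_pi_norm w.1 l).trans (norm_fst_le w)).trans (hw.trans (le_abs_self _))
    have hw2 : ∀ l, |w.2 l| ≤ |Bd| := fun l =>
      ((norm_le_pi_norm w.2 l).trans (norm_snd_le w)).trans (hw.trans (le_abs_self _))
    have hcoef : ∀ (l : Fin L) (x : ℝ), |x| ≤ |Bd| → ‖(((1 + (l : ℕ)) * x : ℝ) : ℂ)‖ ≤ c := by
      intro l x hx
      rw [Complex.norm_real, Real.norm_eq_abs, abs_mul, abs_of_nonneg (by positivity : (0 : ℝ) ≤ 1 + (l : ℕ))]
      have h1 : ((l : ℕ) : ℝ) ≤ L := by exact_mod_cast l.2.le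
      have h2 : (1 + ((l : ℕ) : ℝ)) * |x| ≤ (1 + L) * |Bd| :=
        mul_le_mul (by linarith) hx (abs_nonneg _) (by positivity)
      linarith
    have h1 : ‖(C₀ : ℂ) * Sb H₀ n (wB H₀ C₀ n b (some none : Option (Option (Fin L ⊕ Fin L)))) R' α w +
        ∑ l : Fin L, ((((1 + (l : ℕ)) * w.1 l : ℝ) : ℂ) * Sb H₀ n (wB H₀ C₀ n b (some (some (Sum.inl l)))) R' α w +
          (((1 + (l : ℕ)) * w.2 l : ℝ) : ℂ) * Sb H₀ n (wB H₀ C₀ n b (some (some (Sum.inr l)))) R' α w)‖ ≤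
        c * ∑ t : Option (Fin L ⊕ Fin L), ‖Sb H₀ n (wB H₀ C₀ n b (some t)) R' α w‖ := by
      rw [Fintype.sum_option, Fintype.sum_sum_type, ← Finset.sum_add_distrib, mul_add, Finset.mul_sum]
      refine (norm_add_le _ _).trans (add_le_add ?_ ((norm_sum_le _ _).trans (Finset.sum_le_sum fun l _ => ?_)))
      · rw [norm_mul, Complex.norm_real, Real.norm_eq_abs, abs_of_pos hC₀]
        apply mul_le_mul_of_nonneg_right _ (norm_nonneg _)
        have : 0 ≤ (1 + (L : ℝ)) * |Bd| := by positivity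
        linarith
      · rw [mul_add]
        refine (norm_add_le _ _).trans (add_le_add ?_ ?_)
        · rw [norm_mul]
          exact mul_le_mul_of_nonneg_right (hcoef l _ (hw1 l)) (norm_nonneg _)
        · rw [norm_mul]
          exact mul_le_mul_of_nonneg_right (hcoef l _ (hw2 l)) (norm_nonneg _)
    calc 4 * π * 2 ^ n * _ ≤ 4 * π * 2 ^ n * (c * ∑ t : Option (Fin L ⊕ Fin L), ‖Sb H₀ n (wB H₀ C₀ n b (some t)) R' α w‖) :=
          mul_le_mul_of_nonneg_left h1 (by positivity)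
      _ = _ := by
          rw [← Finset.mul_sum]
          ring
  have hDc : Continuous (fun R' : ℝ => (∑ k ∈ blk n, b α k * (((-(nk k * gph (Hw H₀ w) k α) : ℝ) : ℂ) *
        (2 * π * Complex.I * ee (-(R' * nk k * gph (Hw H₀ w) k α)))))) := by
    apply continuous_finsetSum
    intro k _
    have := ee_cont
    fun_prop
  have hmain := sob (fun x => Sb_hasDerivAt H₀ n b α w x) hDc (a := Ra) (ℓ := 1 / 2 ^ n) (by positivity) hR
  have hA : 1 / (1 / (2 : ℝ) ^ n) * (∫ y in Icc Ra (Ra + 1 / 2 ^ n), ‖Sb H₀ n b y α w‖) = I none := by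
    rw [hI]
    show _ = ∫ R' in Icc Ra (Ra + 1 / 2 ^ n), 2 ^ n * ‖Sb H₀ n b R' α w‖
    rw [integral_const_mul]
    congr 1
    field_simp
  have hB : (∫ y in Icc Ra (Ra + 1 / 2 ^ n), ‖(∑ k ∈ blk n, b α k * (((-(nk k * gph (Hw H₀ w) k α) : ℝ) : ℂ) *
        (2 * π * Complex.I * ee (-(y * nk k * gph (Hw H₀ w) k α)))))‖) ≤ 4 * π * c * ∑ t, I (some t) := by
    have h1 : (∫ y in Icc Ra (Ra + 1 / 2 ^ n), ‖(∑ k ∈ blk n, b α k * (((-(nk k * gph (Hw H₀ w) k α) : ℝ) : ℂ) *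
        (2 * π * Complex.I * ee (-(y * nk k * gph (Hw H₀ w) k α)))))‖) ≤
        ∫ y in Icc Ra (Ra + 1 / 2 ^ n), 4 * π * c * ∑ t : Option (Fin L ⊕ Fin L),
          2 ^ n * ‖Sb H₀ n (wB H₀ C₀ n b (some t)) y α w‖ := by
      apply setIntegral_mono_on
      · exact hDc.norm.continuousOn.integrableOn_compact isCompact_Icc
      · apply Integrable.const_mul
        exact integrable_finsetSum _ fun t _ => hint (some t)
      · exact measurableSet_Icc
      · exact fun y _ => hder y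
    refine h1.trans (le_of_eq ?_)
    rw [integral_const_mul, integral_finsetSum _ fun t _ => hint (some t)]
  have hsplit : ∑ t, I t = I none + ∑ t, I (some t) := Fintype.sum_option I
  rw [hsplit]
  have hpos : 0 ≤ ∑ t, I (some t) := Finset.sum_nonneg fun t _ => hI0 _
  have h4 : 0 ≤ 4 * π * c * I none := by
    have := hI0 none
    positivity
  rw [hA] at hmain
  calc ‖Sb H₀ n b R α w‖ ≤ I none + 4 * π * c * ∑ t, I (some t) := hmain.trans (by linarith)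
    _ ≤ (1 + 4 * π * c) * (I none + ∑ t, I (some t)) := by nlinarith


end Pool.Agent.Helper76.EO
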