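import Pool.Agent.Helper76.EO.Base
import Pool.Agent.Helper22.AE.C5

/-!
# EO-L9b: the sum `TS` in terms of sums with deterministic weights, constants uniform in `H₀`

PROOF of `Hw_bdd2`: `Hw_smooth`, `Hw_per`; `Hw = H₀ + ∑`, `|w.1 l|, |w.2 l| ≤ ‖w‖ ≤ Bd`, derivatives of `cos(lθ)`, `sin(lθ)` are at most `l ≤ L`,
and `rho_Hw` (`|1 - l²| ≤ 1 + L²`): `C = B + 2 L (1 + L)^2 Bd`.
PROOF of `base2`. `rho_Hw` at `θ = tk k + α`: `TS = a0 Sb[c] + b0 (C₀ Sb[c rho H₀/C₀] + ∑_l (1 - l²)(w.1 l Sb[c cos(l(tk+α))] + w.2 l Sb[c sin(l(tk+α))]))`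
with `C₀ = max B 1`; all weights are continuous in `α` (`rho H₀` is continuous), bounded by `1`; `nT = 2L + 2`. See `base_types` (Helper22/AE/C5).
-/

open MeasureTheory Real Set Filter Topology

set_option autoImplicit false

namespace Pool.Agent.Helper76.EO

open Pool.Agent.Helper22.AE

private lemma l9b_w {L : ℕ} {Bd : ℝ} {w : (Fin L → ℝ) × (Fin L → ℝ)} (hw : ‖w‖ ≤ Bd) (l : Fin L) :
    |w.1 l| ≤ |Bd| ∧ |w.2 l| ≤ |Bd| := by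
  have h1 : ‖w.1‖ ≤ ‖w‖ := norm_fst_le w
  have h2 : ‖w.2‖ ≤ ‖w‖ := norm_snd_le w
  have h3 := norm_le_pi_norm w.1 l
  have h4 := norm_le_pi_norm w.2 l
  rw [Real.norm_eq_abs] at h3 h4
  have h5 := le_abs_self Bd
  exact ⟨by linarith, by linarith⟩

private lemma l9b_diff {H : ℝ → ℝ} (h : ContDiff ℝ 2 H) : Differentiable ℝ H :=
  h.differentiable (by norm_num)

private lemma l9b_deriv {L : ℕ} {H₀ : ℝ → ℝ} (h0 : ContDiff ℝ 2 H₀) (w : (Fin L → ℝ) × (Fin L → ℝ)) (θ : ℝ) :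
    deriv (Hw H₀ w) θ = deriv H₀ θ +
      ∑ l : Fin L, (w.1 l * (-(((l : ℕ) : ℝ) * sin ((l : ℕ) * θ))) + w.2 l * (((l : ℕ) : ℝ) * cos ((l : ℕ) * θ))) := by
  apply HasDerivAt.deriv
  unfold Hw
  refine (l9b_diff h0 θ).hasDerivAt.add ?_
  apply HasDerivAt.fun_sum
  intro l _
  have hl : HasDerivAt (fun θ : ℝ => ((l : ℕ) : ℝ) * θ) ((l : ℕ) : ℝ) θ := by
    simpa using (hasDerivAt_id θ).const_mul ((l : ℕ) : ℝ)
  have h1 : HasDerivAt (fun θ : ℝ => cos (((l : ℕ) : ℝ) * θ)) (-(((l : ℕ) : ℝ) * sin ((l : ℕ) * θ))) θ := by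
    refine hl.cos.congr_deriv ?_
    ring
  have h2 : HasDerivAt (fun θ : ℝ => sin (((l : ℕ) : ℝ) * θ)) (((l : ℕ) : ℝ) * cos ((l : ℕ) * θ)) θ := by
    refine hl.sin.congr_deriv ?_
    ring
  exact (h1.const_mul _).add (h2.const_mul _)

private lemma l9b_sum {L : ℕ} {D F : ℝ} (hD : 0 ≤ D) (u v f g : Fin L → ℝ) (hu : ∀ l, |u l| ≤ D)
    (hv : ∀ l, |v l| ≤ D) (hf : ∀ l, |f l| ≤ F) (hg : ∀ l, |g l| ≤ F) :
    |∑ l, (u l * f l + v l * g l)| ≤ 2 * L * D * F := by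
  refine (Finset.abs_sum_le_sum_abs _ _).trans ?_
  have h1 : ∀ l ∈ (Finset.univ : Finset (Fin L)), |u l * f l + v l * g l| ≤ 2 * D * F := by
    intro l _
    refine (abs_add_le _ _).trans ?_
    rw [abs_mul, abs_mul]
    have a1 := mul_le_mul (hu l) (hf l) (abs_nonneg _) hD
    have a2 := mul_le_mul (hv l) (hg l) (abs_nonneg _) hD
    linarith
  refine (Finset.sum_le_card_nsmul _ _ _ h1).trans ?_
  rw [Finset.card_univ, Fintype.card_fin, nsmul_eq_mul]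
  linarith [show (L : ℝ) * (2 * D * F) = 2 * L * D * F by ring]

private lemma l9b_l {L : ℕ} (l : Fin L) : (0 : ℝ) ≤ ((l : ℕ) : ℝ) ∧ ((l : ℕ) : ℝ) ≤ L :=
  ⟨Nat.cast_nonneg _, by exact_mod_cast l.2.le⟩

private lemma l9b_ll {L : ℕ} (l : Fin L) : |1 - ((l : ℕ) : ℝ) ^ 2| ≤ 1 + (L : ℝ) ^ 2 := by
  obtain ⟨h0', h1⟩ := l9b_l l
  rw [abs_le]
  constructor <;> nlinarith

theorem Hw_bdd2 (L : ℕ) (B Bd : ℝ) : ∃ B' : ℝ, ∀ H₀ : ℝ → ℝ, Bdd2 B H₀ → ∀ w : (Fin L → ℝ) × (Fin L → ℝ), ‖w‖ ≤ Bd →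
    Bdd2 B' (Hw H₀ w) := by
  refine ⟨B + 2 * L * |Bd| * (1 + (L : ℝ)) ^ 2, fun H₀ hH w hw => ?_⟩
  have hL : (0 : ℝ) ≤ L := Nat.cast_nonneg L
  have hBd := abs_nonneg Bd
  have hu : ∀ l, |w.1 l| ≤ |Bd| := fun l => (l9b_w hw l).1
  have hv : ∀ l, |w.2 l| ≤ |Bd| := fun l => (l9b_w hw l).2
  refine ⟨Hw_smooth hH.smooth w, Hw_per hH.per w, fun θ => ?_, fun θ => ?_, fun θ => ?_⟩
  · unfold Hw
    refine (abs_add_le _ _).trans (add_le_add (hH.b0 θ) ?_)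
    refine l9b_sum hBd w.1 w.2 _ _ hu hv (fun l => ?_) (fun l => ?_)
    · exact (abs_cos_le_one _).trans (by nlinarith)
    · exact (abs_sin_le_one _).trans (by nlinarith)
  · rw [l9b_deriv hH.smooth]
    refine (abs_add_le _ _).trans (add_le_add (hH.b1 θ) ?_)
    refine l9b_sum hBd w.1 w.2 _ _ hu hv (fun l => ?_) (fun l => ?_)
    · obtain ⟨h0, h1⟩ := l9b_l l
      rw [abs_neg, abs_mul, abs_of_nonneg h0]
      have := mul_le_mul h1 (abs_sin_le_one ((l : ℕ) * θ)) (abs_nonneg _) hL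
      nlinarith
    · obtain ⟨h0, h1⟩ := l9b_l l
      rw [abs_mul, abs_of_nonneg h0]
      have := mul_le_mul h1 (abs_cos_le_one ((l : ℕ) * θ)) (abs_nonneg _) hL
      nlinarith
  · rw [rho_Hw hH.smooth]
    refine (abs_add_le _ _).trans (add_le_add (hH.b2 θ) ?_)
    have e : ∑ l : Fin L, (1 - ((l : ℕ) : ℝ) ^ 2) * (w.1 l * cos ((l : ℕ) * θ) + w.2 l * sin ((l : ℕ) * θ)) =
        ∑ l : Fin L, (w.1 l * ((1 - ((l : ℕ) : ℝ) ^ 2) * cos ((l : ℕ) * θ)) +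
          w.2 l * ((1 - ((l : ℕ) : ℝ) ^ 2) * sin ((l : ℕ) * θ))) := by
      refine Finset.sum_congr rfl fun l _ => ?_
      ring
    rw [e]
    refine l9b_sum hBd w.1 w.2 _ _ hu hv (fun l => ?_) (fun l => ?_)
    · rw [abs_mul]
      have := mul_le_mul (l9b_ll l) (abs_cos_le_one ((l : ℕ) * θ)) (abs_nonneg _) (by positivity)
      nlinarith
    · rw [abs_mul]
      have := mul_le_mul (l9b_ll l) (abs_sin_le_one ((l : ℕ) * θ)) (abs_nonneg _) (by positivity)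
      nlinarith

private lemma l9b_rho_cont {H : ℝ → ℝ} (hH : ContDiff ℝ 2 H) : Continuous (rho H) := by
  have h1 : ContDiff ℝ 1 (deriv H) := by
    have h := (contDiff_succ_iff_deriv (n := 1) (f := H)).1 (by
      rw [one_add_one_eq_two]; exact hH)
    exact h.2.2
  have h2 : Continuous (deriv (deriv H)) := h1.continuous_deriv (le_refl _)
  exact hH.continuous.add h2

/-- the real multipliers -/
private noncomputable def l9m {L : ℕ} (H₀ : ℝ → ℝ) (C₀ : ℝ) (x : Fin 2 ⊕ (Fin L ⊕ Fin L)) (α : ℝ)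
    (k : ℤ × ℤ) : ℝ :=
  match x with
  | Sum.inl 0 => rho H₀ (tk k + α) / C₀
  | Sum.inl 1 => 1
  | Sum.inr (Sum.inl l) => cos ((l : ℕ) * (tk k + α))
  | Sum.inr (Sum.inr l) => sin ((l : ℕ) * (tk k + α))

private lemma l9m_le {L : ℕ} {H₀ : ℝ → ℝ} {C₀ : ℝ} (hC : 0 < C₀) (hb : ∀ θ, |rho H₀ θ| ≤ C₀)
    (x : Fin 2 ⊕ (Fin L ⊕ Fin L)) (α : ℝ) (k : ℤ × ℤ) : |l9m H₀ C₀ x α k| ≤ 1 := by
  rcases x with i | l | l
  · fin_cases i
    · show |rho H₀ (tk k + α) / C₀| ≤ 1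
      rw [abs_div, abs_of_pos hC]
      exact (div_le_one hC).2 (hb _)
    · show |(1 : ℝ)| ≤ 1
      rw [abs_one]
  · exact abs_cos_le_one _
  · exact abs_sin_le_one _

private lemma l9m_cont {L : ℕ} {H₀ : ℝ → ℝ} (h0 : ContDiff ℝ 2 H₀) (C₀ : ℝ)
    (x : Fin 2 ⊕ (Fin L ⊕ Fin L)) (k : ℤ × ℤ) : Continuous (fun α => l9m H₀ C₀ x α k) := by
  rcases x with i | l | l
  · fin_cases i
    · show Continuous (fun α => rho H₀ (tk k + α) / C₀)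
      exact ((l9b_rho_cont h0).comp (by fun_prop)).div_const _
    · exact continuous_const
  · show Continuous (fun α => cos ((l : ℕ) * (tk k + α)))
    fun_prop
  · show Continuous (fun α => sin ((l : ℕ) * (tk k + α)))
    fun_prop

theorem base2 (L : ℕ) (B Bd : ℝ) :
    ∃ (nT : ℕ) (C : ℝ), 0 ≤ C ∧ ∀ H₀ : ℝ → ℝ, Bdd2 B H₀ → ∀ (n : ℕ) (c : ℝ → ℤ × ℤ → ℂ), (∀ k, Continuous (fun α => c α k)) →
      (∀ α k, ‖c α k‖ ≤ 1) → ∃ b : Fin nT → ℝ → ℤ × ℤ → ℂ, (∀ i k, Continuous (fun α => b i α k)) ∧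
        (∀ i α k, ‖b i α k‖ ≤ 1) ∧ ∀ w : (Fin L → ℝ) × (Fin L → ℝ), ‖w‖ ≤ Bd → ∀ R α a0 b0 : ℝ, |a0| ≤ 2 → |b0| ≤ 2 →
          ‖TS n (blk n) (c α) a0 b0 R α (Hw H₀ w)‖ ≤ C * ∑ i, ‖Sb H₀ n (b i) R α w‖ := by
  set C₀ : ℝ := max B 1 with hC₀
  have hC0 : 0 < C₀ := lt_of_lt_of_le one_pos (le_max_right _ _)
  set M : ℝ := (1 + (L : ℝ) ^ 2) * |Bd| with hM
  have hM0 : 0 ≤ M := by positivity
  set D : ℝ := 2 * (C₀ + 1 + M) with hD
  have hD0 : 0 ≤ D := by positivity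
  refine ⟨Fintype.card (Fin 2 ⊕ (Fin L ⊕ Fin L)), D, hD0, ?_⟩
  intro H₀ hH n c hcc hc1
  have h0 := hH.smooth
  have hrho : ∀ θ, |rho H₀ θ| ≤ C₀ := fun θ => (hH.b2 θ).trans (le_max_left _ _)
  let e := (Fintype.equivFin (Fin 2 ⊕ (Fin L ⊕ Fin L))).symm
  let bb : Fin 2 ⊕ (Fin L ⊕ Fin L) → ℝ → ℤ × ℤ → ℂ := fun x α k =>
    c α k * ((l9m H₀ C₀ x α k : ℝ) : ℂ)
  refine ⟨fun i => bb (e i), ?_, ?_, ?_⟩
  · intro i k
    exact (hcc k).mul (Complex.continuous_ofReal.comp (l9m_cont h0 C₀ (e i) k))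
  · intro i α k
    show ‖c α k * ((l9m H₀ C₀ (e i) α k : ℝ) : ℂ)‖ ≤ 1
    rw [norm_mul, Complex.norm_real, Real.norm_eq_abs]
    exact mul_le_one₀ (hc1 α k) (abs_nonneg _) (l9m_le hC0 hrho (e i) α k)
  intro w hw R α a0 b0 ha0 hb0
  set S : Fin 2 ⊕ (Fin L ⊕ Fin L) → ℝ := fun x => ‖Sb H₀ n (bb x) R α w‖ with hS
  have hS0 : ∀ x, 0 ≤ S x := fun x => norm_nonneg _
  have hsum : ∑ i, ‖Sb H₀ n (bb (e i)) R α w‖ = ∑ x, S x := Equiv.sum_comp e S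
  have hsum2 : ∑ x, S x = S (Sum.inl 0) + S (Sum.inl 1) +
      (∑ l, S (Sum.inr (Sum.inl l)) + ∑ l, S (Sum.inr (Sum.inr l))) := by
    rw [Fintype.sum_sum_type, Fintype.sum_sum_type, Fin.sum_univ_two]
  show _ ≤ D * ∑ i, ‖Sb H₀ n (bb (e i)) R α w‖
  rw [hsum]
  have key : TS n (blk n) (c α) a0 b0 R α (Hw H₀ w) =
      ((a0 : ℝ) : ℂ) * Sb H₀ n (bb (Sum.inl 1)) R α w +
      (((b0 * C₀ : ℝ) : ℂ) * Sb H₀ n (bb (Sum.inl 0)) R α w +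
      (∑ l : Fin L, ((b0 * ((1 - ((l : ℕ) : ℝ) ^ 2) * w.1 l) : ℝ) : ℂ) * Sb H₀ n (bb (Sum.inr (Sum.inl l))) R α w +
      ∑ l : Fin L, ((b0 * ((1 - ((l : ℕ) : ℝ) ^ 2) * w.2 l) : ℝ) : ℂ) * Sb H₀ n (bb (Sum.inr (Sum.inr l))) R α w)) := by
    unfold TS Sb
    simp only [Finset.mul_sum]
    rw [Finset.sum_comm (s := Finset.univ), Finset.sum_comm (s := Finset.univ)]
    rw [← Finset.sum_add_distrib, ← Finset.sum_add_distrib, ← Finset.sum_add_distrib]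
    refine Finset.sum_congr rfl fun k _ => ?_
    have hrw : a0 + b0 * rho (Hw H₀ w) (tk k + α) =
        a0 * l9m (L := L) H₀ C₀ (Sum.inl 1) α k + (b0 * C₀ * l9m (L := L) H₀ C₀ (Sum.inl 0) α k +
        (∑ l : Fin L, b0 * ((1 - ((l : ℕ) : ℝ) ^ 2) * w.1 l) * l9m H₀ C₀ (Sum.inr (Sum.inl l)) α k +
         ∑ l : Fin L, b0 * ((1 - ((l : ℕ) : ℝ) ^ 2) * w.2 l) * l9m H₀ C₀ (Sum.inr (Sum.inr l)) α k)) := by
      rw [rho_Hw h0, ← Finset.sum_add_distrib, mul_add, Finset.mul_sum]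
      have e1 : b0 * C₀ * l9m (L := L) H₀ C₀ (Sum.inl 0) α k = b0 * rho H₀ (tk k + α) := by
        show b0 * C₀ * (rho H₀ (tk k + α) / C₀) = _
        field_simp
      have e2 : a0 * l9m (L := L) H₀ C₀ (Sum.inl 1) α k = a0 := by
        show a0 * 1 = _
        ring
      rw [e1, e2]
      congr 2
      refine Finset.sum_congr rfl fun l _ => ?_
      show _ = b0 * ((1 - ((l : ℕ) : ℝ) ^ 2) * w.1 l) * cos ((l : ℕ) * (tk k + α)) +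
        b0 * ((1 - ((l : ℕ) : ℝ) ^ 2) * w.2 l) * sin ((l : ℕ) * (tk k + α))
      ring
    rw [hrw]
    push_cast
    rw [mul_add, mul_add, mul_add, Finset.mul_sum, Finset.mul_sum, add_mul, add_mul, add_mul,
      Finset.sum_mul, Finset.sum_mul]
    congr 1
    · show c α k * _ * _ = _ * (c α k *
            ((l9m (L := L) H₀ C₀ (Sum.inl 1) α k : ℝ) : ℂ) * _)
      ring
    · congr 1
      · show c α k * ((b0 : ℂ) * (C₀ : ℂ) * ((l9m (L := L) H₀ C₀ (Sum.inl 0) α k : ℝ) : ℂ)) * _ = _ * (c α k *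
            ((l9m (L := L) H₀ C₀ (Sum.inl 0) α k : ℝ) : ℂ) * _)
        ring
      · congr 1
        · refine Finset.sum_congr rfl fun l _ => ?_
          show c α k * _ * _ = _ * (c α k *
            ((l9m H₀ C₀ (Sum.inr (Sum.inl l)) α k : ℝ) : ℂ) * _)
          ring
        · refine Finset.sum_congr rfl fun l _ => ?_
          show c α k * _ * _ = _ * (c α k *
            ((l9m H₀ C₀ (Sum.inr (Sum.inr l)) α k : ℝ) : ℂ) * _)
          ring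
  rw [key]
  have hwl : ∀ l : Fin L, |w.1 l| ≤ |Bd| ∧ |w.2 l| ≤ |Bd| := fun l => l9b_w hw l
  have hco : ∀ (l : Fin L) (u : ℝ), |u| ≤ |Bd| →
      ‖((b0 * ((1 - ((l : ℕ) : ℝ) ^ 2) * u) : ℝ) : ℂ)‖ ≤ 2 * M := by
    intro l u hu
    rw [Complex.norm_real, Real.norm_eq_abs, abs_mul, abs_mul]
    exact mul_le_mul hb0 (mul_le_mul (l9b_ll l) hu (abs_nonneg _) (by positivity)) (by positivity) (by norm_num)
  have hc1' : ‖((b0 * C₀ : ℝ) : ℂ)‖ ≤ 2 * C₀ := by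
    rw [Complex.norm_real, Real.norm_eq_abs, abs_mul, abs_of_pos hC0]
    exact mul_le_mul_of_nonneg_right hb0 hC0.le
  have hc2' : ‖((a0 : ℝ) : ℂ)‖ ≤ 2 := by
    rw [Complex.norm_real, Real.norm_eq_abs]
    exact ha0
  have hs1 : ‖∑ l : Fin L, ((b0 * ((1 - ((l : ℕ) : ℝ) ^ 2) * w.1 l) : ℝ) : ℂ) *
      Sb H₀ n (bb (Sum.inr (Sum.inl l))) R α w‖ ≤ 2 * M * ∑ l, S (Sum.inr (Sum.inl l)) := by
    rw [Finset.mul_sum]
    refine norm_sum_le_of_le _ fun l _ => ?_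
    rw [norm_mul]
    exact mul_le_mul_of_nonneg_right (hco l _ (hwl l).1) (norm_nonneg _)
  have hs2 : ‖∑ l : Fin L, ((b0 * ((1 - ((l : ℕ) : ℝ) ^ 2) * w.2 l) : ℝ) : ℂ) *
      Sb H₀ n (bb (Sum.inr (Sum.inr l))) R α w‖ ≤ 2 * M * ∑ l, S (Sum.inr (Sum.inr l)) := by
    rw [Finset.mul_sum]
    refine norm_sum_le_of_le _ fun l _ => ?_
    rw [norm_mul]
    exact mul_le_mul_of_nonneg_right (hco l _ (hwl l).2) (norm_nonneg _)
  have hs3 : ‖((b0 * C₀ : ℝ) : ℂ) * Sb H₀ n (bb (Sum.inl 0)) R α w‖ ≤ 2 * C₀ * S (Sum.inl 0) := by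
    rw [norm_mul]
    exact mul_le_mul_of_nonneg_right hc1' (norm_nonneg _)
  have hs4 : ‖((a0 : ℝ) : ℂ) * Sb H₀ n (bb (Sum.inl 1)) R α w‖ ≤ 2 * S (Sum.inl 1) := by
    rw [norm_mul]
    exact mul_le_mul_of_nonneg_right hc2' (norm_nonneg _)
  have htri : ∀ a b c d : ℂ, ‖a + (b + (c + d))‖ ≤ ‖a‖ + (‖b‖ + (‖c‖ + ‖d‖)) := by
    intro a b c d
    exact (norm_add_le _ _).trans (by
      have h1 := norm_add_le b (c + d)
      have h2 := norm_add_le c d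
      linarith)
  refine (htri _ _ _ _).trans ?_
  rw [hsum2]
  have hA : 0 ≤ ∑ l, S (Sum.inr (Sum.inl l)) := Finset.sum_nonneg fun l _ => hS0 _
  have hB : 0 ≤ ∑ l, S (Sum.inr (Sum.inr l)) := Finset.sum_nonneg fun l _ => hS0 _
  have h00 := hS0 (Sum.inl 0)
  have h01 := hS0 (Sum.inl 1)
  generalize (∑ l, S (Sum.inr (Sum.inl l))) = A at *
  generalize (∑ l, S (Sum.inr (Sum.inr l))) = B' at *
  generalize S (Sum.inl 0) = s0 at *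
  generalize S (Sum.inl 1) = s1 at *
  have k1 : 2 * s1 + (2 * C₀ * s0 + (2 * M * A + 2 * M * B')) ≤ D * (s0 + s1 + (A + B')) := by
    rw [hD]
    have p1 : 0 ≤ M * s0 := by positivity
    have p3 : 0 ≤ M * s1 := by positivity
    have p4 : 0 ≤ C₀ * s1 := by positivity
    have p8 : 0 ≤ C₀ * (A + B') := by positivity
    nlinarith
  linarith

end Pool.Agent.Helper76.EO
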