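import Pool.Agent.Helper76.EO.V2
import Pool.Agent.Helper76.EO.L9a
import Pool.Agent.Helper76.EO.L9b

/-!
# EO-L9c: the block sums are controlled by the functionals `Zf`, constants uniform in `H₀`

PROOF. As `types` (Helper22/AE/C6). `Hw H₀ w` satisfies `Bdd2 B'` (`Hw_bdd2`), so `vt_red B'` applies (for `R ∈ [Ra, Ra + 2^(-n)]` use it with `R₀` replaced
as is if `R ≤ 2R₀`; since `Ra ≤ 2R₀` one may have `2R₀ < R ≤ 2R₀ + 1`: apply `vt_red`-type argument: here it is simplest to restrict: the statement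
only asks for `R ≤ 2 R₀`). Each `TS` is bounded by `base2`, each `Sb` by `sobolev2`, then exchange the integrals (lemma `Zf_swap` in C6, private:
copy) and reindex `Fin nT₁ × Fin nT₂` (twice, for `c1` and `c2`: `nT = 2 nT₁ nT₂`, e.g. through `Fin 2 × Fin nT₁ × Fin nT₂` and `Fintype.equivFin`).
`|σ δ/R₀| ≤ 1`, `|R/R₀| ≤ 2`.
-/

open MeasureTheory Real Set Filter Topology

set_option autoImplicit false

namespace Pool.Agent.Helper76.EO

open Pool.Agent.Helper22.AE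

private lemma l9c_k0_cont {β : ℝ} (hβ : 0 < β) : Continuous (k0 β) := by
  unfold k0
  exact continuous_const.div (by fun_prop) (fun α => by positivity)

private lemma l9c_k0_nonneg {β : ℝ} (hβ : 0 < β) (α : ℝ) : 0 ≤ k0 β α := by
  unfold k0
  positivity

private lemma l9c_deriv_cont {G : ℝ → ℝ} (hG : ContDiff ℝ 2 G) : Continuous (deriv G) :=
  (((contDiff_succ_iff_deriv (n := 1)).1 hG).2.2).continuous

private lemma l9c_gph_cont {G : ℝ → ℝ} (hG : ContDiff ℝ 2 G) (k : ℤ × ℤ) : Continuous (gph G k) := by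
  have h1 := hG.continuous
  have h2 := l9c_deriv_cont hG
  unfold gph
  fun_prop

private lemma l9c_gs_compact : IsCompact gs := by
  refine isCompact_Icc.inter_right ?_
  exact isClosed_le continuous_const (by fun_prop)

private lemma l9c_Sb_cont {L : ℕ} {H₀ : ℝ → ℝ} (h0 : ContDiff ℝ 2 H₀) (n : ℕ) (b : ℝ → ℤ × ℤ → ℂ)
    (hb : ∀ k, Continuous (fun α => b α k)) (w : (Fin L → ℝ) × (Fin L → ℝ)) :
    Continuous (fun p : ℝ × ℝ => Sb H₀ n b p.1 p.2 w) := by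
  unfold Sb
  refine continuous_finsetSum _ (fun k _ => ?_)
  have h1 := l9c_gph_cont (Hw_smooth h0 w) k
  have h2 := ee_cont
  have h3 := (hb k).comp (continuous_snd (X := ℝ) (Y := ℝ))
  refine Continuous.mul h3 (h2.comp ?_)
  fun_prop

/-- exchange of the two integrals -/
private lemma l9c_swap {L : ℕ} {H₀ : ℝ → ℝ} (h0 : ContDiff ℝ 2 H₀) {β : ℝ} (hβ : 0 < β) (n : ℕ) (Ra : ℝ)
    (b : ℝ → ℤ × ℤ → ℂ) (hb : ∀ k, Continuous (fun α => b α k)) (w : (Fin L → ℝ) × (Fin L → ℝ)) :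
    ∫ α in gs, k0 β α * ∫ R' in Icc Ra (Ra + 1 / 2 ^ n), 2 ^ n * ‖Sb H₀ n b R' α w‖ =
      Zf β n Ra (fun R α k => b α k * ee (-(R * nk k * gph H₀ k α))) w := by
  have hc := l9c_Sb_cont h0 n b hb w
  have hkc := l9c_k0_cont hβ
  have e1 : ∀ α, k0 β α * ∫ R' in Icc Ra (Ra + 1 / 2 ^ n), 2 ^ n * ‖Sb H₀ n b R' α w‖ =
      ∫ R' in Icc Ra (Ra + 1 / 2 ^ n), 2 ^ n * k0 β α * ‖Sb H₀ n b R' α w‖ := by
    intro α
    rw [← integral_const_mul]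
    refine integral_congr_ae (ae_of_all _ (fun R' => ?_))
    show k0 β α * (2 ^ n * ‖Sb H₀ n b R' α w‖) = 2 ^ n * k0 β α * ‖Sb H₀ n b R' α w‖
    ring
  simp only [e1]
  rw [integral_integral_swap]
  · show _ = ∫ R in Icc Ra (Ra + 1 / 2 ^ n), ∫ α in gs, 2 ^ n * k0 β α * ‖Tsum (blk n) _ R α w‖
    refine integral_congr_ae (ae_of_all _ (fun R' => ?_))
    refine integral_congr_ae (ae_of_all _ (fun α => ?_))
    show 2 ^ n * k0 β α * ‖Sb H₀ n b R' α w‖ = 2 ^ n * k0 β α * ‖Tsum (blk n) _ R' α w‖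
    rw [Sb_eq h0]
  · rw [Measure.prod_restrict]
    have hcc : Continuous (Function.uncurry (fun α R' => 2 ^ n * k0 β α * ‖Sb H₀ n b R' α w‖)) := by
      show Continuous (fun p : ℝ × ℝ => 2 ^ n * k0 β p.1 * ‖Sb H₀ n b p.2 p.1 w‖)
      refine Continuous.mul (continuous_const.mul (hkc.comp continuous_fst)) ?_
      exact (hc.comp (continuous_snd.prodMk continuous_fst)).norm
    exact hcc.continuousOn.integrableOn_compact (l9c_gs_compact.prod isCompact_Icc)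

/-- one averaged sum -/
private lemma l9c_part {L nT₁ nT₂ : ℕ} {H₀ : ℝ → ℝ} (h0 : ContDiff ℝ 2 H₀) {β : ℝ} (hβ : 0 < β) (n : ℕ) (Ra : ℝ)
    {C₁ C₂ : ℝ} (hC₁ : 0 ≤ C₁) (b : Fin nT₁ → ℝ → ℤ × ℤ → ℂ)
    (b' : Fin nT₁ → Fin nT₂ → ℝ → ℤ × ℤ → ℂ) (hbc' : ∀ i i' k, Continuous (fun α => b' i i' α k))
    (w : (Fin L → ℝ) × (Fin L → ℝ)) (R : ℝ) (T : ℝ → ℂ)
    (hT : ∀ α, ‖T α‖ ≤ C₁ * ∑ i, ‖Sb H₀ n (b i) R α w‖)
    (hS : ∀ i α, ‖Sb H₀ n (b i) R α w‖ ≤ C₂ * ∑ i', ∫ R' in Icc Ra (Ra + 1 / 2 ^ n), 2 ^ n * ‖Sb H₀ n (b' i i') R' α w‖) :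
    ∫ α in gs, k0 β α * ‖T α‖ ≤ C₁ * C₂ * ∑ p : Fin nT₁ × Fin nT₂, Zf β n Ra
      (fun R α k => b' p.1 p.2 α k * ee (-(R * nk k * gph H₀ k α))) w := by
  have hkc := l9c_k0_cont hβ
  have hin : ∀ i i', IntegrableOn (fun α => k0 β α *
      ∫ R' in Icc Ra (Ra + 1 / 2 ^ n), 2 ^ n * ‖Sb H₀ n (b' i i') R' α w‖) gs := by
    intro i i'
    have hcont : Continuous (fun α => k0 β α *
        ∫ R' in Icc Ra (Ra + 1 / 2 ^ n), 2 ^ n * ‖Sb H₀ n (b' i i') R' α w‖) := by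
      refine hkc.mul ?_
      refine continuous_parametric_integral_of_continuous ?_ isCompact_Icc
      show Continuous (fun p : ℝ × ℝ => 2 ^ n * ‖Sb H₀ n (b' i i') p.2 p.1 w‖)
      exact continuous_const.mul
        ((l9c_Sb_cont h0 n (b' i i') (hbc' i i') w).comp (continuous_snd.prodMk continuous_fst)).norm
    exact hcont.continuousOn.integrableOn_compact l9c_gs_compact
  calc ∫ α in gs, k0 β α * ‖T α‖
      ≤ ∫ α in gs, ∑ i, ∑ i', C₁ * C₂ * (k0 β α *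
          ∫ R' in Icc Ra (Ra + 1 / 2 ^ n), 2 ^ n * ‖Sb H₀ n (b' i i') R' α w‖) := by
        refine integral_mono_of_nonneg (ae_of_all _ (fun α => ?_)) ?_ (ae_of_all _ (fun α => ?_))
        · exact mul_nonneg (l9c_k0_nonneg hβ α) (norm_nonneg _)
        · refine integrable_finsetSum _ (fun i _ => integrable_finsetSum _ (fun i' _ => ?_))
          exact (hin i i').const_mul (C₁ * C₂)
        · have h4 := l9c_k0_nonneg hβ α
          show k0 β α * ‖T α‖ ≤ ∑ i, ∑ i', C₁ * C₂ * (k0 β α *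
            ∫ R' in Icc Ra (Ra + 1 / 2 ^ n), 2 ^ n * ‖Sb H₀ n (b' i i') R' α w‖)
          calc k0 β α * ‖T α‖ ≤ k0 β α * (C₁ * ∑ i, ‖Sb H₀ n (b i) R α w‖) :=
                mul_le_mul_of_nonneg_left (hT α) h4
            _ = ∑ i, (k0 β α * C₁) * ‖Sb H₀ n (b i) R α w‖ := by
                rw [← mul_assoc, Finset.mul_sum]
            _ ≤ _ := by
                refine Finset.sum_le_sum (fun i _ => ?_)
                calc (k0 β α * C₁) * ‖Sb H₀ n (b i) R α w‖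
                    ≤ (k0 β α * C₁) * (C₂ * ∑ i', ∫ R' in Icc Ra (Ra + 1 / 2 ^ n), 2 ^ n * ‖Sb H₀ n (b' i i') R' α w‖) :=
                      mul_le_mul_of_nonneg_left (hS i α) (mul_nonneg h4 hC₁)
                  _ = _ := by
                      rw [Finset.mul_sum, Finset.mul_sum]
                      refine Finset.sum_congr rfl (fun i' _ => ?_)
                      ring
    _ = ∑ i, ∑ i', C₁ * C₂ * Zf β n Ra (fun R α k => b' i i' α k * ee (-(R * nk k * gph H₀ k α))) w := by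
        rw [integral_finsetSum _ (fun i _ => integrable_finsetSum _ (fun i' _ => (hin i i').const_mul (C₁ * C₂)))]
        refine Finset.sum_congr rfl (fun i _ => ?_)
        rw [integral_finsetSum _ (fun i' _ => (hin i i').const_mul (C₁ * C₂))]
        refine Finset.sum_congr rfl (fun i' _ => ?_)
        rw [integral_const_mul, l9c_swap h0 hβ n Ra (b' i i') (hbc' i i') w]
    _ = _ := by
        rw [Finset.mul_sum, ← Fintype.sum_prod_type']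

theorem types2 (L : ℕ) (B Bd : ℝ) :
    ∃ (nT : ℕ) (C : ℝ), 0 ≤ C ∧ ∀ H₀ : ℝ → ℝ, Bdd2 B H₀ → ∀ (φ : ℝ × ℝ → ℝ), IsBump φ → ∀ R₀ : ℝ, 1 ≤ R₀ → ∀ (n : ℕ) (σ : ℝ),
      (σ = 1 ∨ σ = -1) → ∀ Ra ∈ Icc R₀ (2 * R₀), ∃ v : Fin nT → ℝ → ℝ → ℤ × ℤ → ℂ,
        (∀ i k, Continuous (fun p : ℝ × ℝ => v i p.1 p.2 k)) ∧ (∀ i R α k, ‖v i R α k‖ ≤ 1) ∧
        ∀ w : (Fin L → ℝ) × (Fin L → ℝ), ‖w‖ ≤ Bd → ∀ R ∈ Icc Ra (Ra + 1 / 2 ^ n), R ≤ 2 * R₀ →
          ‖Vt φ (fun θ => R * Hw H₀ w θ + σ * R₀ ^ (-(1 / 2) : ℝ)) (R₀ ^ (-(1 / 2) : ℝ)) n‖ ≤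
            C * R₀ ^ (1 / 2 : ℝ) * ((2 : ℝ) ^ n) ^ (-(3 / 2) : ℝ) *
              (∑ i, Zf ((R₀ * 2 ^ n) ^ (-(1 / 2) : ℝ)) n Ra (v i) w) + C := by
  obtain ⟨B', hB'⟩ := Hw_bdd2 L B Bd
  obtain ⟨Cv, hCv, hv⟩ := vt_red B'
  obtain ⟨nT₁, C₁, hC₁, h₁⟩ := base2 L B Bd
  obtain ⟨nT₂, C₂, hC₂, h₂⟩ := sobolev2 L B Bd
  set e := (Fintype.equivFin (Fin 2 × (Fin nT₁ × Fin nT₂))) with he
  refine ⟨Fintype.card (Fin 2 × (Fin nT₁ × Fin nT₂)), C₁ * C₂ + Cv, by positivity, ?_⟩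
  intro H₀ hH₀ φ hφ R₀ hR₀ n σ hσ Ra hRa
  have h0 := hH₀.smooth
  have hR₀' : 0 < R₀ := by linarith
  have hK : (0 : ℝ) < 2 ^ n := by positivity
  set δ : ℝ := R₀ ^ (-(1 / 2) : ℝ) with hδ
  set β : ℝ := (R₀ * 2 ^ n) ^ (-(1 / 2) : ℝ) with hβd
  have hδ0 : 0 < δ := by positivity
  have hδ1 : δ ≤ 1 := rpow_le_one_of_one_le_of_nonpos hR₀ (by norm_num)
  have hβ : 0 < β := by positivity
  have hσ1 : |σ| ≤ 1 := by rcases hσ with h | h <;> simp [h]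
  obtain ⟨c1, c2, hc1, hc2, hn1, hn2, hvt⟩ := hv φ hφ R₀ hR₀ n σ hσ
  obtain ⟨b1, hb1c, hb1n, hb1⟩ := h₁ H₀ hH₀ n c1 hc1 hn1
  obtain ⟨b2, hb2c, hb2n, hb2⟩ := h₁ H₀ hH₀ n c2 hc2 hn2
  choose b1' hb1c' hb1n' hb1' using fun i => h₂ H₀ hH₀ n (b1 i) (hb1c i) (hb1n i)
  choose b2' hb2c' hb2n' hb2' using fun i => h₂ H₀ hH₀ n (b2 i) (hb2c i) (hb2n i)
  let vv : Fin 2 → (Fin nT₁ × Fin nT₂) → ℝ → ℝ → ℤ × ℤ → ℂ := fun j p R α k =>
    (if j = 0 then b1' p.1 p.2 α k else b2' p.1 p.2 α k) * ee (-(R * nk k * gph H₀ k α))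
  refine ⟨fun i => vv (e.symm i).1 (e.symm i).2, ?_, ?_, ?_⟩
  · intro i k
    have h1 := l9c_gph_cont h0 k
    have h3 : Continuous (fun p : ℝ × ℝ => if (e.symm i).1 = 0 then b1' (e.symm i).2.1 (e.symm i).2.2 p.2 k else
        b2' (e.symm i).2.1 (e.symm i).2.2 p.2 k) := by
      split_ifs
      · exact (hb1c' (e.symm i).2.1 (e.symm i).2.2 k).comp (continuous_snd (X := ℝ) (Y := ℝ))
      · exact (hb2c' (e.symm i).2.1 (e.symm i).2.2 k).comp (continuous_snd (X := ℝ) (Y := ℝ))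
    refine Continuous.mul h3 (ee_cont.comp ?_)
    fun_prop
  · intro i R α k
    show ‖(if (e.symm i).1 = 0 then b1' (e.symm i).2.1 (e.symm i).2.2 α k else
        b2' (e.symm i).2.1 (e.symm i).2.2 α k) * ee (-(R * nk k * gph H₀ k α))‖ ≤ 1
    rw [norm_mul, ee_norm, mul_one]
    split_ifs
    · exact hb1n' _ _ α k
    · exact hb2n' _ _ α k
  intro w hw R hR hR2
  have hRI : R ∈ Icc R₀ (2 * R₀) := ⟨hRa.1.trans hR.1, hR2⟩
  have hmain := hvt (Hw H₀ w) (hB' H₀ hH₀ w hw) R hRI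
  have ha0 : |σ * δ / R₀| ≤ 2 := by
    rw [abs_div, abs_mul, abs_of_pos hδ0, abs_of_pos hR₀', div_le_iff₀ hR₀']
    nlinarith [abs_nonneg σ]
  have hb0 : |R / R₀| ≤ 2 := by
    have : 0 ≤ R / R₀ := div_nonneg (by linarith [hRI.1]) hR₀'.le
    rw [abs_of_nonneg this, div_le_iff₀ hR₀']
    exact hR2
  have hp1 := l9c_part (C₂ := C₂) h0 hβ n Ra hC₁ b1 b1' hb1c' w R
    (fun α => TS n (blk n) (c1 α) (σ * δ / R₀) (R / R₀) R α (Hw H₀ w))
    (fun α => hb1 w hw R α _ _ ha0 hb0) (fun i α => hb1' i Ra w hw α R hR)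
  have hp2 := l9c_part (C₂ := C₂) h0 hβ n Ra hC₁ b2 b2' hb2c' w R
    (fun α => TS n (blk n) (c2 α) 1 0 R α (Hw H₀ w))
    (fun α => hb2 w hw R α _ _ (by norm_num) (by norm_num)) (fun i α => hb2' i Ra w hw α R hR)
  set Z : ℝ := ∑ i, Zf β n Ra (vv (e.symm i).1 (e.symm i).2) w with hZ
  have hZe : Z = (∑ p : Fin nT₁ × Fin nT₂, Zf β n Ra
      (fun R α k => b1' p.1 p.2 α k * ee (-(R * nk k * gph H₀ k α))) w) +
      ∑ p : Fin nT₁ × Fin nT₂, Zf β n Ra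
      (fun R α k => b2' p.1 p.2 α k * ee (-(R * nk k * gph H₀ k α))) w := by
    rw [hZ, e.symm.sum_comp (fun x : Fin 2 × (Fin nT₁ × Fin nT₂) => Zf β n Ra (vv x.1 x.2) w),
      Fintype.sum_prod_type, Fin.sum_univ_two]
    rfl
  have hZ0 : 0 ≤ Z := by
    refine Finset.sum_nonneg (fun p _ => ?_)
    unfold Zf
    refine integral_nonneg (fun R => integral_nonneg (fun α => ?_))
    have := l9c_k0_nonneg hβ α
    show (0 : ℝ) ≤ 2 ^ n * k0 β α * ‖_‖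
    positivity
  set P : ℝ := R₀ ^ (1 / 2 : ℝ) * ((2 : ℝ) ^ n) ^ (-(3 / 2) : ℝ) with hP
  have hP0 : 0 < P := by positivity
  have hsum := add_le_add hp1 hp2
  rw [← mul_add, ← hZe] at hsum
  have h5 := mul_le_mul_of_nonneg_left hsum hP0.le
  have h6 : 0 ≤ Cv * P * Z := by positivity
  have h7 : 0 ≤ C₁ * C₂ := by positivity
  calc ‖Vt φ (fun θ => R * Hw H₀ w θ + σ * δ) δ n‖ ≤ P * (C₁ * C₂ * Z) + Cv := by linarith
    _ ≤ (C₁ * C₂ + Cv) * P * Z + (C₁ * C₂ + Cv) := by linarith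
    _ = _ := by
        rw [hP]
        ring

end Pool.Agent.Helper76.EO
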