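import Pool.Agent.Helper76.EO.L8
import Pool.Agent.Helper76.EO.L9c

/-!
# EO-L10: large blocks, probability bound uniform in `H₀`

PROOF. As in `main_finite` (Helper22/AE/K2). `e2, c, C, R₁` from `key2` (`c ≤ 1`), `nT, C'` from `types2` with `Bd = B`. For `R₀ = 2^N ≥ R₁`, each `n`
with `R₀^ε ≤ 2^n ≤ R₀^(1/2+e2)` (so `n ≤ N`), `σ = ±1`, `j ≤ 2^N 2^n`, `Ra = 2^N + j/2^n`, weights `v i`: outside of the union of the sets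
`{(2^n)^(3/2-c) < Zf .. (v i) w}`, of measure `≤ (N+1) · 2 · (2^N 2^n + 1) nT C (2^N 2^n)⁻¹ (2^n)^(-1/40) ≤ 4 nT C (N+1) 2^(-Nε/40)`, one has
`‖Vt‖ ≤ C' nT R₀^(1/2) (2^n)^(-3/2) (2^n)^(3/2-c) + C' = C' nT R₀^(1/2) (2^n)^(-c) + C' ≤ C'(nT+1) R₀^(1/2 - ε c)` (`2^n ≥ R₀^ε`, `εc ≤ 1/2`, as
`c ≤ 1/2`; otherwise replace `c` by `min c (1/2)`). Take the new `c` as `min (ε c) (ε/80)/2` or similar (`(N+1) 2^(-Nε/40) ≤ C'' 2^(-Nε/80)`).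
-/

open MeasureTheory Real Set Filter Topology

set_option autoImplicit false

namespace Pool.Agent.Helper76.EO

open Pool.Agent.Helper22.AE

private def l10_sgn (b : Bool) : ℝ := if b then 1 else -1

private lemma l10_sgn_or (b : Bool) : l10_sgn b = 1 ∨ l10_sgn b = -1 := by
  cases b <;> simp [l10_sgn]

private lemma l10_sgn_surj {σ : ℝ} (h : σ = 1 ∨ σ = -1) : ∃ b, σ = l10_sgn b := by
  rcases h with h | h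
  · exact ⟨true, by simp [l10_sgn, h]⟩
  · exact ⟨false, by simp [l10_sgn, h]⟩

/-- the arithmetic of the grid -/
private lemma l10_grid {N n : ℕ} {R : ℝ} (h1 : (2 : ℝ) ^ N ≤ R) (h2 : R ≤ 2 * 2 ^ N) :
    ∃ j : ℕ, j ≤ 2 ^ N * 2 ^ n ∧ R ∈ Icc ((2 : ℝ) ^ N + j / 2 ^ n) ((2 : ℝ) ^ N + j / 2 ^ n + 1 / 2 ^ n) := by
  have hn : (0 : ℝ) < 2 ^ n := by positivity
  have h0 : 0 ≤ (R - 2 ^ N) * 2 ^ n := mul_nonneg (by linarith) hn.le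
  refine ⟨⌊(R - 2 ^ N) * 2 ^ n⌋₊, ?_, ⟨?_, ?_⟩⟩
  · apply Nat.floor_le_of_le
    push_cast
    exact mul_le_mul_of_nonneg_right (by linarith) hn.le
  · have := Nat.floor_le h0
    have h3 : (⌊(R - 2 ^ N) * 2 ^ n⌋₊ : ℝ) / 2 ^ n ≤ R - 2 ^ N := by
      rw [div_le_iff₀ hn]
      exact this
    linarith
  · have := (Nat.lt_floor_add_one ((R - 2 ^ N) * 2 ^ n)).le
    have h3 : R - 2 ^ N ≤ (⌊(R - 2 ^ N) * 2 ^ n⌋₊ : ℝ) / 2 ^ n + 1 / 2 ^ n := by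
      rw [← add_div, le_div_iff₀ hn]
      exact this
    linarith

/-- the exceptional set of generation `N` -/
private def l10_bad {L : ℕ} (ε e2 c : ℝ) {nT : ℕ} (N : ℕ) (v : ℕ → ℕ → Bool → Fin nT → ℝ → ℝ → ℤ × ℤ → ℂ) :
    Set ((Fin L → ℝ) × (Fin L → ℝ)) :=
  ⋃ n ∈ (Finset.range (N + 1)).filter (fun n => ((2 : ℝ) ^ N) ^ ε ≤ 2 ^ n ∧ (2 : ℝ) ^ n ≤ (2 ^ N) ^ (1 / 2 + e2)),
    ⋃ j ∈ Finset.range (2 ^ N * 2 ^ n + 1), ⋃ b ∈ (Finset.univ : Finset Bool), ⋃ i ∈ (Finset.univ : Finset (Fin nT)),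
      {w | ((2 : ℝ) ^ n) ^ (3 / 2 - c) < Zf (((2 : ℝ) ^ N * 2 ^ n) ^ (-(1 / 2) : ℝ)) n (2 ^ N + j / 2 ^ n) (v n j b i) w}

private lemma l10_mem_bad {L : ℕ} {ε e2 c : ℝ} {nT : ℕ} {N : ℕ} {v : ℕ → ℕ → Bool → Fin nT → ℝ → ℝ → ℤ × ℤ → ℂ}
    {w : (Fin L → ℝ) × (Fin L → ℝ)} (hw : w ∉ l10_bad ε e2 c N v) {n : ℕ} (hn : n ≤ N) (h1 : ((2 : ℝ) ^ N) ^ ε ≤ 2 ^ n)
    (h2 : (2 : ℝ) ^ n ≤ (2 ^ N) ^ (1 / 2 + e2)) {j : ℕ} (hj : j ≤ 2 ^ N * 2 ^ n) (b : Bool) (i : Fin nT) :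
    Zf (((2 : ℝ) ^ N * 2 ^ n) ^ (-(1 / 2) : ℝ)) n (2 ^ N + j / 2 ^ n) (v n j b i) w ≤ ((2 : ℝ) ^ n) ^ (3 / 2 - c) := by
  by_contra hcon
  rw [not_le] at hcon
  apply hw
  unfold l10_bad
  simp only [mem_iUnion, Finset.mem_filter, Finset.mem_range, mem_setOf_eq, Finset.mem_univ, exists_prop, true_and]
  exact ⟨n, ⟨Nat.lt_succ_of_le hn, h1, h2⟩, j, Nat.lt_succ_of_le hj, b, i, hcon⟩

private lemma l10_bad_measure {L : ℕ} {ε e2 c C R₁ : ℝ} (hC : 0 < C) {nT : ℕ} {N : ℕ}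
    (v : ℕ → ℕ → Bool → Fin nT → ℝ → ℝ → ℤ × ℤ → ℂ)
    (hkey : ∀ R₀ : ℝ, R₁ ≤ R₀ → ∀ n : ℕ,
      R₀ ^ ε ≤ (2 : ℝ) ^ n → (2 : ℝ) ^ n ≤ R₀ ^ (1 / 2 + e2) → ∀ Ra : ℝ, R₀ ≤ Ra → ∀ β : ℝ, 0 < β →
      ∀ v : ℝ → ℝ → ℤ × ℤ → ℂ, (∀ k, Continuous (fun p : ℝ × ℝ => v p.1 p.2 k)) → (∀ R α k, ‖v R α k‖ ≤ 1) →
        (gm L).real {w | ((2 : ℝ) ^ n) ^ (3 / 2 - c) < Zf β n Ra v w} ≤
          C * (R₀ * 2 ^ n)⁻¹ * ((2 : ℝ) ^ n) ^ (-(1 / 40) : ℝ))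
    (hN : R₁ ≤ 2 ^ N)
    (hv : ∀ n j b, j ≤ 2 ^ N * 2 ^ n → (∀ i k, Continuous (fun p : ℝ × ℝ => v n j b i p.1 p.2 k)) ∧
      (∀ i R α k, ‖v n j b i R α k‖ ≤ 1)) :
    (gm L).real (l10_bad ε e2 c N v) ≤ (N + 1) * (4 * nT * C * ((2 : ℝ) ^ N) ^ (-(ε / 40))) := by
  have hfin : IsFiniteMeasure (gm L) := ⟨by rw [gm_univ]; exact ENNReal.one_lt_top⟩
  unfold l10_bad
  refine (measureReal_biUnion_finset_le _ _).trans ?_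
  have h1 : ∀ n ∈ (Finset.range (N + 1)).filter
      (fun n => ((2 : ℝ) ^ N) ^ ε ≤ 2 ^ n ∧ (2 : ℝ) ^ n ≤ (2 ^ N) ^ (1 / 2 + e2)),
      (gm L).real (⋃ j ∈ Finset.range (2 ^ N * 2 ^ n + 1), ⋃ b ∈ (Finset.univ : Finset Bool),
        ⋃ i ∈ (Finset.univ : Finset (Fin nT)),
        {w | ((2 : ℝ) ^ n) ^ (3 / 2 - c) < Zf (((2 : ℝ) ^ N * 2 ^ n) ^ (-(1 / 2) : ℝ)) n (2 ^ N + j / 2 ^ n) (v n j b i) w}) ≤
        4 * nT * C * ((2 : ℝ) ^ N) ^ (-(ε / 40)) := by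
    intro n hn
    rw [Finset.mem_filter] at hn
    obtain ⟨_, hn1, hn2⟩ := hn
    have hA : (0 : ℝ) < 2 ^ N * 2 ^ n := by positivity
    have hp : ((2 : ℝ) ^ n) ^ (-(1 / 40) : ℝ) ≤ ((2 : ℝ) ^ N) ^ (-(ε / 40)) := by
      have e1 : ((2 : ℝ) ^ N) ^ (-(ε / 40)) = (((2 : ℝ) ^ N) ^ ε) ^ (-(1 / 40) : ℝ) := by
        rw [← Real.rpow_mul (by positivity)]
        congr 1
        ring
      rw [e1]
      exact Real.rpow_le_rpow_of_nonpos (by positivity) hn1 (by norm_num)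
    refine (measureReal_biUnion_finset_le _ _).trans ?_
    have h2 : ∀ j ∈ Finset.range (2 ^ N * 2 ^ n + 1),
        (gm L).real (⋃ b ∈ (Finset.univ : Finset Bool), ⋃ i ∈ (Finset.univ : Finset (Fin nT)),
        {w | ((2 : ℝ) ^ n) ^ (3 / 2 - c) < Zf (((2 : ℝ) ^ N * 2 ^ n) ^ (-(1 / 2) : ℝ)) n (2 ^ N + j / 2 ^ n) (v n j b i) w}) ≤
        2 * (nT * (C * (2 ^ N * 2 ^ n)⁻¹ * ((2 : ℝ) ^ n) ^ (-(1 / 40) : ℝ))) := by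
      intro j hj
      rw [Finset.mem_range] at hj
      refine (measureReal_biUnion_finset_le _ _).trans ?_
      have h3 : ∀ b ∈ (Finset.univ : Finset Bool), (gm L).real (⋃ i ∈ (Finset.univ : Finset (Fin nT)),
          {w | ((2 : ℝ) ^ n) ^ (3 / 2 - c) < Zf (((2 : ℝ) ^ N * 2 ^ n) ^ (-(1 / 2) : ℝ)) n (2 ^ N + j / 2 ^ n) (v n j b i) w}) ≤
          nT * (C * (2 ^ N * 2 ^ n)⁻¹ * ((2 : ℝ) ^ n) ^ (-(1 / 40) : ℝ)) := by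
        intro b _
        refine (measureReal_biUnion_finset_le _ _).trans ?_
        obtain ⟨hc, hb⟩ := hv n j b (Nat.lt_succ_iff.1 hj)
        refine (Finset.sum_le_card_nsmul _ _ (C * (2 ^ N * 2 ^ n)⁻¹ * ((2 : ℝ) ^ n) ^ (-(1 / 40) : ℝ)) (fun i _ => ?_)).trans
          (le_of_eq ?_)
        · refine hkey (2 ^ N) hN n hn1 hn2 (2 ^ N + j / 2 ^ n) ?_ _ ?_ (v n j b i) (hc i) (hb i)
          · have : (0 : ℝ) ≤ j / 2 ^ n := by positivity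
            linarith
          · positivity
        · rw [Finset.card_univ, Fintype.card_fin, nsmul_eq_mul]
      refine (Finset.sum_le_card_nsmul _ _ _ h3).trans (le_of_eq ?_)
      rw [Finset.card_univ, Fintype.card_bool, nsmul_eq_mul]
      norm_num
    refine (Finset.sum_le_card_nsmul _ _ _ h2).trans ?_
    rw [Finset.card_range, nsmul_eq_mul]
    push_cast
    have h4 : ((2 : ℝ) ^ N * 2 ^ n + 1) ≤ 2 * (2 ^ N * 2 ^ n) := by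
      have a1 : (1 : ℝ) ≤ 2 ^ N := one_le_pow₀ (by norm_num)
      have a2 : (1 : ℝ) ≤ 2 ^ n := one_le_pow₀ (by norm_num)
      nlinarith
    calc ((2 : ℝ) ^ N * 2 ^ n + 1) * (2 * (nT * (C * (2 ^ N * 2 ^ n)⁻¹ * ((2 : ℝ) ^ n) ^ (-(1 / 40) : ℝ))))
        ≤ 2 * (2 ^ N * 2 ^ n) * (2 * (nT * (C * (2 ^ N * 2 ^ n)⁻¹ * ((2 : ℝ) ^ n) ^ (-(1 / 40) : ℝ)))) :=
          mul_le_mul_of_nonneg_right h4 (by positivity)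
      _ = 4 * nT * C * ((2 : ℝ) ^ n) ^ (-(1 / 40) : ℝ) := by
          field_simp
          ring
      _ ≤ 4 * nT * C * ((2 : ℝ) ^ N) ^ (-(ε / 40)) := mul_le_mul_of_nonneg_left hp (by positivity)
  refine (Finset.sum_le_card_nsmul _ _ _ h1).trans ?_
  rw [nsmul_eq_mul]
  refine mul_le_mul_of_nonneg_right ?_ (by positivity)
  have h6 : ((Finset.range (N + 1)).filter
      (fun n => ((2 : ℝ) ^ N) ^ ε ≤ 2 ^ n ∧ (2 : ℝ) ^ n ≤ (2 ^ N) ^ (1 / 2 + e2))).card ≤ N + 1 :=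
    (Finset.card_filter_le _ _).trans (by rw [Finset.card_range])
  exact_mod_cast h6

private lemma l10_log {η : ℝ} (hη : 0 < η) (N : ℕ) : (N : ℝ) + 1 ≤ (1 / (η * log 2) + 1) * ((2 : ℝ) ^ N) ^ η := by
  have hl : 0 < log 2 := Real.log_pos (by norm_num)
  have h1 : ((2 : ℝ) ^ N) ^ η = exp (N * (log 2 * η)) := by
    rw [← Real.rpow_natCast, ← Real.rpow_mul (by norm_num), Real.rpow_def_of_pos (by norm_num)]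
    congr 1
    ring
  have h2 := Real.add_one_le_exp (N * (log 2 * η))
  have h3 : (N : ℝ) = 1 / (η * log 2) * (N * (log 2 * η)) := by
    field_simp
  have h4 : (1 : ℝ) ≤ exp (N * (log 2 * η)) := Real.one_le_exp (by positivity)
  have h5 : (N : ℝ) ≤ 1 / (η * log 2) * exp (N * (log 2 * η)) := by
    calc (N : ℝ) = 1 / (η * log 2) * (N * (log 2 * η)) := h3
      _ ≤ _ := mul_le_mul_of_nonneg_left (by linarith) (by positivity)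
  rw [h1, add_mul, one_mul]
  linarith

/-- one block -/
private lemma l10_block {L : ℕ} {ε c0 c C' : ℝ} (hC' : 0 ≤ C') {nT : ℕ} (hc0 : 0 < c0)
    (hcc : c ≤ ε * c0) (hc2 : c ≤ 1 / 2)
    (v : Fin nT → ℝ → ℝ → ℤ × ℤ → ℂ) {N n : ℕ} {Ra x : ℝ}
    {w : (Fin L → ℝ) × (Fin L → ℝ)} (hn : ((2 : ℝ) ^ N) ^ ε ≤ 2 ^ n)
    (hx : x ≤ C' * ((2 : ℝ) ^ N) ^ (1 / 2 : ℝ) * ((2 : ℝ) ^ n) ^ (-(3 / 2) : ℝ) *
              (∑ i, Zf (((2 : ℝ) ^ N * 2 ^ n) ^ (-(1 / 2) : ℝ)) n Ra (v i) w) + C')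
    (hZ : ∀ i, Zf (((2 : ℝ) ^ N * 2 ^ n) ^ (-(1 / 2) : ℝ)) n Ra (v i) w ≤ ((2 : ℝ) ^ n) ^ (3 / 2 - c0)) :
    x ≤ (C' * nT + C') * ((2 : ℝ) ^ N) ^ (1 / 2 - c) := by
  have hK : (0 : ℝ) < 2 ^ n := by positivity
  have hR : (1 : ℝ) ≤ 2 ^ N := one_le_pow₀ (by norm_num)
  have hR0 : (0 : ℝ) < 2 ^ N := by positivity
  have hone : (1 : ℝ) ≤ ((2 : ℝ) ^ N) ^ (1 / 2 - c) := Real.one_le_rpow hR (by linarith)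
  have h1 : ∑ i, Zf (((2 : ℝ) ^ N * 2 ^ n) ^ (-(1 / 2) : ℝ)) n Ra (v i) w ≤ nT * ((2 : ℝ) ^ n) ^ (3 / 2 - c0) := by
    refine (Finset.sum_le_card_nsmul _ _ _ (fun i _ => hZ i)).trans (le_of_eq ?_)
    rw [Finset.card_univ, Fintype.card_fin, nsmul_eq_mul]
  have h2 : ((2 : ℝ) ^ n) ^ (-(3 / 2) : ℝ) * ((2 : ℝ) ^ n) ^ (3 / 2 - c0) = ((2 : ℝ) ^ n) ^ (-c0) := by
    rw [← Real.rpow_add hK]
    congr 1
    ring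
  have h3 : ((2 : ℝ) ^ n) ^ (-c0) ≤ ((2 : ℝ) ^ N) ^ (-c) := by
    calc ((2 : ℝ) ^ n) ^ (-c0) ≤ (((2 : ℝ) ^ N) ^ ε) ^ (-c0) :=
          Real.rpow_le_rpow_of_nonpos (by positivity) hn (by linarith)
      _ = ((2 : ℝ) ^ N) ^ (ε * -c0) := by rw [← Real.rpow_mul hR0.le]
      _ ≤ _ := Real.rpow_le_rpow_of_exponent_le hR (by linarith)
  have hmain : C' * ((2 : ℝ) ^ N) ^ (1 / 2 : ℝ) * ((2 : ℝ) ^ n) ^ (-(3 / 2) : ℝ) *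
      (∑ i, Zf (((2 : ℝ) ^ N * 2 ^ n) ^ (-(1 / 2) : ℝ)) n Ra (v i) w) ≤
      C' * nT * ((2 : ℝ) ^ N) ^ (1 / 2 - c) := by
    calc C' * ((2 : ℝ) ^ N) ^ (1 / 2 : ℝ) * ((2 : ℝ) ^ n) ^ (-(3 / 2) : ℝ) *
          (∑ i, Zf (((2 : ℝ) ^ N * 2 ^ n) ^ (-(1 / 2) : ℝ)) n Ra (v i) w)
        ≤ C' * ((2 : ℝ) ^ N) ^ (1 / 2 : ℝ) * ((2 : ℝ) ^ n) ^ (-(3 / 2) : ℝ) * (nT * ((2 : ℝ) ^ n) ^ (3 / 2 - c0)) :=
          mul_le_mul_of_nonneg_left h1 (by positivity)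
      _ = C' * nT * (((2 : ℝ) ^ N) ^ (1 / 2 : ℝ) * (((2 : ℝ) ^ n) ^ (-(3 / 2) : ℝ) * ((2 : ℝ) ^ n) ^ (3 / 2 - c0))) := by ring
      _ = C' * nT * (((2 : ℝ) ^ N) ^ (1 / 2 : ℝ) * ((2 : ℝ) ^ n) ^ (-c0)) := by rw [h2]
      _ ≤ C' * nT * (((2 : ℝ) ^ N) ^ (1 / 2 : ℝ) * ((2 : ℝ) ^ N) ^ (-c)) := by
          refine mul_le_mul_of_nonneg_left (mul_le_mul_of_nonneg_left h3 (by positivity)) (by positivity)
      _ = C' * nT * ((2 : ℝ) ^ N) ^ (1 / 2 - c) := by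
          rw [← Real.rpow_add hR0]
          congr 2
  have hc : C' ≤ C' * ((2 : ℝ) ^ N) ^ (1 / 2 - c) := le_mul_of_one_le_right hC' hone
  calc x ≤ _ := hx
    _ ≤ C' * nT * ((2 : ℝ) ^ N) ^ (1 / 2 - c) + C' * ((2 : ℝ) ^ N) ^ (1 / 2 - c) := add_le_add hmain hc
    _ = _ := by ring

theorem large_prob {ε : ℝ} (hε : 0 < ε) (hε1 : ε ≤ 1) {L : ℕ} (hL : 2 / ε + 8 ≤ L) :
    ∃ e2 c : ℝ, 0 < e2 ∧ e2 ≤ 1 / 4 ∧ 0 < c ∧ ∀ B : ℝ, ∃ C R₁ : ℝ, 0 < C ∧ 1 ≤ R₁ ∧ ∀ H₀ : ℝ → ℝ, Bdd2 B H₀ →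
      ∀ (φ : ℝ × ℝ → ℝ), IsBump φ → ∀ N : ℕ, R₁ ≤ 2 ^ N →
        (gm L).real {w | ‖w‖ ≤ B ∧ ∃ n : ℕ, ((2 : ℝ) ^ N) ^ ε ≤ 2 ^ n ∧ (2 : ℝ) ^ n ≤ (2 ^ N) ^ (1 / 2 + e2) ∧
          ∃ σ : ℝ, (σ = 1 ∨ σ = -1) ∧ ∃ R ∈ Icc ((2 : ℝ) ^ N) (2 * 2 ^ N),
            C * ((2 : ℝ) ^ N) ^ (1 / 2 - c) <
              ‖Vt φ (fun θ => R * Hw H₀ w θ + σ * ((2 : ℝ) ^ N) ^ (-(1 / 2) : ℝ)) (((2 : ℝ) ^ N) ^ (-(1 / 2) : ℝ)) n‖} ≤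
          C * ((2 : ℝ) ^ N) ^ (-c) := by
  obtain ⟨e2, c0, C0, R₁, he2, he2', hc0, hc0', hC0, hR₁, hkey⟩ := key2 hε hε1 hL
  have hl : 0 < log 2 := Real.log_pos (by norm_num)
  have hfin : IsFiniteMeasure (gm L) := ⟨by rw [gm_univ]; exact ENNReal.one_lt_top⟩
  obtain ⟨c, hc⟩ : ∃ c : ℝ, c = min (ε * c0) (ε / 80) := ⟨_, rfl⟩
  have hc1 : c ≤ ε * c0 := hc.le.trans (min_le_left _ _)
  have hc2 : c ≤ ε / 80 := hc.le.trans (min_le_right _ _)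
  have hcpos : 0 < c := by
    rw [hc]
    exact lt_min (by positivity) (by positivity)
  refine ⟨e2, c, he2, he2', hcpos, fun B => ?_⟩
  obtain ⟨nT, C', hC', htypes⟩ := types2 L B B
  obtain ⟨K, hK⟩ : ∃ K : ℝ, K = 1 / (ε / 80 * log 2) + 1 := ⟨_, rfl⟩
  have hK0 : 0 < K := by
    rw [hK]
    positivity
  refine ⟨(C' * nT + C') + 4 * nT * C0 * K + 1, R₁, by positivity, hR₁, ?_⟩
  intro H₀ hH₀ φ hφ N hN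
  have hR : (1 : ℝ) ≤ 2 ^ N := one_le_pow₀ (by norm_num)
  have hR0 : (0 : ℝ) < 2 ^ N := by positivity
  have hex : ∀ (n j : ℕ) (b : Bool), ∃ v : Fin nT → ℝ → ℝ → ℤ × ℤ → ℂ, j ≤ 2 ^ N * 2 ^ n →
      (∀ i k, Continuous (fun p : ℝ × ℝ => v i p.1 p.2 k)) ∧ (∀ i R α k, ‖v i R α k‖ ≤ 1) ∧
      ∀ w : (Fin L → ℝ) × (Fin L → ℝ), ‖w‖ ≤ B → ∀ R ∈ Icc ((2 : ℝ) ^ N + j / 2 ^ n) ((2 : ℝ) ^ N + j / 2 ^ n + 1 / 2 ^ n),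
        R ≤ 2 * 2 ^ N →
        ‖Vt φ (fun θ => R * Hw H₀ w θ + l10_sgn b * ((2 : ℝ) ^ N) ^ (-(1 / 2) : ℝ)) (((2 : ℝ) ^ N) ^ (-(1 / 2) : ℝ)) n‖ ≤
          C' * ((2 : ℝ) ^ N) ^ (1 / 2 : ℝ) * ((2 : ℝ) ^ n) ^ (-(3 / 2) : ℝ) *
            (∑ i, Zf (((2 : ℝ) ^ N * 2 ^ n) ^ (-(1 / 2) : ℝ)) n ((2 : ℝ) ^ N + j / 2 ^ n) (v i) w) + C' := by
    intro n j b
    by_cases hj : j ≤ 2 ^ N * 2 ^ n
    · have hRa : (2 : ℝ) ^ N + j / 2 ^ n ∈ Icc ((2 : ℝ) ^ N) (2 * 2 ^ N) := by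
        have h1 : (0 : ℝ) ≤ j / 2 ^ n := by positivity
        have h2 : (j : ℝ) / 2 ^ n ≤ 2 ^ N := by
          rw [div_le_iff₀ (by positivity)]
          exact_mod_cast hj
        constructor <;> linarith
      obtain ⟨v, h1, h2, h3⟩ := htypes H₀ hH₀ φ hφ (2 ^ N) hR n (l10_sgn b) (l10_sgn_or b) _ hRa
      exact ⟨v, fun _ => ⟨h1, h2, h3⟩⟩
    · exact ⟨fun _ _ _ _ => 0, fun h => absurd h hj⟩
  choose v hv using hex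
  have hbad := l10_bad_measure (L := L) hC0 v hkey hN (fun n j b hj => ⟨(hv n j b hj).1, (hv n j b hj).2.1⟩)
  have hsub : {w : (Fin L → ℝ) × (Fin L → ℝ) | ‖w‖ ≤ B ∧ ∃ n : ℕ, ((2 : ℝ) ^ N) ^ ε ≤ 2 ^ n ∧ (2 : ℝ) ^ n ≤ (2 ^ N) ^ (1 / 2 + e2) ∧
          ∃ σ : ℝ, (σ = 1 ∨ σ = -1) ∧ ∃ R ∈ Icc ((2 : ℝ) ^ N) (2 * 2 ^ N),
            ((C' * nT + C') + 4 * nT * C0 * K + 1) * ((2 : ℝ) ^ N) ^ (1 / 2 - c) <
              ‖Vt φ (fun θ => R * Hw H₀ w θ + σ * ((2 : ℝ) ^ N) ^ (-(1 / 2) : ℝ)) (((2 : ℝ) ^ N) ^ (-(1 / 2) : ℝ)) n‖} ⊆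
      l10_bad ε e2 c0 N v := by
    rintro w ⟨hwB, n, hn1, hn2, σ, hσ, R, hRI, hlt⟩
    by_contra hcon
    obtain ⟨b, rfl⟩ := l10_sgn_surj hσ
    have hnN : n ≤ N := by
      have h1 : (2 : ℝ) ^ n ≤ 2 ^ N := by
        calc (2 : ℝ) ^ n ≤ (2 ^ N) ^ (1 / 2 + e2) := hn2
          _ ≤ ((2 : ℝ) ^ N) ^ (1 : ℝ) := Real.rpow_le_rpow_of_exponent_le hR (by linarith)
          _ = 2 ^ N := Real.rpow_one _
      exact (pow_le_pow_iff_right₀ (one_lt_two : (1 : ℝ) < 2)).1 h1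
    obtain ⟨j, hj1, hj2⟩ := l10_grid (n := n) hRI.1 hRI.2
    obtain ⟨g1, g2, g3⟩ := hv n j b hj1
    have h1 := l10_block (C' := C') (c := c) hC' hc0 hc1 (by linarith) (v n j b) hn1 (g3 w hwB R hj2 hRI.2)
      (fun i => l10_mem_bad hcon hnN hn1 hn2 hj1 b i)
    have h2 : (C' * nT + C') * ((2 : ℝ) ^ N) ^ (1 / 2 - c) ≤
        ((C' * nT + C') + 4 * nT * C0 * K + 1) * ((2 : ℝ) ^ N) ^ (1 / 2 - c) := by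
      refine mul_le_mul_of_nonneg_right ?_ (by positivity)
      have : 0 ≤ 4 * nT * C0 * K := by positivity
      linarith
    linarith
  refine (measureReal_mono hsub (measure_ne_top _ _)).trans (hbad.trans ?_)
  have h4 := l10_log (η := ε / 80) (by positivity) N
  rw [← hK] at h4
  calc ((N : ℝ) + 1) * (4 * nT * C0 * ((2 : ℝ) ^ N) ^ (-(ε / 40)))
      ≤ (K * ((2 : ℝ) ^ N) ^ (ε / 80)) * (4 * nT * C0 * ((2 : ℝ) ^ N) ^ (-(ε / 40))) :=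
        mul_le_mul_of_nonneg_right h4 (by positivity)
    _ = 4 * nT * C0 * K * (((2 : ℝ) ^ N) ^ (ε / 80) * ((2 : ℝ) ^ N) ^ (-(ε / 40))) := by ring
    _ = 4 * nT * C0 * K * ((2 : ℝ) ^ N) ^ (-(ε / 80)) := by
        rw [← Real.rpow_add hR0]
        congr 2
        ring
    _ ≤ 4 * nT * C0 * K * ((2 : ℝ) ^ N) ^ (-c) := by
        refine mul_le_mul_of_nonneg_left (Real.rpow_le_rpow_of_exponent_le hR (by linarith)) (by positivity)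
    _ ≤ _ := by
        refine mul_le_mul_of_nonneg_right ?_ (by positivity)
        have : 0 ≤ C' * nT + C' := by positivity
        linarith

end Pool.Agent.Helper76.EO
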