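import Pool.Agent.Helper76.EO.F1
import Pool.Agent.Helper76.EO.F2
import Pool.Agent.Helper76.EO.F3
import Pool.Agent.Helper76.EO.L10

/-!
# EO-F4: large blocks for the random series

PROOF. `L = 2 m + 10`, `ε = 1/(m+1)`. `large_prob` with `B`, `density`. The event `badE` is open, hence measurable (`Pi.borelSpace`): `resample_le` with
`A = {0} ×ˢ range (2L)`; for fixed `ω`, `Hr_head` writes `Hr (A.piecewise u ω) = Hw H₁ (wv e L u)`, `H₁ = Hr (A.piecewise 0 ω)`, `Bdd2 B H₁` by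
assumption, `‖wv e L u‖ ≤ 1 ≤ B` (`e l ≤ 1`). So the probability over `u` is at most `C_dens · C (2^N)^(-c)`. The constants depend on `m`, `e` and `B` only.
-/

open MeasureTheory Real Set Filter Topology

set_option autoImplicit false

namespace Pool.Agent.Helper76.EO

open Pool.Agent.Helper22.AE

private theorem h27_clip (x : ℝ) : |clip x| ≤ 1 := by
  unfold clip
  rw [abs_le]
  exact ⟨le_max_left _ _, max_le (by norm_num) (min_le_left _ _)⟩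

private theorem h27_coef {a : ℝ} (ha : 0 < a ∧ a ≤ 1) (x : ℝ) : ‖a * clip x‖ ≤ 1 := by
  rw [Real.norm_eq_abs, abs_mul, abs_of_pos ha.1]
  exact mul_le_one₀ ha.2 (abs_nonneg _) (h27_clip x)

private theorem h27_wv {e : ℕ → ℝ} (he : ∀ l, 0 < e l ∧ e l ≤ 1) (L : ℕ) (u : Sp) : ‖wv e L u‖ ≤ 1 := by
  rw [Prod.norm_def]
  refine max_le ?_ ?_
  · exact (pi_norm_le_iff_of_nonneg zero_le_one).2 fun l => h27_coef (he l) _
  · exact (pi_norm_le_iff_of_nonneg zero_le_one).2 fun l => h27_coef (he l) _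

theorem large_series {e : ℕ → ℝ} (he : ∀ l, 0 < e l ∧ e l ≤ 1) (m : ℕ) :
    ∃ e2 c : ℝ, 0 < e2 ∧ e2 ≤ 1 / 4 ∧ 0 < c ∧ ∀ B : ℝ, 1 ≤ B → ∃ C R₁ : ℝ, 0 < C ∧ 1 ≤ R₁ ∧ ∀ (am : ℕ → ℝ) (H₀ : ℝ → ℝ),
      (famF e am).Good → ContDiff ℝ 2 H₀ → (∀ ω, Bdd2 B (Hr (famF e am) H₀ ω)) → ∀ (φ : ℝ × ℝ → ℝ), IsBump φ → ∀ N : ℕ, R₁ ≤ 2 ^ N →
        PP.real (badE (famF e am) H₀ φ N {n | ((2 : ℝ) ^ N) ^ (1 / ((m : ℝ) + 1)) ≤ 2 ^ n ∧ (2 : ℝ) ^ n ≤ (2 ^ N) ^ (1 / 2 + e2)}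
          (C * ((2 : ℝ) ^ N) ^ (1 / 2 - c))) ≤ C * ((2 : ℝ) ^ N) ^ (-c) := by
  have hm0 : (0 : ℝ) ≤ m := Nat.cast_nonneg m
  have hε : (0 : ℝ) < 1 / ((m : ℝ) + 1) := by positivity
  have hε1 : 1 / ((m : ℝ) + 1) ≤ 1 := by
    rw [div_le_one (by positivity)]
    linarith
  have hL : 2 / (1 / ((m : ℝ) + 1)) + 8 ≤ ((2 * m + 10 : ℕ) : ℝ) := by
    rw [div_div_eq_mul_div, div_one]
    push_cast
    linarith
  obtain ⟨e2, c, he2, he2', hc, hLP⟩ := large_prob hε hε1 hL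
  refine ⟨e2, c, he2, he2', hc, fun B hB => ?_⟩
  obtain ⟨C, R₁, hC, hR₁, hmain⟩ := hLP B
  obtain ⟨Cd, hCd, hdens⟩ := density he (2 * m + 10)
  refine ⟨C * (1 + Cd), R₁, by positivity, hR₁, ?_⟩
  intro am H₀ hF h0 hB2 φ hφ N hN
  have hpos : ∀ y : ℝ, 0 < ((2 : ℝ) ^ N) ^ y := fun y => Real.rpow_pos_of_pos (by positivity) _
  refine resample_le (({0} : Finset ℕ) ×ˢ Finset.range (2 * (2 * m + 10))) (bad_open hF h0 φ N _ _).measurableSet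
    (mul_nonneg (by positivity) (hpos _).le) fun ω => ?_
  obtain ⟨H₁, hH₁⟩ : ∃ H₁ : ℝ → ℝ, H₁ = Hr (famF e am) H₀
    ((({0} : Finset ℕ) ×ˢ Finset.range (2 * (2 * m + 10))).piecewise 0 ω) := ⟨_, rfl⟩
  have hH₁B : Bdd2 B H₁ := by rw [hH₁]; exact hB2 _
  have h1 := hmain H₁ hH₁B φ hφ N hN
  refine (measureReal_mono ?_ (measure_ne_top _ _)).trans ((hdens _).trans ((mul_le_mul_of_nonneg_left h1 hCd).trans ?_))
  · rintro u ⟨n, hn, σ, hσ, R, hR, hX⟩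
    refine ⟨(h27_wv he _ u).trans hB, n, hn.1, hn.2, σ, hσ, R, hR, ?_⟩
    rw [hH₁, ← Hr_head hF H₀ (2 * m + 10) u ω]
    refine lt_of_le_of_lt ?_ hX
    refine mul_le_mul_of_nonneg_right ?_ (hpos _).le
    nlinarith
  · calc Cd * (C * ((2 : ℝ) ^ N) ^ (-c)) = C * Cd * ((2 : ℝ) ^ N) ^ (-c) := by ring
      _ ≤ C * (1 + Cd) * ((2 : ℝ) ^ N) ^ (-c) := by
          refine mul_le_mul_of_nonneg_right ?_ (hpos _).le
          nlinarith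

end Pool.Agent.Helper76.EO
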