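import Pool.Agent.Helper76.EO.Base
import Pool.Agent.Helper22.AE.D3

/-!
# EO-S7: points with a short primitive vector

PROOF. `x = 2^n`. `k ∈ blk n`, `prm k ≤ Q`: `g = gcd ≥ x/Q`, and `g ≤ nk k < 2x`, both coordinates are multiples of `g` and at most `2x` in absolute
value. For each `g < 2x` there are at most `(4x/g + 1)² ≤ (6x/g)²` such `k`. `∑_{x/Q ≤ g < 2x} 36x²/g² ≤ 36x² · 2/(x/Q) = 72 x Q` if `x/Q ≥ 1`
(`∑_{g ≥ G} 1/g² ≤ 1/G² + 1/G ≤ 2/G` for real `G ≥ 1`, the sum over integers `g ≥ G`). If `Q > x`: `#blk n ≤ 25x² ≤ 25xQ` (`blk_card`).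
-/

open Real Set Filter Topology

set_option autoImplicit false

namespace Pool.Agent.Helper76.EO

open Pool.Agent.Helper22.AE

private lemma s7_coord {n : ℕ} {k : ℤ × ℤ} (hk : k ∈ blk n) :
    |(k.1 : ℝ)| ≤ nk k ∧ |(k.2 : ℝ)| ≤ nk k ∧ (2 : ℝ) ^ n ≤ nk k ∧ nk k < 2 * 2 ^ n := by
  unfold blk at hk
  rw [Finset.mem_filter] at hk
  have h1 : |(cz k).re| ≤ nk k := Complex.abs_re_le_norm (cz k)
  have h2 : |(cz k).im| ≤ nk k := Complex.abs_im_le_norm (cz k)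
  refine ⟨?_, ?_, ?_, ?_⟩
  · simpa [cz] using h1
  · simpa [cz] using h2
  · exact hk.2.1
  · have := hk.2.2
    rw [pow_succ] at this
    linarith

private lemma s7_gcd {n : ℕ} {k : ℤ × ℤ} (hk : k ∈ blk n) :
    0 < Int.gcd k.1 k.2 ∧ (Int.gcd k.1 k.2 : ℝ) ≤ nk k := by
  obtain ⟨h1, h2, h3, h4⟩ := s7_coord hk
  have hpos : (0 : ℝ) < nk k := lt_of_lt_of_le (by positivity) h3
  have hne : k.1 ≠ 0 ∨ k.2 ≠ 0 := by
    by_contra hcon
    push Not at hcon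
    have h5 : cz k = 0 := by
      apply Complex.ext <;> simp [cz, hcon.1, hcon.2]
    have h6 : nk k = 0 := by
      unfold nk
      rw [h5, norm_zero]
    exact hpos.ne' h6
  refine ⟨Int.gcd_pos_iff.2 hne, ?_⟩
  rcases hne with h | h
  · have h5 : (Int.gcd k.1 k.2 : ℤ) ≤ |k.1| :=
      Int.le_of_dvd (abs_pos.2 h) ((dvd_abs _ _).2 (Int.gcd_dvd_left _ _))
    have h6 : ((Int.gcd k.1 k.2 : ℤ) : ℝ) ≤ |(k.1 : ℝ)| := by exact_mod_cast h5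
    exact (by exact_mod_cast h6 : (Int.gcd k.1 k.2 : ℝ) ≤ |(k.1 : ℝ)|).trans h1
  · have h5 : (Int.gcd k.1 k.2 : ℤ) ≤ |k.2| :=
      Int.le_of_dvd (abs_pos.2 h) ((dvd_abs _ _).2 (Int.gcd_dvd_right _ _))
    have h6 : ((Int.gcd k.1 k.2 : ℤ) : ℝ) ≤ |(k.2 : ℝ)| := by exact_mod_cast h5
    exact (by exact_mod_cast h6 : (Int.gcd k.1 k.2 : ℝ) ≤ |(k.2 : ℝ)|).trans h2

private lemma s7_fiber (n g : ℕ) :
    ((((blk n).filter (fun k => Int.gcd k.1 k.2 = g)).card : ℕ) : ℝ) ≤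
      36 * (2 ^ n) ^ 2 * ((g : ℝ) ^ 2)⁻¹ := by
  classical
  by_cases hemp : ((blk n).filter (fun k => Int.gcd k.1 k.2 = g)) = ∅
  · rw [hemp, Finset.card_empty, Nat.cast_zero]
    positivity
  obtain ⟨k0, hk0⟩ := Finset.nonempty_iff_ne_empty.2 hemp
  rw [Finset.mem_filter] at hk0
  have hg0 : 0 < g := hk0.2 ▸ (s7_gcd hk0.1).1
  have hgx : (g : ℝ) < 2 * 2 ^ n := by
    have h1 := (s7_gcd hk0.1).2
    rw [hk0.2] at h1
    exact lt_of_le_of_lt h1 (s7_coord hk0.1).2.2.2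
  set N : ℕ := 2 ^ (n + 1) / g with hN
  have hmap : ∀ k ∈ (blk n).filter (fun k => Int.gcd k.1 k.2 = g),
      ((fun k : ℤ × ℤ => (k.1 / (g : ℤ), k.2 / (g : ℤ))) k) ∈
        (Finset.Icc (-(N : ℤ)) N) ×ˢ (Finset.Icc (-(N : ℤ)) N) := by
    intro k hk
    rw [Finset.mem_filter] at hk
    obtain ⟨h1, h2, h3, h4⟩ := s7_coord hk.1
    have key : ∀ m : ℤ, (g : ℤ) ∣ m → |(m : ℝ)| ≤ nk k → m / (g : ℤ) ∈ Finset.Icc (-(N : ℤ)) N := by
      rintro m ⟨c, rfl⟩ hm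
      rw [Int.mul_ediv_cancel_left _ (by exact_mod_cast hg0.ne')]
      have h5 : |((g : ℤ) * c : ℤ)| ≤ (2 ^ (n + 1) : ℤ) := by
        have h6 : |(((g : ℤ) * c : ℤ) : ℝ)| ≤ ((2 ^ (n + 1) : ℤ) : ℝ) := by
          push_cast
          rw [pow_succ]
          push_cast at hm
          linarith
        exact_mod_cast h6
      rw [abs_mul, Nat.abs_cast] at h5
      have h7 : c.natAbs ≤ N := by
        rw [hN, Nat.le_div_iff_mul_le hg0]
        zify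
        rw [mul_comm]
        exact h5
      rw [Finset.mem_Icc]
      omega
    rw [Finset.mem_product]
    exact ⟨key _ (hk.2 ▸ Int.gcd_dvd_left _ _) h1, key _ (hk.2 ▸ Int.gcd_dvd_right _ _) h2⟩
  have hinj : Set.InjOn (fun k : ℤ × ℤ => (k.1 / (g : ℤ), k.2 / (g : ℤ)))
      ((blk n).filter (fun k => Int.gcd k.1 k.2 = g) : Finset (ℤ × ℤ)) := by
    intro k hk k' hk' he
    rw [Finset.mem_coe, Finset.mem_filter] at hk hk'
    have e1 := congrArg Prod.fst he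
    have e2 := congrArg Prod.snd he
    simp only at e1 e2
    have d1 : (g : ℤ) ∣ k.1 := hk.2 ▸ Int.gcd_dvd_left _ _
    have d2 : (g : ℤ) ∣ k.2 := hk.2 ▸ Int.gcd_dvd_right _ _
    have d3 : (g : ℤ) ∣ k'.1 := hk'.2 ▸ Int.gcd_dvd_left _ _
    have d4 : (g : ℤ) ∣ k'.2 := hk'.2 ▸ Int.gcd_dvd_right _ _
    apply Prod.ext
    · rw [← Int.ediv_mul_cancel d1, e1, Int.ediv_mul_cancel d3]
    · rw [← Int.ediv_mul_cancel d2, e2, Int.ediv_mul_cancel d4]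
  have hcard := Finset.card_le_card_of_injOn _ hmap hinj
  rw [Finset.card_product, Int.card_Icc] at hcard
  have hcN : ((N : ℤ) + 1 - -(N : ℤ)).toNat = 2 * N + 1 := by omega
  rw [hcN] at hcard
  have h1 : ((((blk n).filter (fun k => Int.gcd k.1 k.2 = g)).card : ℕ) : ℝ) ≤
      (2 * N + 1) * (2 * N + 1) := by exact_mod_cast hcard
  refine h1.trans ?_
  have hgR : (0 : ℝ) < g := by exact_mod_cast hg0
  have h2 : (N : ℝ) ≤ 2 * 2 ^ n / g := by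
    have h3 : (N : ℝ) ≤ ((2 ^ (n + 1) : ℕ) : ℝ) / g := Nat.cast_div_le
    refine h3.trans (le_of_eq ?_)
    push_cast
    rw [pow_succ]
    ring
  have h3 : (1 : ℝ) ≤ 2 * 2 ^ n / g := by
    rw [le_div_iff₀ hgR, one_mul]
    exact hgx.le
  have h4 : 2 * (N : ℝ) + 1 ≤ 6 * (2 ^ n / g) := by
    have : 2 * 2 ^ n / (g : ℝ) = 2 * (2 ^ n / g) := by ring
    rw [this] at h2 h3
    linarith
  have h5 : (0 : ℝ) ≤ 2 * (N : ℝ) + 1 := by positivity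
  calc (2 * (N : ℝ) + 1) * (2 * N + 1) ≤ (6 * (2 ^ n / g)) * (6 * (2 ^ n / g)) :=
        mul_le_mul h4 h4 h5 (h5.trans h4)
    _ = 36 * (2 ^ n) ^ 2 * ((g : ℝ) ^ 2)⁻¹ := by
        field_simp
        ring

open Classical in
theorem small_prm (n : ℕ) {Q : ℝ} (hQ : 1 ≤ Q) :
    (((blk n).filter (fun k => prm k ≤ Q)).card : ℝ) ≤ 100 * 2 ^ n * Q := by
  have hx : (0 : ℝ) < 2 ^ n := by positivity
  have hQ0 : 0 < Q := by linarith
  rcases lt_or_ge ((2 : ℝ) ^ n) Q with hlt | hge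
  · have h1 : (((blk n).filter (fun k => prm k ≤ Q)).card : ℝ) ≤ (blk n).card := by
      exact_mod_cast Finset.card_filter_le _ _
    refine h1.trans ((blk_card n).trans ?_)
    have h5 : (4 : ℝ) ^ n = 2 ^ n * 2 ^ n := by
      rw [← mul_pow]; norm_num
    rw [h5]
    nlinarith
  -- the gcd
  set m : ℕ := ⌈(2 : ℝ) ^ n / Q⌉₊ with hm
  have hG : (1 : ℝ) ≤ 2 ^ n / Q := by rwa [le_div_iff₀ hQ0, one_mul]
  have hm1 : 1 ≤ m := by
    have h1 : (1 : ℝ) ≤ m := hG.trans (Nat.le_ceil _)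
    exact_mod_cast h1
  have hsub : (blk n).filter (fun k => prm k ≤ Q) ⊆
      (Finset.Ioo (m - 1) (2 ^ (n + 1))).biUnion
        (fun g => (blk n).filter (fun k => Int.gcd k.1 k.2 = g)) := by
    intro k hk
    rw [Finset.mem_filter] at hk
    obtain ⟨hk1, hk2⟩ := hk
    obtain ⟨h1, h2⟩ := s7_gcd hk1
    obtain ⟨-, -, h3, h4⟩ := s7_coord hk1
    rw [Finset.mem_biUnion]
    refine ⟨Int.gcd k.1 k.2, ?_, Finset.mem_filter.2 ⟨hk1, rfl⟩⟩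
    have hgR : (0 : ℝ) < (Int.gcd k.1 k.2 : ℝ) := by exact_mod_cast h1
    rw [Finset.mem_Ioo]
    constructor
    · have h5 : (2 : ℝ) ^ n / Q ≤ (Int.gcd k.1 k.2 : ℝ) := by
        unfold prm at hk2
        rw [div_le_iff₀ hgR] at hk2
        rw [div_le_iff₀ hQ0]
        calc (2 : ℝ) ^ n ≤ nk k := h3
          _ ≤ Q * (Int.gcd k.1 k.2 : ℝ) := hk2
          _ = _ := mul_comm _ _
      have h6 : m ≤ Int.gcd k.1 k.2 := Nat.ceil_le.2 h5
      omega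
    · have h5 : (Int.gcd k.1 k.2 : ℝ) < ((2 ^ (n + 1) : ℕ) : ℝ) := by
        push_cast
        rw [pow_succ]
        linarith
      exact_mod_cast h5
  have h1 : (((blk n).filter (fun k => prm k ≤ Q)).card : ℝ) ≤
      ∑ g ∈ Finset.Ioo (m - 1) (2 ^ (n + 1)),
        ((((blk n).filter (fun k => Int.gcd k.1 k.2 = g)).card : ℕ) : ℝ) := by
    have h2 := (Finset.card_le_card hsub).trans Finset.card_biUnion_le
    exact_mod_cast h2
  have h2 : ∑ g ∈ Finset.Ioo (m - 1) (2 ^ (n + 1)),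
        ((((blk n).filter (fun k => Int.gcd k.1 k.2 = g)).card : ℕ) : ℝ) ≤
      36 * (2 ^ n) ^ 2 * ∑ g ∈ Finset.Ioo (m - 1) (2 ^ (n + 1)), ((g : ℝ) ^ 2)⁻¹ := by
    rw [Finset.mul_sum]
    exact Finset.sum_le_sum fun g _ => s7_fiber n g
  have h3 : ∑ g ∈ Finset.Ioo (m - 1) (2 ^ (n + 1)), ((g : ℝ) ^ 2)⁻¹ ≤ 2 * Q / 2 ^ n := by
    refine (sum_Ioo_inv_sq_le (m - 1) (2 ^ (n + 1))).trans ?_
    have h4 : (((m - 1 : ℕ) : ℝ) + 1) = m := by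
      have : m - 1 + 1 = m := by omega
      exact_mod_cast this
    rw [h4]
    have h5 : (2 : ℝ) ^ n / Q ≤ m := Nat.le_ceil _
    have h6 : (0 : ℝ) < 2 ^ n / Q := by positivity
    calc (2 : ℝ) / m ≤ 2 / (2 ^ n / Q) := by gcongr
      _ = 2 * Q / 2 ^ n := by field_simp
  refine h1.trans (h2.trans ?_)
  have h4 : 36 * ((2 : ℝ) ^ n) ^ 2 * ∑ g ∈ Finset.Ioo (m - 1) (2 ^ (n + 1)), ((g : ℝ) ^ 2)⁻¹ ≤
      36 * (2 ^ n) ^ 2 * (2 * Q / 2 ^ n) := by gcongr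
  refine h4.trans ?_
  have h5 : 36 * ((2 : ℝ) ^ n) ^ 2 * (2 * Q / 2 ^ n) = 72 * 2 ^ n * Q := by
    field_simp
    ring
  rw [h5]
  have : 0 ≤ (2 : ℝ) ^ n * Q := by positivity
  nlinarith

end Pool.Agent.Helper76.EO
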