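import Pool.Agent.Helper76.EO.V1
import Pool.Agent.Helper22.AE.C6
import Pool.Agent.Helper22.AE.P1

/-!
# EO-V2: reduction of a block to two averaged exponential sums with deterministic weights

PROOF of `vt_red`. `G = R H + s`, `s = σ δ`, `β = (R₀ 2^n)^(-1/2)`. `gph G k α = R gph H k α + s cos α` (`gph_affine`),
`rho G = R rho H + s` (`rho_affine`). Put (for `k ∈ blk n`, `k ≠ 0`)
`c1 α k = (2^n / nk k) fhat φ (δ k) ee (-(nk k s cos α))`, `c2 α k = (2^n/nk k)^2 fhat φ (δ k) ee (-(nk k s cos α))` (norm `≤ 1` on `blk n`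
because `nk k ≥ 2^n` and `fhat_le_one`; define them to be `0` outside `blk n`; continuous in `α`). Then the two sums of `vt_bound` are
`(R₀/2^n) TS n (blk n) (c1 α) (s/R₀) (R/R₀) R α H` and `4^(-n) TS n (blk n) (c2 α) 1 0 R α H`, and
`β R₀/2^n = 1/(β 4^n) = R₀^(1/2) (2^n)^(-3/2)` (see `pow_id1`, `pow_id2` in Helper22/AE/C6, private there: copy). Split the `α`-integral at
`|cos α| = 1/2`: on the bad part `k0 ≤ 2β`, `‖TS‖ ≤ 25·4^n·(2 + 2B)`, giving `≤ C` (as in the proof of `types` in C6).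
`vt_triv`: in addition `∫ k0 ≤ 20` and `‖TS‖ ≤ 25·4^n (2 + 2B)`.
-/

open MeasureTheory Real Set Filter Topology

set_option autoImplicit false

namespace Pool.Agent.Helper76.EO

open Pool.Agent.Helper22.AE

private lemma v2_k0_cont {β : ℝ} (hβ : 0 < β) : Continuous (k0 β) := by
  unfold k0
  exact continuous_const.div (by fun_prop) (fun α => by positivity)

private lemma v2_k0_nonneg {β : ℝ} (hβ : 0 < β) (α : ℝ) : 0 ≤ k0 β α := by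
  unfold k0
  positivity

private lemma v2_deriv_cont {G : ℝ → ℝ} (hG : ContDiff ℝ 2 G) : Continuous (deriv G) :=
  (((contDiff_succ_iff_deriv (n := 1)).1 hG).2.2).continuous

private lemma v2_rho_cont {G : ℝ → ℝ} (hG : ContDiff ℝ 2 G) : Continuous (rho G) := by
  unfold rho
  exact hG.continuous.add ((((contDiff_succ_iff_deriv (n := 1)).1 hG).2.2).continuous_deriv le_rfl)

private lemma v2_gph_cont {G : ℝ → ℝ} (hG : ContDiff ℝ 2 G) (k : ℤ × ℤ) : Continuous (gph G k) := by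
  have h1 := hG.continuous
  have h2 := v2_deriv_cont hG
  unfold gph
  fun_prop

private lemma v2_gs_compact : IsCompact gs := by
  refine isCompact_Icc.inter_right ?_
  exact isClosed_le continuous_const (by fun_prop)

private lemma v2_blk {n : ℕ} {k : ℤ × ℤ} (hk : k ∈ blk n) : (2 : ℝ) ^ n ≤ nk k := by
  unfold blk at hk
  rw [Finset.mem_filter] at hk
  exact hk.2.1

open Classical in
/-- the weights -/
private noncomputable def v2c (φ : ℝ × ℝ → ℝ) (n p : ℕ) (δ s α : ℝ) (k : ℤ × ℤ) : ℂ :=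
  if k ∈ blk n then (((2 ^ n / nk k) ^ p : ℝ) : ℂ) * fhat φ (δ * k.1) (δ * k.2) *
    ee (-(nk k * (s * cos α))) else 0

private lemma v2c_norm {φ : ℝ × ℝ → ℝ} (hφ : IsBump φ) (n p : ℕ) (δ s α : ℝ) (k : ℤ × ℤ) :
    ‖v2c φ n p δ s α k‖ ≤ 1 := by
  unfold v2c
  split_ifs with hk
  · have h1 := v2_blk hk
    have h2 : (0 : ℝ) < 2 ^ n := by positivity
    have h3 : 0 ≤ (2 : ℝ) ^ n / nk k := div_nonneg h2.le (h2.le.trans h1)
    have h4 : (2 : ℝ) ^ n / nk k ≤ 1 := (div_le_one (h2.trans_le h1)).2 h1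
    rw [norm_mul, norm_mul, ee_norm, mul_one, Complex.norm_real, Real.norm_eq_abs,
      abs_of_nonneg (pow_nonneg h3 p)]
    exact mul_le_one₀ (pow_le_one₀ h3 h4) (norm_nonneg _) (fhat_le_one hφ _ _)
  · rw [norm_zero]
    exact zero_le_one

private lemma v2c_cont (φ : ℝ × ℝ → ℝ) (n p : ℕ) (δ s : ℝ) (k : ℤ × ℤ) :
    Continuous (fun α => v2c φ n p δ s α k) := by
  unfold v2c
  split_ifs with hk
  · exact continuous_const.mul (ee_cont.comp (by fun_prop))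
  · exact continuous_const

private lemma v2_TS_norm {B : ℝ} {H : ℝ → ℝ} (hH : Bdd2 B H) (n : ℕ) {c : ℤ × ℤ → ℂ}
    (hc : ∀ k, ‖c k‖ ≤ 1) (a0 b0 R α : ℝ) :
    ‖TS n (blk n) c a0 b0 R α H‖ ≤ 25 * 4 ^ n * (|a0| + |b0| * |B|) := by
  have hD : 0 ≤ |a0| + |b0| * |B| := by positivity
  unfold TS
  refine (norm_sum_le _ _).trans ?_
  have h1 : ∀ k ∈ blk n, ‖c k * (((a0 + b0 * rho H (tk k + α) : ℝ) : ℂ)) *
      ee (-(R * nk k * gph H k α))‖ ≤ |a0| + |b0| * |B| := by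
    intro k _
    rw [norm_mul, norm_mul, ee_norm, mul_one, Complex.norm_real, Real.norm_eq_abs]
    have h2 : |a0 + b0 * rho H (tk k + α)| ≤ |a0| + |b0| * |B| := by
      refine (abs_add_le _ _).trans ?_
      rw [abs_mul]
      have h3 := hH.b2 (tk k + α)
      have h4 : B ≤ |B| := le_abs_self B
      have h5 : |b0| * |rho H (tk k + α)| ≤ |b0| * |B| :=
        mul_le_mul_of_nonneg_left (h3.trans h4) (abs_nonneg _)
      linarith
    calc ‖c k‖ * |a0 + b0 * rho H (tk k + α)| ≤ 1 * (|a0| + |b0| * |B|) :=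
          mul_le_mul (hc k) h2 (abs_nonneg _) zero_le_one
      _ = _ := one_mul _
  refine (Finset.sum_le_card_nsmul _ _ _ h1).trans ?_
  rw [nsmul_eq_mul]
  exact mul_le_mul_of_nonneg_right (blk_card n) hD

private lemma v2_TS_cont {H : ℝ → ℝ} (hH : ContDiff ℝ 2 H) (n : ℕ) {c : ℝ → ℤ × ℤ → ℂ}
    (hc : ∀ k, Continuous (fun α => c α k)) (a0 b0 R : ℝ) :
    Continuous (fun α => TS n (blk n) (c α) a0 b0 R α H) := by
  unfold TS
  refine continuous_finsetSum _ (fun k _ => ?_)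
  have h1 := v2_gph_cont hH k
  have h2 := v2_rho_cont hH
  refine Continuous.mul (Continuous.mul (hc k) ?_) (ee_cont.comp (by fun_prop))
  exact Complex.continuous_ofReal.comp (by fun_prop)

private lemma v2_pow1 {R₀ K : ℝ} (hR : 0 < R₀) (hK : 0 < K) :
    (R₀ * K) ^ (-(1 / 2) : ℝ) * R₀ / K = R₀ ^ (1 / 2 : ℝ) * K ^ (-(3 / 2) : ℝ) := by
  rw [mul_rpow hR.le hK.le]
  have e1 : R₀ ^ (-(1 / 2) : ℝ) * R₀ = R₀ ^ (1 / 2 : ℝ) := by
    nth_rewrite 2 [← rpow_one R₀]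
    rw [← rpow_add hR]
    norm_num
  have e2 : K ^ (-(1 / 2) : ℝ) / K = K ^ (-(3 / 2) : ℝ) := by
    nth_rewrite 2 [← rpow_one K]
    rw [← rpow_sub hK]
    norm_num
  calc R₀ ^ (-(1 / 2) : ℝ) * K ^ (-(1 / 2) : ℝ) * R₀ / K
      = (R₀ ^ (-(1 / 2) : ℝ) * R₀) * (K ^ (-(1 / 2) : ℝ) / K) := by ring
    _ = _ := by rw [e1, e2]

private lemma v2_pow2 {R₀ K : ℝ} (hR : 0 < R₀) (hK : 0 < K) :
    1 / ((R₀ * K) ^ (-(1 / 2) : ℝ) * K ^ 2) = R₀ ^ (1 / 2 : ℝ) * K ^ (-(3 / 2) : ℝ) := by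
  rw [mul_rpow hR.le hK.le]
  have e1 : 1 / R₀ ^ (-(1 / 2) : ℝ) = R₀ ^ (1 / 2 : ℝ) := by
    rw [rpow_neg hR.le, one_div, inv_inv]
  have e2 : 1 / (K ^ (-(1 / 2) : ℝ) * K ^ 2) = K ^ (-(3 / 2) : ℝ) := by
    rw [← rpow_natCast K 2, ← rpow_add hK, one_div, ← rpow_neg hK.le]
    norm_num
  calc 1 / (R₀ ^ (-(1 / 2) : ℝ) * K ^ (-(1 / 2) : ℝ) * K ^ 2)
      = (1 / R₀ ^ (-(1 / 2) : ℝ)) * (1 / (K ^ (-(1 / 2) : ℝ) * K ^ 2)) := by
        rw [mul_assoc]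
        field_simp
    _ = _ := by rw [e1, e2]

private lemma v2_pow3 {R₀ K : ℝ} (hR : 0 < R₀) (hK : 0 < K) :
    R₀ ^ (1 / 2 : ℝ) * K ^ (-(3 / 2) : ℝ) * ((R₀ * K) ^ (-(1 / 2) : ℝ) * K ^ 2) = 1 := by
  rw [← v2_pow2 hR hK]
  have : 0 < (R₀ * K) ^ (-(1 / 2) : ℝ) * K ^ 2 := by positivity
  field_simp

private lemma v2_four (n : ℕ) : (4 : ℝ) ^ n = (2 ^ n) ^ 2 := by
  rw [← pow_mul, mul_comm, pow_mul]
  norm_num

/-- the block sum as two averaged exponential sums over all angles -/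
private lemma v2_full {φ : ℝ × ℝ → ℝ} {R₀ : ℝ} (hR₀ : 1 ≤ R₀) (n : ℕ) (σ : ℝ)
    {B : ℝ} {H : ℝ → ℝ} (hH : Bdd2 B H) (R : ℝ) :
    ‖Vt φ (fun θ => R * H θ + σ * R₀ ^ (-(1 / 2) : ℝ)) (R₀ ^ (-(1 / 2) : ℝ)) n‖ ≤
      R₀ ^ (1 / 2 : ℝ) * ((2 : ℝ) ^ n) ^ (-(3 / 2) : ℝ) *
        ((∫ α in (-π)..π, k0 ((R₀ * 2 ^ n) ^ (-(1 / 2) : ℝ)) α *
            ‖TS n (blk n) (v2c φ n 1 (R₀ ^ (-(1 / 2) : ℝ)) (σ * R₀ ^ (-(1 / 2) : ℝ)) α)
              (σ * R₀ ^ (-(1 / 2) : ℝ) / R₀) (R / R₀) R α H‖) +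
          ∫ α in (-π)..π, k0 ((R₀ * 2 ^ n) ^ (-(1 / 2) : ℝ)) α *
            ‖TS n (blk n) (v2c φ n 2 (R₀ ^ (-(1 / 2) : ℝ)) (σ * R₀ ^ (-(1 / 2) : ℝ)) α) 1 0 R α H‖) := by
  have hR₀' : 0 < R₀ := by linarith
  have hK : (0 : ℝ) < 2 ^ n := by positivity
  set δ : ℝ := R₀ ^ (-(1 / 2) : ℝ) with hδ
  set β : ℝ := (R₀ * 2 ^ n) ^ (-(1 / 2) : ℝ) with hβd
  have hβ : 0 < β := by positivity
  set s : ℝ := σ * δ with hs
  have hG : ContDiff ℝ 2 (fun θ => R * H θ + s) := by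
    have := hH.smooth
    fun_prop
  have hGp : Function.Periodic (fun θ => R * H θ + s) (2 * π) := by
    intro θ
    show R * H (θ + 2 * π) + s = R * H θ + s
    rw [hH.per θ]
  have hvb := vt_bound hG hGp φ δ n hβ
  have hnk : ∀ k ∈ blk n, (nk k : ℂ) ≠ 0 := by
    intro k hk
    have h1 := v2_blk hk
    have h2 : nk k ≠ 0 := (hK.trans_le h1).ne'
    exact_mod_cast h2
  have hR₀c : (R₀ : ℂ) ≠ 0 := by exact_mod_cast hR₀'.ne'
  have e1 : ∀ α, ∑ k ∈ blk n, fhat φ (δ * k.1) (δ * k.2) / (nk k : ℂ) *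
        ((rho (fun θ => R * H θ + s) (tk k + α) : ℝ) : ℂ) *
        ee (-(nk k * gph (fun θ => R * H θ + s) k α)) =
      ((R₀ / 2 ^ n : ℝ) : ℂ) * TS n (blk n) (v2c φ n 1 δ s α) (s / R₀) (R / R₀) R α H := by
    intro α
    unfold TS
    rw [Finset.mul_sum]
    refine Finset.sum_congr rfl (fun k hk => ?_)
    have hk0 := hnk k hk
    unfold v2c
    rw [if_pos hk, rho_affine hH.smooth, gph_affine hH.smooth]
    have h1 : -(nk k * (R * gph H k α + s * cos α)) =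
        -(nk k * (s * cos α)) + -(R * nk k * gph H k α) := by ring
    rw [h1, ee_add]
    generalize ee (-(nk k * (s * cos α))) = E1
    generalize ee (-(R * nk k * gph H k α)) = E2
    generalize fhat φ (δ * k.1) (δ * k.2) = Fh
    generalize rho H (tk k + α) = r
    push_cast
    have h2 : ((2 : ℂ) ^ n) ≠ 0 := pow_ne_zero n two_ne_zero
    field_simp
    ring
  have e2 : ∀ α, ∑ k ∈ blk n, fhat φ (δ * k.1) (δ * k.2) / (nk k : ℂ) ^ 2 *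
        ee (-(nk k * gph (fun θ => R * H θ + s) k α)) =
      ((1 / 4 ^ n : ℝ) : ℂ) * TS n (blk n) (v2c φ n 2 δ s α) 1 0 R α H := by
    intro α
    unfold TS
    rw [Finset.mul_sum]
    refine Finset.sum_congr rfl (fun k hk => ?_)
    have hk0 := hnk k hk
    unfold v2c
    rw [if_pos hk, gph_affine hH.smooth, v2_four]
    have h1 : -(nk k * (R * gph H k α + s * cos α)) =
        -(nk k * (s * cos α)) + -(R * nk k * gph H k α) := by ring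
    rw [h1, ee_add]
    generalize ee (-(nk k * (s * cos α))) = E1
    generalize ee (-(R * nk k * gph H k α)) = E2
    generalize fhat φ (δ * k.1) (δ * k.2) = Fh
    generalize rho H (tk k + α) = r
    push_cast
    have h2 : ((2 : ℂ) ^ n) ≠ 0 := pow_ne_zero n two_ne_zero
    field_simp
    ring
  have f1 : ∀ α, k0 β α * ‖((R₀ / 2 ^ n : ℝ) : ℂ) * TS n (blk n) (v2c φ n 1 δ s α) (s / R₀) (R / R₀) R α H‖ =
      R₀ / 2 ^ n * (k0 β α * ‖TS n (blk n) (v2c φ n 1 δ s α) (s / R₀) (R / R₀) R α H‖) := by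
    intro α
    rw [norm_mul, Complex.norm_real, Real.norm_of_nonneg (by positivity)]
    ring
  have f2 : ∀ α, k0 β α * ‖((1 / 4 ^ n : ℝ) : ℂ) * TS n (blk n) (v2c φ n 2 δ s α) 1 0 R α H‖ =
      1 / 4 ^ n * (k0 β α * ‖TS n (blk n) (v2c φ n 2 δ s α) 1 0 R α H‖) := by
    intro α
    rw [norm_mul, Complex.norm_real, Real.norm_of_nonneg (by positivity)]
    ring
  simp only [e1, e2, f1, f2] at hvb
  rw [intervalIntegral.integral_const_mul, intervalIntegral.integral_const_mul] at hvb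
  refine hvb.trans (le_of_eq ?_)
  have hp1 := v2_pow1 hR₀' hK
  have hp2 := v2_pow2 hR₀' hK
  rw [← hβd] at hp1 hp2
  generalize (∫ α in (-π)..π, k0 β α * ‖TS n (blk n) (v2c φ n 1 δ s α) (s / R₀) (R / R₀) R α H‖) = I1
  generalize (∫ α in (-π)..π, k0 β α * ‖TS n (blk n) (v2c φ n 2 δ s α) 1 0 R α H‖) = I2
  calc β * (R₀ / 2 ^ n * I1) + 1 / β * (1 / 4 ^ n * I2)
      = (β * R₀ / 2 ^ n) * I1 + (1 / (β * (2 ^ n) ^ 2)) * I2 := by
        rw [v2_four]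
        field_simp
    _ = _ := by
        rw [hp1, hp2]
        ring

/-- splitting of the integral over the angles -/
private lemma v2_split {β : ℝ} (hβ : 0 < β) {F : ℝ → ℝ} (hF : Continuous F) (hF0 : ∀ α, 0 ≤ F α)
    {D : ℝ} (hFD : ∀ α, F α ≤ D) :
    ∫ α in (-π)..π, k0 β α * F α ≤ (∫ α in gs, k0 β α * F α) + 2 * β * D * (2 * π) := by
  have hpi := Real.pi_pos
  have hkc := v2_k0_cont hβ
  have hD : 0 ≤ D := (hF0 0).trans (hFD 0)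
  have hAint : IntegrableOn (fun α => k0 β α * F α) (Icc (-π) π) :=
    (hkc.mul hF).continuousOn.integrableOn_compact isCompact_Icc
  have hsplit : (∫ α in (-π)..π, k0 β α * F α) = (∫ α in gs, k0 β α * F α) +
      ∫ α in Icc (-π) π \ {α | 1 / 2 ≤ |cos α|}, k0 β α * F α := by
    rw [intervalIntegral.integral_of_le (by linarith), ← integral_Icc_eq_integral_Ioc]
    have hms : MeasurableSet {α : ℝ | 1 / 2 ≤ |cos α|} :=
      (isClosed_le continuous_const (by fun_prop)).measurableSet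
    exact (integral_inter_add_sdiff hms hAint).symm
  have hbad : ∫ α in Icc (-π) π \ {α | 1 / 2 ≤ |cos α|}, k0 β α * F α ≤ 2 * β * D * (2 * π) := by
    have h1 : ∀ α ∈ Icc (-π) π \ {α | 1 / 2 ≤ |cos α|}, ‖k0 β α * F α‖ ≤ 2 * β * D := by
      intro α hα
      have h4 := v2_k0_nonneg hβ α
      rw [Real.norm_of_nonneg (mul_nonneg h4 (hF0 α))]
      have h5 : |cos α| < 1 / 2 := not_le.1 hα.2
      have h6 : 3 / 4 ≤ sin α ^ 2 := by
        have h7 := sin_sq_add_cos_sq α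
        have h8 : cos α ^ 2 ≤ 1 / 4 := by
          rw [← sq_abs]
          have := abs_nonneg (cos α)
          nlinarith
        linarith
      have h9 : k0 β α ≤ 2 * β := by
        unfold k0
        rw [div_le_iff₀ (by positivity)]
        nlinarith [sq_nonneg β]
      exact mul_le_mul h9 (hFD α) (hF0 α) (by positivity)
    have hvol : volume (Icc (-π) π \ {α | 1 / 2 ≤ |cos α|}) < ⊤ :=
      (measure_mono sdiff_subset).trans_lt (by simp [Real.volume_Icc])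
    have h2 := norm_setIntegral_le_of_norm_le_const (μ := volume) hvol h1
    have h3 : volume.real (Icc (-π) π \ {α | 1 / 2 ≤ |cos α|}) ≤ 2 * π := by
      refine (measureReal_mono sdiff_subset (by simp [Real.volume_Icc])).trans ?_
      rw [Real.volume_real_Icc_of_le (by linarith)]
      linarith
    refine (le_norm_self _).trans (h2.trans ?_)
    exact mul_le_mul_of_nonneg_left h3 (by positivity)
  rw [hsplit]
  linarith

private lemma v2_all {β : ℝ} (hβ : 0 < β) {F : ℝ → ℝ} (hF : Continuous F) {D : ℝ} (hD : 0 ≤ D)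
    (hFD : ∀ α, F α ≤ D) : ∫ α in (-π)..π, k0 β α * F α ≤ 20 * D := by
  have hpi := Real.pi_pos
  have hkc := v2_k0_cont hβ
  have h1 : ∫ α in (-π)..π, k0 β α * F α ≤ ∫ α in (-π)..π, k0 β α * D := by
    refine intervalIntegral.integral_mono_on (by linarith) ((hkc.mul hF).intervalIntegrable _ _)
      ((hkc.mul continuous_const).intervalIntegrable _ _) (fun α _ => ?_)
    exact mul_le_mul_of_nonneg_left (hFD α) (v2_k0_nonneg hβ α)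
  rw [intervalIntegral.integral_mul_const] at h1
  exact h1.trans (mul_le_mul_of_nonneg_right (k0_int hβ) hD)

private lemma v2_amp {R₀ σ R : ℝ} (hR₀ : 1 ≤ R₀) (hσ : σ = 1 ∨ σ = -1) (hR : R ∈ Icc R₀ (2 * R₀)) :
    |σ * R₀ ^ (-(1 / 2) : ℝ) / R₀| ≤ 1 ∧ |R / R₀| ≤ 2 := by
  have hR₀' : 0 < R₀ := by linarith
  have hδ0 : 0 < R₀ ^ (-(1 / 2) : ℝ) := by positivity
  have hδ1 : R₀ ^ (-(1 / 2) : ℝ) ≤ 1 := rpow_le_one_of_one_le_of_nonpos hR₀ (by norm_num)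
  have hσ1 : |σ| = 1 := by rcases hσ with h | h <;> simp [h]
  constructor
  · rw [abs_div, abs_mul, hσ1, one_mul, abs_of_pos hδ0, abs_of_pos hR₀', div_le_one hR₀']
    linarith
  · rw [abs_div, abs_of_pos hR₀', abs_of_pos (by linarith [hR.1]), div_le_iff₀ hR₀']
    linarith [hR.2]

theorem vt_red (B : ℝ) : ∃ C : ℝ, 0 ≤ C ∧ ∀ (φ : ℝ × ℝ → ℝ), IsBump φ → ∀ R₀ : ℝ, 1 ≤ R₀ → ∀ (n : ℕ) (σ : ℝ),
    (σ = 1 ∨ σ = -1) → ∃ c1 c2 : ℝ → ℤ × ℤ → ℂ, (∀ k, Continuous (fun α => c1 α k)) ∧ (∀ k, Continuous (fun α => c2 α k)) ∧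
      (∀ α k, ‖c1 α k‖ ≤ 1) ∧ (∀ α k, ‖c2 α k‖ ≤ 1) ∧
      ∀ H : ℝ → ℝ, Bdd2 B H → ∀ R ∈ Icc R₀ (2 * R₀),
        ‖Vt φ (fun θ => R * H θ + σ * R₀ ^ (-(1 / 2) : ℝ)) (R₀ ^ (-(1 / 2) : ℝ)) n‖ ≤
          R₀ ^ (1 / 2 : ℝ) * ((2 : ℝ) ^ n) ^ (-(3 / 2) : ℝ) *
            ((∫ α in gs, k0 ((R₀ * 2 ^ n) ^ (-(1 / 2) : ℝ)) α *
                ‖TS n (blk n) (c1 α) (σ * R₀ ^ (-(1 / 2) : ℝ) / R₀) (R / R₀) R α H‖) +
              ∫ α in gs, k0 ((R₀ * 2 ^ n) ^ (-(1 / 2) : ℝ)) α * ‖TS n (blk n) (c2 α) 1 0 R α H‖) + C := by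
  refine ⟨400 * (2 + 2 * |B|), by positivity, ?_⟩
  intro φ hφ R₀ hR₀ n σ hσ
  refine ⟨v2c φ n 1 (R₀ ^ (-(1 / 2) : ℝ)) (σ * R₀ ^ (-(1 / 2) : ℝ)),
    v2c φ n 2 (R₀ ^ (-(1 / 2) : ℝ)) (σ * R₀ ^ (-(1 / 2) : ℝ)), v2c_cont φ n 1 _ _,
    v2c_cont φ n 2 _ _, v2c_norm hφ n 1 _ _, v2c_norm hφ n 2 _ _, ?_⟩
  intro H hH R hR
  have hfull := v2_full (φ := φ) hR₀ n σ hH R
  obtain ⟨ha, hb⟩ := v2_amp hR₀ hσ hR
  have hR₀' : 0 < R₀ := by linarith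
  have hK : (0 : ℝ) < 2 ^ n := by positivity
  set δ : ℝ := R₀ ^ (-(1 / 2) : ℝ) with hδ
  set β : ℝ := (R₀ * 2 ^ n) ^ (-(1 / 2) : ℝ) with hβd
  have hβ : 0 < β := by positivity
  set T1 : ℝ → ℝ := fun α => ‖TS n (blk n) (v2c φ n 1 δ (σ * δ) α) (σ * δ / R₀) (R / R₀) R α H‖ with hT1
  set T2 : ℝ → ℝ := fun α => ‖TS n (blk n) (v2c φ n 2 δ (σ * δ) α) 1 0 R α H‖ with hT2
  have c1 : Continuous T1 := (v2_TS_cont hH.smooth n (v2c_cont φ n 1 δ (σ * δ)) _ _ R).norm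
  have c2 : Continuous T2 := (v2_TS_cont hH.smooth n (v2c_cont φ n 2 δ (σ * δ)) 1 0 R).norm
  have d1 : ∀ α, T1 α ≤ 25 * 4 ^ n * (1 + 2 * |B|) := by
    intro α
    refine (v2_TS_norm hH n (v2c_norm hφ n 1 δ (σ * δ) α) _ _ R α).trans ?_
    refine mul_le_mul_of_nonneg_left ?_ (by positivity)
    have := mul_le_mul_of_nonneg_right hb (abs_nonneg B)
    linarith
  have d2 : ∀ α, T2 α ≤ 25 * 4 ^ n * 1 := by
    intro α
    refine (v2_TS_norm hH n (v2c_norm hφ n 2 δ (σ * δ) α) _ _ R α).trans ?_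
    simp
  have s1 := v2_split hβ c1 (fun α => norm_nonneg _) d1
  have s2 := v2_split hβ c2 (fun α => norm_nonneg _) d2
  set P : ℝ := R₀ ^ (1 / 2 : ℝ) * ((2 : ℝ) ^ n) ^ (-(3 / 2) : ℝ) with hP
  have hP0 : 0 < P := by positivity
  have hp3 : P * (β * (2 ^ n) ^ 2) = 1 := v2_pow3 hR₀' hK
  have hpi := Real.pi_le_four
  have hpi0 := Real.pi_pos
  refine hfull.trans ?_
  calc P * ((∫ α in (-π)..π, k0 β α * T1 α) + ∫ α in (-π)..π, k0 β α * T2 α)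
      ≤ P * (((∫ α in gs, k0 β α * T1 α) + 2 * β * (25 * 4 ^ n * (1 + 2 * |B|)) * (2 * π)) +
        ((∫ α in gs, k0 β α * T2 α) + 2 * β * (25 * 4 ^ n * 1) * (2 * π))) :=
        mul_le_mul_of_nonneg_left (add_le_add s1 s2) hP0.le
    _ = P * ((∫ α in gs, k0 β α * T1 α) + ∫ α in gs, k0 β α * T2 α) +
        (P * (β * (2 ^ n) ^ 2)) * (100 * π * (2 + 2 * |B|)) := by
        rw [v2_four]
        ring
    _ ≤ P * ((∫ α in gs, k0 β α * T1 α) + ∫ α in gs, k0 β α * T2 α) + 400 * (2 + 2 * |B|) := by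
        rw [hp3, one_mul]
        have h1 : 100 * π * (2 + 2 * |B|) ≤ 100 * 4 * (2 + 2 * |B|) := by gcongr
        linarith

theorem vt_triv (B : ℝ) : ∃ C : ℝ, 0 ≤ C ∧ ∀ (φ : ℝ × ℝ → ℝ), IsBump φ → ∀ R₀ : ℝ, 1 ≤ R₀ → ∀ (n : ℕ) (σ : ℝ),
    (σ = 1 ∨ σ = -1) → ∀ H : ℝ → ℝ, Bdd2 B H → ∀ R ∈ Icc R₀ (2 * R₀),
      ‖Vt φ (fun θ => R * H θ + σ * R₀ ^ (-(1 / 2) : ℝ)) (R₀ ^ (-(1 / 2) : ℝ)) n‖ ≤
        C * R₀ ^ (1 / 2 : ℝ) * ((2 : ℝ) ^ n) ^ (1 / 2 : ℝ) := by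
  refine ⟨500 * (2 + 2 * |B|), by positivity, ?_⟩
  intro φ hφ R₀ hR₀ n σ hσ H hH R hR
  have hfull := v2_full (φ := φ) hR₀ n σ hH R
  obtain ⟨ha, hb⟩ := v2_amp hR₀ hσ hR
  have hR₀' : 0 < R₀ := by linarith
  have hK : (0 : ℝ) < 2 ^ n := by positivity
  set δ : ℝ := R₀ ^ (-(1 / 2) : ℝ) with hδ
  set β : ℝ := (R₀ * 2 ^ n) ^ (-(1 / 2) : ℝ) with hβd
  have hβ : 0 < β := by positivity
  set T1 : ℝ → ℝ := fun α => ‖TS n (blk n) (v2c φ n 1 δ (σ * δ) α) (σ * δ / R₀) (R / R₀) R α H‖ with hT1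
  set T2 : ℝ → ℝ := fun α => ‖TS n (blk n) (v2c φ n 2 δ (σ * δ) α) 1 0 R α H‖ with hT2
  have c1 : Continuous T1 := (v2_TS_cont hH.smooth n (v2c_cont φ n 1 δ (σ * δ)) _ _ R).norm
  have c2 : Continuous T2 := (v2_TS_cont hH.smooth n (v2c_cont φ n 2 δ (σ * δ)) 1 0 R).norm
  have d1 : ∀ α, T1 α ≤ 25 * 4 ^ n * (1 + 2 * |B|) := by
    intro α
    refine (v2_TS_norm hH n (v2c_norm hφ n 1 δ (σ * δ) α) _ _ R α).trans ?_
    refine mul_le_mul_of_nonneg_left ?_ (by positivity)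
    have := mul_le_mul_of_nonneg_right hb (abs_nonneg B)
    linarith
  have d2 : ∀ α, T2 α ≤ 25 * 4 ^ n * 1 := by
    intro α
    refine (v2_TS_norm hH n (v2c_norm hφ n 2 δ (σ * δ) α) _ _ R α).trans ?_
    simp
  have s1 := v2_all hβ c1 (by positivity) d1
  have s2 := v2_all hβ c2 (by positivity) d2
  have hpw : ((2 : ℝ) ^ n) ^ (-(3 / 2) : ℝ) * (2 ^ n) ^ 2 = ((2 : ℝ) ^ n) ^ (1 / 2 : ℝ) := by
    rw [← rpow_natCast ((2 : ℝ) ^ n) 2, ← rpow_add hK]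
    norm_num
  have hP0 : 0 < R₀ ^ (1 / 2 : ℝ) * ((2 : ℝ) ^ n) ^ (-(3 / 2) : ℝ) := by positivity
  refine hfull.trans ?_
  calc R₀ ^ (1 / 2 : ℝ) * ((2 : ℝ) ^ n) ^ (-(3 / 2) : ℝ) *
        ((∫ α in (-π)..π, k0 β α * T1 α) + ∫ α in (-π)..π, k0 β α * T2 α)
      ≤ R₀ ^ (1 / 2 : ℝ) * ((2 : ℝ) ^ n) ^ (-(3 / 2) : ℝ) *
        (20 * (25 * 4 ^ n * (1 + 2 * |B|)) + 20 * (25 * 4 ^ n * 1)) :=
        mul_le_mul_of_nonneg_left (add_le_add s1 s2) hP0.le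
    _ = 500 * (2 + 2 * |B|) * R₀ ^ (1 / 2 : ℝ) *
        (((2 : ℝ) ^ n) ^ (-(3 / 2) : ℝ) * (2 ^ n) ^ 2) := by
        rw [v2_four]
        ring
    _ = _ := by rw [hpw]

end Pool.Agent.Helper76.EO
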