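import Pool.Agent.Helper76.EO.S11
import Pool.Agent.Helper76.EO.S7
import Pool.Agent.Helper76.EO.V2

/-!
# EO-S12: small blocks

PROOF. `vt_red B` gives, for `R₀ = 2^N`, `n`, `σ`, weights `c1, c2`. Apply `all_R` to the families `(c1, a0 = σ δ/R₀, b0 = 1)` and `(c2, a0 = 1, b0 = 0)`
(encode the sign by a Boolean). `TS n (blk n) = TS n (Bq n Q0) + TS n (rest)`, the rest has `≤ 100·2^n Q0` points (`small_prm`) with terms `≤ 2 + 2B`, and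
`∫_{gs} k0 ≤ 20`. Exponents: `(2^n)^(-3/2)·2^n Q0 = (log 2^N)^(3/8) (2^n)^(-1/4)`,
`√(log 2^N) Q0^(-1/2) = (log 2^N)^(5/16) (2^n)^(-1/8)`; the `+ C` times `R₀^(1/2) (2^n)^(-3/2)` is absorbed by the first term (`log 2^N ≥ 1`).
-/

open MeasureTheory Real Set Filter Topology

set_option autoImplicit false

namespace Pool.Agent.Helper76.EO

open Pool.Agent.Helper22.AE

private lemma s12_k0_cont {β : ℝ} (hβ : 0 < β) : Continuous (k0 β) := by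
  unfold k0
  exact continuous_const.div (by fun_prop) (fun α => by positivity)

private lemma s12_k0_nonneg {β : ℝ} (hβ : 0 < β) (α : ℝ) : 0 ≤ k0 β α := by
  unfold k0
  positivity

private lemma s12_gs_meas : MeasurableSet gs := by
  unfold gs
  refine measurableSet_Icc.inter ?_
  exact measurableSet_le measurable_const (by fun_prop)

private lemma s12_int {f : ℝ → ℝ} (hf : Continuous f) : IntegrableOn f gs :=
  (hf.continuousOn.integrableOn_compact (isCompact_Icc (a := -π) (b := π))).mono_set inter_subset_left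

private lemma s12_k0_gs {β : ℝ} (hβ : 0 < β) : ∫ α in gs, k0 β α ≤ 20 := by
  have h1 : ∫ α in gs, k0 β α ≤ ∫ α in Icc (-π) π, k0 β α := by
    refine setIntegral_mono_set ((s12_k0_cont hβ).continuousOn.integrableOn_compact isCompact_Icc)
      (ae_of_all _ fun α => s12_k0_nonneg hβ α) ?_
    exact (inter_subset_left : gs ⊆ Icc (-π) π).eventuallyLE
  refine h1.trans ?_
  have h3 : ∫ y in Icc (-π) π, k0 β y = ∫ y in (-π)..π, k0 β y := by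
    rw [intervalIntegral.integral_of_le (by linarith [pi_pos]), integral_Icc_eq_integral_Ioc]
  rw [h3]
  exact k0_int hβ

private lemma s12_TS_cont {B : ℝ} {H : ℝ → ℝ} (hH : Bdd2 B H) (n : ℕ) (A : Finset (ℤ × ℤ)) (c : ℝ → ℤ × ℤ → ℂ)
    (hc : ∀ k, Continuous (fun α => c α k)) (a0 b0 R : ℝ) : Continuous (fun α => TS n A (c α) a0 b0 R α H) := by
  have h1 : ContDiff ℝ 1 (deriv H) := ((contDiff_succ_iff_deriv (n := 1)).1 hH.smooth).2.2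
  have h2 : Continuous H := hH.smooth.continuous
  have h3 : Continuous (deriv H) := h1.continuous
  have h4 : Continuous (rho H) := by
    unfold rho
    exact h2.add (h1.continuous_deriv le_rfl)
  unfold TS
  refine continuous_finsetSum _ fun k _ => ?_
  have h5 : Continuous (fun α => gph H k α) := by
    unfold gph
    fun_prop
  have h6 := ee_cont
  have h7 := hc k
  refine (h7.mul (Complex.continuous_ofReal.comp ?_)).mul (h6.comp ?_)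
  · exact continuous_const.add (continuous_const.mul (h4.comp (continuous_const.add continuous_id)))
  · exact (continuous_const.mul h5).neg

private lemma s12_TS_le {B : ℝ} {H : ℝ → ℝ} (hH : Bdd2 B H) (n : ℕ) (A : Finset (ℤ × ℤ)) (c : ℤ × ℤ → ℂ)
    (hc : ∀ k, ‖c k‖ ≤ 1) {a0 b0 R α : ℝ} (ha : |a0| ≤ 1) (hb : |b0| ≤ 2) :
    ‖TS n A c a0 b0 R α H‖ ≤ A.card * (2 + 2 * B) := by
  unfold TS
  refine (norm_sum_le _ _).trans ?_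
  have h1 : ∀ k ∈ A, ‖c k * (((a0 + b0 * rho H (tk k + α) : ℝ) : ℂ)) * ee (-(R * nk k * gph H k α))‖ ≤ 2 + 2 * B := by
    intro k _
    rw [norm_mul, norm_mul, ee_norm, mul_one, Complex.norm_real, Real.norm_eq_abs]
    have h2 : |a0 + b0 * rho H (tk k + α)| ≤ 1 + 2 * B := by
      refine (abs_add_le _ _).trans ?_
      rw [abs_mul]
      have h3 := hH.b2 (tk k + α)
      have h4 : |b0| * |rho H (tk k + α)| ≤ 2 * B :=
        mul_le_mul hb h3 (abs_nonneg _) (by norm_num)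
      linarith
    calc ‖c k‖ * |a0 + b0 * rho H (tk k + α)| ≤ 1 * (1 + 2 * B) :=
          mul_le_mul (hc k) h2 (abs_nonneg _) zero_le_one
      _ ≤ 2 + 2 * B := by linarith
  refine (Finset.sum_le_sum h1).trans (le_of_eq ?_)
  rw [Finset.sum_const, nsmul_eq_mul]

open Classical in
private lemma s12_split (n : ℕ) (Q : ℝ) (c : ℤ × ℤ → ℂ) (a0 b0 R α : ℝ) (H : ℝ → ℝ) :
    TS n (blk n) c a0 b0 R α H = TS n (Bq n Q) c a0 b0 R α H +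
      TS n ((blk n).filter (fun k => prm k ≤ Q)) c a0 b0 R α H := by
  unfold TS Bq
  rw [← Finset.sum_filter_add_sum_filter_not (blk n) (fun k => Q < prm k)]
  congr 1
  refine Finset.sum_congr ?_ fun _ _ => rfl
  ext k
  simp only [Finset.mem_filter, not_lt]

private lemma s12_blk {B : ℝ} (hB0 : 0 ≤ B) {H : ℝ → ℝ} (hH : Bdd2 B H) (n : ℕ) {Q : ℝ} (hQ : 1 ≤ Q) (c : ℝ → ℤ × ℤ → ℂ)
    (hcc : ∀ k, Continuous (fun α => c α k)) (hc : ∀ α k, ‖c α k‖ ≤ 1) {a0 b0 R : ℝ} (ha : |a0| ≤ 1) (hb : |b0| ≤ 2)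
    {β : ℝ} (hβ : 0 < β) :
    ∫ α in gs, k0 β α * ‖TS n (blk n) (c α) a0 b0 R α H‖ ≤
      (∫ α in gs, k0 β α * ‖TS n (Bq n Q) (c α) a0 b0 R α H‖) + 20 * (100 * 2 ^ n * Q * (2 + 2 * B)) := by
  classical
  set D : ℝ := 100 * 2 ^ n * Q * (2 + 2 * B) with hD
  have hD0 : 0 ≤ D := by positivity
  have hi1 : IntegrableOn (fun α => k0 β α * ‖TS n (Bq n Q) (c α) a0 b0 R α H‖) gs :=
    s12_int ((s12_k0_cont hβ).mul (s12_TS_cont hH n _ c hcc a0 b0 R).norm)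
  have hi0 : IntegrableOn (fun α => k0 β α * ‖TS n (blk n) (c α) a0 b0 R α H‖) gs :=
    s12_int ((s12_k0_cont hβ).mul (s12_TS_cont hH n _ c hcc a0 b0 R).norm)
  have hi2 : IntegrableOn (fun α => k0 β α * D) gs :=
    s12_int ((s12_k0_cont hβ).mul continuous_const)
  have h1 : ∫ α in gs, k0 β α * ‖TS n (blk n) (c α) a0 b0 R α H‖ ≤
      ∫ α in gs, (k0 β α * ‖TS n (Bq n Q) (c α) a0 b0 R α H‖ + k0 β α * D) := by
    refine setIntegral_mono hi0 (hi1.add hi2) fun α => ?_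
    show k0 β α * ‖TS n (blk n) (c α) a0 b0 R α H‖ ≤ k0 β α * ‖TS n (Bq n Q) (c α) a0 b0 R α H‖ + k0 β α * D
    rw [← mul_add]
    refine mul_le_mul_of_nonneg_left ?_ (s12_k0_nonneg hβ α)
    rw [s12_split n Q]
    refine (norm_add_le _ _).trans (add_le_add le_rfl ?_)
    refine (s12_TS_le hH n _ (c α) (hc α) ha hb).trans ?_
    rw [hD]
    refine mul_le_mul_of_nonneg_right ?_ (by linarith)
    have h3 := small_prm n hQ
    convert h3 using 3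
  refine h1.trans ?_
  rw [integral_add hi1 hi2, integral_mul_const]
  have h4 := mul_le_mul_of_nonneg_right (s12_k0_gs hβ) hD0
  linarith

private lemma s12_exp {L X : ℝ} (hL : 1 ≤ L) (hX : 1 ≤ X) {Q : ℝ} (hQ : Q = L ^ (3 / 8 : ℝ) * X ^ (1 / 4 : ℝ)) :
    X ^ (-(3 / 2) : ℝ) * (X ^ (3 / 2 : ℝ) * √L * Q ^ (-(1 / 2) : ℝ)) = L ^ (5 / 16 : ℝ) * X ^ (-(1 / 8) : ℝ) ∧
    X ^ (-(3 / 2) : ℝ) * (X * Q) = L ^ (3 / 8 : ℝ) * X ^ (-(1 / 4) : ℝ) ∧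
    X ^ (-(3 / 2) : ℝ) ≤ L ^ (3 / 8 : ℝ) * X ^ (-(1 / 4) : ℝ) := by
  have hL0 : 0 < L := by linarith
  have hX0 : 0 < X := by linarith
  refine ⟨?_, ?_, ?_⟩
  · have h1 : Q ^ (-(1 / 2) : ℝ) = L ^ (-(3 / 16) : ℝ) * X ^ (-(1 / 8) : ℝ) := by
      rw [hQ, mul_rpow (by positivity) (by positivity), ← rpow_mul hL0.le, ← rpow_mul hX0.le]
      norm_num
    rw [h1, sqrt_eq_rpow]
    have h2 : X ^ (-(3 / 2) : ℝ) * X ^ (3 / 2 : ℝ) = 1 := by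
      rw [← rpow_add hX0]
      norm_num
    have h3 : L ^ (1 / 2 : ℝ) * L ^ (-(3 / 16) : ℝ) = L ^ (5 / 16 : ℝ) := by
      rw [← rpow_add hL0]
      norm_num
    calc X ^ (-(3 / 2) : ℝ) * (X ^ (3 / 2 : ℝ) * L ^ (1 / 2 : ℝ) * (L ^ (-(3 / 16) : ℝ) * X ^ (-(1 / 8) : ℝ)))
        = (X ^ (-(3 / 2) : ℝ) * X ^ (3 / 2 : ℝ)) * (L ^ (1 / 2 : ℝ) * L ^ (-(3 / 16) : ℝ)) * X ^ (-(1 / 8) : ℝ) := by ring
      _ = _ := by rw [h2, h3, one_mul]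
  · rw [hQ]
    have h2 : X ^ (-(3 / 2) : ℝ) * X * X ^ (1 / 4 : ℝ) = X ^ (-(1 / 4) : ℝ) := by
      nth_rewrite 2 [← rpow_one X]
      rw [← rpow_add hX0, ← rpow_add hX0]
      norm_num
    calc X ^ (-(3 / 2) : ℝ) * (X * (L ^ (3 / 8 : ℝ) * X ^ (1 / 4 : ℝ)))
        = L ^ (3 / 8 : ℝ) * (X ^ (-(3 / 2) : ℝ) * X * X ^ (1 / 4 : ℝ)) := by ring
      _ = _ := by rw [h2]
  · have h1 : X ^ (-(3 / 2) : ℝ) ≤ X ^ (-(1 / 4) : ℝ) := rpow_le_rpow_of_exponent_le hX (by norm_num)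
    have h2 : 1 ≤ L ^ (3 / 8 : ℝ) := one_le_rpow hL (by norm_num)
    have h3 : 0 ≤ X ^ (-(1 / 4) : ℝ) := by positivity
    nlinarith

private def sg (b : Bool) : ℝ := if b then 1 else -1

private lemma sg_or (b : Bool) : sg b = 1 ∨ sg b = -1 := by
  unfold sg
  cases b <;> simp

private lemma sg_abs (b : Bool) : |sg b| = 1 := by
  unfold sg
  cases b <;> simp

private lemma sg_ex {σ : ℝ} (h : σ = 1 ∨ σ = -1) : ∃ b, sg b = σ := by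
  rcases h with h | h
  · exact ⟨true, by simp [sg, h]⟩
  · exact ⟨false, by simp [sg, h]⟩

private lemma s12_a0 (N : ℕ) (b : Bool) : |sg b * ((2 : ℝ) ^ N) ^ (-(1 / 2) : ℝ) / 2 ^ N| ≤ 1 := by
  have h1 : (1 : ℝ) ≤ 2 ^ N := one_le_pow₀ (by norm_num)
  rw [abs_div, abs_mul, sg_abs, one_mul, abs_of_pos (by positivity : (0 : ℝ) < 2 ^ N),
    abs_of_pos (by positivity : (0 : ℝ) < ((2 : ℝ) ^ N) ^ (-(1 / 2) : ℝ))]
  rw [div_le_one (by positivity)]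
  exact (rpow_le_one_of_one_le_of_nonpos h1 (by norm_num)).trans h1

theorem small_ae {F : Fam} (hF : F.Good) {am : ℕ → ℝ} (hW : F.Wav am) (ham : ∀ j, 0 < am j ∧ am j ≤ 1) {κ₀ : ℝ} (hκ : 0 < κ₀)
    {B : ℝ} (hB0 : 0 ≤ B) {H₀ : ℝ → ℝ} (h0 : ContDiff ℝ 2 H₀) (hB : ∀ ω, Bdd2 B (Hr F H₀ ω))
    {φ : ℝ × ℝ → ℝ} (hφ : IsBump φ) :
    ∃ C : ℝ, 0 ≤ C ∧ ∀ᵐ ω ∂PP, ∀ᶠ N : ℕ in atTop, ∀ n : ℕ, √(log (2 ^ N)) ≤ 2 ^ n → 2 * n ≤ N →
      κ₀ * 2 ^ (-(N : ℝ) / 4) ≤ am (lvl N n) → ∀ σ : ℝ, (σ = 1 ∨ σ = -1) → ∀ R ∈ Icc ((2 : ℝ) ^ N) (2 * 2 ^ N),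
        ‖Vt φ (fun θ => R * Hr F H₀ ω θ + σ * ((2 : ℝ) ^ N) ^ (-(1 / 2) : ℝ)) (((2 : ℝ) ^ N) ^ (-(1 / 2) : ℝ)) n‖ ≤
          C * ((2 : ℝ) ^ N) ^ (1 / 2 : ℝ) * ((log (2 ^ N)) ^ (3 / 8 : ℝ) * ((2 : ℝ) ^ n) ^ (-(1 / 4) : ℝ) +
            (log (2 ^ N)) ^ (5 / 16 : ℝ) * ((2 : ℝ) ^ n) ^ (-(1 / 8) : ℝ)) + C := by
  obtain ⟨C1, hC1, hred⟩ := vt_red B
  have hN1 : ∀ N : ℕ, (1 : ℝ) ≤ 2 ^ N := fun N => one_le_pow₀ (by norm_num)
  choose c1 c2 hc1c hc2c hc1 hc2 hV using fun (N n : ℕ) (b : Bool) => hred φ hφ (2 ^ N) (hN1 N) n (sg b) (sg_or b)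
  obtain ⟨Ca, hCa, hA⟩ := all_R hF hW ham hκ hB0 h0 hB c1 hc1c hc1
    (fun N b => sg b * ((2 : ℝ) ^ N) ^ (-(1 / 2) : ℝ) / 2 ^ N) (fun _ _ => 1)
    (fun N b => (s12_a0 N b).trans (by norm_num)) (fun _ _ => Or.inr rfl)
  obtain ⟨Cb, hCb, hBb⟩ := all_R hF hW ham hκ hB0 h0 hB c2 hc2c hc2 (fun _ _ => 1) (fun _ _ => 0)
    (fun _ _ => by norm_num) (fun _ _ => Or.inl rfl)
  refine ⟨Ca + Cb + 4000 * (2 + 2 * B) + C1, by positivity, ?_⟩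
  filter_upwards [hA, hBb] with ω hω1 hω2
  filter_upwards [hω1, hω2, eventually_ge_atTop 2] with N hN1' hN2' hN2
  intro n hn1 hn2 hn3 σ hσ R hR
  obtain ⟨b, rfl⟩ := sg_ex hσ
  have hQ := Q0_lvl hN2 hn1
  have e1 := hN1' n hn1 hn2 hn3 b R hR
  have e2 := hN2' n hn1 hn2 hn3 b R hR
  have e3 := hV N n b (Hr F H₀ ω) (hB ω) R hR
  have hX : (1 : ℝ) ≤ 2 ^ n := one_le_pow₀ (by norm_num)
  have hR0 : (0 : ℝ) < 2 ^ N := by positivity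
  have hβ : (0 : ℝ) < ((2 : ℝ) ^ N * 2 ^ n) ^ (-(1 / 2) : ℝ) := by positivity
  have hL : 1 ≤ log (2 ^ N) := by
    rw [log_pow]
    have h1 : (2 : ℝ) ≤ N := by exact_mod_cast hN2
    have h2 := Real.log_two_gt_d9
    nlinarith
  obtain ⟨x1, x2, x3⟩ := s12_exp (L := log (2 ^ N)) (X := 2 ^ n) hL hX (Q := Q0 N n) rfl
  have f1 := s12_blk hB0 (hB ω) n hQ.1 (c1 N n b) (hc1c N n b) (hc1 N n b) (s12_a0 N b) (b0 := R / 2 ^ N) (R := R)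
    (by
      rw [abs_of_nonneg (div_nonneg (hR0.le.trans hR.1) hR0.le), div_le_iff₀ hR0]
      exact hR.2) hβ
  have f2 := s12_blk hB0 (hB ω) n hQ.1 (c2 N n b) (hc2c N n b) (hc2 N n b) (a0 := 1) (b0 := 0) (R := R)
    (by norm_num) (by norm_num) hβ
  simp only [one_mul, zero_mul] at e1 e2
  set I1 := ∫ α in gs, k0 (((2 : ℝ) ^ N * 2 ^ n) ^ (-(1 / 2) : ℝ)) α *
    ‖TS n (blk n) (c1 N n b α) (sg b * ((2 : ℝ) ^ N) ^ (-(1 / 2) : ℝ) / 2 ^ N) (R / 2 ^ N) R α (Hr F H₀ ω)‖ with hI1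
  set I2 := ∫ α in gs, k0 (((2 : ℝ) ^ N * 2 ^ n) ^ (-(1 / 2) : ℝ)) α *
    ‖TS n (blk n) (c2 N n b α) 1 0 R α (Hr F H₀ ω)‖ with hI2
  set P := ((2 : ℝ) ^ n) ^ (-(3 / 2) : ℝ) with hP
  set U := log (2 ^ N) ^ (3 / 8 : ℝ) * ((2 : ℝ) ^ n) ^ (-(1 / 4) : ℝ) with hU
  set V := log (2 ^ N) ^ (5 / 16 : ℝ) * ((2 : ℝ) ^ n) ^ (-(1 / 8) : ℝ) with hVd
  set W := ((2 : ℝ) ^ n) ^ (3 / 2 : ℝ) * √(log (2 ^ N)) * Q0 N n ^ (-(1 / 2) : ℝ) with hW'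
  have hP0 : 0 ≤ P := by positivity
  have hU0 : 0 ≤ U := by
    rw [hU]
    have : 0 ≤ log (2 ^ N) := by linarith
    positivity
  have hV0 : 0 ≤ V := by
    rw [hVd]
    have : 0 ≤ log (2 ^ N) := by linarith
    positivity
  have g1 : I1 + I2 ≤ (Ca + Cb) * W + (Ca + Cb) + 4000 * (2 + 2 * B) * (2 ^ n * Q0 N n) := by
    linarith [f1, f2, e1, e2]
  have g2 : P * (I1 + I2) ≤ (Ca + Cb) * V + (Ca + Cb) * U + 4000 * (2 + 2 * B) * U := by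
    calc P * (I1 + I2) ≤ P * ((Ca + Cb) * W + (Ca + Cb) + 4000 * (2 + 2 * B) * (2 ^ n * Q0 N n)) :=
          mul_le_mul_of_nonneg_left g1 hP0
      _ = (Ca + Cb) * (P * W) + (Ca + Cb) * P + 4000 * (2 + 2 * B) * (P * (2 ^ n * Q0 N n)) := by ring
      _ ≤ (Ca + Cb) * V + (Ca + Cb) * U + 4000 * (2 + 2 * B) * U := by
          rw [x1, x2]
          have : (Ca + Cb) * P ≤ (Ca + Cb) * U := mul_le_mul_of_nonneg_left x3 (by positivity)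
          linarith
  have hS0 : (0 : ℝ) ≤ ((2 : ℝ) ^ N) ^ (1 / 2 : ℝ) := by positivity
  have g3 : P * (I1 + I2) ≤ (Ca + Cb + 4000 * (2 + 2 * B) + C1) * (U + V) := by
    have k1 : 0 ≤ 4000 * (2 + 2 * B) * V := by positivity
    have k2 : 0 ≤ C1 * (U + V) := by positivity
    nlinarith
  refine e3.trans ?_
  have g4 := mul_le_mul_of_nonneg_left g3 hS0
  have k3 : 0 ≤ Ca + Cb + 4000 * (2 + 2 * B) := by positivity
  calc ((2 : ℝ) ^ N) ^ (1 / 2 : ℝ) * P * (I1 + I2) + C1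
      = ((2 : ℝ) ^ N) ^ (1 / 2 : ℝ) * (P * (I1 + I2)) + C1 := by ring
    _ ≤ ((2 : ℝ) ^ N) ^ (1 / 2 : ℝ) * ((Ca + Cb + 4000 * (2 + 2 * B) + C1) * (U + V)) + C1 := by linarith
    _ ≤ _ := by
        have : ((2 : ℝ) ^ N) ^ (1 / 2 : ℝ) * ((Ca + Cb + 4000 * (2 + 2 * B) + C1) * (U + V)) =
          (Ca + Cb + 4000 * (2 + 2 * B) + C1) * ((2 : ℝ) ^ N) ^ (1 / 2 : ℝ) * (U + V) := by ring
        linarith

end Pool.Agent.Helper76.EO
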