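import Pool.Agent.Helper76.EO.F0
import Pool.Agent.Helper76.EO.F4
import Pool.Agent.Helper76.EO.S12

/-!
# EO-F5: construction of the random function; all blocks

PROOF. `low_amp k (κ/4)` gives `e`. For `m ∈ ℕ` let `(e2 m, c m)` and, for `B = m + 1`, `(C m, R₁ m)` be the constants of `large_series e m`. Put
`f m N = C m (2^N)^(-c m) + (0 if R₁ m ≤ 2^N and C m (2^N)^(-c m) (N+1) ≤ 1, else 1)`, summable in `N`; `stage` gives `st`, `amp` gives `am`,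
`fam_small` gives `κ₂`; `F = famF e (κ₂ am)` (`famF_good`, `famF_wav`; `κ₂ am j ≤ 1`).
Let `H₀` be `C²` and periodic: `Bdd2 B H₀` for some `B` (continuous periodic functions are bounded), `Bdd2 (B+B1) (Hr F H₀ ω)` for all `ω` (`Hr_bdd`).
(1) fixed stage: `large_series e 3` with the bound `B' = max (B + B1) 1`: `∑_N PP (badE ...) < ∞`, Borel-Cantelli (`ae_eventually_notMem`): almost surely
for large `N` all blocks with `(2^N)^(1/4) ≤ 2^n ≤ (2^N)^(1/2+e2)` are `≤ C (2^N)^(1/2-c) ≤ (2^N)^(1/2)/(N+1)`.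
(2) moving stage: for `N` large `m = st N ≥ B'`, `f (st N) N < 1` (summable), so `R₁ m ≤ 2^N` and `C m (2^N)^(-c m)(N+1) ≤ 1`, and
`PP (badE ...) ≤ C m (2^N)^(-c m) ≤ f (st N) N`, summable: almost surely for large `N` the blocks with `(2^N)^(1/(st N+1)) ≤ 2^n ≤ (2^N)^(1/2+e2 m)` are
`≤ (2^N)^(1/2)/(N+1)`; this covers `(2^N)^(1/(st N+1)) ≤ 2^n ≤ (2^N)^(1/2)`.
(3) `small_ae` with `κ₀ = κ₂` and `am' j = κ₂ am j`: `lvl N n ≤ 2n+3` (`Q0_lvl`), so for `n (st N + 1) ≤ N`: `2^(-N/4) ≤ am (lvl N n)`; `2n ≤ N` if `st N ≥ 1`.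
Combine: for large `N` every `n` with `√(log 2^N) ≤ 2^n ≤ (2^N)^(1/2+e2)` satisfies the stated bound (`e2` the one of stage `3`).
-/

open MeasureTheory Real Set Filter Topology

set_option autoImplicit false

namespace Pool.Agent.Helper76.EO

open Pool.Agent.Helper22.AE

/-- Borel-Cantelli with real bounds from some index on -/
private theorem bc_real {s : ℕ → Set Sp} {g : ℕ → ℝ} (hg : Summable g) (h : ∀ᶠ N in atTop, PP.real (s N) ≤ g N) :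
    ∀ᵐ ω ∂PP, ∀ᶠ N in atTop, ω ∉ s N := by
  obtain ⟨N₀, hN₀⟩ := eventually_atTop.1 h
  have h1 : ∑' N, PP (s (N + N₀)) ≠ ⊤ := by
    have h2 : ∀ N, PP (s (N + N₀)) ≤ ENNReal.ofReal (g (N + N₀)) := fun N => by
      rw [← ofReal_measureReal (measure_ne_top _ _)]
      exact ENNReal.ofReal_le_ofReal (hN₀ _ (Nat.le_add_left _ _))
    have h3 : Summable (fun N => g (N + N₀)) := (summable_nat_add_iff N₀).2 hg
    exact ne_top_of_le_ne_top h3.tsum_ofReal_ne_top (ENNReal.tsum_le_tsum h2)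
  filter_upwards [ae_eventually_notMem h1] with ω hω
  obtain ⟨N₁, hN₁⟩ := eventually_atTop.1 hω
  refine eventually_atTop.2 ⟨N₁ + N₀, fun N hN => ?_⟩
  have := hN₁ (N - N₀) (by omega)
  rwa [Nat.sub_add_cancel (by omega)] at this

private theorem pow_two_rpow (N : ℕ) (c : ℝ) : ((2 : ℝ) ^ N) ^ (-c) = ((2 : ℝ) ^ (-c)) ^ N := by
  rw [← Real.rpow_natCast, ← Real.rpow_mul (by norm_num), mul_comm, Real.rpow_mul (by norm_num), Real.rpow_natCast]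

private theorem summ_geo {C c : ℝ} (hc : 0 < c) : Summable (fun N : ℕ => C * ((2 : ℝ) ^ N) ^ (-c)) := by
  simp_rw [pow_two_rpow]
  refine (summable_geometric_of_lt_one (by positivity) ?_).mul_left C
  exact Real.rpow_lt_one_of_one_lt_of_neg (by norm_num) (by linarith)

private theorem ev_small {C c : ℝ} (hc : 0 < c) : ∀ᶠ N : ℕ in atTop, C * ((2 : ℝ) ^ N) ^ (-c) * (N + 1) ≤ 1 := by
  have h1 : Tendsto (fun N : ℕ => (N : ℝ) ^ 1 * ((2 : ℝ) ^ (-c)) ^ N) atTop (𝓝 0) :=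
    tendsto_pow_const_mul_const_pow_of_abs_lt_one 1 (by
      rw [abs_of_nonneg (by positivity)]
      exact Real.rpow_lt_one_of_one_lt_of_neg (by norm_num) (by linarith))
  have h2 : Tendsto (fun N : ℕ => ((2 : ℝ) ^ (-c)) ^ N) atTop (𝓝 0) :=
    tendsto_pow_atTop_nhds_zero_of_lt_one (by positivity) (Real.rpow_lt_one_of_one_lt_of_neg (by norm_num) (by linarith))
  have h3 : Tendsto (fun N : ℕ => C * ((2 : ℝ) ^ N) ^ (-c) * (N + 1)) atTop (𝓝 0) := by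
    have h4 := (h1.add h2).const_mul C
    simp only [add_zero, mul_zero] at h4
    refine h4.congr (fun N => ?_)
    rw [pow_two_rpow]
    ring
  exact (h3.eventually (ge_mem_nhds (show (0 : ℝ) < 1 by norm_num))).mono fun N hN => hN

private theorem ev_R (R₁ : ℝ) : ∀ᶠ N : ℕ in atTop, R₁ ≤ (2 : ℝ) ^ N :=
  (tendsto_pow_atTop_atTop_of_one_lt (by norm_num : (1 : ℝ) < 2)).eventually_ge_atTop R₁

private theorem summ_ind {P : ℕ → Prop} [DecidablePred P] (h : ∀ᶠ N in atTop, P N) :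
    Summable (fun N => if P N then (0 : ℝ) else 1) := by
  obtain ⟨N₀, hN₀⟩ := eventually_atTop.1 h
  refine summable_of_ne_finset_zero (s := Finset.range N₀) fun N hN => ?_
  rw [if_pos (hN₀ N (by simpa using hN))]

private theorem bdd_mono {B B' : ℝ} (h : B ≤ B') {H : ℝ → ℝ} (hH : Bdd2 B H) : Bdd2 B' H :=
  ⟨hH.smooth, hH.per, fun θ => (hH.b0 θ).trans h, fun θ => (hH.b1 θ).trans h, fun θ => (hH.b2 θ).trans h⟩

private theorem per_bdd {g : ℝ → ℝ} (hg : Continuous g) (hp : Function.Periodic g (2 * π)) : ∃ B : ℝ, ∀ θ, |g θ| ≤ B := by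
  obtain ⟨B, hB⟩ := (isCompact_Icc (a := (0 : ℝ)) (b := 2 * π)).exists_bound_of_continuousOn hg.continuousOn
  refine ⟨B, fun θ => ?_⟩
  obtain ⟨y, hy, hy2⟩ := hp.exists_mem_Ico₀ (by positivity) θ
  rw [hy2]
  exact hB y ⟨hy.1, hy.2.le⟩

private theorem exists_bdd {H₀ : ℝ → ℝ} (h0 : ContDiff ℝ 2 H₀) (hp : Function.Periodic H₀ (2 * π)) : ∃ B : ℝ, Bdd2 B H₀ := by
  have hd : ContDiff ℝ 1 (deriv H₀) := (contDiff_succ_iff_deriv.1 (h0 : ContDiff ℝ (1 + 1) H₀)).2.2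
  have hdd : Continuous (deriv (deriv H₀)) := hd.continuous_deriv le_rfl
  have hp1 : Function.Periodic (deriv H₀) (2 * π) := fun x => by
    have h1 : (fun y => H₀ (y + 2 * π)) = H₀ := funext hp
    have h2 := deriv_comp_add_const H₀ (2 * π) x
    rw [h1] at h2
    exact h2.symm
  have hp2 : Function.Periodic (deriv (deriv H₀)) (2 * π) := fun x => by
    have h1 : (fun y => deriv H₀ (y + 2 * π)) = deriv H₀ := funext hp1
    have h2 := deriv_comp_add_const (deriv H₀) (2 * π) x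
    rw [h1] at h2
    exact h2.symm
  obtain ⟨B0, hB0⟩ := per_bdd h0.continuous hp
  obtain ⟨B1, hB1⟩ := per_bdd hd.continuous hp1
  obtain ⟨B2, hB2⟩ := per_bdd (hdd) hp2
  have n0 := (abs_nonneg _).trans (hB0 0)
  have n1 := (abs_nonneg _).trans (hB1 0)
  have n2 := (abs_nonneg _).trans (hB2 0)
  refine ⟨B0 + B1 + B2, h0, hp, fun θ => ?_, fun θ => ?_, fun θ => ?_⟩
  · linarith [hB0 θ]
  · linarith [hB1 θ]
  · have := abs_add_le (H₀ θ) (deriv (deriv H₀) θ)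
    unfold rho
    linarith [hB0 θ, hB2 θ]

/-- the bound of a power-saving estimate by the target -/
private theorem big_le {N : ℕ} {Y A Cs : ℝ} (hA : 0 ≤ A) (hCs : 1 ≤ Cs)
    (hY : Y ≤ ((2 : ℝ) ^ N) ^ (1 / 2 : ℝ) * (1 / (N + 1))) :
    Y ≤ Cs * ((2 : ℝ) ^ N) ^ (1 / 2 : ℝ) * (A + 1 / (N + 1)) + Cs := by
  have h1 : (0 : ℝ) < ((2 : ℝ) ^ N) ^ (1 / 2 : ℝ) := by positivity
  have h2 : (0 : ℝ) < 1 / ((N : ℝ) + 1) := by positivity
  have h3 : ((2 : ℝ) ^ N) ^ (1 / 2 : ℝ) * (1 / (N + 1)) ≤ Cs * (((2 : ℝ) ^ N) ^ (1 / 2 : ℝ) * (1 / (N + 1))) :=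
    le_mul_of_one_le_left (by positivity) hCs
  have h4 : 0 ≤ Cs * (((2 : ℝ) ^ N) ^ (1 / 2 : ℝ) * A) := by positivity
  nlinarith

private theorem pow_split {N : ℕ} {C c : ℝ} (h : C * ((2 : ℝ) ^ N) ^ (-c) * (N + 1) ≤ 1) :
    C * ((2 : ℝ) ^ N) ^ (1 / 2 - c) ≤ ((2 : ℝ) ^ N) ^ (1 / 2 : ℝ) * (1 / (N + 1)) := by
  have h1 : ((2 : ℝ) ^ N) ^ (1 / 2 - c) = ((2 : ℝ) ^ N) ^ (1 / 2 : ℝ) * ((2 : ℝ) ^ N) ^ (-c) := by
    rw [← Real.rpow_add (by positivity)]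
    ring_nf
  have h2 : C * ((2 : ℝ) ^ N) ^ (-c) ≤ 1 / (N + 1) := by
    rw [le_div_iff₀ (by positivity)]
    exact h
  rw [h1]
  have h3 : (0 : ℝ) < ((2 : ℝ) ^ N) ^ (1 / 2 : ℝ) := by positivity
  calc C * (((2 : ℝ) ^ N) ^ (1 / 2 : ℝ) * ((2 : ℝ) ^ N) ^ (-c)) = ((2 : ℝ) ^ N) ^ (1 / 2 : ℝ) * (C * ((2 : ℝ) ^ N) ^ (-c)) := by ring
    _ ≤ _ := mul_le_mul_of_nonneg_left h2 h3.le

/-- elementary growth: `n (√N + 1) ≤ N` for `n ≤ log₂ N + 1` -/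
private theorem ev_am {st : ℕ → ℕ} (h3 : ∀ N, st N * st N ≤ N) {am : ℕ → ℝ}
    (h : ∀ N n j : ℕ, n * (st N + 1) ≤ N → j ≤ 2 * n + 3 → (2 : ℝ) ^ (-(N : ℝ) / 4) ≤ am j) :
    ∀ᶠ N : ℕ in atTop, ∀ j : ℕ, (2 : ℝ) ^ j ≤ (N : ℝ) ^ 2 → (2 : ℝ) ^ (-(N : ℝ) / 4) ≤ am j := by
  have h1 : ∀ᶠ N : ℕ in atTop, Nat.log 2 N * Nat.log 2 N * 4 ≤ N := by
    have h5 : ∀ᶠ N : ℕ in atTop, 4 * (Real.log N) ^ 2 * 4 ≤ (N : ℝ) := by
      have h6 : (fun x : ℝ => Real.log x ^ 2) =o[atTop] fun x => x := isLittleO_pow_log_id_atTop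
      have h7 := (h6.def (show (0 : ℝ) < 1 / 16 by norm_num))
      have h8 := (tendsto_natCast_atTop_atTop (R := ℝ)).eventually h7
      filter_upwards [h8, eventually_ge_atTop 1] with N hN hN1
      simp only [Real.norm_eq_abs] at hN
      rw [abs_of_nonneg (by positivity : (0 : ℝ) ≤ Real.log (N : ℝ) ^ 2), abs_of_nonneg (Nat.cast_nonneg N)] at hN
      linarith
    filter_upwards [h5, eventually_ge_atTop 1] with N hN hN1
    have h9 : (Nat.log 2 N : ℝ) ≤ 2 * Real.log N := by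
      have h10 : (2 : ℝ) ^ Nat.log 2 N ≤ N := by exact_mod_cast Nat.pow_log_le_self 2 (by omega)
      have h11 := Real.log_le_log (by positivity) h10
      rw [Real.log_pow] at h11
      have h12 : (1 / 2 : ℝ) < Real.log 2 := by
        have := Real.log_two_gt_d9
        linarith
      have h13 : (0 : ℝ) ≤ Nat.log 2 N := Nat.cast_nonneg _
      nlinarith
    have h14 : (Nat.log 2 N : ℝ) * Nat.log 2 N ≤ (2 * Real.log N) * (2 * Real.log N) :=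
      mul_le_mul h9 h9 (Nat.cast_nonneg _) (le_trans (Nat.cast_nonneg _) h9)
    have h15 : (Nat.log 2 N : ℝ) * Nat.log 2 N * 4 ≤ N := by nlinarith
    exact_mod_cast h15
  filter_upwards [h1, eventually_ge_atTop 4] with N hN hN4
  intro j hj
  have hlog : 1 ≤ Nat.log 2 N := Nat.log_pos (by norm_num) (by omega)
  have hN4' : 4 ≤ N := hN4
  apply h N (Nat.log 2 N) j
  · have h5 : 2 * Nat.log 2 N * (2 * Nat.log 2 N) ≤ N := by nlinarith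
    have h6 := h3 N
    by_contra hcon
    push Not at hcon
    rcases le_or_gt (st N) (2 * Nat.log 2 N) with hle | hlt
    · have : Nat.log 2 N * (st N + 1) ≤ Nat.log 2 N * (2 * Nat.log 2 N + 1) := Nat.mul_le_mul_left _ (by omega)
      nlinarith
    · have h7 : 2 * Nat.log 2 N * (st N) ≤ st N * st N := Nat.mul_le_mul_right _ hlt.le
      nlinarith
  · have h5 : (2 : ℕ) ^ j ≤ N ^ 2 := by exact_mod_cast hj
    have h6 : N < 2 ^ (Nat.log 2 N + 1) := Nat.lt_pow_succ_log_self (by norm_num) N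
    have h7 : N ^ 2 < 2 ^ (2 * (Nat.log 2 N + 1)) := by
      calc N ^ 2 < (2 ^ (Nat.log 2 N + 1)) ^ 2 := Nat.pow_lt_pow_left h6 (by norm_num)
        _ = 2 ^ (2 * (Nat.log 2 N + 1)) := by rw [← pow_mul, mul_comm]
    have h8 := (Nat.pow_lt_pow_iff_right (by norm_num : 1 < 2)).1 (h5.trans_lt h7)
    omega

theorem all_blocks (k : ℕ) {κ : ℝ} (hκ : 0 < κ) : ∃ (F : Fam) (e2 : ℝ) (am : ℕ → ℝ) (κ₀ : ℝ), F.Good ∧ 0 < e2 ∧ e2 ≤ 1 / 4 ∧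
    F.Wav am ∧ (∀ j, 0 < am j) ∧ 0 < κ₀ ∧
    (∀ᶠ N : ℕ in atTop, ∀ j : ℕ, (2 : ℝ) ^ j ≤ (N : ℝ) ^ 2 → κ₀ * 2 ^ (-(N : ℝ) / 4) ≤ am j) ∧
    (∀ ω, ∀ s ≤ k, ∀ θ, |iteratedDeriv s (Psi F ω) θ| ≤ κ) ∧
    ∀ H₀ : ℝ → ℝ, ContDiff ℝ 2 H₀ → Function.Periodic H₀ (2 * π) → ∀ φ : ℝ × ℝ → ℝ, IsBump φ → ∃ C : ℝ, 0 ≤ C ∧
      ∀ᵐ ω ∂PP, ∀ᶠ N : ℕ in atTop, ∀ n : ℕ, √(log (2 ^ N)) ≤ 2 ^ n → (2 : ℝ) ^ n ≤ (2 ^ N) ^ (1 / 2 + e2) →
        ∀ σ : ℝ, (σ = 1 ∨ σ = -1) → ∀ R ∈ Icc ((2 : ℝ) ^ N) (2 * 2 ^ N),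
          ‖Vt φ (fun θ => R * Hr F H₀ ω θ + σ * ((2 : ℝ) ^ N) ^ (-(1 / 2) : ℝ)) (((2 : ℝ) ^ N) ^ (-(1 / 2) : ℝ)) n‖ ≤
            C * ((2 : ℝ) ^ N) ^ (1 / 2 : ℝ) * ((log (2 ^ N)) ^ (3 / 8 : ℝ) * ((2 : ℝ) ^ n) ^ (-(1 / 4) : ℝ) +
              (log (2 ^ N)) ^ (5 / 16 : ℝ) * ((2 : ℝ) ^ n) ^ (-(1 / 8) : ℝ) + 1 / (N + 1)) + C := by
  classical
  obtain ⟨e, he, hes, hek⟩ := low_amp k (κ := κ / 4) (by positivity)
  choose e2 c he2 he24 hc hls using fun m : ℕ => large_series he m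
  choose C R₁ hC hR₁ hlm using fun m : ℕ => hls m ((m : ℝ) + 1) (by linarith [(Nat.cast_nonneg m : (0 : ℝ) ≤ m)])
  set f : ℕ → ℕ → ℝ := fun m N => C m * ((2 : ℝ) ^ N) ^ (-c m) +
    (if R₁ m ≤ (2 : ℝ) ^ N ∧ C m * ((2 : ℝ) ^ N) ^ (-c m) * (N + 1) ≤ 1 then 0 else 1) with hf
  have hf0 : ∀ m N, 0 ≤ f m N := fun m N => by
    have := hC m
    have h2 : (0 : ℝ) ≤ (if R₁ m ≤ (2 : ℝ) ^ N ∧ C m * ((2 : ℝ) ^ N) ^ (-c m) * (N + 1) ≤ 1 then 0 else 1) := by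
      split_ifs <;> norm_num
    have h3 : 0 ≤ C m * ((2 : ℝ) ^ N) ^ (-c m) := by positivity
    exact add_nonneg h3 h2
  have hfs : ∀ m, Summable (f m) := fun m =>
    (summ_geo (hc m)).add (summ_ind ((ev_R (R₁ m)).and (ev_small (hc m))))
  obtain ⟨st, hst1, hst2, hst3, hst4⟩ := stage f hf0 hfs
  obtain ⟨am, ham, hams, hamN⟩ := amp hst1 hst2 hst3
  obtain ⟨κ₂, hκ₂, hκ₂1, hsm⟩ := fam_small he hes ham hams k hκ hek
  have ham' : ∀ j, 0 < κ₂ * am j ∧ κ₂ * am j ≤ 1 := fun j =>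
    ⟨mul_pos hκ₂ (ham j).1, mul_le_one₀ hκ₂1 (ham j).1.le (ham j).2⟩
  have hams' : ∀ s : ℕ, Summable (fun j => κ₂ * am j * 2 ^ j * (4 ^ j) ^ s) := fun s => by
    have := (hams s).mul_left κ₂
    refine this.congr fun j => ?_
    ring
  have hG : (famF e (fun j => κ₂ * am j)).Good := famF_good he hes ham' hams'
  set F := famF e (fun j => κ₂ * am j) with hFdef
  have hev := ev_am hst3 hamN
  refine ⟨F, e2 3, fun j => κ₂ * am j, κ₂, hG, he2 3, he24 3, famF_wav e (fun j => κ₂ * am j), fun j => (ham' j).1, hκ₂,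
    hev.mono fun N hN j hj => mul_le_mul_of_nonneg_left (hN j hj) hκ₂.le, hsm, fun H₀ h0 hp φ hφ => ?_⟩
  obtain ⟨B, hB⟩ := exists_bdd h0 hp
  obtain ⟨B1, hB1, hHr⟩ := Hr_bdd hG
  have hbd : ∀ ω, Bdd2 (B + B1) (Hr F H₀ ω) := hHr B H₀ hB
  set B' : ℝ := max (B + B1) 1 with hB'
  have hbd' : ∀ ω, Bdd2 B' (Hr F H₀ ω) := fun ω => bdd_mono (le_max_left _ _) (hbd ω)
  have hB'1 : 1 ≤ B' := le_max_right _ _
  obtain ⟨Cs, hCs, hsmall⟩ := small_ae hG (famF_wav e (fun j => κ₂ * am j)) ham' hκ₂ (by linarith : (0 : ℝ) ≤ B') h0 hbd' hφ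
  -- fixed stage
  obtain ⟨C3, R3, hC3, hR3, h3⟩ := hls 3 B' hB'1
  have A1 : ∀ᵐ ω ∂PP, ∀ᶠ N : ℕ in atTop, ω ∉ badE F H₀ φ N
      {n | ((2 : ℝ) ^ N) ^ (1 / (((3 : ℕ) : ℝ) + 1)) ≤ 2 ^ n ∧ (2 : ℝ) ^ n ≤ (2 ^ N) ^ (1 / 2 + e2 3)}
      (C3 * ((2 : ℝ) ^ N) ^ (1 / 2 - c 3)) :=
    bc_real (summ_geo (C := C3) (hc 3)) ((ev_R R3).mono fun N hN => h3 _ H₀ hG h0 hbd' φ hφ N hN)
  -- moving stage
  have hf1 : ∀ᶠ N in atTop, f (st N) N < 1 := by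
    have := hst4.tendsto_atTop_zero
    exact this.eventually (gt_mem_nhds (show (0 : ℝ) < 1 by norm_num))
  have hcond : ∀ᶠ N in atTop, R₁ (st N) ≤ (2 : ℝ) ^ N ∧ C (st N) * ((2 : ℝ) ^ N) ^ (-c (st N)) * (N + 1) ≤ 1 := by
    filter_upwards [hf1] with N hN
    by_contra hcon
    have h4 : f (st N) N = C (st N) * ((2 : ℝ) ^ N) ^ (-c (st N)) + 1 := by
      simp only [hf]
      rw [if_neg hcon]
    have h5 := hC (st N)
    have h6 : 0 ≤ C (st N) * ((2 : ℝ) ^ N) ^ (-c (st N)) := by positivity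
    linarith
  have hstB : ∀ᶠ N in atTop, B' ≤ (st N : ℝ) + 1 := by
    have h4 : Tendsto (fun N => (st N : ℝ) + 1) atTop atTop :=
      tendsto_atTop_add_const_right _ _ (tendsto_natCast_atTop_atTop.comp hst2)
    exact h4.eventually_ge_atTop B'
  have A2 : ∀ᵐ ω ∂PP, ∀ᶠ N : ℕ in atTop, ω ∉ badE F H₀ φ N
      {n | ((2 : ℝ) ^ N) ^ (1 / ((st N : ℝ) + 1)) ≤ 2 ^ n ∧ (2 : ℝ) ^ n ≤ (2 ^ N) ^ (1 / 2 + e2 (st N))}
      (C (st N) * ((2 : ℝ) ^ N) ^ (1 / 2 - c (st N))) := by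
    refine bc_real hst4 ?_
    filter_upwards [hcond, hstB] with N hN hN2
    have h4 := hlm (st N) _ H₀ hG h0 (fun ω => bdd_mono hN2 (hbd' ω)) φ hφ N hN.1
    have h5 : C (st N) * ((2 : ℝ) ^ N) ^ (-c (st N)) ≤ f (st N) N := by
      simp only [hf]
      split_ifs <;> linarith
    exact h4.trans h5
  refine ⟨max Cs 1, le_trans hCs (le_max_left _ _), ?_⟩
  have hst0 : ∀ᶠ N in atTop, 1 ≤ st N := hst2.eventually_ge_atTop 1
  filter_upwards [hsmall, A1, A2] with ω hω1 hω2 hω3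
  filter_upwards [hω1, hω2, hω3, hcond, hst0, ev_small (C := C3) (hc 3), eventually_ge_atTop 2] with N hN1 hN2 hN3 hN4 hN5 hN6 hN7
  intro n hn1 hn2 σ hσ R hR
  have hlog : 0 ≤ log ((2 : ℝ) ^ N) := Real.log_nonneg (one_le_pow₀ (by norm_num))
  set A : ℝ := (log (2 ^ N)) ^ (3 / 8 : ℝ) * ((2 : ℝ) ^ n) ^ (-(1 / 4) : ℝ) +
              (log (2 ^ N)) ^ (5 / 16 : ℝ) * ((2 : ℝ) ^ n) ^ (-(1 / 8) : ℝ) with hA
  have hA0 : 0 ≤ A := by positivity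
  by_cases hcase : n * (st N + 1) ≤ N
  · -- small blocks
    have hn : 2 * n ≤ N := by nlinarith
    have hlv := (Q0_lvl hN7 hn1).2.2.2.2
    have ha := hamN N n (lvl N n) hcase hlv
    have h5 := hN1 n hn1 hn (mul_le_mul_of_nonneg_left ha hκ₂.le) σ hσ R hR
    refine h5.trans ?_
    have h6 : Cs ≤ max Cs 1 := le_max_left _ _
    have h7 : (0 : ℝ) ≤ 1 / ((N : ℝ) + 1) := by positivity
    have h8 : Cs * ((2 : ℝ) ^ N) ^ (1 / 2 : ℝ) * A ≤ max Cs 1 * ((2 : ℝ) ^ N) ^ (1 / 2 : ℝ) * (A + 1 / (N + 1)) := by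
      apply mul_le_mul (mul_le_mul_of_nonneg_right h6 (by positivity)) (by linarith) hA0 (by positivity)
    exact add_le_add h8 h6
  · push Not at hcase
    by_cases hcase2 : ((2 : ℝ) ^ N) ^ (1 / (((3 : ℕ) : ℝ) + 1)) ≤ 2 ^ n
    · -- fixed stage
      have h5 : ‖Vt φ (fun θ => R * Hr F H₀ ω θ + σ * ((2 : ℝ) ^ N) ^ (-(1 / 2) : ℝ)) (((2 : ℝ) ^ N) ^ (-(1 / 2) : ℝ)) n‖ ≤
          C3 * ((2 : ℝ) ^ N) ^ (1 / 2 - c 3) := by
        by_contra hcon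
        push Not at hcon
        exact hN2 ⟨n, ⟨hcase2, hn2⟩, σ, hσ, R, hR, hcon⟩
      exact big_le hA0 (le_max_right _ _) (h5.trans (pow_split hN6))
    · -- moving stage
      push Not at hcase2
      have h4 : ((2 : ℝ) ^ N) ^ (1 / ((st N : ℝ) + 1)) ≤ 2 ^ n := by
        rw [← Real.rpow_natCast, ← Real.rpow_mul (by norm_num), ← Real.rpow_natCast 2 n]
        apply Real.rpow_le_rpow_of_exponent_le (by norm_num)
        rw [mul_one_div, div_le_iff₀ (by positivity)]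
        exact_mod_cast hcase.le
      have h4' : (2 : ℝ) ^ n ≤ (2 ^ N) ^ (1 / 2 + e2 (st N)) := by
        refine hcase2.le.trans ?_
        apply Real.rpow_le_rpow_of_exponent_le (one_le_pow₀ (by norm_num))
        have := he2 (st N)
        norm_num
        linarith
      have h5 : ‖Vt φ (fun θ => R * Hr F H₀ ω θ + σ * ((2 : ℝ) ^ N) ^ (-(1 / 2) : ℝ)) (((2 : ℝ) ^ N) ^ (-(1 / 2) : ℝ)) n‖ ≤
          C (st N) * ((2 : ℝ) ^ N) ^ (1 / 2 - c (st N)) := by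
        by_contra hcon
        push Not at hcon
        exact hN3 ⟨n, ⟨h4, h4'⟩, σ, hσ, R, hR, hcon⟩
      exact big_le hA0 (le_max_right _ _) (h5.trans (pow_split hN4.2))

end Pool.Agent.Helper76.EO
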