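import Pool.Agent.Helper76.EO.F5
import Pool.Agent.Helper22.AE.K2

/-!
# EO-F6: the upper bound

PROOF. Fix a bump `φ` (`exists_bump`), `F, e2` from `all_blocks`. For almost every `ω` with `H = Hr F H₀ ω` a support function: `err_le_blocks hH hφ` with
`e2' = e2/2` (so that all `n < n1`, `n1` least with `R₀^(1/2+e2') ≤ 2^n1`, satisfy `2^n ≤ R₀^(1/2+e2)`; or directly `e2`), `VK = Vt` (`Vt_eq`, the function
`R H + σ δ` is a support function). `R₀ = 2^N`, `x = √(log 2^N)`. Blocks `2^n < x`: `vt_triv`: `C R₀^(1/2) (2^n)^(1/2)`, geometric sum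
`≤ C R₀^(1/2) x^(1/2)·4 = C R₀^(1/2) (log R₀)^(1/4)`. Blocks `2^n ≥ x`: geometric sums
`∑ (2^n)^(-1/4) ≤ C x^(-1/4)`, `∑ (2^n)^(-1/8) ≤ C x^(-1/8)`: `(log R₀)^(3/8 - 1/8) = (log R₀)^(1/4)`, `(log R₀)^(5/16-1/16) = (log R₀)^(1/4)`; the terms
`1/(N+1)` and `C` sum to `≤ C R₀^(1/2)` (`n1 ≤ N + 1`). For `R ∈ [2, 2^(N₀)]`: `cnt_bdd` (Helper22/AE/K2) and `(log R)^(1/4) ≥ (log 2)^(1/4)`.
-/

open MeasureTheory Real Set Filter Topology

set_option autoImplicit false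

namespace Pool.Agent.Helper76.EO

open Pool.Agent.Helper22.AE

private lemma k2_pow_F6 (x : ℝ) : ∃ n : ℕ, x ≤ 2 ^ n := by
  obtain ⟨n, hn⟩ := pow_unbounded_of_one_lt x one_lt_two
  exact ⟨n, hn.le⟩

private lemma k2_log_F6 {ε : ℝ} (hε : 0 < ε) (N : ℕ) : (N : ℝ) ≤ 4 / (ε * log 2) * ((2 : ℝ) ^ N) ^ (1 / 4 * ε) := by
  have hl : 0 < log 2 := Real.log_pos (by norm_num)
  have h1 : ((2 : ℝ) ^ N) ^ (1 / 4 * ε) = exp (N * (log 2 * (1 / 4 * ε))) := by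
    rw [← Real.rpow_natCast, ← Real.rpow_mul (by norm_num), Real.rpow_def_of_pos (by norm_num)]
    congr 1
    ring
  have h2 := Real.add_one_le_exp (N * (log 2 * (1 / 4 * ε)))
  rw [h1]
  have h3 : (N : ℝ) = 4 / (ε * log 2) * (N * (log 2 * (1 / 4 * ε))) := by
    field_simp
  calc (N : ℝ) = 4 / (ε * log 2) * (N * (log 2 * (1 / 4 * ε))) := h3
    _ ≤ _ := mul_le_mul_of_nonneg_left (by linarith) (by positivity)

private lemma per_deriv_F6 {f : ℝ → ℝ} (hp : Function.Periodic f (2 * π)) :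
    Function.Periodic (deriv f) (2 * π) := by
  intro x
  have h : (fun y => f (y + 2 * π)) = f := funext hp
  have h2 := deriv_comp_add_const f (2 * π) x
  rw [h] at h2
  exact h2.symm

private lemma per_bdd_F6 {f : ℝ → ℝ} (hf : Continuous f) (hp : Function.Periodic f (2 * π)) :
    ∃ B : ℝ, 0 ≤ B ∧ ∀ θ, |f θ| ≤ B := by
  obtain ⟨B, hB⟩ := (isCompact_Icc (a := (0 : ℝ)) (b := 2 * π)).exists_bound_of_continuousOn hf.continuousOn
  have key : ∀ θ, |f θ| ≤ B := by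
    intro θ
    obtain ⟨y, hy, h⟩ := hp.exists_mem_Ico₀ (by positivity) θ
    rw [h, ← Real.norm_eq_abs]
    exact hB y ⟨hy.1, hy.2.le⟩
  exact ⟨B, (abs_nonneg _).trans (key 0), key⟩

private lemma bdd2_F6 {H : ℝ → ℝ} (hs : ContDiff ℝ 2 H) (hp : Function.Periodic H (2 * π)) :
    ∃ B : ℝ, Bdd2 B H := by
  have hc1 : ContDiff ℝ 1 (deriv H) := ((contDiff_succ_iff_deriv (n := 1)).1 hs).2.2
  have hp1 := per_deriv_F6 hp
  have hp2 := per_deriv_F6 hp1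
  obtain ⟨B0, h00, h0⟩ := per_bdd_F6 hs.continuous hp
  obtain ⟨B1, h10, h1⟩ := per_bdd_F6 hc1.continuous hp1
  obtain ⟨B2, h20, h2⟩ := per_bdd_F6 (hc1.continuous_deriv le_rfl) hp2
  refine ⟨B0 + B1 + B2, hs, hp, fun θ => ?_, fun θ => ?_, fun θ => ?_⟩
  · have := h0 θ
    linarith
  · have := h1 θ
    linarith
  · have a := h0 θ
    have b := h2 θ
    have c : |rho H θ| ≤ |H θ| + |deriv (deriv H) θ| := by
      unfold rho
      exact abs_add_le _ _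
    linarith

private lemma geo_up_F6 {x s : ℝ} (hx : 1 ≤ x) (hs : 0 < s) (hq : (2 : ℝ) ^ (-s) ≤ 19 / 20) (n1 : ℕ) :
    ∑ n ∈ (Finset.range n1).filter (fun n : ℕ => x ≤ (2 : ℝ) ^ n), ((2 : ℝ) ^ n) ^ (-s) ≤ 20 * x ^ (-s) := by
  classical
  have hex := k2_pow_F6 x
  set m := Nat.find hex with hm
  have hms : x ≤ (2 : ℝ) ^ m := Nat.find_spec hex
  have hq0 : (0 : ℝ) ≤ (2 : ℝ) ^ (-s) := by positivity
  have hpow : ∀ n : ℕ, ((2 : ℝ) ^ n) ^ (-s) = ((2 : ℝ) ^ (-s)) ^ n := by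
    intro n
    rw [← Real.rpow_natCast ((2 : ℝ) ^ (-s)) n, ← Real.rpow_natCast 2 n, ← Real.rpow_mul (by norm_num),
      ← Real.rpow_mul (by norm_num)]
    congr 1
    ring
  have hsub : (Finset.range n1).filter (fun n : ℕ => x ≤ (2 : ℝ) ^ n) ⊆ (Finset.range n1).image (fun j => m + j) := by
    intro n hn
    rw [Finset.mem_filter, Finset.mem_range] at hn
    have h1 : m ≤ n := Nat.find_min' hex hn.2
    rw [Finset.mem_image]
    exact ⟨n - m, Finset.mem_range.2 (by omega), by omega⟩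
  calc ∑ n ∈ (Finset.range n1).filter (fun n : ℕ => x ≤ (2 : ℝ) ^ n), ((2 : ℝ) ^ n) ^ (-s)
      ≤ ∑ n ∈ (Finset.range n1).image (fun j => m + j), ((2 : ℝ) ^ n) ^ (-s) :=
        Finset.sum_le_sum_of_subset_of_nonneg hsub (fun _ _ _ => by positivity)
    _ = ∑ j ∈ Finset.range n1, ((2 : ℝ) ^ (m + j)) ^ (-s) := by
        rw [Finset.sum_image (fun a _ b _ h => Nat.add_left_cancel h)]
    _ = ((2 : ℝ) ^ (-s)) ^ m * ∑ j ∈ Finset.range n1, ((2 : ℝ) ^ (-s)) ^ j := by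
        rw [Finset.mul_sum]
        refine Finset.sum_congr rfl fun j _ => ?_
        rw [hpow, pow_add]
    _ ≤ ((2 : ℝ) ^ (-s)) ^ m * 20 := by
        refine mul_le_mul_of_nonneg_left ?_ (by positivity)
        have h1 := mul_neg_geom_sum ((2 : ℝ) ^ (-s)) n1
        have h2 : 0 ≤ ((2 : ℝ) ^ (-s)) ^ n1 := by positivity
        have h3 : 0 ≤ ∑ j ∈ Finset.range n1, ((2 : ℝ) ^ (-s)) ^ j := Finset.sum_nonneg fun _ _ => by positivity
        nlinarith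
    _ = 20 * ((2 : ℝ) ^ m) ^ (-s) := by rw [hpow, mul_comm]
    _ ≤ 20 * x ^ (-s) :=
        mul_le_mul_of_nonneg_left (Real.rpow_le_rpow_of_nonpos (by linarith) hms (by linarith)) (by norm_num)

private lemma q_F6 {s : ℝ} (k : ℕ) (hk : 0 < k) (hs : s = 1 / k) (h : (1 / 2 : ℝ) ≤ (19 / 20) ^ k) :
    (2 : ℝ) ^ (-s) ≤ 19 / 20 := by
  have hk' : (0 : ℝ) < k := by exact_mod_cast hk
  refine le_of_pow_le_pow_left₀ hk.ne' (by norm_num) ?_
  rw [← Real.rpow_natCast ((2 : ℝ) ^ (-s)) k, ← Real.rpow_mul (by norm_num), hs]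
  have e : -(1 / (k : ℝ)) * k = -1 := by field_simp
  rw [e, Real.rpow_neg_one]
  have : (2 : ℝ)⁻¹ = 1 / 2 := by norm_num
  rw [this]
  exact h

/-- the geometric sums -/
theorem geo_sum {x y : ℝ} (hx : 1 ≤ x) (hy : 1 ≤ y) (n1 : ℕ) :
    ∑ n ∈ (Finset.range n1).filter (fun n : ℕ => (2 : ℝ) ^ n < x), ((2 : ℝ) ^ n) ^ (1 / 2 : ℝ) ≤ 4 * x ^ (1 / 2 : ℝ) ∧
    ∑ n ∈ (Finset.range n1).filter (fun n : ℕ => x ≤ (2 : ℝ) ^ n), ((2 : ℝ) ^ n) ^ (-(1 / 4) : ℝ) ≤ 20 * x ^ (-(1 / 4) : ℝ) ∧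
    ∑ n ∈ (Finset.range n1).filter (fun n : ℕ => x ≤ (2 : ℝ) ^ n), ((2 : ℝ) ^ n) ^ (-(1 / 8) : ℝ) ≤ 20 * x ^ (-(1 / 8) : ℝ) := by
  classical
  refine ⟨?_, ?_, ?_⟩
  · have hex := k2_pow_F6 x
    set m := Nat.find hex with hm
    have hr0 : (0 : ℝ) < (2 : ℝ) ^ (1 / 2 : ℝ) := by positivity
    have hr2 : ((2 : ℝ) ^ (1 / 2 : ℝ)) ^ 2 = 2 := by
      rw [← Real.rpow_natCast, ← Real.rpow_mul (by norm_num)]
      norm_num
    have hr1 : (7 / 5 : ℝ) ≤ (2 : ℝ) ^ (1 / 2 : ℝ) := by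
      refine le_of_pow_le_pow_left₀ two_ne_zero hr0.le ?_
      rw [hr2]
      norm_num
    have hr3 : (2 : ℝ) ^ (1 / 2 : ℝ) ≤ 3 / 2 := by
      refine le_of_pow_le_pow_left₀ two_ne_zero (by norm_num) ?_
      rw [hr2]
      norm_num
    have hpow : ∀ n : ℕ, ((2 : ℝ) ^ n) ^ (1 / 2 : ℝ) = ((2 : ℝ) ^ (1 / 2 : ℝ)) ^ n := by
      intro n
      rw [← Real.rpow_natCast ((2 : ℝ) ^ (1 / 2 : ℝ)) n, ← Real.rpow_natCast 2 n, ← Real.rpow_mul (by norm_num),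
        ← Real.rpow_mul (by norm_num)]
      congr 1
      ring
    have hsub : (Finset.range n1).filter (fun n : ℕ => (2 : ℝ) ^ n < x) ⊆ Finset.range m := by
      intro n hn
      rw [Finset.mem_filter, Finset.mem_range] at hn
      rw [Finset.mem_range, hm, Nat.lt_find_iff]
      intro l hl hcon
      have h1 : (2 : ℝ) ^ l ≤ 2 ^ n := pow_le_pow_right₀ (by norm_num) hl
      linarith [hn.2]
    set r : ℝ := (2 : ℝ) ^ (1 / 2 : ℝ) with hr
    have hsum : ∑ n ∈ (Finset.range n1).filter (fun n : ℕ => (2 : ℝ) ^ n < x), ((2 : ℝ) ^ n) ^ (1 / 2 : ℝ) ≤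
        ∑ n ∈ Finset.range m, r ^ n := by
      refine (Finset.sum_le_sum_of_subset_of_nonneg hsub (fun _ _ _ => by positivity)).trans (le_of_eq ?_)
      exact Finset.sum_congr rfl fun n _ => hpow n
    refine hsum.trans ?_
    rcases Nat.eq_zero_or_pos m with h0 | hpos
    · rw [h0, Finset.sum_range_zero]
      positivity
    · obtain ⟨l, hl⟩ : ∃ l, m = l + 1 := ⟨m - 1, by omega⟩
      have hlx : (2 : ℝ) ^ l < x := by
        have := Nat.find_min hex (m := l) (by omega)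
        rwa [not_le] at this
      have h1 : r ^ l ≤ x ^ (1 / 2 : ℝ) := by
        rw [← hpow]
        exact Real.rpow_le_rpow (by positivity) hlx.le (by norm_num)
      have h2 := geom_sum_mul r m
      rw [hl, pow_succ] at h2
      have h3 : 0 ≤ ∑ n ∈ Finset.range (l + 1), r ^ n := Finset.sum_nonneg fun _ _ => by positivity
      have h4 : 0 ≤ r ^ l := by positivity
      rw [hl]
      have h5 : (∑ n ∈ Finset.range (l + 1), r ^ n) * (2 / 5) ≤ r ^ l * (3 / 2) := by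
        calc (∑ n ∈ Finset.range (l + 1), r ^ n) * (2 / 5) ≤ (∑ n ∈ Finset.range (l + 1), r ^ n) * (r - 1) :=
              mul_le_mul_of_nonneg_left (by linarith) h3
          _ = r ^ l * r - 1 := h2
          _ ≤ r ^ l * (3 / 2) := by
              have := mul_le_mul_of_nonneg_left hr3 h4
              linarith
      have h6 : ∑ n ∈ Finset.range (l + 1), r ^ n ≤ 15 / 4 * r ^ l := by linarith
      have h7 : 0 ≤ x ^ (1 / 2 : ℝ) := by positivity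
      linarith
  · exact geo_up_F6 hx (by norm_num) (q_F6 4 (by norm_num) (by norm_num) (by norm_num)) n1
  · exact geo_up_F6 hx (by norm_num) (q_F6 8 (by norm_num) (by norm_num) (by norm_num)) n1

theorem upper (k : ℕ) {κ : ℝ} (hκ : 0 < κ) : ∃ (F : Fam) (am : ℕ → ℝ) (κ₀ : ℝ), F.Good ∧
    F.Wav am ∧ (∀ j, 0 < am j) ∧ 0 < κ₀ ∧
    (∀ᶠ N : ℕ in atTop, ∀ j : ℕ, (2 : ℝ) ^ j ≤ (N : ℝ) ^ 2 → κ₀ * 2 ^ (-(N : ℝ) / 4) ≤ am j) ∧
    (∀ ω, ∀ s ≤ k, ∀ θ, |iteratedDeriv s (Psi F ω) θ| ≤ κ) ∧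
    ∀ H₀ : ℝ → ℝ, ContDiff ℝ 2 H₀ → Function.Periodic H₀ (2 * π) → ∀ᵐ ω ∂PP, IsSupp (Hr F H₀ ω) →
      ∃ C : ℝ, ∀ R : ℝ, 2 ≤ R → |cnt (Hr F H₀ ω) R - area (Hr F H₀ ω) * R ^ 2| ≤ C * (R ^ (1 / 2 : ℝ) * (log R) ^ (1 / 4 : ℝ)) := by
  classical
  obtain ⟨φ, hφ⟩ := exists_bump
  obtain ⟨F, e2, am, κ₀, hF, he2, he2', hW, ham, hκ₀, hamN, hΨ, hall⟩ := all_blocks k hκ
  refine ⟨F, am, κ₀, hF, hW, ham, hκ₀, hamN, hΨ, fun H₀ h0 hp => ?_⟩
  obtain ⟨C, hC, hae⟩ := hall H₀ h0 hp φ hφ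
  filter_upwards [hae] with ω hω hS
  set H : ℝ → ℝ := Hr F H₀ ω with hH
  obtain ⟨B, hB⟩ := bdd2_F6 hS.smooth hS.per
  obtain ⟨Ct, hCt, htriv⟩ := vt_triv B
  obtain ⟨N₁, hN₁⟩ := eventually_atTop.1 hω
  obtain ⟨C₂, R₂, hR₂, hblk⟩ := err_le_blocks hS hφ he2
  obtain ⟨N₂, hN₂⟩ : ∃ N₂ : ℕ, R₂ ≤ 2 ^ N₂ := k2_pow_F6 R₂
  obtain ⟨C₃, hC₃⟩ := cnt_bdd hS (2 ^ (N₁ + N₂ + 2))
  have hl2 : (1 / 2 : ℝ) < log 2 := by
    have := Real.log_two_gt_d9
    linarith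
  set D : ℝ := 4 / (2 * log 2) with hD
  have hD0 : 0 ≤ D := by positivity
  refine ⟨2 * |C₃| + (|C₂| + 4 * Ct + 41 * C + C * D), fun R hR => ?_⟩
  have hR1 : (1 : ℝ) ≤ R := by linarith
  have hlogR : log 2 ≤ log R := Real.log_le_log (by norm_num) hR
  have hRh : 1 ≤ R ^ (1 / 2 : ℝ) := Real.one_le_rpow hR1 (by norm_num)
  have hLh : 1 / 2 ≤ (log R) ^ (1 / 4 : ℝ) := by
    calc (1 / 2 : ℝ) ≤ (log 2) ^ (1 : ℝ) := by rw [Real.rpow_one]; exact hl2.le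
      _ ≤ (log 2) ^ (1 / 4 : ℝ) := by
          refine Real.rpow_le_rpow_of_exponent_ge (by linarith) ?_ (by norm_num)
          have := Real.log_two_lt_d9
          linarith
      _ ≤ (log R) ^ (1 / 4 : ℝ) := Real.rpow_le_rpow (by linarith) hlogR (by norm_num)
  have hprod : 1 / 2 ≤ R ^ (1 / 2 : ℝ) * (log R) ^ (1 / 4 : ℝ) := by nlinarith
  have hS0 : 0 ≤ |C₂| + 4 * Ct + 41 * C + C * D := by positivity
  rcases le_or_gt R (2 ^ (N₁ + N₂ + 2)) with hcase | hcase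
  · have h1 := hC₃ R hR1 hcase
    have h2 := le_abs_self C₃
    have h3 : |C₃| ≤ 2 * |C₃| * (R ^ (1 / 2 : ℝ) * (log R) ^ (1 / 4 : ℝ)) := by
      have := mul_le_mul_of_nonneg_left hprod (abs_nonneg C₃)
      linarith
    have h4 : 0 ≤ (|C₂| + 4 * Ct + 41 * C + C * D) * (R ^ (1 / 2 : ℝ) * (log R) ^ (1 / 4 : ℝ)) :=
      mul_nonneg hS0 (by linarith)
    rw [add_mul]
    linarith
  · obtain ⟨N, hN1, hN2⟩ := exists_nat_pow_near hR1 (one_lt_two)
    have hNN : N₁ + N₂ + 2 ≤ N := by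
      by_contra hcon
      have h1 : N + 1 ≤ N₁ + N₂ + 2 := by omega
      have h2 : (2 : ℝ) ^ (N + 1) ≤ 2 ^ (N₁ + N₂ + 2) := pow_le_pow_right₀ (by norm_num) h1
      linarith
    have hRmem : R ∈ Icc ((2 : ℝ) ^ N) (2 * 2 ^ N) := by
      refine ⟨hN1, ?_⟩
      rw [pow_succ] at hN2
      linarith
    have hP1 : (1 : ℝ) ≤ 2 ^ N := one_le_pow₀ (by norm_num)
    have hP0 : (0 : ℝ) < 2 ^ N := by positivity
    have hexn : ∃ n : ℕ, ((2 : ℝ) ^ N) ^ (1 / 2 + e2) ≤ 2 ^ n := k2_pow_F6 _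
    set n1 := Nat.find hexn with hn1
    have hn1s : ((2 : ℝ) ^ N) ^ (1 / 2 + e2) ≤ 2 ^ n1 := Nat.find_spec hexn
    have hn1N : n1 ≤ N := by
      apply Nat.find_min' hexn
      calc ((2 : ℝ) ^ N) ^ (1 / 2 + e2) ≤ ((2 : ℝ) ^ N) ^ (1 : ℝ) :=
            Real.rpow_le_rpow_of_exponent_le hP1 (by linarith)
        _ = 2 ^ N := Real.rpow_one _
    obtain ⟨σ, hσ, hσS, herr⟩ := hblk (2 ^ N) (hN₂.trans (pow_le_pow_right₀ (by norm_num) (by omega))) R hRmem n1 hn1s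
    -- the parameters
    set A : ℝ := ((2 : ℝ) ^ N) ^ (1 / 2 : ℝ) with hA
    have hA0 : 0 ≤ A := by positivity
    set l : ℝ := log (2 ^ N) with hl
    have hlN : l = N * log 2 := by rw [hl, Real.log_pow]
    have hN2' : (2 : ℝ) ≤ N := by
      have : 2 ≤ N := by omega
      exact_mod_cast this
    have hl1 : 1 ≤ l := by
      rw [hlN]
      nlinarith
    have hl0 : 0 < l := by linarith
    set x : ℝ := √l with hx
    have hx1 : 1 ≤ x := by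
      rw [hx]
      exact Real.one_le_sqrt.2 hl1
    have hxr : x = l ^ (1 / 2 : ℝ) := by rw [hx, Real.sqrt_eq_rpow]
    set M : ℝ := l ^ (1 / 4 : ℝ) with hM
    have hM1 : 1 ≤ M := Real.one_le_rpow hl1 (by norm_num)
    have hx2 : x ^ (1 / 2 : ℝ) = M := by
      rw [hxr, ← Real.rpow_mul hl0.le, hM]
      norm_num
    have hx3 : l ^ (3 / 8 : ℝ) * x ^ (-(1 / 4) : ℝ) = M := by
      rw [hxr, ← Real.rpow_mul hl0.le, ← Real.rpow_add hl0, hM]
      norm_num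
    have hx4 : l ^ (5 / 16 : ℝ) * x ^ (-(1 / 8) : ℝ) = M := by
      rw [hxr, ← Real.rpow_mul hl0.le, ← Real.rpow_add hl0, hM]
      norm_num
    obtain ⟨hg1, hg2, hg3⟩ := geo_sum hx1 hx1 n1
    -- the blocks
    set V : ℕ → ℝ := fun n => ‖VK φ (fun θ => R * H θ + σ * ((2 : ℝ) ^ N) ^ (-(1 / 2) : ℝ))
      (((2 : ℝ) ^ N) ^ (-(1 / 2) : ℝ)) n‖ with hV
    have hVt : ∀ n, V n = ‖Vt φ (fun θ => R * H θ + σ * ((2 : ℝ) ^ N) ^ (-(1 / 2) : ℝ))
      (((2 : ℝ) ^ N) ^ (-(1 / 2) : ℝ)) n‖ := by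
      intro n
      simp only [hV]
      rw [Vt_eq hσS]
    have hsplit : ∑ n ∈ Finset.range n1, V n =
        ∑ n ∈ (Finset.range n1).filter (fun n : ℕ => (2 : ℝ) ^ n < x), V n +
          ∑ n ∈ (Finset.range n1).filter (fun n : ℕ => x ≤ (2 : ℝ) ^ n), V n := by
      rw [← Finset.sum_filter_add_sum_filter_not (Finset.range n1) (fun n : ℕ => (2 : ℝ) ^ n < x)]
      congr 1
      refine Finset.sum_congr ?_ fun _ _ => rfl
      ext n
      simp only [Finset.mem_filter, not_lt]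
    have hs1 : ∑ n ∈ (Finset.range n1).filter (fun n : ℕ => (2 : ℝ) ^ n < x), V n ≤ 4 * Ct * (A * M) := by
      calc ∑ n ∈ (Finset.range n1).filter (fun n : ℕ => (2 : ℝ) ^ n < x), V n
          ≤ ∑ n ∈ (Finset.range n1).filter (fun n : ℕ => (2 : ℝ) ^ n < x), Ct * A * ((2 : ℝ) ^ n) ^ (1 / 2 : ℝ) := by
            refine Finset.sum_le_sum fun n _ => ?_
            rw [hVt]
            exact htriv φ hφ (2 ^ N) hP1 n σ hσ H hB R hRmem
        _ = Ct * A * ∑ n ∈ (Finset.range n1).filter (fun n : ℕ => (2 : ℝ) ^ n < x), ((2 : ℝ) ^ n) ^ (1 / 2 : ℝ) := by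
            rw [Finset.mul_sum]
        _ ≤ Ct * A * (4 * x ^ (1 / 2 : ℝ)) := mul_le_mul_of_nonneg_left hg1 (by positivity)
        _ = 4 * Ct * (A * M) := by rw [hx2]; ring
    have hNA : (N : ℝ) ≤ D * A := by
      have h1 := k2_log_F6 (ε := 2) (by norm_num) N
      have e : (1 / 4 * 2 : ℝ) = 1 / 2 := by norm_num
      rw [e] at h1
      exact h1
    have hs2 : ∑ n ∈ (Finset.range n1).filter (fun n : ℕ => x ≤ (2 : ℝ) ^ n), V n ≤
        41 * C * (A * M) + C * D * (A * M) := by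
      set S := (Finset.range n1).filter (fun n : ℕ => x ≤ (2 : ℝ) ^ n) with hSdef
      have hcard : (S.card : ℝ) ≤ N := by
        have h1 : S.card ≤ n1 := (Finset.card_filter_le _ _).trans (by rw [Finset.card_range])
        exact_mod_cast h1.trans hn1N
      have hAM : A ≤ A * M := le_mul_of_one_le_right hA0 hM1
      calc ∑ n ∈ S, V n
          ≤ ∑ n ∈ S, (C * A * (l ^ (3 / 8 : ℝ) * ((2 : ℝ) ^ n) ^ (-(1 / 4) : ℝ) +
              l ^ (5 / 16 : ℝ) * ((2 : ℝ) ^ n) ^ (-(1 / 8) : ℝ) + 1 / (N + 1)) + C) := by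
            refine Finset.sum_le_sum fun n hn => ?_
            rw [hSdef, Finset.mem_filter, Finset.mem_range] at hn
            rw [hVt]
            refine hN₁ N (by omega) n hn.2 ?_ σ hσ R hRmem
            have := Nat.find_min hexn hn.1
            rw [not_le] at this
            exact this.le
        _ = C * A * (l ^ (3 / 8 : ℝ) * ∑ n ∈ S, ((2 : ℝ) ^ n) ^ (-(1 / 4) : ℝ) +
              l ^ (5 / 16 : ℝ) * ∑ n ∈ S, ((2 : ℝ) ^ n) ^ (-(1 / 8) : ℝ) + S.card * (1 / (N + 1))) + S.card * C := by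
            rw [Finset.sum_add_distrib, ← Finset.mul_sum, Finset.sum_add_distrib, Finset.sum_add_distrib,
              ← Finset.mul_sum, ← Finset.mul_sum, Finset.sum_const, Finset.sum_const, nsmul_eq_mul, nsmul_eq_mul]
        _ ≤ C * A * (l ^ (3 / 8 : ℝ) * (20 * x ^ (-(1 / 4) : ℝ)) +
              l ^ (5 / 16 : ℝ) * (20 * x ^ (-(1 / 8) : ℝ)) + 1) + N * C := by
            have h1 : (S.card : ℝ) * (1 / (N + 1)) ≤ 1 := by
              rw [mul_one_div, div_le_one (by positivity)]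
              linarith
            have h2 : l ^ (3 / 8 : ℝ) * ∑ n ∈ S, ((2 : ℝ) ^ n) ^ (-(1 / 4) : ℝ) ≤
                l ^ (3 / 8 : ℝ) * (20 * x ^ (-(1 / 4) : ℝ)) := mul_le_mul_of_nonneg_left hg2 (by positivity)
            have h3 : l ^ (5 / 16 : ℝ) * ∑ n ∈ S, ((2 : ℝ) ^ n) ^ (-(1 / 8) : ℝ) ≤
                l ^ (5 / 16 : ℝ) * (20 * x ^ (-(1 / 8) : ℝ)) := mul_le_mul_of_nonneg_left hg3 (by positivity)
            have h4 : (S.card : ℝ) * C ≤ N * C := mul_le_mul_of_nonneg_right hcard hC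
            have h5 : C * A * (l ^ (3 / 8 : ℝ) * ∑ n ∈ S, ((2 : ℝ) ^ n) ^ (-(1 / 4) : ℝ) +
              l ^ (5 / 16 : ℝ) * ∑ n ∈ S, ((2 : ℝ) ^ n) ^ (-(1 / 8) : ℝ) + S.card * (1 / (N + 1))) ≤
                C * A * (l ^ (3 / 8 : ℝ) * (20 * x ^ (-(1 / 4) : ℝ)) +
              l ^ (5 / 16 : ℝ) * (20 * x ^ (-(1 / 8) : ℝ)) + 1) :=
              mul_le_mul_of_nonneg_left (by linarith) (by positivity)
            linarith
        _ = 40 * (C * (A * M)) + C * A + N * C := by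
            have e1 : l ^ (3 / 8 : ℝ) * (20 * x ^ (-(1 / 4) : ℝ)) = 20 * M := by rw [← hx3]; ring
            have e2 : l ^ (5 / 16 : ℝ) * (20 * x ^ (-(1 / 8) : ℝ)) = 20 * M := by rw [← hx4]; ring
            rw [e1, e2]
            ring
        _ ≤ 40 * (C * (A * M)) + C * (A * M) + C * D * (A * M) := by
            have h1 : C * A ≤ C * (A * M) := mul_le_mul_of_nonneg_left hAM hC
            have h2 : (N : ℝ) * C ≤ C * D * (A * M) := by
              calc (N : ℝ) * C ≤ (D * A) * C := mul_le_mul_of_nonneg_right hNA hC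
                _ = C * D * A := by ring
                _ ≤ C * D * (A * M) := mul_le_mul_of_nonneg_left hAM (by positivity)
            linarith
        _ = _ := by ring
    have hAR : A ≤ R ^ (1 / 2 : ℝ) := Real.rpow_le_rpow hP0.le hN1 (by norm_num)
    have hMR : M ≤ (log R) ^ (1 / 4 : ℝ) := Real.rpow_le_rpow hl0.le (Real.log_le_log hP0 hN1) (by norm_num)
    have hAMR : A * M ≤ R ^ (1 / 2 : ℝ) * (log R) ^ (1 / 4 : ℝ) :=
      mul_le_mul hAR hMR (by positivity) (by positivity)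
    have hC2 : C₂ * A ≤ |C₂| * (A * M) := by
      calc C₂ * A ≤ |C₂| * A := mul_le_mul_of_nonneg_right (le_abs_self _) hA0
        _ ≤ |C₂| * (A * M) := mul_le_mul_of_nonneg_left (le_mul_of_one_le_right hA0 hM1) (abs_nonneg _)
    calc |cnt H R - area H * R ^ 2| ≤ C₂ * A + ∑ n ∈ Finset.range n1, V n := herr
      _ ≤ |C₂| * (A * M) + (4 * Ct * (A * M) + (41 * C * (A * M) + C * D * (A * M))) := by
          rw [hsplit]
          exact add_le_add hC2 (add_le_add hs1 hs2)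
      _ = (|C₂| + 4 * Ct + 41 * C + C * D) * (A * M) := by ring
      _ ≤ (|C₂| + 4 * Ct + 41 * C + C * D) * (R ^ (1 / 2 : ℝ) * (log R) ^ (1 / 4 : ℝ)) :=
          mul_le_mul_of_nonneg_left hAMR hS0
      _ ≤ _ := by
          refine mul_le_mul_of_nonneg_right ?_ (by linarith)
          have := abs_nonneg C₃
          linarith

end Pool.Agent.Helper76.EO
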