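import Pool.Agent.Helper92.EO.Omega

/-!
# EO-O: the lower bound for every `C²` support function (helper92)
-/

open MeasureTheory Real Set Filter Topology

set_option autoImplicit false

namespace Pool.Agent.Helper76.EO

open Pool.Agent.Helper22.AE

theorem omega_minus {H : ℝ → ℝ} (hH : IsSupp H) : ∃ c : ℝ, 0 < c ∧ ∀ R₀ : ℝ, ∃ R : ℝ, R₀ ≤ R ∧
    cnt H R - area H * R ^ 2 ≤ -(c * (R ^ (1 / 2 : ℝ) * (log R) ^ (1 / 4 : ℝ))) :=
  Pool.Agent.Helper92.EO.omega_minus' hH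

end Pool.Agent.Helper76.EO
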