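import Mathlib

/-!
# EO-R2: at least half of the pairs are coprime

PROOF. A pair in `[1, y]²` that is not coprime has a common prime factor `q ≤ y`; for each `q` there are `⌊y/q⌋² ≤ y²/q²` such pairs. The sum over
`q = 2` and the odd `q = 2m+1 ≥ 3`: `1/4 + ∑_{m ≥ 1} 1/(2m+1)² ≤ 1/4 + ∑_{m ≥ 1} 1/(4m(m+1)) ≤ 1/4 + 1/4 = 1/2`. So at least `y² - y²/2` pairs are coprime.
-/

open Real Set Filter Topology

set_option autoImplicit false

namespace Pool.Agent.Helper76.EO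

/-- the pairs of multiples of `q` -/
private def r2S (y q : ℕ) : Finset (ℕ × ℕ) :=
  (Finset.Icc 1 y).filter (fun a => q ∣ a) ×ˢ (Finset.Icc 1 y).filter (fun a => q ∣ a)

private lemma r2S_card (y q : ℕ) (hq : 0 < q) : ((r2S y q).card : ℝ) ≤ (y : ℝ) ^ 2 * (1 / (q : ℝ) ^ 2) := by
  have h1 : ((Finset.Icc 1 y).filter (fun a => q ∣ a)).card = y / q := by
    have e : Finset.Icc 1 y = Finset.Ioc 0 y := by
      ext x
      rw [Finset.mem_Icc, Finset.mem_Ioc]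
      omega
    rw [e]
    exact Nat.Ioc_filter_dvd_card_eq_div y q
  unfold r2S
  rw [Finset.card_product, h1]
  push_cast
  have h2 : ((y / q : ℕ) : ℝ) ≤ (y : ℝ) / q := Nat.cast_div_le
  have h3 : (0 : ℝ) ≤ ((y / q : ℕ) : ℝ) := Nat.cast_nonneg _
  calc ((y / q : ℕ) : ℝ) * ((y / q : ℕ) : ℝ) ≤ ((y : ℝ) / q) * ((y : ℝ) / q) := mul_le_mul h2 h2 h3 (h3.trans h2)
    _ = (y : ℝ) ^ 2 * (1 / (q : ℝ) ^ 2) := by ring

private lemma r2_sum (n : ℕ) :
    ∑ m ∈ Finset.range n, (1 : ℝ) / ((2 * (m + 1) + 1 : ℕ) : ℝ) ^ 2 ≤ 1 / 4 - 1 / (4 * ((n : ℝ) + 1)) := by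
  induction n with
  | zero => simp
  | succ n ih =>
    rw [Finset.sum_range_succ]
    have hn : (0 : ℝ) ≤ n := Nat.cast_nonneg n
    have h1 : (1 : ℝ) / ((2 * (n + 1) + 1 : ℕ) : ℝ) ^ 2 ≤ 1 / (4 * ((n : ℝ) + 1)) - 1 / (4 * ((n : ℝ) + 1 + 1)) := by
      rw [div_sub_div _ _ (by positivity) (by positivity), div_le_div_iff₀ (by positivity) (by positivity)]
      push_cast
      nlinarith
    push_cast at h1 ih ⊢
    linarith

theorem coprime_count (y : ℕ) :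
    (y : ℝ) ^ 2 / 2 ≤ (((Finset.Icc 1 y ×ˢ Finset.Icc 1 y).filter (fun p : ℕ × ℕ => Nat.Coprime p.1 p.2)).card : ℝ) := by
  classical
  set B := Finset.Icc 1 y ×ˢ Finset.Icc 1 y with hB
  have hcard : (B.card : ℝ) = (y : ℝ) ^ 2 := by
    rw [hB, Finset.card_product, Nat.card_Icc]
    push_cast
    ring
  have hsplit := Finset.card_filter_add_card_filter_not (s := B) (fun p : ℕ × ℕ => Nat.Coprime p.1 p.2)
  have hsub : B.filter (fun p : ℕ × ℕ => ¬ Nat.Coprime p.1 p.2) ⊆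
      r2S y 2 ∪ (Finset.range y).biUnion (fun m => r2S y (2 * (m + 1) + 1)) := by
    intro p hp
    rw [Finset.mem_filter, hB, Finset.mem_product] at hp
    obtain ⟨⟨h1, h2⟩, h3⟩ := hp
    obtain ⟨q, hq, hq1, hq2⟩ := Nat.Prime.not_coprime_iff_dvd.1 h3
    have hmem : p ∈ r2S y q := by
      unfold r2S
      rw [Finset.mem_product, Finset.mem_filter, Finset.mem_filter]
      exact ⟨⟨h1, hq1⟩, h2, hq2⟩
    have hqy : q ≤ y := by
      rw [Finset.mem_Icc] at h1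
      exact (Nat.le_of_dvd (by omega) hq1).trans h1.2
    rw [Finset.mem_union, Finset.mem_biUnion]
    rcases hq.eq_two_or_odd with h2' | hodd
    · left
      rw [← h2']
      exact hmem
    · right
      have hq2' := hq.two_le
      refine ⟨(q - 1) / 2 - 1, ?_, ?_⟩
      · rw [Finset.mem_range]
        omega
      · have e : 2 * ((q - 1) / 2 - 1 + 1) + 1 = q := by omega
        rw [e]
        exact hmem
  have hN : ((B.filter (fun p : ℕ × ℕ => ¬ Nat.Coprime p.1 p.2)).card : ℝ) ≤ (y : ℝ) ^ 2 / 2 := by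
    have h1 : (B.filter (fun p : ℕ × ℕ => ¬ Nat.Coprime p.1 p.2)).card ≤
        (r2S y 2).card + ∑ m ∈ Finset.range y, (r2S y (2 * (m + 1) + 1)).card :=
      (Finset.card_le_card hsub).trans ((Finset.card_union_le _ _).trans
        (Nat.add_le_add_left Finset.card_biUnion_le _))
    have h2 : ((B.filter (fun p : ℕ × ℕ => ¬ Nat.Coprime p.1 p.2)).card : ℝ) ≤
        ((r2S y 2).card : ℝ) + ∑ m ∈ Finset.range y, ((r2S y (2 * (m + 1) + 1)).card : ℝ) := by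
      exact_mod_cast h1
    refine h2.trans ?_
    have h3 := r2S_card y 2 (by norm_num)
    have h4 : ∑ m ∈ Finset.range y, ((r2S y (2 * (m + 1) + 1)).card : ℝ) ≤
        ∑ m ∈ Finset.range y, (y : ℝ) ^ 2 * (1 / ((2 * (m + 1) + 1 : ℕ) : ℝ) ^ 2) :=
      Finset.sum_le_sum fun m _ => r2S_card y _ (by omega)
    rw [← Finset.mul_sum] at h4
    have h5 := r2_sum y
    have h6 : (0 : ℝ) ≤ 1 / (4 * ((y : ℝ) + 1)) := by positivity
    have h7 : (y : ℝ) ^ 2 * ∑ m ∈ Finset.range y, (1 : ℝ) / ((2 * (m + 1) + 1 : ℕ) : ℝ) ^ 2 ≤ (y : ℝ) ^ 2 * (1 / 4) :=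
      mul_le_mul_of_nonneg_left (by linarith) (by positivity)
    have h8 : (y : ℝ) ^ 2 * (1 / ((2 : ℕ) : ℝ) ^ 2) = (y : ℝ) ^ 2 * (1 / 4) := by
      norm_num
    rw [h8] at h3
    linarith
  have hs : ((B.filter (fun p : ℕ × ℕ => Nat.Coprime p.1 p.2)).card : ℝ) +
      ((B.filter (fun p : ℕ × ℕ => ¬ Nat.Coprime p.1 p.2)).card : ℝ) = B.card := by
    exact_mod_cast hsplit
  rw [hcard] at hs
  linarith

end Pool.Agent.Helper76.EO
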