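import Pool.Agent.Helper76.EO.R0
import Pool.Agent.Helper76.EO.R2
import Pool.Agent.Helper92.EO.Kb
import Pool.Agent.Helper92.EO.Lat
import Pool.Agent.Helper22.AE.G6

/-!
# EO-R3: sums of the amplitudes

PROOF of `main_eq`: `1/π` and `R^(1/2)` are moved.
PROOF of `prim_sum`. `0 < H ≤ B`, `rho H ≥ r0 > 0` (continuous, periodic). `c0` from `lower`. `y = ⌊K/(4B)⌋₊`, `y ≥ K/(8B)` for `K ≥ 8B`. The coprime
pairs `(a, b) ∈ [1, y]²` (`coprime_count`, at least `y²/2`) have `nk ≤ 2y ≤ K/(2B) ≤ A K` (`A B ≥ A H ≥ 2`), so they lie in `primk (A K)` (`mem_kset`), and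
`nk k H (tk k)/K ≤ 1/2`, `W ≥ c0`, `nk^(-3/2) ≥ (2y)^(-3/2)`: the sum is `≥ (y²/2) (1/π) (2y)^(-3/2) √r0 c0 = c y^(1/2)`. All terms are `≥ 0`.
PROOF of `low_sum_le`. Each amplitude is `≤ √B'` (`rho ≤ B'`, `|W| ≤ 1` (`W_le_one`), `nk k ≥ 1` (`nk_ge_one`), `1/π ≤ 1`), at most `25 (A K)²` terms (`kset_card`).
-/

open MeasureTheory Real Set Filter Topology

set_option autoImplicit false

namespace Pool.Agent.Helper76.EO

open Pool.Agent.Helper22.AE Pool.Agent.Helper92.EO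

private theorem r3_min {f : ℝ → ℝ} (hf : Continuous f) (hp : Function.Periodic f (2 * π))
    (hpos : ∀ θ, 0 < f θ) : ∃ m : ℝ, 0 < m ∧ ∀ θ, m ≤ f θ := by
  obtain ⟨t0, -, h0⟩ := isCompact_Icc.exists_isMinOn (s := Icc (0 : ℝ) (2 * π))
    (nonempty_Icc.2 (by positivity)) hf.continuousOn
  refine ⟨f t0, hpos t0, fun θ => ?_⟩
  obtain ⟨y, hy, hy'⟩ := hp.exists_mem_Ico₀ (by positivity) θ
  rw [hy']
  exact h0 ⟨hy.1, hy.2.le⟩

private theorem r3_max {f : ℝ → ℝ} (hf : Continuous f) (hp : Function.Periodic f (2 * π)) :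
    ∃ M : ℝ, 1 ≤ M ∧ ∀ θ, f θ ≤ M := by
  obtain ⟨t0, -, h0⟩ := isCompact_Icc.exists_isMaxOn (s := Icc (0 : ℝ) (2 * π))
    (nonempty_Icc.2 (by positivity)) hf.continuousOn
  refine ⟨max 1 (f t0), le_max_left _ _, fun θ => ?_⟩
  obtain ⟨y, hy, hy'⟩ := hp.exists_mem_Ico₀ (by positivity) θ
  rw [hy']
  exact (h0 ⟨hy.1, hy.2.le⟩).trans (le_max_right _ _)

private theorem r3_rho_cont {H : ℝ → ℝ} (hH : ContDiff ℝ 2 H) : Continuous (rho H) := by
  have h1 : ContDiff ℝ 1 (deriv H) := by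
    have h := (contDiff_succ_iff_deriv (n := 1) (f := H)).1 (by
      rw [one_add_one_eq_two]; exact hH)
    exact h.2.2
  have h2 : Continuous (deriv (deriv H)) := h1.continuous_deriv (le_refl _)
  exact hH.continuous.add h2

private theorem r3_rho_per {H : ℝ → ℝ} (hp : Function.Periodic H (2 * π)) : Function.Periodic (rho H) (2 * π) := by
  have hd : ∀ f : ℝ → ℝ, Function.Periodic f (2 * π) → Function.Periodic (deriv f) (2 * π) := by
    intro f hf θ
    have h1 : (fun x => f (x + 2 * π)) = f := funext hf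
    calc deriv f (θ + 2 * π) = deriv (fun x => f (x + 2 * π)) θ := (deriv_comp_add_const (f := f) (2 * π) θ).symm
      _ = deriv f θ := by rw [h1]
  intro θ
  unfold rho
  rw [hp θ, hd _ (hd _ hp) θ]

theorem amk_nonneg {H w W : ℝ → ℝ} (hw : IsKer w W) (K : ℝ) (k : ℤ × ℤ) : 0 ≤ amk W H K k := by
  unfold amk
  have h1 := hw.Wnn (nk k * H (tk k) / K)
  have h2 : 0 ≤ nk k := norm_nonneg _
  positivity

theorem main_eq (W H : ℝ → ℝ) (M K R : ℝ) :
    mainT W H M K R = R ^ (1 / 2 : ℝ) * ∑ k ∈ kset M, amk W H K k * cos (2 * π * (R * (nk k * H (tk k))) - 3 * π / 4) := by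
  unfold mainT amk
  rw [Finset.mul_sum, Finset.mul_sum]
  apply Finset.sum_congr rfl
  intro k _
  ring

theorem prim_sum {H : ℝ → ℝ} (hH : IsSupp H) {w W : ℝ → ℝ} (hw : IsKer w W) {A : ℝ} (hA : ∀ θ, 2 ≤ A * H θ) :
    ∃ c K₁ : ℝ, 0 < c ∧ ∀ K : ℝ, K₁ ≤ K → c * K ^ (1 / 2 : ℝ) ≤ ∑ k ∈ primk (A * K), amk W H K k := by
  classical
  obtain ⟨B, hB1, hB⟩ := r3_max hH.smooth.continuous hH.per
  obtain ⟨r0, hr0, hr⟩ := r3_min (r3_rho_cont hH.smooth) (r3_rho_per hH.per) hH.rho_pos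
  obtain ⟨c0, hc0, hc⟩ := hw.lower
  have hpi := Real.pi_pos
  have hB0 : 0 < B := by linarith
  refine ⟨(1 / 8) * (1 / π) * √r0 * c0 * (1 / (4 * B)) ^ (1 / 2 : ℝ), 8 * B, by positivity, fun K hK => ?_⟩
  have hK0 : 0 < K := by linarith
  set y : ℕ := ⌊K / (4 * B)⌋₊ with hy
  have hz : 2 ≤ K / (4 * B) := by rw [le_div_iff₀ (by positivity)]; linarith
  have hy1 : (y : ℝ) ≤ K / (4 * B) := Nat.floor_le (by linarith)
  have hy2 : K / (4 * B) < (y : ℝ) + 1 := Nat.lt_floor_add_one _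
  have hy3 : K / (4 * B) ≤ 2 * y := by linarith
  have hypos : (0 : ℝ) < 2 * y := by linarith
  -- the pairs
  set S : Finset (ℕ × ℕ) := (Finset.Icc 1 y ×ˢ Finset.Icc 1 y).filter (fun p : ℕ × ℕ => Nat.Coprime p.1 p.2) with hS
  set ι : ℕ × ℕ → ℤ × ℤ := fun p => ((p.1 : ℤ), (p.2 : ℤ)) with hι
  have hιinj : Function.Injective ι := by
    intro p q h
    rw [hι] at h
    simp only [Prod.mk.injEq, Nat.cast_inj] at h
    exact Prod.ext h.1 h.2
  have hnk : ∀ p ∈ S, 1 ≤ nk (ι p) ∧ nk (ι p) ≤ 2 * y := by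
    intro p hp
    rw [hS, Finset.mem_filter, Finset.mem_product, Finset.mem_Icc, Finset.mem_Icc] at hp
    obtain ⟨⟨⟨h1, h2⟩, h3, h4⟩, -⟩ := hp
    constructor
    · apply nk_ge_one
      intro h
      have := congrArg Prod.fst h
      simp only [hι, Prod.fst_zero] at this
      omega
    · have h5 : nk (ι p) ≤ |((ι p).1 : ℝ)| + |((ι p).2 : ℝ)| := Complex.norm_le_abs_re_add_abs_im (cz (ι p))
      simp only [hι, Int.cast_natCast, Nat.abs_cast] at h5
      have h6 : (p.1 : ℝ) ≤ y := by exact_mod_cast h2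
      have h7 : (p.2 : ℝ) ≤ y := by exact_mod_cast h4
      linarith
  have hmem : ∀ p ∈ S, ι p ∈ primk (A * K) := by
    intro p hp
    have hn := hnk p hp
    unfold primk
    rw [Finset.mem_filter, mem_kset]
    refine ⟨⟨?_, ?_⟩, ?_⟩
    · intro h
      rw [h] at hn
      have h1 : nk 0 = 0 := by
        unfold nk cz
        rw [norm_eq_zero]
        apply Complex.ext <;> simp
      rw [h1] at hn
      linarith [hn.1]
    · have h1 : 2 ≤ A * B := by
        have h2 := hA 0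
        have h3 := hH.pos 0
        have hA0 : 0 < A := by
          by_contra hcon
          push Not at hcon
          have : A * H 0 ≤ 0 := mul_nonpos_of_nonpos_of_nonneg hcon h3.le
          linarith
        calc 2 ≤ A * H 0 := h2
          _ ≤ A * B := by gcongr; exact hB 0
      have h2 : 2 * (y : ℝ) ≤ A * K := by
        have h3 : 2 * (y : ℝ) ≤ 2 * (K / (4 * B)) := by linarith
        have h4 : 2 * (K / (4 * B)) ≤ A * K := by
          have h5 : 2 * (K / (4 * B)) = K * (1 / (2 * B)) := by field_simp; norm_num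
          rw [h5, mul_comm A K]
          apply mul_le_mul_of_nonneg_left _ hK0.le
          rw [div_le_iff₀ (by positivity)]
          nlinarith
        linarith
      exact hn.2.trans h2
    · rw [hS, Finset.mem_filter] at hp
      simp only [hι]
      rw [Int.gcd_natCast_natCast]
      exact hp.2
  have hterm : ∀ p ∈ S, 1 / π * (2 * y : ℝ) ^ (-(3 / 2) : ℝ) * √r0 * c0 ≤ amk W H K (ι p) := by
    intro p hp
    obtain ⟨hn1, hn2⟩ := hnk p hp
    unfold amk
    have hnpos : 0 < nk (ι p) := by linarith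
    have h1 : (2 * y : ℝ) ^ (-(3 / 2) : ℝ) ≤ nk (ι p) ^ (-(3 / 2) : ℝ) :=
      Real.rpow_le_rpow_of_nonpos hnpos hn2 (by norm_num)
    have h2 : √r0 ≤ √(rho H (tk (ι p))) := Real.sqrt_le_sqrt (hr _)
    have h3 : c0 ≤ W (nk (ι p) * H (tk (ι p)) / K) := by
      apply hc
      rw [abs_of_nonneg (div_nonneg (mul_nonneg hnpos.le (hH.pos _).le) hK0.le), div_le_iff₀ hK0]
      calc nk (ι p) * H (tk (ι p)) ≤ (2 * y) * B := by
            gcongr
            · exact (hH.pos _).le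
            · exact hB _
        _ ≤ (2 * (K / (4 * B))) * B := by gcongr
        _ = 1 / 2 * K := by field_simp; norm_num
    gcongr
  have hcount := coprime_count y
  calc (1 / 8) * (1 / π) * √r0 * c0 * (1 / (4 * B)) ^ (1 / 2 : ℝ) * K ^ (1 / 2 : ℝ)
      = (1 / 8) * (1 / π) * √r0 * c0 * (K / (4 * B)) ^ (1 / 2 : ℝ) := by
        rw [mul_assoc, ← Real.mul_rpow (by positivity) hK0.le]
        congr 2
        field_simp
    _ ≤ (1 / 8) * (1 / π) * √r0 * c0 * (2 * y : ℝ) ^ (1 / 2 : ℝ) := by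
        gcongr
    _ = (y : ℝ) ^ 2 / 2 * (1 / π * (2 * y : ℝ) ^ (-(3 / 2) : ℝ) * √r0 * c0) := by
        have h1 : (2 * y : ℝ) ^ (1 / 2 : ℝ) = (2 * y : ℝ) ^ 2 * (2 * y : ℝ) ^ (-(3 / 2) : ℝ) := by
          rw [← Real.rpow_natCast, ← Real.rpow_add hypos]
          norm_num
        rw [h1]
        ring
    _ ≤ (S.card : ℝ) * (1 / π * (2 * y : ℝ) ^ (-(3 / 2) : ℝ) * √r0 * c0) := by
        gcongr
    _ = ∑ p ∈ S, (1 / π * (2 * y : ℝ) ^ (-(3 / 2) : ℝ) * √r0 * c0) := by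
        rw [Finset.sum_const, nsmul_eq_mul]
    _ ≤ ∑ p ∈ S, amk W H K (ι p) := Finset.sum_le_sum hterm
    _ = ∑ k ∈ S.image ι, amk W H K k := by
        rw [Finset.sum_image (fun p _ q _ h => hιinj h)]
    _ ≤ ∑ k ∈ primk (A * K), amk W H K k := by
        apply Finset.sum_le_sum_of_subset_of_nonneg
        · intro k hk
          obtain ⟨p, hp, rfl⟩ := Finset.mem_image.1 hk
          exact hmem p hp
        · intro k _ _
          exact amk_nonneg hw K k

theorem low_sum_le {H : ℝ → ℝ} (hH : IsSupp H) {w W : ℝ → ℝ} (hw : IsKer w W) {A : ℝ} (hA : 1 ≤ A) :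
    ∃ C : ℝ, ∀ K : ℝ, 1 ≤ K → ∑ k ∈ kset (A * K), amk W H K k ≤ C * K ^ 2 := by
  obtain ⟨B, hB1, hB⟩ := r3_max (r3_rho_cont hH.smooth) (r3_rho_per hH.per)
  have hpi := Real.pi_gt_three
  refine ⟨25 * A ^ 2 * √B, fun K hK => ?_⟩
  have hAK : 1 ≤ A * K := one_le_mul_of_one_le_of_one_le hA hK
  have hterm : ∀ k ∈ kset (A * K), amk W H K k ≤ √B := by
    intro k hk
    have hn := nk_ge_one (mem_kset.1 hk).1
    unfold amk
    have h1 : nk k ^ (-(3 / 2) : ℝ) ≤ 1 := Real.rpow_le_one_of_one_le_of_nonpos hn (by norm_num)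
    have h2 : √(rho H (tk k)) ≤ √B := Real.sqrt_le_sqrt (hB _)
    have h3 : W (nk k * H (tk k) / K) ≤ 1 := (le_abs_self _).trans (W_le_one hw _)
    have h4 : 1 / π ≤ 1 := by rw [div_le_iff₀ (by linarith)]; linarith
    have h5 : 0 ≤ nk k := by linarith
    have h6 := hw.Wnn (nk k * H (tk k) / K)
    calc 1 / π * nk k ^ (-(3 / 2) : ℝ) * √(rho H (tk k)) * W (nk k * H (tk k) / K)
        ≤ 1 * 1 * √B * 1 := by gcongr
      _ = √B := by ring
  calc ∑ k ∈ kset (A * K), amk W H K k ≤ ∑ _k ∈ kset (A * K), √B := Finset.sum_le_sum hterm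
    _ = ((kset (A * K)).card : ℝ) * √B := by rw [Finset.sum_const, nsmul_eq_mul]
    _ ≤ (25 * (A * K) ^ 2) * √B := by
        gcongr
        exact kset_card hAK
    _ = 25 * A ^ 2 * √B * K ^ 2 := by ring

end Pool.Agent.Helper76.EO
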