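import Pool.Agent.Helper76.EO.R0
import Pool.Agent.Helper92.EO.Lat

/-!
# EO-R4: primitive vectors and their multiples; the number of primitive vectors

PROOF. `prk k = (k.1 / g, k.2 / g)`, `g = gcd`. `cz k = g cz (prk k)`, `g > 0`: `nk k = g nk (prk k)`, `tk k = tk (prk k)` (`Complex.arg_real_mul`).
`mem_kset` (Helper92/EO/Lat). `card_prim`: `M = A K`, `K = KN A N`; for `A ≥ 1` and `N` large `1 ≤ M ≤ √(log 2^N)/25`, `#primk ≤ #kset ≤ (2⌈M⌉₊ + 1)²`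
`≤ (2√(log 2^N)/25 + 3)² ≤ (log 2^N)/50` for `N` large (`4/625 = .0064 < .02`; `kset ⊆ box ⌈M⌉₊`), `3^# = exp (# log 3)`, `log 3 ≤ 1.1 ≤ 50/16`. For `A = 0` the set is empty.
-/

open MeasureTheory Real Set Filter Topology

set_option autoImplicit false

namespace Pool.Agent.Helper76.EO

open Pool.Agent.Helper22.AE Pool.Agent.Helper92.EO

/-- the primitive vector in the direction of `k` -/
def prk (k : ℤ × ℤ) : ℤ × ℤ := (k.1 / Int.gcd k.1 k.2, k.2 / Int.gcd k.1 k.2)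

private theorem gpos86 {k : ℤ × ℤ} (hk : k ≠ 0) : 0 < Int.gcd k.1 k.2 := by
  rw [Int.gcd_pos_iff]
  by_contra hc
  rw [not_or, not_not, not_not] at hc
  exact hk (Prod.ext hc.1 hc.2)

private theorem cz_prk86 (k : ℤ × ℤ) : cz k = (((Int.gcd k.1 k.2 : ℕ) : ℝ) : ℂ) * cz (prk k) := by
  have h1 : (Int.gcd k.1 k.2 : ℤ) * (k.1 / (Int.gcd k.1 k.2 : ℤ)) = k.1 :=
    Int.mul_ediv_cancel' (Int.gcd_dvd_left ..)
  have h2 : (Int.gcd k.1 k.2 : ℤ) * (k.2 / (Int.gcd k.1 k.2 : ℤ)) = k.2 :=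
    Int.mul_ediv_cancel' (Int.gcd_dvd_right ..)
  have h3 : (k.1 : ℝ) = ((Int.gcd k.1 k.2 : ℕ) : ℝ) * ((k.1 / (Int.gcd k.1 k.2 : ℤ) : ℤ) : ℝ) := by
    exact_mod_cast h1.symm
  have h4 : (k.2 : ℝ) = ((Int.gcd k.1 k.2 : ℕ) : ℝ) * ((k.2 / (Int.gcd k.1 k.2 : ℤ) : ℤ) : ℝ) := by
    exact_mod_cast h2.symm
  unfold cz prk
  apply Complex.ext
  · rw [Complex.re_ofReal_mul]
    exact h3
  · rw [Complex.im_ofReal_mul]
    exact h4

private theorem nk_prk86 (k : ℤ × ℤ) : nk k = (Int.gcd k.1 k.2 : ℝ) * nk (prk k) := by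
  unfold nk
  rw [cz_prk86 k, norm_mul, Complex.norm_real, Real.norm_of_nonneg (Nat.cast_nonneg _)]

private theorem prk_ne86 {k : ℤ × ℤ} (hk : k ≠ 0) : prk k ≠ 0 := by
  intro h
  have h1 := nk_prk86 k
  rw [h] at h1
  have h2 : nk (0 : ℤ × ℤ) = 0 := by
    unfold nk cz
    rw [norm_eq_zero]
    apply Complex.ext <;> simp
  rw [h2, mul_zero] at h1
  have h3 := nk_ge_one hk
  linarith

theorem prk_mem {M : ℝ} {k : ℤ × ℤ} (hk : k ∈ kset M) : prk k ∈ primk M := by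
  rw [mem_kset] at hk
  have hg := gpos86 hk.1
  have hg1 : (1 : ℝ) ≤ (Int.gcd k.1 k.2 : ℝ) := by exact_mod_cast hg
  have h1 := nk_ge_one (prk_ne86 hk.1)
  have h2 := nk_prk86 k
  unfold primk
  rw [Finset.mem_filter, mem_kset]
  refine ⟨⟨prk_ne86 hk.1, ?_⟩, ?_⟩
  · have h3 : 1 * nk (prk k) ≤ (Int.gcd k.1 k.2 : ℝ) * nk (prk k) :=
      mul_le_mul_of_nonneg_right hg1 (by linarith)
    linarith [hk.2]
  · exact Int.gcd_ediv_gcd_ediv_gcd hg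

theorem gcd_bd {M : ℝ} {k : ℤ × ℤ} (hk : k ∈ kset M) : 1 ≤ Int.gcd k.1 k.2 ∧ (Int.gcd k.1 k.2 : ℤ) ≤ (⌈M⌉₊ : ℤ) := by
  rw [mem_kset] at hk
  have hg := gpos86 hk.1
  refine ⟨hg, ?_⟩
  have h1 := nk_ge_one (prk_ne86 hk.1)
  have h2 := nk_prk86 k
  have h3 : (Int.gcd k.1 k.2 : ℝ) * 1 ≤ (Int.gcd k.1 k.2 : ℝ) * nk (prk k) :=
    mul_le_mul_of_nonneg_left h1 (Nat.cast_nonneg _)
  have h4 : (Int.gcd k.1 k.2 : ℝ) ≤ (⌈M⌉₊ : ℝ) := by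
    have := Nat.le_ceil M
    linarith [hk.2]
  exact_mod_cast h4

theorem nk_prk {k : ℤ × ℤ} (hk : k ≠ 0) : nk k = (Int.gcd k.1 k.2 : ℝ) * nk (prk k) ∧ tk k = tk (prk k) := by
  refine ⟨nk_prk86 k, ?_⟩
  unfold tk
  rw [cz_prk86 k]
  exact Complex.arg_real_mul _ (by exact_mod_cast gpos86 hk)

theorem card_prim (A : ℕ) : ∀ᶠ N : ℕ in atTop, (3 : ℝ) ^ (primk (A * KN A N)).card ≤ ((2 : ℝ) ^ N) ^ (1 / 16 : ℝ) := by
  filter_upwards [eventually_ge_atTop 5000] with N hN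
  have hNR : (5000 : ℝ) ≤ N := by exact_mod_cast hN
  obtain ⟨s, hs⟩ : ∃ s : ℝ, s = √(log ((2 : ℝ) ^ N)) := ⟨_, rfl⟩
  obtain ⟨M, hM⟩ : ∃ M : ℝ, M = A * KN A N := ⟨_, rfl⟩
  have hlog : log ((2 : ℝ) ^ N) = N * log 2 := by rw [Real.log_pow]
  have hl2 := Real.log_two_gt_d9
  have hlpos : 0 ≤ log ((2 : ℝ) ^ N) := by
    rw [hlog]
    exact mul_nonneg (by linarith) (by linarith)
  have hs2 : s ^ 2 = log ((2 : ℝ) ^ N) := by rw [hs, Real.sq_sqrt hlpos]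
  have hs0 : 0 ≤ s := by rw [hs]; exact Real.sqrt_nonneg _
  have hs50 : 50 ≤ s := by
    have h1 : (50 : ℝ) ^ 2 ≤ s ^ 2 := by
      rw [hs2, hlog]
      nlinarith
    exact le_of_sq_le_sq h1 hs0
  have hMs : 0 ≤ M ∧ M ≤ s / 25 := by
    have hA : (0 : ℝ) ≤ A := Nat.cast_nonneg _
    have e : M = (A : ℝ) / ((A : ℝ) + 1) * (s / 25) := by
      rw [hM, KN, c1, ← hs]
      field_simp
    have h1 : (A : ℝ) / ((A : ℝ) + 1) ≤ 1 := by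
      rw [div_le_one (by linarith)]
      linarith
    have h2 : 0 ≤ (A : ℝ) / ((A : ℝ) + 1) := by positivity
    rw [e]
    refine ⟨by positivity, ?_⟩
    have := mul_le_mul_of_nonneg_right h1 (by positivity : 0 ≤ s / 25)
    linarith
  rw [← hM]
  have h1 : (primk M).card ≤ (box ⌈M⌉₊).card := by
    unfold primk kset
    exact (Finset.card_filter_le _ _).trans (Finset.card_filter_le _ _)
  have h2 : (box ⌈M⌉₊).card = (2 * ⌈M⌉₊ + 1) * (2 * ⌈M⌉₊ + 1) := by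
    unfold box
    rw [Finset.card_product, Int.card_Icc]
    have : ((⌈M⌉₊ : ℤ) + 1 - -(⌈M⌉₊ : ℤ)).toNat = 2 * ⌈M⌉₊ + 1 := by omega
    rw [this]
  have h3 : (⌈M⌉₊ : ℝ) < M + 1 := Nat.ceil_lt_add_one hMs.1
  have h4 : ((primk M).card : ℝ) ≤ (2 * (⌈M⌉₊ : ℝ) + 1) * (2 * (⌈M⌉₊ : ℝ) + 1) := by
    rw [h2] at h1
    exact_mod_cast h1
  have h5 : 2 * (⌈M⌉₊ : ℝ) + 1 ≤ 2 * s / 25 + 3 := by linarith [hMs.2]
  have h6 : (0 : ℝ) ≤ 2 * (⌈M⌉₊ : ℝ) + 1 := by positivity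
  have h7 : ((primk M).card : ℝ) ≤ s ^ 2 / 50 := by
    have h8 : (2 * (⌈M⌉₊ : ℝ) + 1) * (2 * (⌈M⌉₊ : ℝ) + 1) ≤ (2 * s / 25 + 3) * (2 * s / 25 + 3) :=
      mul_le_mul h5 h5 h6 (by positivity)
    nlinarith
  have hl3 : log 3 ≤ 2 := by
    have := Real.log_le_sub_one_of_pos (by norm_num : (0 : ℝ) < 3)
    linarith
  have hl30 : 0 ≤ log 3 := Real.log_nonneg (by norm_num)
  rw [← Real.rpow_natCast, Real.rpow_def_of_pos (by norm_num : (0 : ℝ) < 3),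
    Real.rpow_def_of_pos (by positivity : (0 : ℝ) < (2 : ℝ) ^ N), Real.exp_le_exp, ← hs2]
  have h9 : log 3 * ((primk M).card : ℝ) ≤ 2 * (s ^ 2 / 50) := mul_le_mul hl3 h7 (Nat.cast_nonneg _) (by norm_num)
  have h10 : 0 ≤ s ^ 2 := by positivity
  linarith

end Pool.Agent.Helper76.EO
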