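import Pool.Agent.Helper76.EO.R1
import Pool.Agent.Helper76.EO.R3
import Pool.Agent.Helper76.EO.R4
import Pool.Agent.Helper92.EO.Main
import Pool.Agent.Helper92.EO.Ker

/-!
# EO-R5: the lower bound in the positive direction

PROOF. `w, W` from `exists_ker`. `A : ℕ` with `2 ≤ A H θ` (`H ≥ min H > 0`). `K = KN A N`, `X = 2^N`, `N` large: `riesz` with `P = primk (A K)`, `lam p = nk p * H (tk p)`,
`S = kset (A K)`, `a = amk W H K`, `pr = prk`, `j k = gcd`, `M = ⌈AK⌉₊ + 1`, `θ = X^(-1/2)`, `φ = -3π/4`; `S.filter (j = 1) = primk (A K)`; `h1`: `card_prim`;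
`h2`: `X^(1/16) C K² ≤ X^(1/2) c K^(1/2)/4` for `N` large (`prim_sum`, `low_sum_le`). With `nk_prk` and `main_eq` the sum on the right is `mainT / R^(1/2)`. So for some
`R ∈ [X, 2X]`: `mainT ≥ c K^(1/2) R^(1/2)/8`; `main_asymp` with `η = c/32`, `K → ∞`: `Av ≥ (c/16) R^(1/2) K^(1/2)`. `Av_le` with `E = (c/40) R^(1/2) K^(1/2)`: some
`r ∈ [R/2, 3R/2]` has error `> E ≥ c' r^(1/2) (log r)^(1/4)` (`K = c1 √(log X)`, `log r ≤ 2 log X`, `r ≤ 3R/2`).
-/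

open MeasureTheory Real Set Filter Topology

set_option autoImplicit false

namespace Pool.Agent.Helper76.EO

open Pool.Agent.Helper22.AE Pool.Agent.Helper92.EO

private theorem exists_A {H : ℝ → ℝ} (hH : IsSupp H) : ∃ A : ℕ, (1 : ℝ) ≤ A ∧ ∀ θ, 2 ≤ (A : ℝ) * H θ := by
  obtain ⟨x, hx, hmin⟩ := (isCompact_Icc (a := (0 : ℝ)) (b := 2 * π)).exists_isMinOn ⟨0, by simp; positivity⟩
    hH.smooth.continuous.continuousOn
  have hpos := hH.pos x
  obtain ⟨A, hA⟩ := exists_nat_ge (max 1 (2 / H x))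
  refine ⟨A, (le_max_left _ _).trans hA, fun θ => ?_⟩
  obtain ⟨y, hy, hyθ⟩ := hH.per.exists_mem_Ico₀ (by positivity) θ
  have h1 : H x ≤ H θ := by
    rw [hyθ]
    exact hmin ⟨hy.1, hy.2.le⟩
  have h2 : 2 / H x ≤ A := (le_max_right _ _).trans hA
  rw [div_le_iff₀ hpos] at h2
  have h3 : (0 : ℝ) ≤ A := Nat.cast_nonneg A
  nlinarith

private theorem log_two_pow (N : ℕ) : log ((2 : ℝ) ^ N) = N * log 2 := by
  rw [Real.log_pow]

private theorem KN_tendsto (A : ℕ) : Tendsto (fun N : ℕ => KN A N) atTop atTop := by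
  unfold KN
  have h1 : 0 < c1 A := by
    unfold c1
    positivity
  have h2 : Tendsto (fun N : ℕ => log ((2 : ℝ) ^ N)) atTop atTop :=
    Real.tendsto_log_atTop.comp (tendsto_pow_atTop_atTop_of_one_lt (by norm_num))
  exact (Real.tendsto_sqrt_atTop.comp h2).const_mul_atTop h1

private theorem c1_le (A : ℕ) : 0 < c1 A ∧ c1 A ≤ 1 := by
  unfold c1
  refine ⟨by positivity, ?_⟩
  rw [div_le_one (by positivity)]
  have : (0 : ℝ) ≤ A := Nat.cast_nonneg A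
  linarith

private theorem KN_le {A N : ℕ} (hN : 2 ≤ N) : KN A N ≤ log (2 ^ N) := by
  unfold KN
  have h1 : (1 : ℝ) ≤ log (2 ^ N) := by
    rw [log_two_pow]
    have h2 : (1 / 2 : ℝ) < log 2 := by
      have := Real.log_two_gt_d9
      linarith
    have h3 : (2 : ℝ) ≤ N := by exact_mod_cast hN
    nlinarith
  have h2 : √(log (2 ^ N)) ≤ log (2 ^ N) := by
    rw [Real.sqrt_le_left (by linarith)]
    nlinarith
  have h3 := (c1_le A).2
  have h4 : 0 ≤ √(log ((2 : ℝ) ^ N)) := Real.sqrt_nonneg _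
  nlinarith

private theorem growth {C c : ℝ} (hc : 0 < c) (A : ℕ) : ∀ᶠ N : ℕ in atTop,
    ((2 : ℝ) ^ N) ^ (1 / 16 : ℝ) * (C * (KN A N) ^ 2) ≤ ((2 : ℝ) ^ N) ^ (1 / 2 : ℝ) * (c * (KN A N) ^ (1 / 2 : ℝ) / 4) := by
  have h1 : ∀ᶠ N : ℕ in atTop, |C| * (KN A N) ^ 2 ≤ (c / 4) * ((2 : ℝ) ^ N) ^ (7 / 16 : ℝ) := by
    have h2 : (fun x : ℝ => Real.log x) =o[atTop] fun x => x ^ (7 / 16 : ℝ) := isLittleO_log_rpow_atTop (by norm_num)
    have h3 := h2.def (show (0 : ℝ) < c / 4 / (|C| + 1) by positivity)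
    have h4 := (tendsto_pow_atTop_atTop_of_one_lt (by norm_num : (1 : ℝ) < 2)).eventually h3
    filter_upwards [h4, eventually_ge_atTop 2] with N hN hN2
    have hlog : 0 ≤ log ((2 : ℝ) ^ N) := Real.log_nonneg (one_le_pow₀ (by norm_num))
    rw [Real.norm_of_nonneg hlog, Real.norm_of_nonneg (by positivity)] at hN
    have h5 : (KN A N) ^ 2 ≤ log (2 ^ N) := by
      unfold KN
      rw [mul_pow, Real.sq_sqrt hlog]
      have h6 := c1_le A
      have h7 : c1 A ^ 2 ≤ 1 := pow_le_one₀ h6.1.le h6.2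
      nlinarith
    have h8 : |C| * (KN A N) ^ 2 ≤ (|C| + 1) * log (2 ^ N) :=
      mul_le_mul (by linarith) h5 (by positivity) (by positivity)
    refine h8.trans ((mul_le_mul_of_nonneg_left hN (by positivity)).trans (le_of_eq ?_))
    field_simp
  filter_upwards [h1, (KN_tendsto A).eventually_ge_atTop 1] with N hN hK
  have h5 : ((2 : ℝ) ^ N) ^ (1 / 2 : ℝ) = ((2 : ℝ) ^ N) ^ (1 / 16 : ℝ) * ((2 : ℝ) ^ N) ^ (7 / 16 : ℝ) := by
    rw [← Real.rpow_add (by positivity)]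
    norm_num
  have h6 : C * (KN A N) ^ 2 ≤ |C| * (KN A N) ^ 2 := mul_le_mul_of_nonneg_right (le_abs_self C) (by positivity)
  have h7 : 1 ≤ (KN A N) ^ (1 / 2 : ℝ) := Real.one_le_rpow hK (by norm_num)
  have h8 : C * (KN A N) ^ 2 ≤ ((2 : ℝ) ^ N) ^ (7 / 16 : ℝ) * (c * (KN A N) ^ (1 / 2 : ℝ) / 4) := by
    have h9 : (c / 4) * ((2 : ℝ) ^ N) ^ (7 / 16 : ℝ) ≤ (c / 4) * ((2 : ℝ) ^ N) ^ (7 / 16 : ℝ) * (KN A N) ^ (1 / 2 : ℝ) :=
      le_mul_of_one_le_right (by positivity) h7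
    calc C * (KN A N) ^ 2 ≤ (c / 4) * ((2 : ℝ) ^ N) ^ (7 / 16 : ℝ) * (KN A N) ^ (1 / 2 : ℝ) := by linarith
      _ = _ := by ring
  rw [h5, mul_assoc]
  exact mul_le_mul_of_nonneg_left h8 (by positivity)

theorem omega_plus {H : ℝ → ℝ} (hH : IsSupp H) (hsep : ∀ A : ℕ, ∀ᶠ N : ℕ in atTop, Sep H (A * KN A N) (2 ^ N)) :
    ∃ c : ℝ, 0 < c ∧ ∀ R₀ : ℝ, ∃ R : ℝ, R₀ ≤ R ∧ c * (R ^ (1 / 2 : ℝ) * (log R) ^ (1 / 4 : ℝ)) ≤ cnt H R - area H * R ^ 2 := by
  classical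
  obtain ⟨w, W, hw⟩ := exists_ker
  obtain ⟨A, hA1, hA2⟩ := exists_A hH
  obtain ⟨c, K₁, hc, hprim⟩ := prim_sum hH hw hA2
  obtain ⟨C, hlow⟩ := low_sum_le hH hw hA1
  obtain ⟨C', hC', hmain⟩ := main_asymp hw hH hA1 hA2
  obtain ⟨R₁, hR₁, hm⟩ := hmain (c / 32) (by positivity)
  have hc1 := c1_le A
  refine ⟨c * c1 A ^ (1 / 2 : ℝ) / 160, by have := hc1.1; positivity, fun R₀ => ?_⟩
  have hev := (((hsep A).and (card_prim A)).and (((KN_tendsto A).eventually_ge_atTop (max K₁ (max 1 ((32 * C' / c) ^ 2)))).and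
    (growth (C := C) hc A))).and ((eventually_ge_atTop 2).and
    ((tendsto_pow_atTop_atTop_of_one_lt (by norm_num : (1 : ℝ) < 2)).eventually_ge_atTop (max R₁ (2 * R₀))))
  obtain ⟨N, ⟨⟨hS, hcard⟩, hKl, hg⟩, hN2, hX⟩ := hev.exists
  set X : ℝ := (2 : ℝ) ^ N with hXdef
  set K : ℝ := KN A N with hKdef
  have hX4 : 4 ≤ X := by
    calc (4 : ℝ) = 2 ^ 2 := by norm_num
      _ ≤ 2 ^ N := pow_le_pow_right₀ (by norm_num) hN2
  have hX0 : 0 < X := by linarith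
  have hK1 : K₁ ≤ K := (le_max_left _ _).trans hKl
  have hK2 : 1 ≤ K := ((le_max_left _ _).trans (le_max_right _ _)).trans hKl
  have hK3 : (32 * C' / c) ^ 2 ≤ K := ((le_max_right _ _).trans (le_max_right _ _)).trans hKl
  have hKlog : K ≤ log X := KN_le hN2
  have hp := hprim K hK1
  have hl := hlow K hK2
  have hfil : (kset (A * K)).filter (fun k => Int.gcd k.1 k.2 = 1) = primk (A * K) := by
    unfold primk
    ext k
    simp only [Finset.mem_filter]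
  have hθ : X ^ (-(1 / 2) : ℝ) * X = X ^ (1 / 2 : ℝ) := by
    nth_rewrite 2 [← Real.rpow_one X]
    rw [← Real.rpow_add hX0]
    norm_num
  have hX1 : 1 ≤ X := by linarith
  obtain ⟨R, hR, hbig⟩ := riesz (primk (A * K)) (fun p => nk p * H (tk p)) (kset (A * K)) (fun k => amk W H K k) prk
    (fun k => Int.gcd k.1 k.2) (fun k _ => amk_nonneg hw K k) (fun k hk => (gcd_bd hk).1) (fun k hk => prk_mem hk)
    (M := (⌈(A : ℝ) * K⌉₊ : ℤ) + 1) (by omega) (fun k hk => by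
      have := (gcd_bd hk).2
      linarith) (θ := X ^ (-(1 / 2) : ℝ)) (X := X) (φ := -(3 * π / 4)) (by positivity) hX0 hS
    (by
      rw [hθ]
      exact hcard.trans (Real.rpow_le_rpow_of_exponent_le hX1 (by norm_num)))
    (by
      rw [hθ, hfil]
      calc (3 : ℝ) ^ (primk (A * K)).card * ∑ k ∈ kset (A * K), amk W H K k
          ≤ X ^ (1 / 16 : ℝ) * (C * K ^ 2) := by
            apply mul_le_mul hcard hl (Finset.sum_nonneg fun k _ => amk_nonneg hw K k) (by positivity)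
        _ ≤ X ^ (1 / 2 : ℝ) * (c * K ^ (1 / 2 : ℝ) / 4) := hg
        _ ≤ _ := by
            apply mul_le_mul_of_nonneg_left _ (by positivity)
            linarith)
  rw [hfil] at hbig
  have hsum : ∑ k ∈ kset (A * K), amk W H K k * cos (2 * π * (R * ((Int.gcd k.1 k.2 : ℕ) * (nk (prk k) * H (tk (prk k))))) + -(3 * π / 4)) =
      ∑ k ∈ kset (A * K), amk W H K k * cos (2 * π * (R * (nk k * H (tk k))) - 3 * π / 4) := by
    refine Finset.sum_congr rfl fun k hk => ?_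
    have hk0 : k ≠ 0 := (mem_kset.1 hk).1
    obtain ⟨e1, e2⟩ := nk_prk hk0
    rw [← e2, ← mul_assoc ((Int.gcd k.1 k.2 : ℕ) : ℝ), ← e1, ← sub_eq_add_neg]
  rw [hsum] at hbig
  have hR0 : 0 < R := by linarith [hR.1]
  have hmT : R ^ (1 / 2 : ℝ) * (c * K ^ (1 / 2 : ℝ) / 8) ≤ mainT W H (A * K) K R := by
    rw [main_eq]
    apply mul_le_mul_of_nonneg_left _ (by positivity)
    linarith
  have hRX : R₁ ≤ R := ((le_max_left _ _).trans hX).trans hR.1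
  have hlogR : log X ≤ log R := Real.log_le_log hX0 hR.1
  have hasy := hm R K hRX hK2 (hKlog.trans hlogR)
  have hKh : 32 * C' / c ≤ K ^ (1 / 2 : ℝ) := by
    have h0 : 0 ≤ 32 * C' / c := by positivity
    calc 32 * C' / c = ((32 * C' / c) ^ 2) ^ (1 / 2 : ℝ) := by
          rw [← Real.rpow_natCast, ← Real.rpow_mul h0]
          norm_num
      _ ≤ K ^ (1 / 2 : ℝ) := Real.rpow_le_rpow (by positivity) hK3 (by norm_num)
  have hC'' : C' ≤ c / 32 * K ^ (1 / 2 : ℝ) := by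
    rw [div_le_iff₀ hc] at hKh
    linarith
  have hRh : 0 < R ^ (1 / 2 : ℝ) := by positivity
  have hKp : 0 < K ^ (1 / 2 : ℝ) := by positivity
  have hAv : c / 16 * (R ^ (1 / 2 : ℝ) * K ^ (1 / 2 : ℝ)) ≤ Av w H K R := by
    have h1 := (abs_le.1 hasy).1
    have h2 : (c / 32 * K ^ (1 / 2 : ℝ) + C') * R ^ (1 / 2 : ℝ) ≤ (c / 32 * K ^ (1 / 2 : ℝ) + c / 32 * K ^ (1 / 2 : ℝ)) * R ^ (1 / 2 : ℝ) :=
      mul_le_mul_of_nonneg_right (by linarith) hRh.le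
    nlinarith
  -- a large value
  obtain ⟨r, hr, hrE⟩ : ∃ r ∈ Icc (R / 2) (3 * R / 2), c / 40 * (R ^ (1 / 2 : ℝ) * K ^ (1 / 2 : ℝ)) < cnt H r - area H * r ^ 2 := by
    by_contra hcon
    push Not at hcon
    have h1 := Av_le hw hH (K := K) (R := R) (by linarith) hR0 (E := c / 40 * (R ^ (1 / 2 : ℝ) * K ^ (1 / 2 : ℝ))) (by positivity) hcon
    have h2 : 0 < R ^ (1 / 2 : ℝ) * K ^ (1 / 2 : ℝ) := by positivity
    nlinarith
  refine ⟨r, ?_, ?_⟩
  · have h1 : 2 * R₀ ≤ X := (le_max_right _ _).trans hX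
    have := hR.1
    have := hr.1
    linarith
  · refine le_trans ?_ hrE.le
    have hr0 : 0 < r := by linarith [hr.1]
    have hr2 : 1 ≤ r := by
      have := hR.1
      have := hr.1
      linarith
    have h1 : r ^ (1 / 2 : ℝ) ≤ 2 * R ^ (1 / 2 : ℝ) := by
      calc r ^ (1 / 2 : ℝ) ≤ (4 * R) ^ (1 / 2 : ℝ) := Real.rpow_le_rpow hr0.le (by linarith [hr.2]) (by norm_num)
        _ = 2 * R ^ (1 / 2 : ℝ) := by
            rw [Real.mul_rpow (by norm_num) hR0.le]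
            congr 1
            rw [show (4 : ℝ) = 2 ^ (2 : ℝ) by norm_num, ← Real.rpow_mul (by norm_num)]
            norm_num
    have hlogX : 0 < log X := Real.log_pos (by linarith)
    have hlr : log r ≤ 2 * log X := by
      have h2 : r ≤ X ^ 2 := by
        have := hR.2
        have := hr.2
        nlinarith
      calc log r ≤ log (X ^ 2) := Real.log_le_log hr0 h2
        _ = 2 * log X := by rw [Real.log_pow]; norm_num
    have hlr0 : 0 ≤ log r := Real.log_nonneg hr2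
    have h3 : (log r) ^ (1 / 4 : ℝ) ≤ 2 * (log X) ^ (1 / 4 : ℝ) := by
      calc (log r) ^ (1 / 4 : ℝ) ≤ (2 * log X) ^ (1 / 4 : ℝ) := Real.rpow_le_rpow hlr0 hlr (by norm_num)
        _ = 2 ^ (1 / 4 : ℝ) * (log X) ^ (1 / 4 : ℝ) := Real.mul_rpow (by norm_num) hlogX.le
        _ ≤ 2 * (log X) ^ (1 / 4 : ℝ) := by
            apply mul_le_mul_of_nonneg_right _ (by positivity)
            calc (2 : ℝ) ^ (1 / 4 : ℝ) ≤ 2 ^ (1 : ℝ) := Real.rpow_le_rpow_of_exponent_le (by norm_num) (by norm_num)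
              _ = 2 := by norm_num
    have h4 : K ^ (1 / 2 : ℝ) = c1 A ^ (1 / 2 : ℝ) * (log X) ^ (1 / 4 : ℝ) := by
      rw [hKdef]
      unfold KN
      rw [Real.mul_rpow hc1.1.le (Real.sqrt_nonneg _), Real.sqrt_eq_rpow, ← Real.rpow_mul hlogX.le]
      norm_num
    have h5 : r ^ (1 / 2 : ℝ) * (log r) ^ (1 / 4 : ℝ) ≤ (2 * R ^ (1 / 2 : ℝ)) * (2 * (log X) ^ (1 / 4 : ℝ)) :=
      mul_le_mul h1 h3 (by positivity) (by positivity)
    have h6 : 0 < c1 A ^ (1 / 2 : ℝ) := by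
      have := hc1.1
      positivity
    calc c * c1 A ^ (1 / 2 : ℝ) / 160 * (r ^ (1 / 2 : ℝ) * (log r) ^ (1 / 4 : ℝ))
        ≤ c * c1 A ^ (1 / 2 : ℝ) / 160 * ((2 * R ^ (1 / 2 : ℝ)) * (2 * (log X) ^ (1 / 4 : ℝ))) :=
          mul_le_mul_of_nonneg_left h5 (by positivity)
      _ = c / 40 * (R ^ (1 / 2 : ℝ) * (c1 A ^ (1 / 2 : ℝ) * (log X) ^ (1 / 4 : ℝ))) := by ring
      _ = c / 40 * (R ^ (1 / 2 : ℝ) * K ^ (1 / 2 : ℝ)) := by rw [h4]

end Pool.Agent.Helper76.EO
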