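import Pool.Agent.Helper76.EO.Base
import Pool.Agent.Helper22.AE.C3

/-!
# EO-S1b: the arc containing a point

PROOF. `x = fract ((tk k + α)/(2π)) ∈ [0, 1)`, `a = ⌊2^j x⌋₊`, `a ≤ 2^j x < a + 1`, `tk k + α = 2π x + 2π m`, `2π x - ctr j a = 2π(2^j x - a - 1/2)/2^j`.
`aix_cross`: `tk k + α = 2πx + 2πm`, `tk k' + α = 2πx' + 2πm'`, `|x - x'| < 1/2^j`; `crs k k' = nk k nk k' sin (tk k' - tk k)`
(`cz k = nk k * exp (i tk k)`), `|sin (tk k' - tk k)| = |sin (2π(x' - x))| ≤ 2π/2^j`, and `nk < 2^(n+1)` on `blk n`.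
-/

open Real Set Filter Topology

set_option autoImplicit false

namespace Pool.Agent.Helper76.EO

open Pool.Agent.Helper22.AE

theorem aix_lt (j : ℕ) (α : ℝ) (k : ℤ × ℤ) : aix j α k < 2 ^ j := by
  unfold aix
  have h0 : 0 ≤ (2 : ℝ) ^ j * Int.fract ((tk k + α) / (2 * π)) :=
    mul_nonneg (by positivity) (Int.fract_nonneg _)
  rw [Nat.floor_lt h0]
  push_cast
  have h1 := Int.fract_lt_one ((tk k + α) / (2 * π))
  have h2 : (0 : ℝ) < 2 ^ j := by positivity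
  nlinarith

private lemma s1b_split (k : ℤ × ℤ) (α : ℝ) : tk k + α =
    2 * π * Int.fract ((tk k + α) / (2 * π)) + 2 * π * (⌊(tk k + α) / (2 * π)⌋ : ℤ) := by
  have h := Int.fract_add_floor ((tk k + α) / (2 * π))
  rw [← mul_add, h]
  field_simp

private lemma s1b_le (j : ℕ) (α : ℝ) (k : ℤ × ℤ) :
    (aix j α k : ℝ) ≤ 2 ^ j * Int.fract ((tk k + α) / (2 * π)) ∧
      2 ^ j * Int.fract ((tk k + α) / (2 * π)) < aix j α k + 1 := by
  unfold aix
  have h0 : 0 ≤ (2 : ℝ) ^ j * Int.fract ((tk k + α) / (2 * π)) :=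
    mul_nonneg (by positivity) (Int.fract_nonneg _)
  exact ⟨Nat.floor_le h0, Nat.lt_floor_add_one _⟩

theorem aix_arc (j : ℕ) (α : ℝ) (k : ℤ × ℤ) : ∃ m : ℤ, |tk k + α - ctr j (aix j α k) - 2 * π * m| ≤ π / 2 ^ j := by
  refine ⟨⌊(tk k + α) / (2 * π)⌋, ?_⟩
  obtain ⟨h1, h2⟩ := s1b_le j α k
  have h3 := s1b_split k α
  have h4 : tk k + α - ctr j (aix j α k) - 2 * π * (⌊(tk k + α) / (2 * π)⌋ : ℤ) =
      2 * π / 2 ^ j * (2 ^ j * Int.fract ((tk k + α) / (2 * π)) - aix j α k - 1 / 2) := by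
    have h5 : tk k + α - ctr j (aix j α k) - 2 * π * (⌊(tk k + α) / (2 * π)⌋ : ℤ) =
        2 * π * Int.fract ((tk k + α) / (2 * π)) - ctr j (aix j α k) := by linarith
    rw [h5]
    unfold ctr
    have : (2 : ℝ) ^ j ≠ 0 := by positivity
    field_simp
    ring
  rw [h4, abs_mul, abs_of_pos (by positivity : (0 : ℝ) < 2 * π / 2 ^ j)]
  have h5 : |2 ^ j * Int.fract ((tk k + α) / (2 * π)) - aix j α k - 1 / 2| ≤ 1 / 2 := by
    rw [abs_le]
    constructor <;> linarith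
  calc 2 * π / 2 ^ j * |2 ^ j * Int.fract ((tk k + α) / (2 * π)) - aix j α k - 1 / 2|
      ≤ 2 * π / 2 ^ j * (1 / 2) := mul_le_mul_of_nonneg_left h5 (by positivity)
    _ = π / 2 ^ j := by ring

private lemma s1b_crs (k k' : ℤ × ℤ) : (crs k k' : ℝ) = nk k * nk k' * sin (tk k' - tk k) := by
  have h1 : nk k * cos (tk k) = k.1 := Complex.norm_mul_cos_arg (cz k)
  have h2 : nk k * sin (tk k) = k.2 := Complex.norm_mul_sin_arg (cz k)
  have h3 : nk k' * cos (tk k') = k'.1 := Complex.norm_mul_cos_arg (cz k')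
  have h4 : nk k' * sin (tk k') = k'.2 := Complex.norm_mul_sin_arg (cz k')
  unfold crs
  push_cast
  rw [← h1, ← h2, ← h3, ← h4, sin_sub]
  ring

theorem aix_cross {j n : ℕ} {α : ℝ} {k k' : ℤ × ℤ} (hk : k ∈ blk n) (hk' : k' ∈ blk n) (h : aix j α k = aix j α k') :
    |(crs k k' : ℝ)| ≤ 8 * π * 4 ^ n / 2 ^ j := by
  have hn : ∀ k ∈ blk n, 0 ≤ nk k ∧ nk k ≤ 2 ^ (n + 1) := by
    intro k hk
    unfold blk at hk
    rw [Finset.mem_filter] at hk
    exact ⟨norm_nonneg _, hk.2.2.le⟩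
  obtain ⟨a1, a2⟩ := hn k hk
  obtain ⟨b1, b2⟩ := hn k' hk'
  obtain ⟨c1, c2⟩ := s1b_le j α k
  obtain ⟨d1, d2⟩ := s1b_le j α k'
  have e1 := s1b_split k α
  have e2 := s1b_split k' α
  rw [← h] at d1 d2
  rw [s1b_crs, abs_mul, abs_mul, abs_of_nonneg a1, abs_of_nonneg b1]
  set x := Int.fract ((tk k + α) / (2 * π))
  set x' := Int.fract ((tk k' + α) / (2 * π))
  have h2 : (0 : ℝ) < 2 ^ j := by positivity
  have h3 : |x' - x| ≤ 1 / 2 ^ j := by
    rw [abs_le]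
    constructor
    · rw [neg_le, le_div_iff₀ h2]; nlinarith
    · rw [le_div_iff₀ h2]; nlinarith
  have h4 : sin (tk k' - tk k) = sin (2 * π * (x' - x)) := by
    have : tk k' - tk k = 2 * π * (x' - x) +
        ((⌊(tk k' + α) / (2 * π)⌋ - ⌊(tk k + α) / (2 * π)⌋ : ℤ) : ℝ) * (2 * π) := by
      push_cast
      linarith
    rw [this, sin_add_int_mul_two_pi]
  have h5 : |sin (tk k' - tk k)| ≤ 2 * π * (1 / 2 ^ j) := by
    rw [h4]
    calc |sin (2 * π * (x' - x))| ≤ |2 * π * (x' - x)| := abs_sin_le_abs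
      _ = 2 * π * |x' - x| := by rw [abs_mul, abs_of_pos (by positivity : (0 : ℝ) < 2 * π)]
      _ ≤ _ := mul_le_mul_of_nonneg_left h3 (by positivity)
  calc nk k * nk k' * |sin (tk k' - tk k)|
      ≤ 2 ^ (n + 1) * 2 ^ (n + 1) * (2 * π * (1 / 2 ^ j)) :=
        mul_le_mul (mul_le_mul a2 b2 b1 (by positivity)) h5 (abs_nonneg _) (by positivity)
    _ = 8 * π * 4 ^ n / 2 ^ j := by
        have : (4 : ℝ) ^ n = 2 ^ n * 2 ^ n := by rw [← mul_pow]; norm_num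
        rw [this, pow_succ]
        ring

end Pool.Agent.Helper76.EO
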