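import Pool.Agent.Helper76.EO.Base

/-!
# EO-S3: resampling finitely many coordinates; probability measures

PROOF. `mu univ = 2⁻¹ * volume [-1, 1] = 1`. `resample`: measurability of `piecewise` in both arguments; `Measure.eq_infinitePi`: for a rectangle
`{x | ∀ i ∈ s, x i ∈ t i}` the preimage is the product of the rectangle over `s ∩ A` and the one over `s \ A` (`infinitePi_pi`), and the product of
the measures is `∏_{i ∈ s} mu (t i)`. `resample_le`: `PP E = (PP.prod PP) (preimage) = ∫ PP {u | piecewise u ω ∈ E} dPP(ω)`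
(`Measure.prod_apply_symm`), monotonicity.
-/

open MeasureTheory Real Set Filter Topology

set_option autoImplicit false

namespace Pool.Agent.Helper76.EO

open Pool.Agent.Helper22.AE

instance mu_prob : IsProbabilityMeasure mu := by
  constructor
  unfold mu
  rw [Measure.smul_apply, Measure.restrict_apply MeasurableSet.univ, Set.univ_inter, Real.volume_Icc,
    smul_eq_mul, show (1 : ℝ) - -1 = 2 by norm_num, show ENNReal.ofReal 2 = 2 by
      simpa using ENNReal.ofReal_ofNat 2]
  exact ENNReal.inv_mul_cancel (by norm_num) (by norm_num)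

instance PP_prob : IsProbabilityMeasure PP := by
  unfold PP
  infer_instance

theorem resample (A : Finset (ℕ × ℕ)) :
    MeasurePreserving (fun q : Sp × Sp => A.piecewise q.1 q.2) (PP.prod PP) PP := by
  have hm : Measurable (fun q : Sp × Sp => A.piecewise q.1 q.2) := by
    rw [measurable_pi_iff]
    intro i
    by_cases hi : i ∈ A
    · simp only [Finset.piecewise_eq_of_mem A _ _ hi]
      exact (measurable_pi_apply i).comp measurable_fst
    · simp only [Finset.piecewise_eq_of_notMem A _ _ hi]
      exact (measurable_pi_apply i).comp measurable_snd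
  refine ⟨hm, ?_⟩
  refine Measure.eq_infinitePi (μ := fun _ : ℕ × ℕ => mu) ?_
  intro s t ht
  rw [Measure.map_apply hm (MeasurableSet.pi s.countable_toSet (fun i _ => ht i))]
  have hpre : (fun q : Sp × Sp => A.piecewise q.1 q.2) ⁻¹' (Set.pi (s : Set (ℕ × ℕ)) t) =
      (Set.pi ((s ∩ A : Finset (ℕ × ℕ)) : Set (ℕ × ℕ)) t) ×ˢ
        (Set.pi ((s \ A : Finset (ℕ × ℕ)) : Set (ℕ × ℕ)) t) := by
    ext q
    simp only [Set.mem_preimage, Set.mem_pi, Finset.mem_coe, Set.mem_prod, Finset.mem_inter,
      Finset.mem_sdiff]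
    constructor
    · intro h
      refine ⟨fun i hi => ?_, fun i hi => ?_⟩
      · have := h i hi.1
        rwa [Finset.piecewise_eq_of_mem A _ _ hi.2] at this
      · have := h i hi.1
        rwa [Finset.piecewise_eq_of_notMem A _ _ hi.2] at this
    · rintro ⟨h1, h2⟩ i hi
      by_cases hA : i ∈ A
      · rw [Finset.piecewise_eq_of_mem A _ _ hA]
        exact h1 i ⟨hi, hA⟩
      · rw [Finset.piecewise_eq_of_notMem A _ _ hA]
        exact h2 i ⟨hi, hA⟩
  rw [hpre, Measure.prod_prod]
  unfold PP
  rw [Measure.infinitePi_pi _ (fun i _ => ht i), Measure.infinitePi_pi _ (fun i _ => ht i),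
    Finset.prod_inter_mul_prod_diff]

theorem resample_le (A : Finset (ℕ × ℕ)) {E : Set Sp} (hE : MeasurableSet E) {e : ℝ} (he : 0 ≤ e)
    (h : ∀ ω, PP.real {u | A.piecewise u ω ∈ E} ≤ e) : PP.real E ≤ e := by
  have hmp := resample A
  have h1 : PP E = (PP.prod PP) ((fun q : Sp × Sp => A.piecewise q.1 q.2) ⁻¹' E) :=
    (hmp.measure_preimage hE.nullMeasurableSet).symm
  have h2 : PP E ≤ ENNReal.ofReal e := by
    rw [h1, Measure.prod_apply_symm (hmp.measurable hE)]
    calc ∫⁻ ω, PP ((fun u => (u, ω)) ⁻¹' ((fun q : Sp × Sp => A.piecewise q.1 q.2) ⁻¹' E)) ∂PP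
        ≤ ∫⁻ _, ENNReal.ofReal e ∂PP := by
          refine lintegral_mono (fun ω => ?_)
          have h3 : ((fun u => (u, ω)) ⁻¹' ((fun q : Sp × Sp => A.piecewise q.1 q.2) ⁻¹' E)) =
              {u | A.piecewise u ω ∈ E} := rfl
          rw [h3, ← ENNReal.ofReal_toReal (measure_ne_top PP _)]
          exact ENNReal.ofReal_le_ofReal (h ω)
      _ = ENNReal.ofReal e := by simp
  calc PP.real E = (PP E).toReal := rfl
    _ ≤ (ENNReal.ofReal e).toReal := ENNReal.toReal_mono ENNReal.ofReal_ne_top h2
    _ = e := ENNReal.toReal_ofReal he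

end Pool.Agent.Helper76.EO
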