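import Pool.Agent.Helper76.EO.S1
import Pool.Agent.Helper76.EO.S1b
import Pool.Agent.Helper76.EO.S2
import Pool.Agent.Helper76.EO.S3

/-!
# EO-R6: probability that a linear form in the frequencies is small

PROOF. `i = aix j 0 p₀`. The event is open in `ω` (`Psi_cont hF 0`), so measurable. `resample_le` with `A = {(j, i)}`: fix `ω`. By `Psi_split` (one term),
`Wav`: `Hr F H₀ (A.piecewise u ω) (tk p) = Hr F H₀ (A.piecewise 0 ω) (tk p) + am j * clip (u (j, i)) * bmp j i (tk p)`; `bmp j i (tk p₀) = 1` (`aix_arc` with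
`α = 0`, `bmp_one`, `Filter.EventuallyEq.eq_of_nhds`), `bmp j i (tk p) = 0` for the other `p ∈ P` (`hfar`). So the form is `F' + b clip (u (j, i))`,
`b = m p₀ nk p₀ am j`, `|b| ≥ am j`. The law of `u (j, i)` is `mu` (`infinitePi_map_eval`), `mu {x | |F' + b clip x| < θ} ≤ (1/2) (2θ/|b|)`:
on `[-1, 1]` `clip x = x` and the set is contained in an interval of length `2θ/|b|`.
-/

open MeasureTheory Real Set Filter Topology

set_option autoImplicit false

namespace Pool.Agent.Helper76.EO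

open Pool.Agent.Helper22.AE

/-- a linear function of the uniform variable is small with small probability -/
private theorem mu_small {c b θ d : ℝ} (hd : 0 < d) (hb : d ≤ |b|) (hθ : 0 ≤ θ) :
    mu {x | |c + b * clip x| < θ} ≤ ENNReal.ofReal (θ / d) := by
  have hb0 : 0 < |b| := lt_of_lt_of_le hd hb
  have hb1 : b ≠ 0 := abs_pos.1 hb0
  have hopen : MeasurableSet {x : ℝ | |c + b * clip x| < θ} :=
    (isOpen_lt ((continuous_const.add (continuous_const.mul clip_cont)).abs) continuous_const).measurableSet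
  unfold mu
  rw [Measure.smul_apply, Measure.restrict_apply hopen, smul_eq_mul]
  have hsub : {x : ℝ | |c + b * clip x| < θ} ∩ Icc (-1) 1 ⊆ Metric.ball (-c / b) (θ / |b|) := by
    rintro x ⟨hx, hx1⟩
    rw [mem_ofPred_eq] at hx
    have hcl : clip x = x := by
      unfold clip
      rw [min_eq_right hx1.2, max_eq_right hx1.1]
    rw [hcl] at hx
    rw [Metric.mem_ball, Real.dist_eq, lt_div_iff₀ hb0, ← abs_mul]
    have : (x - -c / b) * b = c + b * x := by field_simp; ring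
    rw [this]; exact hx
  calc (2 : ENNReal)⁻¹ * volume ({x : ℝ | |c + b * clip x| < θ} ∩ Icc (-1) 1)
      ≤ (2 : ENNReal)⁻¹ * volume (Metric.ball (-c / b) (θ / |b|)) := by gcongr
    _ = (2 : ENNReal)⁻¹ * ENNReal.ofReal (2 * (θ / |b|)) := by rw [Real.volume_ball]
    _ = ENNReal.ofReal (θ / |b|) := by
      rw [ENNReal.ofReal_mul (by norm_num), ← mul_assoc, show ENNReal.ofReal 2 = 2 by simp, ENNReal.inv_mul_cancel (by norm_num) (by norm_num), one_mul]
    _ ≤ ENNReal.ofReal (θ / d) := by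
      apply ENNReal.ofReal_le_ofReal
      gcongr

theorem form_prob {F : Fam} (hF : F.Good) {am : ℕ → ℝ} (hW : F.Wav am) (H₀ : ℝ → ℝ) (P : Finset (ℤ × ℤ)) (m : ℤ × ℤ → ℤ)
    {p₀ : ℤ × ℤ} (hp₀ : p₀ ∈ P) (hm : m p₀ ≠ 0) (hn : 1 ≤ nk p₀) {j : ℕ} (hj : 1 ≤ j) (ham : 0 < am j)
    (hfar : ∀ p ∈ P, p ≠ p₀ → bmp j (aix j 0 p₀) (tk p) = 0) {θ : ℝ} (hθ : 0 ≤ θ) :
    PP.real {ω | |∑ p ∈ P, (m p : ℝ) * (nk p * Hr F H₀ ω (tk p))| < θ} ≤ θ / am j := by
  classical
  set i := aix j 0 p₀ with hi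
  have hi2 : i < 2 ^ j := aix_lt j 0 p₀
  obtain ⟨hWf, hWa⟩ := hW j i hj hi2
  have hcont : Continuous (fun ω : Sp => ∑ p ∈ P, (m p : ℝ) * (nk p * Hr F H₀ ω (tk p))) := by
    apply continuous_finsetSum
    intro p _
    apply continuous_const.mul (continuous_const.mul _)
    unfold Hr
    have h0 := Psi_cont hF 0
    simp only [iteratedDeriv_zero] at h0
    exact continuous_const.add (h0.comp (continuous_id.prodMk continuous_const))
  have hE : MeasurableSet {ω : Sp | |∑ p ∈ P, (m p : ℝ) * (nk p * Hr F H₀ ω (tk p))| < θ} :=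
    (isOpen_lt hcont.abs continuous_const).measurableSet
  have hone : bmp j i (tk p₀) = 1 := by
    obtain ⟨k, hk⟩ := aix_arc j 0 p₀
    rw [add_zero] at hk
    exact (bmp_one hj hk).eq_of_nhds
  refine resample_le {(j, i)} hE (by positivity) ?_
  intro ω
  set c : ℝ := ∑ p ∈ P, (m p : ℝ) * (nk p * Hr F H₀ (({(j, i)} : Finset (ℕ × ℕ)).piecewise 0 ω) (tk p)) with hc
  set b : ℝ := m p₀ * nk p₀ * am j with hb
  have hform : ∀ u : Sp, ∑ p ∈ P, (m p : ℝ) * (nk p * Hr F H₀ (({(j, i)} : Finset (ℕ × ℕ)).piecewise u ω) (tk p)) =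
      c + b * clip (u (j, i)) := by
    intro u
    have h1 : ∀ p ∈ P, (m p : ℝ) * (nk p * Hr F H₀ (({(j, i)} : Finset (ℕ × ℕ)).piecewise u ω) (tk p)) =
        (m p : ℝ) * (nk p * Hr F H₀ (({(j, i)} : Finset (ℕ × ℕ)).piecewise 0 ω) (tk p)) +
          (if p = p₀ then b * clip (u (j, i)) else 0) := by
      intro p hp
      unfold Hr
      rw [Psi_split hF, Finset.sum_singleton, hWf, hWa]
      split_ifs with h
      · rw [h, hone, hb]; ring
      · rw [hfar p hp h]; ring
    rw [Finset.sum_congr rfl h1, Finset.sum_add_distrib, Finset.sum_ite_eq' P p₀, if_pos hp₀]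
  have hset : {u : Sp | ({(j, i)} : Finset (ℕ × ℕ)).piecewise u ω ∈ {ω : Sp | |∑ p ∈ P, (m p : ℝ) * (nk p * Hr F H₀ ω (tk p))| < θ}} =
      (fun u : Sp => u (j, i)) ⁻¹' {x | |c + b * clip x| < θ} := by
    ext u
    rw [mem_ofPred_eq, mem_ofPred_eq, mem_preimage, mem_ofPred_eq, hform u]
  rw [hset]
  have hbd : am j ≤ |b| := by
    rw [hb, abs_mul, abs_mul, abs_of_pos ham]
    have h1 : (1 : ℝ) ≤ |(m p₀ : ℝ)| := by
      rw [← Int.cast_abs]
      exact_mod_cast Int.one_le_abs hm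
    have h2 : (1 : ℝ) ≤ |nk p₀| := hn.trans (le_abs_self _)
    calc am j = 1 * 1 * am j := by ring
      _ ≤ |(m p₀ : ℝ)| * |nk p₀| * am j := by gcongr
  have hopen : MeasurableSet {x : ℝ | |c + b * clip x| < θ} :=
    (isOpen_lt ((continuous_const.add (continuous_const.mul clip_cont)).abs) continuous_const).measurableSet
  have hmap : PP.map (fun u : Sp => u (j, i)) = mu := by
    unfold PP
    exact Measure.infinitePi_map_eval (μ := fun _ : ℕ × ℕ => mu) (j, i)
  have h1 : PP ((fun u : Sp => u (j, i)) ⁻¹' {x | |c + b * clip x| < θ}) ≤ ENNReal.ofReal (θ / am j) := by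
    have hmeas : Measurable (fun u : Sp => u (j, i)) := measurable_pi_apply (j, i)
    rw [← Measure.map_apply hmeas hopen, hmap]
    exact mu_small ham hbd hθ
  calc PP.real ((fun u : Sp => u (j, i)) ⁻¹' {x | |c + b * clip x| < θ}) = (PP ((fun u : Sp => u (j, i)) ⁻¹' {x | |c + b * clip x| < θ})).toReal := rfl
    _ ≤ (ENNReal.ofReal (θ / am j)).toReal := ENNReal.toReal_mono ENNReal.ofReal_ne_top h1
    _ = θ / am j := ENNReal.toReal_ofReal (by positivity)

end Pool.Agent.Helper76.EO
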