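import Pool.Agent.Helper76.EO.S1b

/-!
# EO-R7: the bump at one primitive direction vanishes at the others

PROOF. `tk p = ctr + x + 2πm`, `|x| ≤ π/2^j` (`aix_arc`, `α = 0`). Let `d` be the distance of `tk p' - tk p` to `2πℤ`, `y` the distance of `tk p' - ctr` to
`2πℤ`: `y ≥ d - π/2^j`. `|zk p' - zk p| ≤ d`, and `|zk p' - zk p| ≥ |Im (conj (zk p) zk p')| = |crs p p'|/(nk p nk p') ≥ 1/Y²` if `crs p p' ≠ 0`; if
`crs p p' = 0` then `p' = -p` (both primitive, different), `zk p' = -zk p`, distance `2`. So `y ≥ 1/Y² - π/2^j ≥ (16 - π)/2^j ≥ 12/2^j`,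
`1 - cos y ≥ 2y²/π²` for `0 ≤ y ≤ π`, `lamj j (1 - cos y) ≥ (2·4^j/π²)(2·144/4^j/π²) ≥ 2`: the argument of `smoothTransition` is `≤ 0`
(`Real.smoothTransition.zero_of_nonpos`).
-/

open MeasureTheory Real Set Filter Topology

set_option autoImplicit false

namespace Pool.Agent.Helper76.EO

open Pool.Agent.Helper22.AE

private lemma crs_h36 (k k' : ℤ × ℤ) : (crs k k' : ℝ) = nk k * nk k' * sin (tk k' - tk k) := by
  have h1 : nk k * cos (tk k) = k.1 := Complex.norm_mul_cos_arg (cz k)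
  have h2 : nk k * sin (tk k) = k.2 := Complex.norm_mul_sin_arg (cz k)
  have h3 : nk k' * cos (tk k') = k'.1 := Complex.norm_mul_cos_arg (cz k')
  have h4 : nk k' * sin (tk k') = k'.2 := Complex.norm_mul_sin_arg (cz k')
  unfold crs
  push_cast
  rw [← h1, ← h2, ← h3, ← h4, sin_sub]
  ring

private lemma nk_pos_h36 {p : ℤ × ℤ} (hp : Int.gcd p.1 p.2 = 1) : 0 < nk p := by
  have h0 : 0 ≤ nk p := norm_nonneg _
  refine lt_of_le_of_ne h0 fun h => ?_
  have h1 : nk p * cos (tk p) = p.1 := Complex.norm_mul_cos_arg (cz p)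
  have h2 : nk p * sin (tk p) = p.2 := Complex.norm_mul_sin_arg (cz p)
  rw [← h, zero_mul] at h1 h2
  have h3 : p.1 = 0 := by exact_mod_cast h1.symm
  have h4 : p.2 = 0 := by exact_mod_cast h2.symm
  rw [h3, h4] at hp
  simp at hp

private lemma opp_h36 {p p' : ℤ × ℤ} (hp : Int.gcd p.1 p.2 = 1) (hp' : Int.gcd p'.1 p'.2 = 1) (hne : p ≠ p')
    (hc : crs p p' = 0) : p'.1 = -p.1 ∧ p'.2 = -p.2 := by
  obtain ⟨u, v, huv⟩ := Int.isCoprime_iff_gcd_eq_one.2 hp
  obtain ⟨u', v', huv'⟩ := Int.isCoprime_iff_gcd_eq_one.2 hp'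
  unfold crs at hc
  set t := u * p'.1 + v * p'.2 with ht
  have e1 : t * p.1 = p'.1 := by
    have : t * p.1 = p'.1 * (u * p.1 + v * p.2) + v * (p.1 * p'.2 - p.2 * p'.1) := by rw [ht]; ring
    rw [this, hc, huv]; ring
  have e2 : t * p.2 = p'.2 := by
    have : t * p.2 = p'.2 * (u * p.1 + v * p.2) - u * (p.1 * p'.2 - p.2 * p'.1) := by rw [ht]; ring
    rw [this, hc, huv]; ring
  have e3 : t * (u' * p.1 + v' * p.2) = 1 := by
    rw [← huv', ← e1, ← e2]; ring
  rcases Int.isUnit_iff.1 (IsUnit.of_mul_eq_one _ e3) with h | h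
  · exfalso
    rw [h, one_mul] at e1 e2
    exact hne (Prod.ext e1 e2)
  · rw [h] at e1 e2
    constructor <;> linarith

theorem arc_far {p p' : ℤ × ℤ} (hp : Int.gcd p.1 p.2 = 1) (hp' : Int.gcd p'.1 p'.2 = 1) (hne : p ≠ p') {Y : ℝ} (hY : 1 ≤ Y)
    (h1 : nk p ≤ Y) (h2 : nk p' ≤ Y) {j : ℕ} (hj : 16 * Y ^ 2 ≤ 2 ^ j) : bmp j (aix j 0 p) (tk p') = 0 := by
  obtain ⟨m, hm⟩ := aix_arc j 0 p
  rw [add_zero] at hm
  have hn := nk_pos_h36 hp
  have hn' := nk_pos_h36 hp'
  have h2j : (0 : ℝ) < 2 ^ j := by positivity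
  have hY2 : (0 : ℝ) < Y ^ 2 := by positivity
  set e := tk p - ctr j (aix j 0 p) - 2 * π * m with he
  set θ := tk p' - tk p with hθ
  -- lower bound for the half angle
  have hs : 8 / 2 ^ j ≤ |sin (θ / 2)| := by
    have h8 : 8 / 2 ^ j ≤ 1 / (2 * Y ^ 2) := by
      rw [div_le_div_iff₀ h2j (by positivity)]
      linarith
    refine h8.trans ?_
    by_cases hc : crs p p' = 0
    · obtain ⟨q1, q2⟩ := opp_h36 hp hp' hne hc
      have a1 : nk p * cos (tk p) = p.1 := Complex.norm_mul_cos_arg (cz p)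
      have a2 : nk p * sin (tk p) = p.2 := Complex.norm_mul_sin_arg (cz p)
      have a3 : nk p' * cos (tk p') = p'.1 := Complex.norm_mul_cos_arg (cz p')
      have a4 : nk p' * sin (tk p') = p'.2 := Complex.norm_mul_sin_arg (cz p')
      rw [q1] at a3
      rw [q2] at a4
      push_cast at a3 a4
      have b1 : nk p * nk p' * cos θ = -(nk p) ^ 2 := by
        have c1 : nk p * nk p' * cos θ = (nk p' * cos (tk p')) * (nk p * cos (tk p)) +
            (nk p' * sin (tk p')) * (nk p * sin (tk p)) := by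
          rw [hθ, cos_sub]
          ring
        rw [c1, a3, a4, ← a1, ← a2]
        have c2 := sin_sq_add_cos_sq (tk p)
        linear_combination -(nk p) ^ 2 * c2
      have b2 : nk p' = nk p := by
        have c1 : (nk p') ^ 2 = (nk p) ^ 2 := by
          have c2 := sin_sq_add_cos_sq (tk p)
          have c3 := sin_sq_add_cos_sq (tk p')
          have c4 : (nk p' * cos (tk p')) ^ 2 + (nk p' * sin (tk p')) ^ 2 =
              (nk p * cos (tk p)) ^ 2 + (nk p * sin (tk p)) ^ 2 := by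
            rw [a3, a4, a1, a2]
            ring
          linear_combination c4 - (nk p') ^ 2 * c3 + (nk p) ^ 2 * c2
        exact (sq_eq_sq₀ hn'.le hn.le).1 c1
      rw [b2] at b1
      have b3 : cos θ = -1 := by
        have : nk p * nk p * (cos θ + 1) = 0 := by linear_combination b1
        rcases mul_eq_zero.1 this with h | h
        · exact absurd h (by positivity)
        · linarith
      have b4 : sin (θ / 2) ^ 2 = 1 := by
        rw [sin_sq_eq_half_sub, mul_div_cancel₀ _ (two_ne_zero), b3]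
        norm_num
      have b5 : |sin (θ / 2)| = 1 := by
        rw [← sq_abs] at b4
        nlinarith [abs_nonneg (sin (θ / 2))]
      rw [b5, div_le_one (by positivity)]
      nlinarith
    · have b1 : (1 : ℝ) ≤ |(crs p p' : ℝ)| := by
        exact_mod_cast Int.one_le_abs hc
      rw [crs_h36, ← hθ, abs_mul, abs_mul, abs_of_pos hn, abs_of_pos hn'] at b1
      have b2 : nk p * nk p' * |sin θ| ≤ Y ^ 2 * |sin θ| := by
        rw [sq]
        exact mul_le_mul_of_nonneg_right (mul_le_mul h1 h2 hn'.le (by linarith)) (abs_nonneg _)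
      have b3 : |sin θ| ≤ 2 * |sin (θ / 2)| := by
        have c1 : sin θ = 2 * sin (θ / 2) * cos (θ / 2) := by
          rw [← sin_two_mul]
          congr 1
          ring
        rw [c1, abs_mul, abs_mul, abs_two]
        exact mul_le_of_le_one_right (by positivity) (abs_cos_le_one _)
      rw [div_le_iff₀ (by positivity)]
      nlinarith
  -- with the error
  have hs2 : 6 / 2 ^ j ≤ |sin ((θ + e) / 2)| := by
    have c1 : |sin (θ / 2)| - |sin ((θ + e) / 2)| ≤ |e| / 2 := by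
      refine (abs_sub_abs_le_abs_sub _ _).trans ?_
      have c2 := abs_sin_sub_sin_le (θ / 2) ((θ + e) / 2)
      have c3 : θ / 2 - (θ + e) / 2 = -(e / 2) := by ring
      rw [c3, abs_neg, abs_div, abs_two] at c2
      exact c2
    have c4 : π / 2 ^ j ≤ 4 / 2 ^ j := div_le_div_of_nonneg_right pi_le_four h2j.le
    have c5 : 6 / (2 : ℝ) ^ j = 8 / 2 ^ j - 4 / 2 ^ j / 2 := by ring
    rw [c5]
    linarith
  have hcos : cos (tk p' - ctr j (aix j 0 p)) = cos (θ + e) := by
    have : tk p' - ctr j (aix j 0 p) = (θ + e) + m * (2 * π) := by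
      rw [he, hθ]
      ring
    rw [this, cos_add_int_mul_two_pi]
  unfold bmp
  apply Real.smoothTransition.zero_of_nonpos
  rw [hcos]
  have d1 : 1 - cos (θ + e) = 2 * sin ((θ + e) / 2) ^ 2 := by
    rw [sin_sq_eq_half_sub, mul_div_cancel₀ _ (two_ne_zero)]
    ring
  have d2 : 36 / 4 ^ j ≤ sin ((θ + e) / 2) ^ 2 := by
    have c1 : (6 / (2 : ℝ) ^ j) ^ 2 = 36 / 4 ^ j := by
      rw [div_pow, ← pow_mul, mul_comm j 2, pow_mul]
      norm_num
    rw [← c1, ← sq_abs (sin _)]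
    exact pow_le_pow_left₀ (by positivity) hs2 2
  rw [d1]
  unfold lamj
  have d3 : 2 * (4 : ℝ) ^ j / π ^ 2 * (2 * (36 / 4 ^ j)) ≤ 2 * 4 ^ j / π ^ 2 * (2 * sin ((θ + e) / 2) ^ 2) :=
    mul_le_mul_of_nonneg_left (by linarith) (by positivity)
  have d4 : 2 * (4 : ℝ) ^ j / π ^ 2 * (2 * (36 / 4 ^ j)) = 144 / π ^ 2 := by
    field_simp
    norm_num
  have d5 : 2 ≤ 144 / π ^ 2 := by
    rw [le_div_iff₀ (by positivity)]
    nlinarith [pi_le_four, pi_pos]
  linarith

end Pool.Agent.Helper76.EO
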