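import Pool.Agent.Helper76.EO.R4
import Pool.Agent.Helper76.EO.R6
import Pool.Agent.Helper76.EO.R7

/-!
# EO-R8: the frequencies are separated, almost surely

PROOF. `N` large, `M = A * KN A N`, `P = primk M`, `X = 2^N`. Points of `P` have `1 ≤ nk ≤ Y = M + 1`, `Y² ≤ N` for `N` large; there is `j` with
`16 Y² ≤ 2^j ≤ 32 Y² ≤ N²` (`Nat.clog`), `j ≥ 1`, `am j ≥ κ₀ X^(-1/4)` (`hamN`). If `Sep` fails there are `p₀ ∈ P` and `m` with `|m p| ≤ 1` off `p₀`,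
`|m p₀| ≤ ⌈M⌉₊ + 1`, `m ≠ 0` on `P`, and the form is `< X^(-1/2)` in absolute value. Only the values of `m` on `P` matter: for fixed `p₀` there are at most
`3^|P| (2⌈M⌉₊+3)` of them (e.g. `m` may be replaced by `p ↦ if p ∈ P then m p else 0`, which lies in the image of a `Fintype.piFinset`/`Finset.pi`). For each,
choose `p₁ ∈ P` with `m p₁ ≠ 0`: `form_prob` (`arc_far`): probability `≤ X^(-1/2)/(κ₀ X^(-1/4))`. Total `≤ |P| 3^|P| (2⌈M⌉₊+3) X^(-1/4)/κ₀ ≤ C N² X^(1/16 - 1/4)`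
(`card_prim`, `kset_card`), summable: Borel-Cantelli (`ae_eventually_notMem`; see `bc_real` in EO/F5).
-/

open MeasureTheory Real Set Filter Topology

set_option autoImplicit false

namespace Pool.Agent.Helper76.EO

open Pool.Agent.Helper22.AE Pool.Agent.Helper92.EO

/-- Borel-Cantelli with real bounds from some index on -/
private theorem r8_bc {s : ℕ → Set Sp} {g : ℕ → ℝ} (hg : Summable g) (h : ∀ᶠ N in atTop, PP.real (s N) ≤ g N) :
    ∀ᵐ ω ∂PP, ∀ᶠ N in atTop, ω ∉ s N := by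
  haveI : IsProbabilityMeasure PP := PP_prob
  obtain ⟨N₀, hN₀⟩ := eventually_atTop.1 h
  have h1 : ∑' N, PP (s (N + N₀)) ≠ ⊤ := by
    have h2 : ∀ N, PP (s (N + N₀)) ≤ ENNReal.ofReal (g (N + N₀)) := fun N => by
      rw [← ofReal_measureReal (measure_ne_top _ _)]
      exact ENNReal.ofReal_le_ofReal (hN₀ _ (Nat.le_add_left _ _))
    have h3 : Summable (fun N => g (N + N₀)) := (summable_nat_add_iff N₀).2 hg
    exact ne_top_of_le_ne_top h3.tsum_ofReal_ne_top (ENNReal.tsum_le_tsum h2)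
  filter_upwards [ae_eventually_notMem h1] with ω hω
  obtain ⟨N₁, hN₁⟩ := eventually_atTop.1 hω
  refine eventually_atTop.2 ⟨N₁ + N₀, fun N hN => ?_⟩
  have := hN₁ (N - N₀) (by omega)
  rwa [Nat.sub_add_cancel (by omega)] at this

open Classical in
/-- extension by zero -/
private noncomputable def r8_ext (P : Finset (ℤ × ℤ)) (g : ∀ p ∈ P, ℤ) (p : ℤ × ℤ) : ℤ := if h : p ∈ P then g p h else 0

open Classical in
/-- the finite set of coefficient functions -/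
private noncomputable def r8_set (P : Finset (ℤ × ℤ)) (c : ℤ) (p₀ : ℤ × ℤ) : Finset (∀ p ∈ P, ℤ) :=
  P.pi (fun p => if p = p₀ then Finset.Icc (-(c + 1)) (c + 1) else Finset.Icc (-1) 1)

private lemma r8_card (P : Finset (ℤ × ℤ)) {c : ℤ} (hc : 0 ≤ c) {p₀ : ℤ × ℤ} (hp₀ : p₀ ∈ P) :
    ((r8_set P c p₀).card : ℝ) ≤ (2 * c + 3) * 3 ^ P.card := by
  classical
  unfold r8_set
  rw [Finset.card_pi, Nat.cast_prod, ← Finset.mul_prod_erase P _ hp₀]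
  have h1 : ∏ x ∈ P.erase p₀, (((if x = p₀ then Finset.Icc (-(c + 1)) (c + 1) else Finset.Icc (-1) 1 : Finset ℤ).card : ℕ) : ℝ) =
      ∏ x ∈ P.erase p₀, (3 : ℝ) := by
    apply Finset.prod_congr rfl
    intro x hx
    rw [if_neg (Finset.ne_of_mem_erase hx)]
    simp
  rw [h1, Finset.prod_const, if_pos rfl]
  have h2 : ((Finset.Icc (-(c + 1)) (c + 1)).card : ℝ) = 2 * c + 3 := by
    rw [Int.card_Icc]
    have h3 : ((c + 1 + 1 - -(c + 1)).toNat : ℤ) = 2 * c + 3 := by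
      rw [Int.toNat_of_nonneg (by omega)]
      ring
    have h4 : (((c + 1 + 1 - -(c + 1)).toNat : ℤ) : ℝ) = 2 * c + 3 := by
      rw [h3]
      push_cast
      ring
    rw [← h4]
    norm_cast
  rw [h2]
  have h5 : (0 : ℝ) ≤ 2 * c + 3 := by
    have : (0 : ℝ) ≤ c := by exact_mod_cast hc
    linarith
  apply mul_le_mul_of_nonneg_left _ h5
  exact pow_le_pow_right₀ (by norm_num) (Finset.card_le_card (Finset.erase_subset _ _))

/-- a nonzero form is small with small probability -/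
private lemma r8_one {F : Fam} (hF : F.Good) {am : ℕ → ℝ} (hW : F.Wav am) (H₀ : ℝ → ℝ) {M Y : ℝ} (hY : 1 ≤ Y) (hM : M ≤ Y) {j : ℕ} (hj : 1 ≤ j)
    (hjY : 16 * Y ^ 2 ≤ 2 ^ j) (ham : 0 < am j) {θ : ℝ} (hθ : 0 ≤ θ) (m : ℤ × ℤ → ℤ) :
    PP.real {ω | (∃ p ∈ primk M, m p ≠ 0) ∧ |∑ p ∈ primk M, (m p : ℝ) * (nk p * Hr F H₀ ω (tk p))| < θ} ≤ θ / am j := by
  haveI : IsProbabilityMeasure PP := PP_prob
  by_cases h : ∃ p ∈ primk M, m p ≠ 0
  · obtain ⟨p₁, hp₁, hm⟩ := h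
    have hmem : ∀ p ∈ primk M, p ≠ 0 ∧ nk p ≤ M ∧ Int.gcd p.1 p.2 = 1 := by
      intro p hp
      unfold primk at hp
      rw [Finset.mem_filter, mem_kset] at hp
      exact ⟨hp.1.1, hp.1.2, hp.2⟩
    have h1 := form_prob hF hW H₀ (primk M) m hp₁ hm (nk_ge_one (hmem p₁ hp₁).1) hj ham (fun p hp hne =>
      arc_far (hmem p₁ hp₁).2.2 (hmem p hp).2.2 (fun e => hne e.symm) hY ((hmem p₁ hp₁).2.1.trans hM) ((hmem p hp).2.1.trans hM) hjY) hθ
    refine le_trans (measureReal_mono ?_ (measure_ne_top _ _)) h1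
    intro ω hω
    exact hω.2
  · have e : {ω | (∃ p ∈ primk M, m p ≠ 0) ∧ |∑ p ∈ primk M, (m p : ℝ) * (nk p * Hr F H₀ ω (tk p))| < θ} = ∅ := by
      ext ω
      simp only [mem_setOf_eq, mem_empty_iff_false, iff_false]
      intro h2
      exact h h2.1
    rw [e, measureReal_empty]
    positivity

private lemma r8_union {F : Fam} (hF : F.Good) {am : ℕ → ℝ} (hW : F.Wav am) (H₀ : ℝ → ℝ) {M Y : ℝ} (hY : 1 ≤ Y) (hM : M ≤ Y) {j : ℕ} (hj : 1 ≤ j)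
    (hjY : 16 * Y ^ 2 ≤ 2 ^ j) (ham : 0 < am j) {X : ℝ} (hX : 0 < X) :
    PP.real {ω | ¬ Sep (Hr F H₀ ω) M X} ≤
      (primk M).card * ((2 * (⌈M⌉₊ : ℝ) + 3) * 3 ^ (primk M).card * (X ^ (-(1 / 2) : ℝ) / am j)) := by
  classical
  haveI : IsProbabilityMeasure PP := PP_prob
  set P := primk M with hP
  set θ : ℝ := X ^ (-(1 / 2) : ℝ) with hθ
  have hθ0 : 0 ≤ θ := (Real.rpow_pos_of_pos hX _).le
  set E : (∀ p ∈ P, ℤ) → Set Sp := fun g => {ω | (∃ p ∈ P, r8_ext P g p ≠ 0) ∧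
    |∑ p ∈ P, (r8_ext P g p : ℝ) * (nk p * Hr F H₀ ω (tk p))| < θ} with hE
  have hsub : {ω | ¬ Sep (Hr F H₀ ω) M X} ⊆ ⋃ p₀ ∈ P, ⋃ g ∈ r8_set P (⌈M⌉₊ : ℤ) p₀, E g := by
    intro ω hω
    have h1 : ¬ Sep (Hr F H₀ ω) M X := hω
    unfold Sep at h1
    push Not at h1
    obtain ⟨m, p₀, hp₀, hm1, hm2, hm3, hm4⟩ := h1
    rw [mem_iUnion₂]
    refine ⟨p₀, hp₀, ?_⟩
    rw [mem_iUnion₂]
    refine ⟨fun p _ => m p, ?_, ?_⟩
    · unfold r8_set
      rw [Finset.mem_pi]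
      intro p hp
      by_cases hpp : p = p₀
      · rw [if_pos hpp, Finset.mem_Icc, hpp]
        exact abs_le.1 hm2
      · rw [if_neg hpp, Finset.mem_Icc]
        exact abs_le.1 (hm1 p hpp)
    · have hext : ∀ p ∈ P, r8_ext P (fun p _ => m p) p = m p := by
        intro p hp
        unfold r8_ext
        rw [dif_pos hp]
      refine ⟨?_, ?_⟩
      · obtain ⟨p, hp, hmp⟩ := hm3
        exact ⟨p, hp, by rw [hext p hp]; exact hmp⟩
      · have e : ∑ p ∈ P, (r8_ext P (fun p _ => m p) p : ℝ) * (nk p * Hr F H₀ ω (tk p)) =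
            ∑ p ∈ P, (m p : ℝ) * (nk p * Hr F H₀ ω (tk p)) := by
          apply Finset.sum_congr rfl
          intro p hp
          rw [hext p hp]
        rw [e]
        exact hm4
  have h2 : ∀ p₀ ∈ P, PP.real (⋃ g ∈ r8_set P (⌈M⌉₊ : ℤ) p₀, E g) ≤ (2 * (⌈M⌉₊ : ℝ) + 3) * 3 ^ P.card * (θ / am j) := by
    intro p₀ hp₀
    refine (measureReal_biUnion_finset_le _ _).trans ?_
    have h3 : ∑ g ∈ r8_set P (⌈M⌉₊ : ℤ) p₀, PP.real (E g) ≤ ∑ _g ∈ r8_set P (⌈M⌉₊ : ℤ) p₀, θ / am j :=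
      Finset.sum_le_sum fun g _ => r8_one hF hW H₀ hY hM hj hjY ham hθ0 (r8_ext P g)
    refine h3.trans ?_
    rw [Finset.sum_const, nsmul_eq_mul]
    apply mul_le_mul_of_nonneg_right _ (by positivity)
    have h4 := r8_card P (c := (⌈M⌉₊ : ℤ)) (by positivity) hp₀
    have h5 : (((⌈M⌉₊ : ℤ) : ℝ)) = (⌈M⌉₊ : ℝ) := by norm_cast
    rw [h5] at h4
    exact h4
  refine (measureReal_mono hsub (measure_ne_top _ _)).trans ((measureReal_biUnion_finset_le _ _).trans ?_)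
  refine (Finset.sum_le_sum h2).trans ?_
  rw [Finset.sum_const, nsmul_eq_mul]

private lemma r8_pow (N : ℕ) (c : ℝ) : ((2 : ℝ) ^ N) ^ c = ((2 : ℝ) ^ c) ^ N := by
  rw [← Real.rpow_natCast, ← Real.rpow_mul (by norm_num), mul_comm, Real.rpow_mul (by norm_num), Real.rpow_natCast]

private lemma r8_le (n : ℕ) : (n : ℝ) ≤ 3 ^ n := by
  have h : n < 3 ^ n := Nat.lt_pow_self (by norm_num)
  exact_mod_cast h.le

private lemma r8_M (A N : ℕ) : (A : ℝ) * KN A N ≤ √(N : ℝ) := by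
  unfold KN c1
  have h1 : log ((2 : ℝ) ^ N) ≤ N := by
    rw [Real.log_pow]
    have h2 : log 2 ≤ 1 := by
      have := Real.log_two_lt_d9
      linarith
    have h3 : (0 : ℝ) ≤ N := Nat.cast_nonneg N
    nlinarith
  have h4 := Real.sqrt_le_sqrt h1
  have h5 : (A : ℝ) * (1 / (25 * ((A : ℝ) + 1))) ≤ 1 := by
    rw [mul_one_div, div_le_one (by positivity)]
    have h3 : (0 : ℝ) ≤ A := Nat.cast_nonneg A
    linarith
  have h6 : (0 : ℝ) ≤ A * (1 / (25 * ((A : ℝ) + 1))) := by positivity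
  calc (A : ℝ) * (1 / (25 * ((A : ℝ) + 1)) * √(log (2 ^ N))) = (A * (1 / (25 * ((A : ℝ) + 1)))) * √(log (2 ^ N)) := by ring
    _ ≤ 1 * √(log (2 ^ N)) := mul_le_mul_of_nonneg_right h5 (Real.sqrt_nonneg _)
    _ ≤ √(N : ℝ) := by rw [one_mul]; exact h4

theorem sep_ae {F : Fam} (hF : F.Good) {am : ℕ → ℝ} (hW : F.Wav am) (ham : ∀ j, 0 < am j) {κ₀ : ℝ} (hκ : 0 < κ₀)
    (hamN : ∀ᶠ N : ℕ in atTop, ∀ j : ℕ, (2 : ℝ) ^ j ≤ (N : ℝ) ^ 2 → κ₀ * 2 ^ (-(N : ℝ) / 4) ≤ am j) (H₀ : ℝ → ℝ) (A : ℕ) :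
    ∀ᵐ ω ∂PP, ∀ᶠ N : ℕ in atTop, Sep (Hr F H₀ ω) (A * KN A N) (2 ^ N) := by
  set g : ℕ → ℝ := fun N => 8 / κ₀ * ((N : ℝ) ^ 1 * ((2 : ℝ) ^ (-(1 / 8) : ℝ)) ^ N) with hg
  have hgs : Summable g := by
    have h1 : ‖(2 : ℝ) ^ (-(1 / 8) : ℝ)‖ < 1 := by
      rw [Real.norm_eq_abs, abs_of_pos (by positivity)]
      exact Real.rpow_lt_one_of_one_lt_of_neg (by norm_num) (by norm_num)
    exact (summable_pow_mul_geometric_of_norm_lt_one 1 h1).mul_left _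
  have hev : ∀ᶠ N : ℕ in atTop, PP.real {ω | ¬ Sep (Hr F H₀ ω) (A * KN A N) (2 ^ N)} ≤ g N := by
    filter_upwards [hamN, card_prim A, eventually_ge_atTop 40] with N h1 h2 h3
    have hN : (40 : ℝ) ≤ N := by exact_mod_cast h3
    have hN0 : (0 : ℝ) < N := by linarith
    obtain ⟨j, hj1, hj2⟩ : ∃ j : ℕ, 16 * N ≤ 2 ^ j ∧ 2 ^ j ≤ 32 * N := by
      refine ⟨Nat.clog 2 (16 * N), Nat.le_pow_clog (by norm_num) _, ?_⟩
      have h4 : 2 ^ (Nat.clog 2 (16 * N) - 1) < 16 * N := Nat.pow_pred_clog_lt_self (by norm_num) (by omega)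
      have h5 : 0 < Nat.clog 2 (16 * N) := Nat.clog_pos (by norm_num) (by omega)
      have h6 : 2 ^ Nat.clog 2 (16 * N) = 2 * 2 ^ (Nat.clog 2 (16 * N) - 1) := by
        rw [← pow_succ']
        congr 1
        omega
      omega
    have hj : 1 ≤ j := by
      rcases Nat.eq_zero_or_pos j with h | h
      · rw [h] at hj1
        omega
      · exact h
    have hj1' : 16 * (√(N : ℝ)) ^ 2 ≤ 2 ^ j := by
      rw [Real.sq_sqrt hN0.le]
      exact_mod_cast hj1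
    have hj2' : (2 : ℝ) ^ j ≤ (N : ℝ) ^ 2 := by
      have h4 : (2 : ℝ) ^ j ≤ 32 * N := by exact_mod_cast hj2
      nlinarith
    have hamj := h1 j hj2'
    have hY : 1 ≤ √(N : ℝ) := Real.one_le_sqrt.2 (by linarith)
    have hu := r8_union hF hW H₀ hY (r8_M A N) hj hj1' (ham j) (X := 2 ^ N) (by positivity)
    refine hu.trans ?_
    set M : ℝ := (A : ℝ) * KN A N with hM
    set n := (primk M).card with hn
    have h5 : ((2 : ℝ) ^ N) ^ (-(1 / 2) : ℝ) / am j ≤ ((2 : ℝ) ^ N) ^ (-(1 / 4) : ℝ) / κ₀ := by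
      rw [div_le_div_iff₀ (ham j) hκ]
      have h6 : (2 : ℝ) ^ (-(N : ℝ) / 4) = ((2 : ℝ) ^ N) ^ (-(1 / 4) : ℝ) := by
        rw [← Real.rpow_natCast, ← Real.rpow_mul (by norm_num)]
        congr 1
        ring
      rw [h6] at hamj
      have h7 : ((2 : ℝ) ^ N) ^ (-(1 / 2) : ℝ) = ((2 : ℝ) ^ N) ^ (-(1 / 4) : ℝ) * ((2 : ℝ) ^ N) ^ (-(1 / 4) : ℝ) := by
        rw [← Real.rpow_add (by positivity)]
        norm_num
      rw [h7, mul_assoc]
      apply mul_le_mul_of_nonneg_left _ (by positivity)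
      linarith
    have h8 : (n : ℝ) ≤ ((2 : ℝ) ^ N) ^ (1 / 16 : ℝ) := (r8_le n).trans h2
    have h9 : (2 * (⌈M⌉₊ : ℝ) + 3) ≤ 8 * N := by
      have h10 : (⌈M⌉₊ : ℝ) ≤ √(N : ℝ) + 1 := by
        have h11 : ⌈M⌉₊ ≤ ⌈√(N : ℝ)⌉₊ := Nat.ceil_mono (r8_M A N)
        have h12 : (⌈√(N : ℝ)⌉₊ : ℝ) < √(N : ℝ) + 1 := Nat.ceil_lt_add_one (Real.sqrt_nonneg _)
        have h13 : (⌈M⌉₊ : ℝ) ≤ (⌈√(N : ℝ)⌉₊ : ℝ) := by exact_mod_cast h11
        linarith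
      have h14 : √(N : ℝ) ≤ N := by
        have h15 := Real.sq_sqrt hN0.le
        nlinarith
      linarith
    have hpos1 : (0 : ℝ) ≤ ((2 : ℝ) ^ N) ^ (1 / 16 : ℝ) := by positivity
    have hpos2 : (0 : ℝ) ≤ ((2 : ℝ) ^ N) ^ (-(1 / 2) : ℝ) / am j := div_nonneg (by positivity) (ham j).le
    calc (n : ℝ) * ((2 * (⌈M⌉₊ : ℝ) + 3) * 3 ^ n * (((2 : ℝ) ^ N) ^ (-(1 / 2) : ℝ) / am j))
        ≤ ((2 : ℝ) ^ N) ^ (1 / 16 : ℝ) * ((8 * N) * ((2 : ℝ) ^ N) ^ (1 / 16 : ℝ) * (((2 : ℝ) ^ N) ^ (-(1 / 4) : ℝ) / κ₀)) := by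
          apply mul_le_mul h8 _ (by positivity) hpos1
          apply mul_le_mul _ h5 hpos2 (by positivity)
          exact mul_le_mul h9 h2 (by positivity) (by positivity)
      _ = g N := by
          rw [hg]
          simp only
          have e1 : ((2 : ℝ) ^ N) ^ (1 / 16 : ℝ) * ((2 : ℝ) ^ N) ^ (1 / 16 : ℝ) * ((2 : ℝ) ^ N) ^ (-(1 / 4) : ℝ) =
              ((2 : ℝ) ^ (-(1 / 8) : ℝ)) ^ N := by
            rw [← Real.rpow_add (by positivity), ← Real.rpow_add (by positivity), ← r8_pow]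
            congr 1
            norm_num
          rw [← e1]
          ring
  filter_upwards [r8_bc hgs hev] with ω hω
  filter_upwards [hω] with N hN
  by_contra h
  exact hN h

end Pool.Agent.Helper76.EO
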