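import Pool.Agent.Helper76.EO.S1
import Pool.Agent.Helper76.EO.S2
import Pool.Agent.Helper76.EO.S3

/-!
# EO-T: the random function as a series with independent uniform coefficients, indexed by the natural numbers
-/

open MeasureTheory Real Set Filter Topology unitInterval

set_option autoImplicit false

namespace Pool.Agent.Helper76.EO

open Pool.Agent.Helper22.AE

/-- the law of `2 y - 1` for `y` uniform in `[0, 1]` -/
theorem mu_map : Measure.map (fun y : I => 2 * (y : ℝ) - 1) (volume : Measure I) = mu := by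
  have h1 : Measure.map (fun y : I => (y : ℝ)) (volume : Measure I) = volume.restrict (Icc (0 : ℝ) 1) := by
    have := map_comap_subtype_coe (measurableSet_Icc (a := (0 : ℝ)) (b := 1)) (volume : Measure ℝ)
    exact this
  have hf : Measurable (fun y : ℝ => 2 * y - 1) := by fun_prop
  have h2 : Measure.map (fun y : I => 2 * (y : ℝ) - 1) (volume : Measure I) =
      Measure.map (fun y : ℝ => 2 * y - 1) (Measure.map (fun y : I => (y : ℝ)) (volume : Measure I)) := by
    rw [Measure.map_map hf measurable_subtype_coe]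
    rfl
  have h3 : (fun y : ℝ => 2 * y - 1) ⁻¹' Icc (-1 : ℝ) 1 = Icc 0 1 := by
    ext y
    simp only [mem_preimage, mem_Icc]
    constructor <;> rintro ⟨h4, h5⟩ <;> constructor <;> linarith
  have h4 : Measure.map (fun y : ℝ => 2 * y - 1) volume = (2 : ENNReal)⁻¹ • (volume : Measure ℝ) := by
    have h5 : (fun y : ℝ => 2 * y - 1) = (fun y : ℝ => y - 1) ∘ (fun y : ℝ => 2 * y) := rfl
    rw [h5, ← Measure.map_map (by fun_prop) (by fun_prop), Real.map_volume_mul_left (by norm_num : (2 : ℝ) ≠ 0),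
      Measure.map_smul, (measurePreserving_sub_right volume (1 : ℝ)).map_eq]
    congr 1
    rw [abs_of_pos (by norm_num : (0 : ℝ) < 2⁻¹), ENNReal.ofReal_inv_of_pos (by norm_num)]
    congr 1
    simpa using ENNReal.ofReal_ofNat 2
  rw [h2, h1, ← h3, ← Measure.restrict_map hf measurableSet_Icc, h4, Measure.restrict_smul]
  rfl

/-- the sample -/
def TT (x : ℕ → I) : Sp := fun p => 2 * (x (Nat.pairEquiv p) : ℝ) - 1

theorem TT_mp : MeasurePreserving TT (Measure.infinitePi fun _ : ℕ => (volume : Measure I)) PP := by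
  have hm : Measurable TT := by
    unfold TT
    rw [measurable_pi_iff]
    intro p
    have h1 : Measurable (fun x : ℕ → I => x (Nat.pairEquiv p)) := measurable_pi_apply _
    exact ((measurable_subtype_coe.comp h1).const_mul 2).sub_const 1
  refine ⟨hm, ?_⟩
  have h1 := Measure.infinitePi_map_piCongrLeft (μ := fun _ : ℕ × ℕ => (volume : Measure I)) Nat.pairEquiv.symm
  have hg : Measurable (fun y : I => 2 * (y : ℝ) - 1) := (measurable_subtype_coe.const_mul 2).sub_const 1
  have h2 := Measure.infinitePi_map_pi (μ := fun _ : ℕ × ℕ => (volume : Measure I))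
    (f := fun (_ : ℕ × ℕ) (y : I) => 2 * (y : ℝ) - 1) (fun _ => hg)
  have h3 : TT = (fun (z : ℕ × ℕ → I) (p : ℕ × ℕ) => 2 * (z p : ℝ) - 1) ∘
      (MeasurableEquiv.piCongrLeft (fun _ : ℕ × ℕ => I) Nat.pairEquiv.symm) := by
    funext x p
    have h4 := MeasurableEquiv.piCongrLeft_apply_apply (β := fun _ : ℕ × ℕ => I) Nat.pairEquiv.symm x (Nat.pairEquiv p)
    rw [Equiv.symm_apply_apply] at h4
    simp only [TT, Function.comp_apply]
    rw [h4]
  rw [h3, ← Measure.map_map (by
    rw [measurable_pi_iff]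
    intro p
    exact hg.comp (measurable_pi_apply p)) (MeasurableEquiv.measurable _)]
  have h5 : (Measure.infinitePi fun _ : ℕ => (volume : Measure I)).map
      (MeasurableEquiv.piCongrLeft (fun _ : ℕ × ℕ => I) Nat.pairEquiv.symm) = Measure.infinitePi fun _ : ℕ × ℕ => (volume : Measure I) := h1
  rw [h5, h2]
  unfold PP
  congr 1
  funext p
  exact mu_map

/-- the functions of the series -/
noncomputable def fs (F : Fam) (n : ℕ) (t : ℝ) : ℝ := F.a (Nat.pairEquiv.symm n) * F.f (Nat.pairEquiv.symm n) t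

theorem clip_TT (x : ℕ → I) (p : ℕ × ℕ) : clip (TT x p) = 2 * (x (Nat.pairEquiv p) : ℝ) - 1 := by
  unfold clip TT
  have h1 := (x (Nat.pairEquiv p)).2.1
  have h2 := (x (Nat.pairEquiv p)).2.2
  rw [min_eq_right (by linarith), max_eq_right (by linarith)]

theorem Psi_TT (F : Fam) (x : ℕ → I) (t : ℝ) : Psi F (TT x) t = ∑' n : ℕ, (2 * (x n : ℝ) - 1) * fs F n t := by
  unfold Psi
  rw [← Nat.pairEquiv.symm.tsum_eq]
  refine tsum_congr fun n => ?_
  rw [clip_TT, Equiv.apply_symm_apply]
  unfold fs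
  ring

theorem fs_iter {F : Fam} (hF : F.Good) (s n : ℕ) (t : ℝ) :
    iteratedDeriv s (fs F n) t = F.a (Nat.pairEquiv.symm n) * iteratedDeriv s (F.f (Nat.pairEquiv.symm n)) t := by
  have h1 : ContDiffAt ℝ s (F.f (Nat.pairEquiv.symm n)) t := ((hF.smooth _).of_le (by exact_mod_cast le_top)).contDiffAt
  unfold fs
  exact iteratedDeriv_const_mul _ h1

theorem fs_summ {F : Fam} (hF : F.Good) (s : ℕ) : ∃ M : ℕ → ℝ, Summable M ∧ ∀ n t, |iteratedDeriv s (fs F n) t| ≤ M n := by
  obtain ⟨M, hM, hb⟩ := hF.summ s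
  refine ⟨fun n => M (Nat.pairEquiv.symm n), (Equiv.summable_iff Nat.pairEquiv.symm).2 hM, fun n t => ?_⟩
  rw [fs_iter hF, abs_mul]
  exact hb _ _

/-- absolute sums from the bound for all samples -/
theorem fs_small {F : Fam} (hF : F.Good) {s : ℕ} {κ t : ℝ} (h : ∀ ω, |iteratedDeriv s (Psi F ω) t| ≤ κ) :
    ∑' n, |iteratedDeriv s (fs F n) t| ≤ κ := by
  have h1 : ∑' n, |iteratedDeriv s (fs F n) t| = ∑' p, |F.a p * iteratedDeriv s (F.f p) t| := by
    rw [← Nat.pairEquiv.symm.tsum_eq (fun p => |F.a p * iteratedDeriv s (F.f p) t|)]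
    exact tsum_congr fun n => by rw [fs_iter hF]
  have h2 := h (fun p => if 0 ≤ F.a p * iteratedDeriv s (F.f p) t then 1 else -1)
  rw [Psi_iter hF] at h2
  have h3 : ∀ p, F.a p * clip ((fun p => if 0 ≤ F.a p * iteratedDeriv s (F.f p) t then (1 : ℝ) else -1) p) * iteratedDeriv s (F.f p) t =
      |F.a p * iteratedDeriv s (F.f p) t| := by
    intro p
    have c1 : clip 1 = 1 := by simp [clip]
    have c2 : clip (-1) = -1 := by simp [clip]
    by_cases hp : 0 ≤ F.a p * iteratedDeriv s (F.f p) t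
    · simp only [if_pos hp, c1]
      rw [abs_of_nonneg hp]
      ring
    · simp only [if_neg hp, c2]
      rw [abs_of_neg (not_le.1 hp)]
      ring
  rw [tsum_congr h3] at h2
  rw [h1]
  exact (le_abs_self _).trans h2

end Pool.Agent.Helper76.EO
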