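import Pool.Agent.Helper76.EO.F6
import Pool.Agent.Helper76.EO.O
import Pool.Agent.Helper76.EO.R5
import Pool.Agent.Helper76.EO.R8
import Pool.Agent.Helper76.EO.T

/-!
# EO-FIN: assembly
-/

open MeasureTheory Real Set Filter Topology unitInterval

set_option autoImplicit false

namespace Pool.Agent.Helper76.EO

open Pool.Agent.Helper22.AE

theorem final_series (k : ℕ) {κ : ℝ} (hκ : 0 < κ) :
    ∃ f : ℕ → ℝ → ℝ, (∀ n, ContDiff ℝ (⊤ : ℕ∞) (f n) ∧ Function.Periodic (f n) (2 * π)) ∧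
      (∀ s : ℕ, ∃ M : ℕ → ℝ, Summable M ∧ ∀ n t, |iteratedDeriv s (f n) t| ≤ M n) ∧
      (∀ s ≤ k, ∀ t, ∑' n, |iteratedDeriv s (f n) t| ≤ κ) ∧
      ∀ H₀ : ℝ → ℝ, ContDiff ℝ 2 H₀ → Function.Periodic H₀ (2 * π) →
        ∀ᵐ x ∂(Measure.infinitePi fun _ : ℕ => (volume : Measure I)),
          ∀ H : ℝ → ℝ, (∀ t, H t = H₀ t + ∑' n, (2 * (x n : ℝ) - 1) * f n t) → IsSupp H →
            (∃ C : ℝ, ∀ R : ℝ, 2 ≤ R → |cnt H R - area H * R ^ 2| ≤ C * (R ^ (1 / 2 : ℝ) * (log R) ^ (1 / 4 : ℝ))) ∧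
            (∃ c : ℝ, 0 < c ∧ ∀ R₀ : ℝ, ∃ R : ℝ, R₀ ≤ R ∧
              cnt H R - area H * R ^ 2 ≤ -(c * (R ^ (1 / 2 : ℝ) * (log R) ^ (1 / 4 : ℝ)))) ∧
            ∃ c : ℝ, 0 < c ∧ ∀ R₀ : ℝ, ∃ R : ℝ, R₀ ≤ R ∧
              c * (R ^ (1 / 2 : ℝ) * (log R) ^ (1 / 4 : ℝ)) ≤ cnt H R - area H * R ^ 2 := by
  obtain ⟨F, am, κ₀, hF, hW, ham, hκ₀, hamN, hb, h⟩ := upper k hκ
  refine ⟨fs F, fun n => ⟨?_, ?_⟩, fs_summ hF, fun s hs t => fs_small hF (fun ω => hb ω s hs t), fun H₀ h0 hp => ?_⟩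
  · unfold fs
    exact contDiff_const.mul (hF.smooth _)
  · intro t
    unfold fs
    rw [hF.per]
  · have hsep : ∀ᵐ ω ∂PP, ∀ A : ℕ, ∀ᶠ N : ℕ in atTop, Sep (Hr F H₀ ω) (A * KN A N) (2 ^ N) :=
      ae_all_iff.2 fun A => sep_ae hF hW ham hκ₀ hamN H₀ A
    have hall : ∀ᵐ ω ∂PP, (IsSupp (Hr F H₀ ω) → ∃ C : ℝ, ∀ R : ℝ, 2 ≤ R →
        |cnt (Hr F H₀ ω) R - area (Hr F H₀ ω) * R ^ 2| ≤ C * (R ^ (1 / 2 : ℝ) * (log R) ^ (1 / 4 : ℝ))) ∧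
        ∀ A : ℕ, ∀ᶠ N : ℕ in atTop, Sep (Hr F H₀ ω) (A * KN A N) (2 ^ N) := by
      filter_upwards [h H₀ h0 hp, hsep] with ω h1 h2
      exact ⟨h1, h2⟩
    filter_upwards [TT_mp.quasiMeasurePreserving.ae hall] with x hx
    intro H hH hS
    have hHx : H = Hr F H₀ (TT x) := by
      funext t
      rw [hH t, Hr, Psi_TT]
    subst hHx
    exact ⟨hx.1 hS, omega_minus hS, omega_plus hS hx.2⟩

end Pool.Agent.Helper76.EO
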