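import Pool.Agent.Helper22.AE.D1

/-!
# EO-L1: the directions in the separation lemma are much closer than the points

PROOF. The first half of the proof of `separation` (Helper22/AE/D1: `h2 : K * Q * d ≤ 2 * (P * η)` and `hQlow : τ ^ (2J-2) ≤ Q`,
`P = 4^(J-1)`, `d = ‖z i - z' i‖`), the private lemma `mom_prod` there has to be copied (rename it).
-/

open Real Set Filter Topology

set_option autoImplicit false

namespace Pool.Agent.Helper76.EO

open Pool.Agent.Helper22.AE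

/-- the moment bound for products (helper52) -/
private lemma mom_prod_L1 {J : ℕ} {η : ℝ} (r r' : Fin J → ℝ) (z z' : Fin J → ℂ)
    (hz : ∀ i, ‖z i‖ = 1) (hz' : ∀ i, ‖z' i‖ = 1)
    (hM : ∀ l < 2 * J, ‖∑ i, ((r i : ℂ) * z i ^ l - (r' i : ℂ) * z' i ^ l)‖ ≤ η) (S : Finset (Fin J)) :
    ∀ a : ℕ, a + 2 * S.card < 2 * J →
      ‖∑ m, ((r m : ℂ) * z m ^ a * ∏ j ∈ S, ((z m - z j) * (z m - z' j)) -
        (r' m : ℂ) * z' m ^ a * ∏ j ∈ S, ((z' m - z j) * (z' m - z' j)))‖ ≤ 4 ^ S.card * η := by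
  induction S using Finset.induction_on with
  | empty =>
    intro a ha
    have := hM a (by simpa using ha)
    simpa using this
  | insert j S hj ih =>
    intro a ha
    rw [Finset.card_insert_of_notMem hj] at ha ⊢
    set f : ℕ → ℂ := fun a => ∑ m, ((r m : ℂ) * z m ^ a * ∏ j ∈ S, ((z m - z j) * (z m - z' j)) -
        (r' m : ℂ) * z' m ^ a * ∏ j ∈ S, ((z' m - z j) * (z' m - z' j))) with hf
    have h0 : ‖f a‖ ≤ 4 ^ S.card * η := ih a (by omega)
    have h1 : ‖f (a + 1)‖ ≤ 4 ^ S.card * η := ih (a + 1) (by omega)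
    have h2 : ‖f (a + 2)‖ ≤ 4 ^ S.card * η := ih (a + 2) (by omega)
    have e : ∑ m, ((r m : ℂ) * z m ^ a * ∏ k ∈ insert j S, ((z m - z k) * (z m - z' k)) -
        (r' m : ℂ) * z' m ^ a * ∏ k ∈ insert j S, ((z' m - z k) * (z' m - z' k))) =
        f (a + 2) - (z j + z' j) * f (a + 1) + z j * z' j * f a := by
      simp only [hf]
      rw [Finset.mul_sum, Finset.mul_sum, ← Finset.sum_sub_distrib, ← Finset.sum_add_distrib]
      refine Finset.sum_congr rfl fun m _ => ?_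
      rw [Finset.prod_insert hj, Finset.prod_insert hj, pow_succ, pow_succ, pow_succ]
      ring
    rw [e]
    have hη' : 0 ≤ 4 ^ S.card * η := (norm_nonneg _).trans h0
    have hs : ‖z j + z' j‖ ≤ 2 := by
      calc ‖z j + z' j‖ ≤ ‖z j‖ + ‖z' j‖ := norm_add_le _ _
        _ = 2 := by rw [hz, hz']; norm_num
    calc ‖f (a + 2) - (z j + z' j) * f (a + 1) + z j * z' j * f a‖
        ≤ ‖f (a + 2) - (z j + z' j) * f (a + 1)‖ + ‖z j * z' j * f a‖ := norm_add_le _ _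
      _ ≤ (‖f (a + 2)‖ + ‖(z j + z' j) * f (a + 1)‖) + ‖z j * z' j * f a‖ := by
          gcongr
          exact norm_sub_le _ _
      _ = (‖f (a + 2)‖ + ‖z j + z' j‖ * ‖f (a + 1)‖) + ‖f a‖ := by
          rw [norm_mul, norm_mul, norm_mul, hz, hz', one_mul, one_mul]
      _ ≤ (4 ^ S.card * η + 2 * (4 ^ S.card * η)) + 4 ^ S.card * η := by
          gcongr
      _ = 4 ^ (S.card + 1) * η := by rw [pow_succ]; ring

theorem separation_z {J : ℕ} (hJ : 1 ≤ J) {K η τ : ℝ} (hK : 0 < K) (hη : 0 ≤ η) (hτ : 0 < τ)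
    (r r' : Fin J → ℝ) (z z' : Fin J → ℂ) (hz : ∀ i, ‖z i‖ = 1) (hz' : ∀ i, ‖z' i‖ = 1)
    (hr : ∀ i, K ≤ r i ∧ r i ≤ 2 * K)
    (hs : ∀ i j, i ≠ j → τ ≤ ‖z i - z j‖ ∧ τ ≤ ‖z i - z' j‖ ∧ τ ≤ ‖z' i - z j‖ ∧ τ ≤ ‖z' i - z' j‖)
    (hM : ∀ l < 2 * J, ‖∑ i, ((r i : ℂ) * z i ^ l - (r' i : ℂ) * z' i ^ l)‖ ≤ η) (i : Fin J) :
    ‖z i - z' i‖ ≤ 2 * 4 ^ (J - 1) * η / (K * τ ^ (2 * J - 2)) := by
  have hη0 : 0 ≤ η := hη
  set S : Finset (Fin J) := Finset.univ.erase i with hS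
  have hcard : S.card = J - 1 := by
    rw [hS, Finset.card_erase_of_mem (Finset.mem_univ i), Finset.card_univ, Fintype.card_fin]
  set p : ℂ → ℂ := fun x => ∏ j ∈ S, ((x - z j) * (x - z' j)) with hp
  have hzero : ∀ m, m ≠ i → p (z m) = 0 ∧ p (z' m) = 0 := by
    intro m hm
    have hmS : m ∈ S := Finset.mem_erase.2 ⟨hm, Finset.mem_univ m⟩
    exact ⟨Finset.prod_eq_zero hmS (by simp), Finset.prod_eq_zero hmS (by simp)⟩
  have hmom : ∀ a, a ≤ 1 → ‖(r i : ℂ) * z i ^ a * p (z i) - (r' i : ℂ) * z' i ^ a * p (z' i)‖ ≤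
      4 ^ (J - 1) * η := by
    intro a ha
    have h := mom_prod_L1 r r' z z' hz hz' hM S a (by rw [hcard]; omega)
    rw [hcard] at h
    have e : ∑ m, ((r m : ℂ) * z m ^ a * ∏ j ∈ S, ((z m - z j) * (z m - z' j)) -
        (r' m : ℂ) * z' m ^ a * ∏ j ∈ S, ((z' m - z j) * (z' m - z' j))) =
        (r i : ℂ) * z i ^ a * p (z i) - (r' i : ℂ) * z' i ^ a * p (z' i) := by
      rw [Finset.sum_eq_single i]
      · intro m _ hm
        have := hzero m hm
        have h1 : ∏ j ∈ S, ((z m - z j) * (z m - z' j)) = 0 := this.1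
        have h2 : ∏ j ∈ S, ((z' m - z j) * (z' m - z' j)) = 0 := this.2
        rw [h1, h2]; simp
      · intro h0; exact absurd (Finset.mem_univ i) h0
    rwa [e] at h
  set P : ℝ := 4 ^ (J - 1) with hP
  have hPpos : 0 < P := by positivity
  set A : ℂ := (r i : ℂ) * p (z i) with hA
  set A' : ℂ := (r' i : ℂ) * p (z' i) with hA'
  have h0 : ‖A - A'‖ ≤ P * η := by
    have := hmom 0 (by norm_num)
    simpa using this
  have h1 : ‖z i * A - z' i * A'‖ ≤ P * η := by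
    have := hmom 1 le_rfl
    have e : (r i : ℂ) * z i ^ 1 * p (z i) - (r' i : ℂ) * z' i ^ 1 * p (z' i) =
        z i * A - z' i * A' := by rw [hA, hA']; ring
    rwa [e] at this
  set Q : ℝ := ‖p (z i)‖ with hQ
  set d : ℝ := ‖z i - z' i‖ with hd
  have hd0 : 0 ≤ d := norm_nonneg _
  have hAn : ‖A‖ = r i * Q := by
    rw [hA, norm_mul, Complex.norm_real, Real.norm_of_nonneg (hK.le.trans (hr i).1)]
  have h2 : K * Q * d ≤ 2 * (P * η) := by
    have e : (z i - z' i) * A = (z i * A - z' i * A') - z' i * (A - A') := by ring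
    have h3 : ‖(z i - z' i) * A‖ ≤ P * η + P * η := by
      rw [e]
      refine (norm_sub_le _ _).trans (add_le_add h1 ?_)
      rw [norm_mul, hz', one_mul]
      exact h0
    rw [norm_mul, hAn] at h3
    have hQ0 : 0 ≤ Q := norm_nonneg _
    have h4 : K * Q * d ≤ d * (r i * Q) := by
      have := mul_le_mul_of_nonneg_right (hr i).1 (mul_nonneg hQ0 hd0)
      nlinarith
    linarith
  have hQlow : τ ^ (2 * J - 2) ≤ Q := by
    rw [hQ, hp]
    simp only
    rw [norm_prod]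
    have e : τ ^ (2 * J - 2) = ∏ j ∈ S, (τ * τ) := by
      rw [Finset.prod_const, hcard, ← pow_two, ← pow_mul]
      congr 1
      omega
    rw [e]
    refine Finset.prod_le_prod (fun j _ => by positivity) (fun j hj => ?_)
    have hij : i ≠ j := fun h => (Finset.mem_erase.1 hj).1 h.symm
    rw [norm_mul]
    exact mul_le_mul (hs i j hij).1 (hs i j hij).2.1 hτ.le (norm_nonneg _)
  have hτp : 0 < τ ^ (2 * J - 2) := by positivity
  rw [le_div_iff₀ (by positivity)]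
  calc d * (K * τ ^ (2 * J - 2)) ≤ d * (K * Q) := by gcongr
    _ = K * Q * d := by ring
    _ ≤ 2 * (P * η) := h2
    _ = 2 * P * η := by ring

end Pool.Agent.Helper76.EO
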