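import Pool.Agent.Helper76.EO.L1
import Pool.Agent.Helper76.EO.Base
import Pool.Agent.Helper22.AE.D2

/-!
# EO-L2: collisions counted in a thin box

PROOF of `thin_card`. `nk k * zk k = cz k` (`nk_zk`), so `crs k q = Im (conj (cz k) * cz q) = nk k * nk q * Im (conj (zk k) * (zk q - zk k))`,
`|crs k q| ≤ (2x)² ζ`. `nk k ≥ x` gives `|k.1| ≥ x/√2` or `|k.2| ≥ x/√2`; say `|k.1| ≥ x/√2` (the other case is symmetric). `q.1` takes at most
`2ρ+1` values; for a fixed `q.1` the number `q.2` satisfies `|k.1 q.2 - k.2 q.1| ≤ 4x²ζ`, an interval of length `≤ 8x²ζ √2/x ≤ 12 x ζ`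
around `k.2 q.1/k.1`: at most `12 x ζ + 1` values (`Finset.card_le_mul_card_image` for the projection `q ↦ q.1`, fibres in an integer interval).
PROOF of `collisions2`. The proof of `collisions` (Helper22/AE/D2): injectivity of `k' ↦ k' 0` on the solutions is unchanged; the image is
contained in a set as in `thin_card` with `x = 2^n`, `ρ = 25 J 4^J η/τ^(2J-1)` (`separation`), `ζ = 2·4^(J-1) η/(2^n τ^(2J-2))` (`separation_z`);
`12·2^n ζ = 6·4^J η/τ^(2J-2)`.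
-/

open Real Set Filter Topology

set_option autoImplicit false

namespace Pool.Agent.Helper76.EO

open Pool.Agent.Helper22.AE

private lemma int_real_card (a : ℝ) {ρ : ℝ} (hρ : 0 ≤ ρ) :
    ((Finset.Icc ⌈a - ρ⌉ ⌊a + ρ⌋).card : ℝ) ≤ 2 * ρ + 1 := by
  rw [Int.card_Icc]
  have h1 : (⌊a + ρ⌋ : ℝ) ≤ a + ρ := Int.floor_le _
  have h2 : a - ρ ≤ ⌈a - ρ⌉ := Int.le_ceil _
  rcases le_or_gt 0 (⌊a + ρ⌋ + 1 - ⌈a - ρ⌉) with h | h
  · have h3 : (((⌊a + ρ⌋ + 1 - ⌈a - ρ⌉).toNat : ℕ) : ℝ) =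
        ((⌊a + ρ⌋ + 1 - ⌈a - ρ⌉ : ℤ) : ℝ) := by
      have := Int.toNat_of_nonneg h
      exact_mod_cast this
    rw [h3]
    push_cast
    linarith
  · rw [Int.toNat_of_nonpos h.le]
    push_cast
    linarith

private lemma cz_fst' (k q : ℤ × ℤ) : |(k.1 : ℝ) - q.1| ≤ ‖cz k - cz q‖ := by
  have h := Complex.abs_re_le_norm (cz k - cz q)
  simpa [cz] using h

private lemma cz_snd' (k q : ℤ × ℤ) : |(k.2 : ℝ) - q.2| ≤ ‖cz k - cz q‖ := by
  have h := Complex.abs_im_le_norm (cz k - cz q)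
  simpa [cz] using h

private lemma cz_lt_one {k q : ℤ × ℤ} (h : ‖cz k - cz q‖ < 1) : k = q := by
  have h1 := abs_lt.mp ((cz_fst' k q).trans_lt h)
  have h2 := abs_lt.mp ((cz_snd' k q).trans_lt h)
  have e : ∀ a b : ℤ, -1 < (a : ℝ) - b → (a : ℝ) - b < 1 → a = b := by
    intro a b ha hb
    have h3 : -1 < a - b := by exact_mod_cast ha
    have h4 : a - b < 1 := by exact_mod_cast hb
    omega
  exact Prod.ext (e _ _ h1.1 h1.2) (e _ _ h2.1 h2.2)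

private lemma thin_aux (S : Finset (ℤ × ℤ)) (a b p : ℤ) {x ρ ζ : ℝ} (hx : 0 < x) (hρ : 0 ≤ ρ)
    (hζ : 0 ≤ ζ) (f g : ℤ × ℤ → ℤ) (hfg : ∀ q q', f q = f q' → g q = g q' → q = q')
    (ha : 2 * x / 3 ≤ |(a : ℝ)|)
    (hS : ∀ q ∈ S, |(a : ℝ) * g q - b * f q| ≤ 4 * x ^ 2 * ζ ∧ |(p : ℝ) - f q| ≤ ρ) :
    (S.card : ℝ) ≤ (2 * ρ + 1) * (12 * x * ζ + 1) := by
  classical
  have ha0 : 0 < |(a : ℝ)| := by linarith [show 0 < 2 * x / 3 by positivity]
  have ha1 : (a : ℝ) ≠ 0 := abs_pos.mp ha0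
  have hN0 : 0 ≤ 12 * x * ζ + 1 := by positivity
  have hfib : ∀ m ∈ S.image f, (S.filter (fun q => f q = m)).card ≤ ⌊12 * x * ζ + 1⌋₊ := by
    intro m _
    apply Nat.le_floor
    have hinj : Set.InjOn g (S.filter (fun q => f q = m) : Set (ℤ × ℤ)) := by
      intro q hq q' hq' he
      rw [Finset.mem_coe, Finset.mem_filter] at hq hq'
      exact hfg q q' (hq.2.trans hq'.2.symm) he
    rw [← Finset.card_image_of_injOn hinj]
    have hsub : (S.filter (fun q => f q = m)).image g ⊆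
        Finset.Icc ⌈(b : ℝ) * m / a - 6 * x * ζ⌉ ⌊(b : ℝ) * m / a + 6 * x * ζ⌋ := by
      intro t ht
      obtain ⟨q, hq, rfl⟩ := Finset.mem_image.mp ht
      rw [Finset.mem_filter] at hq
      have h1 := (hS q hq.1).1
      rw [hq.2] at h1
      have h2 : |(g q : ℝ) - b * m / a| ≤ 6 * x * ζ := by
        have h3 : (a : ℝ) * g q - b * m = a * (g q - b * m / a) := by field_simp
        rw [h3, abs_mul] at h1
        have h4 : 2 * x / 3 * |(g q : ℝ) - b * m / a| ≤ 4 * x ^ 2 * ζ :=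
          (mul_le_mul_of_nonneg_right ha (abs_nonneg _)).trans h1
        have h5 : 2 * x / 3 * |(g q : ℝ) - b * m / a| ≤ 2 * x / 3 * (6 * x * ζ) := by
          refine h4.trans (le_of_eq ?_)
          ring
        exact le_of_mul_le_mul_left h5 (by positivity)
      have h6 := abs_le.mp h2
      rw [Finset.mem_Icc]
      exact ⟨Int.ceil_le.mpr (by linarith [h6.1]), Int.le_floor.mpr (by linarith [h6.2])⟩
    have hc := Finset.card_le_card hsub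
    have hc' : (((S.filter (fun q => f q = m)).image g).card : ℝ) ≤
        ((Finset.Icc ⌈(b : ℝ) * m / a - 6 * x * ζ⌉ ⌊(b : ℝ) * m / a + 6 * x * ζ⌋).card : ℝ) := by
      exact_mod_cast hc
    refine hc'.trans ((int_real_card _ (by positivity)).trans (le_of_eq (by ring)))
  have h1 := Finset.card_le_mul_card_image S _ hfib
  have h2 : (S.card : ℝ) ≤ (⌊12 * x * ζ + 1⌋₊ : ℝ) * ((S.image f).card : ℝ) := by exact_mod_cast h1
  have h3 : ((S.image f).card : ℝ) ≤ 2 * ρ + 1 := by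
    have hsub : S.image f ⊆ Finset.Icc ⌈(p : ℝ) - ρ⌉ ⌊(p : ℝ) + ρ⌋ := by
      intro t ht
      obtain ⟨q, hq, rfl⟩ := Finset.mem_image.mp ht
      have h6 := abs_le.mp (hS q hq).2
      rw [Finset.mem_Icc]
      exact ⟨Int.ceil_le.mpr (by linarith [h6.2]), Int.le_floor.mpr (by linarith [h6.1])⟩
    have hc := Finset.card_le_card hsub
    have hc' : ((S.image f).card : ℝ) ≤
        ((Finset.Icc ⌈(p : ℝ) - ρ⌉ ⌊(p : ℝ) + ρ⌋).card : ℝ) := by exact_mod_cast hc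
    exact hc'.trans (int_real_card _ hρ)
  have h4 : (⌊12 * x * ζ + 1⌋₊ : ℝ) ≤ 12 * x * ζ + 1 := Nat.floor_le hN0
  calc (S.card : ℝ) ≤ (⌊12 * x * ζ + 1⌋₊ : ℝ) * ((S.image f).card : ℝ) := h2
    _ ≤ (12 * x * ζ + 1) * (2 * ρ + 1) := mul_le_mul h4 h3 (Nat.cast_nonneg _) hN0
    _ = (2 * ρ + 1) * (12 * x * ζ + 1) := by ring

private lemma crs_le (k q : ℤ × ℤ) {x ζ : ℝ} (hx : 0 < x) (hk2 : nk k ≤ 2 * x) (hq2 : nk q ≤ 2 * x)
    (hz : ‖zk k - zk q‖ ≤ ζ) : |(k.1 : ℝ) * q.2 - k.2 * q.1| ≤ 4 * x ^ 2 * ζ := by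
  have hζ : 0 ≤ ζ := (norm_nonneg _).trans hz
  have hk0 : 0 ≤ nk k := norm_nonneg _
  have hq0 : 0 ≤ nk q := norm_nonneg _
  have e1 : (k.1 : ℝ) * q.2 - k.2 * q.1 = ((starRingEnd ℂ) (cz k) * cz q).im := by
    simp [cz, Complex.mul_im]
    ring
  have hc : (starRingEnd ℂ) (zk k) * zk k = 1 := by
    rw [mul_comm, Complex.mul_conj, Complex.normSq_eq_norm_sq, zk_norm]
    norm_num
  have e2 : (starRingEnd ℂ) (cz k) * cz q =
      ((nk k * nk q : ℝ) : ℂ) * (1 + (starRingEnd ℂ) (zk k) * (zk q - zk k)) := by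
    rw [← nk_zk k, ← nk_zk q, map_mul, Complex.conj_ofReal, mul_sub, hc]
    push_cast
    ring
  rw [e1, e2, Complex.im_ofReal_mul, Complex.add_im, Complex.one_im, zero_add, abs_mul,
    abs_of_nonneg (mul_nonneg hk0 hq0)]
  have h1 : |((starRingEnd ℂ) (zk k) * (zk q - zk k)).im| ≤ ζ := by
    refine (Complex.abs_im_le_norm _).trans ?_
    rw [norm_mul, RCLike.norm_conj, zk_norm, one_mul, norm_sub_rev]
    exact hz
  calc nk k * nk q * |((starRingEnd ℂ) (zk k) * (zk q - zk k)).im| ≤ (2 * x) * (2 * x) * ζ :=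
        mul_le_mul (mul_le_mul hk2 hq2 hq0 (by positivity)) h1 (abs_nonneg _) (by positivity)
    _ = 4 * x ^ 2 * ζ := by ring

theorem thin_card (k : ℤ × ℤ) {x ρ ζ : ℝ} (hx : 0 < x) (hρ : 0 ≤ ρ) (hζ : 0 ≤ ζ) (hk : x ≤ nk k) (hk2 : nk k ≤ 2 * x)
    (S : Finset (ℤ × ℤ)) (hS : ∀ q ∈ S, nk q ≤ 2 * x ∧ ‖cz k - cz q‖ ≤ ρ ∧ ‖zk k - zk q‖ ≤ ζ) :
    (S.card : ℝ) ≤ (2 * ρ + 1) * (12 * x * ζ + 1) := by
  have hsq : x ^ 2 ≤ (k.1 : ℝ) ^ 2 + (k.2 : ℝ) ^ 2 := by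
    have h1 : nk k ^ 2 = (k.1 : ℝ) ^ 2 + (k.2 : ℝ) ^ 2 := by
      unfold nk
      rw [← Complex.normSq_eq_norm_sq, Complex.normSq_apply]
      simp [cz]
      ring
    rw [← h1]
    exact pow_le_pow_left₀ hx.le hk 2
  rcases le_or_gt (2 * x / 3) |(k.1 : ℝ)| with h | h
  · refine thin_aux S k.1 k.2 k.1 hx hρ hζ Prod.fst Prod.snd (fun q q' h1 h2 => Prod.ext h1 h2) h
      (fun q hq => ?_)
    obtain ⟨h1, h2, h3⟩ := hS q hq
    exact ⟨crs_le k q hx hk2 h1 h3, (cz_fst' k q).trans h2⟩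
  · have h' : 2 * x / 3 ≤ |(k.2 : ℝ)| := by
      by_contra hcon
      push Not at hcon
      have h1 : (k.1 : ℝ) ^ 2 ≤ (2 * x / 3) ^ 2 := by
        rw [← sq_abs]
        exact pow_le_pow_left₀ (abs_nonneg _) h.le 2
      have h2 : (k.2 : ℝ) ^ 2 ≤ (2 * x / 3) ^ 2 := by
        rw [← sq_abs]
        exact pow_le_pow_left₀ (abs_nonneg _) hcon.le 2
      nlinarith [sq_pos_of_pos hx]
    refine thin_aux S k.2 k.1 k.2 hx hρ hζ Prod.snd Prod.fst (fun q q' h1 h2 => Prod.ext h2 h1) h'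
      (fun q hq => ?_)
    obtain ⟨h1, h2, h3⟩ := hS q hq
    refine ⟨?_, (cz_snd' k q).trans h2⟩
    have h4 := crs_le k q hx hk2 h1 h3
    rw [abs_sub_comm] at h4
    exact h4

open Classical in
theorem collisions2 {J n : ℕ} (hJ : 2 ≤ J) {η τ : ℝ} (hη : 0 < η) (hτ : 0 < τ) (hτ1 : τ ≤ 1)
    (A : Fin J → Finset (ℤ × ℤ)) (hA : ∀ i, ∀ k ∈ A i, (2 : ℝ) ^ n ≤ nk k ∧ nk k ≤ 2 ^ (n + 1))
    (hs : ∀ i j, i ≠ j → ∀ k ∈ A i, ∀ k' ∈ A j, τ ≤ ‖zk k - zk k'‖)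
    (h1 : J * 4 ^ J * (2 * η) ≤ 2 ^ n * τ ^ (2 * J - 1)) (h2 : 50 * J * 4 ^ J * η < τ ^ (2 * J - 3))
    (k : Fin J → ℤ × ℤ) (hk : k ∈ Fintype.piFinset A) :
    (((Fintype.piFinset A).filter (fun k' => ∀ l < 2 * J, ‖Mom k k' l‖ ≤ η)).card : ℝ) ≤
      (2 * (25 * J * 4 ^ J * η / τ ^ (2 * J - 1)) + 1) * (6 * 4 ^ J * η / τ ^ (2 * J - 2) + 1) := by
  obtain ⟨J', rfl⟩ : ∃ J', J = J' + 1 := ⟨J - 1, by omega⟩
  have hJ' : 1 ≤ J' := by omega
  set S := (Fintype.piFinset A).filter (fun k' => ∀ l < 2 * (J' + 1), ‖Mom k k' l‖ ≤ η) with hSdef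
  have hK : (0 : ℝ) < 2 ^ n := by positivity
  have h2K : (2 : ℝ) ^ (n + 1) = 2 * 2 ^ n := by ring
  have hkA : ∀ i, k i ∈ A i := Fintype.mem_piFinset.mp hk
  have hSA : ∀ k' ∈ S, ∀ i, k' i ∈ A i := by
    intro k' hk'
    exact Fintype.mem_piFinset.mp (Finset.mem_filter.mp hk').1
  have hSM : ∀ k' ∈ S, ∀ l < 2 * (J' + 1), ‖Mom k k' l‖ ≤ η := fun k' hk' =>
    (Finset.mem_filter.mp hk').2
  have hρ0 : 0 ≤ 25 * ((J' + 1 : ℕ) : ℝ) * 4 ^ (J' + 1) * η / τ ^ (2 * (J' + 1) - 1) := by positivity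
  -- (a)
  have ha : ∀ k' ∈ S, ‖cz (k 0) - cz (k' 0)‖ ≤
      25 * ((J' + 1 : ℕ) : ℝ) * 4 ^ (J' + 1) * η / τ ^ (2 * (J' + 1) - 1) := by
    intro k' hk'
    have h := separation (J := J' + 1) (by omega) hK hη.le hτ hτ1 (fun i => nk (k i))
      (fun i => nk (k' i)) (fun i => zk (k i)) (fun i => zk (k' i)) (fun i => zk_norm _)
      (fun i => zk_norm _) (fun i => by rw [← h2K]; exact hA i _ (hkA i))
      (fun i => by rw [← h2K]; exact hA i _ (hSA k' hk' i))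
      (fun i j hij => ⟨hs i j hij _ (hkA i) _ (hkA j), hs i j hij _ (hkA i) _ (hSA k' hk' j),
        hs i j hij _ (hSA k' hk' i) _ (hkA j), hs i j hij _ (hSA k' hk' i) _ (hSA k' hk' j)⟩)
      (fun l hl => hSM k' hk' l hl) (by
        refine le_trans ?_ h1
        have : 0 ≤ ((J' + 1 : ℕ) : ℝ) * 4 ^ (J' + 1) := by positivity
        nlinarith) 0
    rw [nk_zk, nk_zk] at h
    exact h
  -- (b)
  have hinj : Set.InjOn (fun k' : Fin (J' + 1) → ℤ × ℤ => k' 0) (S : Set (Fin (J' + 1) → ℤ × ℤ)) := by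
    intro k' hk' k'' hk'' he
    rw [Finset.mem_coe] at hk' hk''
    have he' : k' 0 = k'' 0 := he
    have hM2 : ∀ l < 2 * J', ‖∑ i : Fin J', ((nk (k' i.succ) : ℂ) * zk (k' i.succ) ^ l -
        (nk (k'' i.succ) : ℂ) * zk (k'' i.succ) ^ l)‖ ≤ 2 * η := by
      intro l hl
      have e1 : (∑ i : Fin J', ((nk (k' i.succ) : ℂ) * zk (k' i.succ) ^ l -
          (nk (k'' i.succ) : ℂ) * zk (k'' i.succ) ^ l)) = Mom k k'' l - Mom k k' l := by
        unfold Mom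
        rw [← Finset.sum_sub_distrib, Fin.sum_univ_succ, he']
        have e2 : ((nk (k 0) : ℂ) * zk (k 0) ^ l - (nk (k'' 0) : ℂ) * zk (k'' 0) ^ l -
            ((nk (k 0) : ℂ) * zk (k 0) ^ l - (nk (k'' 0) : ℂ) * zk (k'' 0) ^ l)) = 0 := by ring
        rw [e2, zero_add]
        refine Finset.sum_congr rfl fun i _ => ?_
        ring
      rw [e1]
      refine (norm_sub_le _ _).trans ?_
      have h3 := hSM k'' hk'' l (by omega)
      have h4 := hSM k' hk' l (by omega)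
      linarith
    have hjj : ((J' : ℕ) : ℝ) * 4 ^ J' ≤ ((J' + 1 : ℕ) : ℝ) * 4 ^ (J' + 1) := by
      have h5 : ((J' : ℕ) : ℝ) ≤ ((J' + 1 : ℕ) : ℝ) := by push_cast; linarith
      have h6 : (4 : ℝ) ^ J' ≤ 4 ^ (J' + 1) := pow_le_pow_right₀ (by norm_num) (by omega)
      exact mul_le_mul h5 h6 (by positivity) (by positivity)
    have hH2 : ((J' : ℕ) : ℝ) * 4 ^ J' * (2 * η) ≤ 2 ^ n * τ ^ (2 * J' - 1) := by
      calc ((J' : ℕ) : ℝ) * 4 ^ J' * (2 * η) ≤ ((J' + 1 : ℕ) : ℝ) * 4 ^ (J' + 1) * (2 * η) :=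
            mul_le_mul_of_nonneg_right hjj (by positivity)
        _ ≤ 2 ^ n * τ ^ (2 * (J' + 1) - 1) := h1
        _ ≤ 2 ^ n * τ ^ (2 * J' - 1) :=
            mul_le_mul_of_nonneg_left (pow_le_pow_of_le_one hτ.le hτ1 (by omega)) hK.le
    have hsucc : ∀ i j : Fin J', i ≠ j → i.succ ≠ j.succ := fun i j hij h =>
      hij (Fin.succ_injective _ h)
    funext i
    refine Fin.cases he' (fun i => ?_) i
    have h := separation (J := J') hJ' hK (by positivity : (0 : ℝ) ≤ 2 * η) hτ hτ1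
      (fun i => nk (k' i.succ)) (fun i => nk (k'' i.succ)) (fun i => zk (k' i.succ))
      (fun i => zk (k'' i.succ)) (fun i => zk_norm _)
      (fun i => zk_norm _) (fun i => by rw [← h2K]; exact hA _ _ (hSA k' hk' _))
      (fun i => by rw [← h2K]; exact hA _ _ (hSA k'' hk'' _))
      (fun i j hij => ⟨hs _ _ (hsucc i j hij) _ (hSA k' hk' _) _ (hSA k' hk' _),
        hs _ _ (hsucc i j hij) _ (hSA k' hk' _) _ (hSA k'' hk'' _),
        hs _ _ (hsucc i j hij) _ (hSA k'' hk'' _) _ (hSA k' hk' _),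
        hs _ _ (hsucc i j hij) _ (hSA k'' hk'' _) _ (hSA k'' hk'' _)⟩)
      hM2 hH2 i
    rw [nk_zk, nk_zk] at h
    apply cz_lt_one
    refine h.trans_lt ?_
    rw [div_lt_one (by positivity)]
    have e3 : 2 * (J' + 1) - 3 = 2 * J' - 1 := by omega
    rw [e3] at h2
    refine lt_of_le_of_lt ?_ h2
    have : 25 * ((J' : ℕ) : ℝ) * 4 ^ J' * (2 * η) = 50 * η * (((J' : ℕ) : ℝ) * 4 ^ J') := by ring
    rw [this]
    have h7 : 50 * ((J' + 1 : ℕ) : ℝ) * 4 ^ (J' + 1) * η =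
        50 * η * (((J' + 1 : ℕ) : ℝ) * 4 ^ (J' + 1)) := by ring
    rw [h7]
    exact mul_le_mul_of_nonneg_left hjj (by positivity)
  have hcard : S.card = (S.image (fun k' : Fin (J' + 1) → ℤ × ℤ => k' 0)).card :=
    (Finset.card_image_of_injOn hinj).symm
  rw [hcard]
  have hζ0 : 0 ≤ 2 * 4 ^ (J' + 1 - 1) * η / (2 ^ n * τ ^ (2 * (J' + 1) - 2)) := by positivity
  have hz : ∀ k' ∈ S, ‖zk (k 0) - zk (k' 0)‖ ≤
      2 * 4 ^ (J' + 1 - 1) * η / (2 ^ n * τ ^ (2 * (J' + 1) - 2)) := by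
    intro k' hk'
    exact separation_z (J := J' + 1) (by omega) hK hη.le hτ (fun i => nk (k i))
      (fun i => nk (k' i)) (fun i => zk (k i)) (fun i => zk (k' i)) (fun i => zk_norm _)
      (fun i => zk_norm _) (fun i => by rw [← h2K]; exact hA i _ (hkA i))
      (fun i j hij => ⟨hs i j hij _ (hkA i) _ (hkA j), hs i j hij _ (hkA i) _ (hSA k' hk' j),
        hs i j hij _ (hSA k' hk' i) _ (hkA j), hs i j hij _ (hSA k' hk' i) _ (hSA k' hk' j)⟩)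
      (fun l hl => hSM k' hk' l hl) 0
  have hthin := thin_card (k 0) hK hρ0 hζ0 (hA 0 _ (hkA 0)).1 (by rw [← h2K]; exact (hA 0 _ (hkA 0)).2)
    (S.image (fun k' : Fin (J' + 1) → ℤ × ℤ => k' 0)) (by
      intro q hq
      obtain ⟨k', hk', rfl⟩ := Finset.mem_image.mp hq
      exact ⟨by rw [← h2K]; exact (hA 0 _ (hSA k' hk' 0)).2, ha k' hk', hz k' hk'⟩)
  refine hthin.trans (le_of_eq ?_)
  congr 2
  rw [Nat.add_sub_cancel, pow_succ]
  field_simp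
  ring

end Pool.Agent.Helper76.EO
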