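import Mathlib

/-!
# EO-L3: choice of the multilinearity with a margin

PROOF. Case 1: `r ≤ 19/10 + 2d`: `J = 3`. `3d ≤ 1.56 ≤ r - 1/20`; `3 + 2d ≥ 11/10 + r`; `3 - 3d + r ≥ 11/10 + r`; `3 - 7d + 2r ≥ 11/10 + r` iff
`1.9 - 7d + r ≥ 0` (`7d ≤ 3.64`, `r ≥ 1.95`). Case 2: `r > 19/10 + 2d`: `y = (r + 1/10)/(1+d)`, `J = ⌈1 + y⌉₊`, `1 + y ≤ J < 2 + y`; `y > 1`, so
`J ≥ 3`; `y ≤ r`. (a) `(2J-3) d < (1+2y) d ≤ r - 1/20` iff `d² + (5/4) d + 1/20 ≤ r (1-d)`, true since `(1.9 + 2d)(1-d) - d² - 1.25d - .05 =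
1.85 - 1.15 d - 3d² > 0`. (b) `J(1+d) ≥ 1 + d + r + 1/10`. (c) `J(1-d) ≥ 3·0.48 ≥ 11/10`. (d) is `J(3d-1) ≤ r + 2d - 11/10`: if `d ≤ 1/3`
clear; else `J < 2 + y` and `(2+y)(3d-1) ≤ r + 2d - 11/10` iff `4d² + 3.4d - 1 ≤ 2r(1-d)`; `2r(1-d) ≥ 3.9(1-d) ≥ 1.87 ≥ 1.85` at `d ≤ .52`
(the left side minus the right side is increasing in `d`).
-/

open Real

set_option autoImplicit false

namespace Pool.Agent.Helper76.EO

theorem choose_J2 {r d : ℝ} (hr : 39 / 20 ≤ r) (hd : 0 < d) (hd1 : d ≤ 13 / 25) :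
    ∃ J : ℕ, 2 ≤ J ∧ (J : ℝ) ≤ r + 3 ∧ (2 * (J : ℝ) - 3) * d ≤ r - 1 / 20 ∧ 11 / 10 + r ≤ J * (1 + d) - d ∧
      11 / 10 + r ≤ J * (1 + d) - d - ((2 * (J : ℝ) - 1) * d - r) ∧
      11 / 10 + r ≤ J * (1 + d) - d - ((2 * (J : ℝ) - 1) * d - r) - ((2 * (J : ℝ) - 2) * d - r) := by
  rcases le_or_gt r (19 / 10 + 2 * d) with h | h
  · refine ⟨3, by norm_num, ?_, ?_, ?_, ?_, ?_⟩ <;> push_cast <;> linarith
  · have hd' : 0 < 1 + d := by linarith
    set y : ℝ := (r + 1 / 10) / (1 + d) with hy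
    have hyd : y * (1 + d) = r + 1 / 10 := div_mul_cancel₀ _ hd'.ne'
    have hy2 : 2 < y := by
      rw [hy, lt_div_iff₀ hd']
      linarith
    have hyr : y ≤ r + 1 / 10 := by
      rw [← hyd]
      exact le_mul_of_one_le_right (by linarith) (by linarith)
    set J : ℕ := ⌈1 + y⌉₊ with hJ
    have hJ1 : 1 + y ≤ J := Nat.le_ceil _
    have hJ2 : (J : ℝ) < 1 + y + 1 := Nat.ceil_lt_add_one (by linarith)
    have hJ3 : (3 : ℝ) ≤ J := by linarith
    have hJn : 3 ≤ J := by exact_mod_cast hJ3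
    -- bound (1)
    have h1 : (1 + 2 * y) * d ≤ r - 1 / 20 := by
      have e : (1 + 2 * y) * d * (1 + d) ≤ (r - 1 / 20) * (1 + d) := by
        have e1 : (1 + 2 * y) * d * (1 + d) = d * (1 + d) + 2 * d * (y * (1 + d)) := by ring
        rw [e1, hyd]
        nlinarith
      exact le_of_mul_le_mul_right e hd'
    have h2 : (1 + y) * (1 + d) = 1 + d + r + 1 / 10 := by
      rw [add_mul, hyd]; ring
    have h3 : (1 + y) * (1 + d) ≤ J * (1 + d) := mul_le_mul_of_nonneg_right hJ1 hd'.le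
    have h4 : 11 / 10 ≤ J * (1 - d) := by nlinarith
    have h5 : J * (3 * d - 1) ≤ r + 2 * d - 11 / 10 := by
      rcases le_or_gt (3 * d) 1 with h6 | h6
      · have : J * (3 * d - 1) ≤ 0 := mul_nonpos_of_nonneg_of_nonpos (Nat.cast_nonneg _) (by linarith)
        linarith
      · have e : (2 + y) * (3 * d - 1) * (1 + d) ≤ (r + 2 * d - 11 / 10) * (1 + d) := by
          have e1 : (2 + y) * (3 * d - 1) * (1 + d) =
              (2 * (1 + d) + y * (1 + d)) * (3 * d - 1) := by ring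
          rw [e1, hyd]
          nlinarith
        have e2 := le_of_mul_le_mul_right e hd'
        have e3 : J * (3 * d - 1) ≤ (2 + y) * (3 * d - 1) :=
          mul_le_mul_of_nonneg_right (by linarith) (by linarith)
        linarith
    refine ⟨J, by omega, by linarith, ?_, ?_, ?_, ?_⟩
    · have : (2 * (J : ℝ) - 3) * d ≤ (1 + 2 * y) * d :=
        mul_le_mul_of_nonneg_right (by linarith) hd.le
      linarith
    · linarith
    · have e : (J : ℝ) * (1 + d) - d - ((2 * (J : ℝ) - 1) * d - r) = J * (1 - d) + r := by ring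
      rw [e]
      linarith
    · have e : (J : ℝ) * (1 + d) - d - ((2 * (J : ℝ) - 1) * d - r) - ((2 * (J : ℝ) - 2) * d - r) =
          2 * d + 2 * r - J * (3 * d - 1) := by ring
      rw [e]
      linarith

end Pool.Agent.Helper76.EO
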