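import Pool.Agent.Helper76.EO.L5

/-!
# EO-L6: the exponents with a power saving

PROOF. As `final_bound` (Helper22/AE/X4). `r = log R₀/log x ∈ [1, 1/ε]`, `R₀ = x^r`, `d = (s+1)/(2m) ≤ 13/25`, `u = 1/(2m)`, `η = R₀^(-1+e3)`:
`M ≤ x^u`, `M^s ≤ x^d`, `Dc ≤ C x^(2-d)` (`Dc_le2`), `Dc^J exp(..) ≤ 1` for `R₀` large (so the bracket is `≤ 2 Dc^J (2 rr+1)(rw2+1)`),
`rr ≤ C R₀^(e3) x^((2J-1)d - r)`, `rw2 ≤ C R₀^(e3) x^((2J-2)d - r)`; with `a = (2J-1)d - r`, `b = (2J-2)d - r ≤ a`: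
`(2rr+1)(rw2+1) ≤ C R₀^(2 e3) (1 + x^a + x^b + x^(a+b))`, `x^b ≤ 1 + x^a`. The left side is
`≤ C x^(2Ju - 3J + 2Jc) x^d x^(Ju) x^(J(2-d)) R₀^(2 e3) (2 + 2 x^a + x^(a+b)) ≤ C R₀^(2 e3) x^(3Ju + 2Jc) x^(-(r + 11/10))` by the three
hypotheses; `3Ju ≤ 1/40` (`m ≥ 60 Jm`), `2Jc ≤ 1/40`, `R₀^(2 e3) ≤ x^(2 e3/ε) ≤ x^(1/40)`: total `≤ C x^(-(1+r)) x^(-1/40)`, `x^(-(1+r)) = (R₀ x)⁻¹`.
-/

open Real Set Filter Topology

set_option autoImplicit false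

namespace Pool.Agent.Helper76.EO

open Pool.Agent.Helper22.AE

private theorem l6_thr {ε e3 : ℝ} (hε : 0 < ε) (he3 : 0 < e3) (m Jm : ℕ) (c : ℝ) :
    ∃ R₁ : ℝ, 1 ≤ R₁ ∧ ∀ R₀ : ℝ, R₁ ≤ R₀ → (2 : ℝ) ^ (2 * m) ≤ R₀ ^ ε ∧
      (c * R₀ ^ 2) ^ Jm * exp (-(π / 4) * R₀ ^ (2 * e3)) ≤ 1 := by
  have h1 : ∀ᶠ R : ℝ in atTop, (2 : ℝ) ^ (2 * m) ≤ R ^ ε :=
    (tendsto_rpow_atTop hε).eventually_ge_atTop _
  have h2 : Tendsto (fun y : ℝ => y ^ ((2 * (Jm : ℝ)) / (2 * e3)) * exp (-(π / 4) * y)) atTop (𝓝 0) :=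
    tendsto_rpow_mul_exp_neg_mul_atTop_nhds_zero _ _ (by positivity)
  have h3 : Tendsto (fun R : ℝ => c ^ Jm * ((R ^ (2 * e3)) ^ ((2 * (Jm : ℝ)) / (2 * e3)) *
      exp (-(π / 4) * R ^ (2 * e3)))) atTop (𝓝 (c ^ Jm * 0)) :=
    (h2.comp (tendsto_rpow_atTop (by positivity : 0 < 2 * e3))).const_mul _
  rw [mul_zero] at h3
  have h4 : ∀ᶠ R : ℝ in atTop, c ^ Jm * ((R ^ (2 * e3)) ^ ((2 * (Jm : ℝ)) / (2 * e3)) *
      exp (-(π / 4) * R ^ (2 * e3))) < 1 := h3.eventually_lt_const one_pos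
  obtain ⟨R₁, hR⟩ := eventually_atTop.1 ((h1.and h4).and (eventually_ge_atTop (1 : ℝ)))
  refine ⟨max 1 R₁, le_max_left _ _, fun R hRR => ?_⟩
  obtain ⟨⟨ha, hb⟩, hc⟩ := hR R ((le_max_right _ _).trans hRR)
  refine ⟨ha, ?_⟩
  have hR0 : 0 ≤ R := by linarith
  have he : (R ^ (2 * e3)) ^ ((2 * (Jm : ℝ)) / (2 * e3)) = (R ^ 2) ^ Jm := by
    rw [← rpow_mul hR0, mul_div_cancel₀ _ (by positivity : (2 * e3) ≠ 0), ← pow_mul, ← rpow_natCast]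
    push_cast
    rfl
  rw [he] at hb
  rw [mul_pow, mul_assoc]
  exact hb.le

private theorem l6_sum {a b : ℝ} (ha : 0 ≤ a) (hb : 0 ≤ b) {A B Q X Y : ℝ} (hQ : 1 ≤ Q) (hA : 0 ≤ A) (hB : 0 ≤ B)
    (hX : 0 ≤ X) (hY : 0 ≤ Y) (hYX : Y ≤ X) (ha' : a ≤ A * (Q * X)) (hb' : b ≤ B * (Q * Y)) (D E : ℝ) (hD : 0 ≤ D)
    (hDE : D * E ≤ 1) :
    D * ((2 * a + 1) * (b + 1)) + D * D * E ≤ 2 * D * ((2 * A + 1) * (B + 1) * Q ^ 2 * (X * Y + 2 * X + 1)) := by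
  have h0 : 1 ≤ (2 * a + 1) * (b + 1) := by nlinarith [mul_nonneg ha hb]
  have h1 : D * D * E ≤ D * ((2 * a + 1) * (b + 1)) := by
    calc D * D * E = D * (D * E) := by ring
      _ ≤ D * 1 := by gcongr
      _ ≤ _ := by gcongr
  have hQ0 : 0 ≤ Q := by linarith
  have h2 : (2 * a + 1) * (b + 1) ≤ (2 * A + 1) * (B + 1) * Q ^ 2 * (X * Y + 2 * X + 1) := by
    have h3 : 2 * a + 1 ≤ (2 * A + 1) * Q * (X + 1) := by
      nlinarith [mul_nonneg hA (mul_nonneg hQ0 hX), mul_nonneg hA hQ0, mul_nonneg hQ0 hX]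
    have h4 : b + 1 ≤ (B + 1) * Q * (Y + 1) := by
      nlinarith [mul_nonneg hB (mul_nonneg hQ0 hY), mul_nonneg hB hQ0, mul_nonneg hQ0 hY]
    calc (2 * a + 1) * (b + 1) ≤ ((2 * A + 1) * Q * (X + 1)) * ((B + 1) * Q * (Y + 1)) := by gcongr
      _ = (2 * A + 1) * (B + 1) * Q ^ 2 * (X * Y + X + Y + 1) := by ring
      _ ≤ (2 * A + 1) * (B + 1) * Q ^ 2 * (X * Y + 2 * X + 1) :=
          mul_le_mul_of_nonneg_left (by linarith) (by positivity)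
  calc _ ≤ D * ((2 * a + 1) * (b + 1)) + D * ((2 * a + 1) * (b + 1)) := by linarith
    _ = 2 * D * ((2 * a + 1) * (b + 1)) := by ring
    _ ≤ _ := by gcongr

/-- the power count -/
private theorem l6_count {x d r c Q : ℝ} (hx : 1 ≤ x) {J u : ℝ} (hQ : 0 ≤ Q)
    (h1 : 11 / 10 + r ≤ J * (1 + d) - d) (h2 : 11 / 10 + r ≤ J * (1 + d) - d - ((2 * J - 1) * d - r))
    (h3 : 11 / 10 + r ≤ J * (1 + d) - d - ((2 * J - 1) * d - r) - ((2 * J - 2) * d - r)) :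
    x ^ (2 * J * u - 3 * J + 2 * J * c) * (x ^ d * x ^ (J * u) * (x ^ (J * (2 - d)) *
      (Q * (x ^ ((2 * J - 1) * d - r) * x ^ ((2 * J - 2) * d - r) + 2 * x ^ ((2 * J - 1) * d - r) + 1)))) ≤
      4 * Q * (x ^ (3 * J * u + 2 * J * c - 1 / 10) * x ^ (-(1 + r))) := by
  have hx0 : 0 < x := by linarith
  have e : x ^ (2 * J * u - 3 * J + 2 * J * c) * (x ^ d * x ^ (J * u) * (x ^ (J * (2 - d)) *
      (Q * (x ^ ((2 * J - 1) * d - r) * x ^ ((2 * J - 2) * d - r) + 2 * x ^ ((2 * J - 1) * d - r) + 1)))) =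
      Q * (x ^ (2 * J * u - 3 * J + 2 * J * c + d + J * u + J * (2 - d) + ((2 * J - 1) * d - r) +
        ((2 * J - 2) * d - r)) +
      2 * x ^ (2 * J * u - 3 * J + 2 * J * c + d + J * u + J * (2 - d) + ((2 * J - 1) * d - r)) +
      x ^ (2 * J * u - 3 * J + 2 * J * c + d + J * u + J * (2 - d))) := by
    simp only [rpow_add hx0]
    ring
  rw [e, ← rpow_add hx0]
  have k3 : x ^ (2 * J * u - 3 * J + 2 * J * c + d + J * u + J * (2 - d) + ((2 * J - 1) * d - r) +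
        ((2 * J - 2) * d - r)) ≤ x ^ (3 * J * u + 2 * J * c - 1 / 10 + -(1 + r)) := by
    apply rpow_le_rpow_of_exponent_le hx
    linarith
  have k2 : x ^ (2 * J * u - 3 * J + 2 * J * c + d + J * u + J * (2 - d) + ((2 * J - 1) * d - r)) ≤
      x ^ (3 * J * u + 2 * J * c - 1 / 10 + -(1 + r)) := by
    apply rpow_le_rpow_of_exponent_le hx
    linarith
  have k1 : x ^ (2 * J * u - 3 * J + 2 * J * c + d + J * u + J * (2 - d)) ≤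
      x ^ (3 * J * u + 2 * J * c - 1 / 10 + -(1 + r)) := by
    apply rpow_le_rpow_of_exponent_le hx
    linarith
  set Z := x ^ (3 * J * u + 2 * J * c - 1 / 10 + -(1 + r)) with hZ
  calc _ ≤ Q * (Z + 2 * Z + Z) := by gcongr
    _ = _ := by ring

theorem final_bound2 {ε c e3 : ℝ} (hε : 0 < ε) (hε1 : ε ≤ 1) (hc : 0 < c) (he3 : 0 < e3) (he3' : 80 * e3 ≤ ε)
    {m Jm : ℕ} (hJm : 3 ≤ Jm) (hcJ : 80 * (Jm : ℝ) * c ≤ 1) (hm : 60 * Jm ≤ m) :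
    ∃ C R₁ : ℝ, 0 < C ∧ 1 ≤ R₁ ∧ ∀ R₀ : ℝ, R₁ ≤ R₀ → ∀ x : ℝ, R₀ ^ ε ≤ x → x ≤ R₀ → ∀ s < m + 1,
      ∀ J : ℕ, 2 ≤ J → J ≤ Jm →
      11 / 10 + log R₀ / log x ≤ J * (1 + ((s : ℝ) + 1) / (2 * m)) - ((s : ℝ) + 1) / (2 * m) →
      11 / 10 + log R₀ / log x ≤ J * (1 + ((s : ℝ) + 1) / (2 * m)) - ((s : ℝ) + 1) / (2 * m) -
        ((2 * (J : ℝ) - 1) * (((s : ℝ) + 1) / (2 * m)) - log R₀ / log x) →
      11 / 10 + log R₀ / log x ≤ J * (1 + ((s : ℝ) + 1) / (2 * m)) - ((s : ℝ) + 1) / (2 * m) -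
        ((2 * (J : ℝ) - 1) * (((s : ℝ) + 1) / (2 * m)) - log R₀ / log x) -
        ((2 * (J : ℝ) - 2) * (((s : ℝ) + 1) / (2 * m)) - log R₀ / log x) →
      ∀ M : ℕ, M = ⌊x ^ (1 / (2 * (m : ℝ)))⌋₊ →
        (2 * (8 * (4 * (Jm : ℝ)) ^ (m + 1) * (2 * M)) * (m + 1 : ℕ) * 20 / x ^ (3 / 2 - c)) ^ (2 * J) *
          (20 * (8 * (M : ℝ) ^ s * M ^ J * (Dc x M (s + 1) ^ J *
            ((2 * rr J M (R₀ ^ (-1 + e3)) (s + 1) + 1) * (rw2 J M (R₀ ^ (-1 + e3)) (s + 1) + 1)) +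
            Dc x M (s + 1) ^ (2 * J) * exp (-(π / 4) * R₀ ^ 2 * (R₀ ^ (-1 + e3)) ^ 2)))) ≤
          C * (R₀ * x)⁻¹ * x ^ (-(1 / 40) : ℝ) := by
  have hJm0 : 1 ≤ Jm := by omega
  have hm1 : 1 ≤ m := by omega
  obtain ⟨a, ha⟩ : ∃ a : ℝ, a = 2 * (8 * (4 * (Jm : ℝ)) ^ (m + 1) * 2) * (m + 1 : ℕ) * 20 + 1 := ⟨_, rfl⟩
  obtain ⟨c₁, hc₁⟩ : ∃ c : ℝ, c = 10 * (5 * (2 : ℝ) ^ (2 * m) + 1) := ⟨_, rfl⟩
  obtain ⟨c₂, hc₂⟩ : ∃ c : ℝ, c = 25 * (Jm : ℝ) * 4 ^ Jm * 2 ^ (2 * Jm) := ⟨_, rfl⟩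
  obtain ⟨c₃, hc₃⟩ : ∃ c : ℝ, c = 6 * (4 : ℝ) ^ Jm * 2 ^ (2 * Jm) := ⟨_, rfl⟩
  have ha1 : 1 ≤ a := by
    rw [ha]
    have : (0 : ℝ) ≤ 2 * (8 * (4 * (Jm : ℝ)) ^ (m + 1) * 2) * (m + 1 : ℕ) * 20 := by positivity
    linarith
  have hc₁1 : 1 ≤ c₁ := by
    have : (0 : ℝ) ≤ (2 : ℝ) ^ (2 * m) := by positivity
    rw [hc₁]; linarith
  have hc₂0 : 0 ≤ c₂ := by rw [hc₂]; positivity
  have hc₃0 : 0 ≤ c₃ := by rw [hc₃]; positivity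
  obtain ⟨R₁, hR₁, hthr⟩ := l6_thr hε he3 m Jm c₁
  refine ⟨a ^ (2 * Jm) * (20 * 8 * 2 * c₁ ^ Jm * (4 * ((2 * c₂ + 1) * (c₃ + 1)))), R₁, by positivity, hR₁, ?_⟩
  intro R₀ hR x hx1 hx2 s hs J hJ hJJ H1 H2 H3 M hM
  obtain ⟨t1, t2⟩ := hthr R₀ hR
  have hR0 : 0 < R₀ := by linarith
  have hR1 : 1 ≤ R₀ := by linarith
  have hm0 : (0 : ℝ) < m := by exact_mod_cast hm1
  have hxb : (2 : ℝ) ^ (2 * m) ≤ x := t1.trans hx1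
  have hx2' : (2 : ℝ) ≤ x := by
    calc (2 : ℝ) = 2 ^ 1 := by norm_num
      _ ≤ 2 ^ (2 * m) := pow_le_pow_right₀ (by norm_num) (by omega)
      _ ≤ x := hxb
  have hx : 1 ≤ x := by linarith
  have hx0 : 0 < x := by linarith
  have hlogx : 0 < log x := log_pos (by linarith)
  obtain ⟨r, hr⟩ : ∃ r : ℝ, r = log R₀ / log x := ⟨_, rfl⟩
  obtain ⟨d, hd⟩ : ∃ d : ℝ, d = ((s : ℝ) + 1) / (2 * m) := ⟨_, rfl⟩
  obtain ⟨u, hu⟩ : ∃ u : ℝ, u = 1 / (2 * (m : ℝ)) := ⟨_, rfl⟩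
  rw [← hr, ← hd] at H1 H2 H3
  have hRx : x ^ r = R₀ := by
    rw [hr, rpow_def_of_pos hx0, mul_div_cancel₀ _ hlogx.ne', exp_log hR0]
  obtain ⟨M2, -, -⟩ := floor_pow hm1 hxb hM 0
  have Ms : (M : ℝ) ^ s ≤ x ^ d := by
    refine (floor_pow hm1 hxb hM s).2.1.trans (rpow_le_rpow_of_exponent_le hx ?_)
    rw [hd]; gcongr; linarith
  have Ms1 : (M : ℝ) ^ (s + 1) ≤ x ^ d := by
    refine (floor_pow hm1 hxb hM (s + 1)).2.1.trans (le_of_eq ?_)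
    rw [hd]; push_cast; rfl
  have M1 : (M : ℝ) ≤ x ^ u := by
    have := (floor_pow hm1 hxb hM 1).2.1
    rw [pow_one] at this
    rw [hu]; exact_mod_cast this
  have hM0 : (0 : ℝ) ≤ M := Nat.cast_nonneg _
  have hMp : (0 : ℝ) < M := by exact_mod_cast (by omega : 0 < M)
  -- the arc count
  have D1 : Dc x M (s + 1) ≤ c₁ * x ^ (2 - d) := by
    have := Dc_le2 hm1 hxb hM (t := s + 1) (by omega)
    rw [hc₁, hd]; push_cast at this; exact this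
  have D0 : 1 ≤ Dc x M (s + 1) := one_le_Dc hx hM0 _
  have hd0 : 0 ≤ d := by rw [hd]; positivity
  have D2 : Dc x M (s + 1) ≤ c₁ * R₀ ^ 2 := by
    refine D1.trans ?_
    have : x ^ (2 - d) ≤ x ^ (2 : ℝ) := rpow_le_rpow_of_exponent_le hx (by linarith)
    have h' : x ^ (2 : ℝ) = x ^ 2 := by exact_mod_cast rpow_natCast x 2
    rw [h'] at this
    calc c₁ * x ^ (2 - d) ≤ c₁ * x ^ 2 := by gcongr
      _ ≤ c₁ * R₀ ^ 2 := by gcongr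
  have DJ : Dc x M (s + 1) ^ J ≤ c₁ ^ Jm * x ^ ((J : ℝ) * (2 - d)) := by
    calc Dc x M (s + 1) ^ J ≤ (c₁ * x ^ (2 - d)) ^ J := by gcongr
      _ = c₁ ^ J * x ^ ((J : ℝ) * (2 - d)) := by
          rw [mul_pow, ← rpow_natCast (x ^ (2 - d)) J, ← rpow_mul hx0.le, mul_comm (2 - d)]
      _ ≤ c₁ ^ Jm * x ^ ((J : ℝ) * (2 - d)) := by
          gcongr
  have hexp : R₀ ^ 2 * (R₀ ^ (-1 + e3)) ^ 2 = R₀ ^ (2 * e3) := by
    rw [← mul_pow, ← rpow_natCast, ← rpow_one_add' hR0.le (by linarith), ← rpow_mul hR0.le]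
    congr 1; push_cast; ring
  have DE : Dc x M (s + 1) ^ J * exp (-(π / 4) * R₀ ^ 2 * (R₀ ^ (-1 + e3)) ^ 2) ≤ 1 := by
    rw [mul_assoc, hexp]
    refine le_trans ?_ t2
    gcongr
    calc Dc x M (s + 1) ^ J ≤ (c₁ * R₀ ^ 2) ^ J := by gcongr
      _ ≤ (c₁ * R₀ ^ 2) ^ Jm := by
          exact pow_le_pow_right₀ (one_le_mul_of_one_le_of_one_le hc₁1 (one_le_pow₀ hR1)) hJJ
  have hRr : R₀ ^ (-1 + e3) = R₀ ^ e3 * x ^ (-r) := by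
    have : x ^ (-r) = R₀ ^ (-1 : ℝ) := by
      rw [rpow_neg hx0.le, hRx, rpow_neg_one]
    rw [this, ← rpow_add hR0]
    congr 1; ring
  -- rr
  have hrr0 : 0 ≤ rr J M (R₀ ^ (-1 + e3)) (s + 1) := by
    unfold rr; positivity
  have hrw0 : 0 ≤ rw2 J M (R₀ ^ (-1 + e3)) (s + 1) := by
    unfold rw2; positivity
  have hpw : ∀ j : ℕ, j ≤ 2 * Jm → (2 * (M : ℝ) ^ (s + 1)) ^ j ≤ 2 ^ (2 * Jm) * x ^ ((j : ℝ) * d) := by
    intro j hj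
    calc (2 * (M : ℝ) ^ (s + 1)) ^ j ≤ (2 * x ^ d) ^ j := by gcongr
      _ = 2 ^ j * x ^ ((j : ℝ) * d) := by
          rw [mul_pow, ← rpow_natCast (x ^ d), ← rpow_mul hx0.le, mul_comm d]
      _ ≤ _ := by
          gcongr
          norm_num
  have hrr : rr J M (R₀ ^ (-1 + e3)) (s + 1) ≤ c₂ * (R₀ ^ e3 * x ^ ((2 * (J : ℝ) - 1) * d - r)) := by
    have e1' : rr J M (R₀ ^ (-1 + e3)) (s + 1) =
        25 * J * 4 ^ J * R₀ ^ (-1 + e3) * (2 * (M : ℝ) ^ (s + 1)) ^ (2 * J - 1) := by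
      unfold rr
      rw [one_div, inv_pow, div_inv_eq_mul]
    have e2'' := hpw (2 * J - 1) (by omega)
    have e3'' : (((2 * J - 1 : ℕ)) : ℝ) = 2 * (J : ℝ) - 1 := by
      rw [Nat.cast_sub (by omega)]; push_cast; rfl
    rw [e3''] at e2''
    have e4 : x ^ ((2 * (J : ℝ) - 1) * d - r) = x ^ ((2 * (J : ℝ) - 1) * d) * x ^ (-r) := by
      rw [← rpow_add hx0]; congr 1
    rw [e1', hc₂]
    calc 25 * (J : ℝ) * 4 ^ J * R₀ ^ (-1 + e3) * (2 * (M : ℝ) ^ (s + 1)) ^ (2 * J - 1)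
        ≤ 25 * (Jm : ℝ) * 4 ^ Jm * R₀ ^ (-1 + e3) * (2 ^ (2 * Jm) * x ^ ((2 * (J : ℝ) - 1) * d)) := by
          gcongr
          norm_num
      _ = _ := by rw [hRr, e4]; ring
  have hrw : rw2 J M (R₀ ^ (-1 + e3)) (s + 1) ≤ c₃ * (R₀ ^ e3 * x ^ ((2 * (J : ℝ) - 2) * d - r)) := by
    have e1' : rw2 J M (R₀ ^ (-1 + e3)) (s + 1) =
        6 * 4 ^ J * R₀ ^ (-1 + e3) * (2 * (M : ℝ) ^ (s + 1)) ^ (2 * J - 2) := by
      unfold rw2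
      rw [one_div, inv_pow, div_inv_eq_mul]
    have e2'' := hpw (2 * J - 2) (by omega)
    have e3'' : (((2 * J - 2 : ℕ)) : ℝ) = 2 * (J : ℝ) - 2 := by
      rw [Nat.cast_sub (by omega)]; push_cast; rfl
    rw [e3''] at e2''
    have e4 : x ^ ((2 * (J : ℝ) - 2) * d - r) = x ^ ((2 * (J : ℝ) - 2) * d) * x ^ (-r) := by
      rw [← rpow_add hx0]; congr 1
    rw [e1', hc₃]
    calc 6 * 4 ^ J * R₀ ^ (-1 + e3) * (2 * (M : ℝ) ^ (s + 1)) ^ (2 * J - 2)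
        ≤ 6 * 4 ^ Jm * R₀ ^ (-1 + e3) * (2 ^ (2 * Jm) * x ^ ((2 * (J : ℝ) - 2) * d)) := by
          gcongr
          norm_num
      _ = _ := by rw [hRr, e4]; ring
  -- first factor
  have F1 : (2 * (8 * (4 * (Jm : ℝ)) ^ (m + 1) * (2 * M)) * (m + 1 : ℕ) * 20 / x ^ (3 / 2 - c)) ^ (2 * J) ≤
      a ^ (2 * Jm) * x ^ (2 * (J : ℝ) * u - 3 * J + 2 * J * c) := by
    have h1 : 2 * (8 * (4 * (Jm : ℝ)) ^ (m + 1) * (2 * M)) * (m + 1 : ℕ) * 20 / x ^ (3 / 2 - c) ≤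
        a * x ^ (u - (3 / 2 - c)) := by
      rw [rpow_sub hx0 u, ← mul_div_assoc]
      refine div_le_div_of_nonneg_right ?_ (rpow_pos_of_pos hx0 _).le
      calc 2 * (8 * (4 * (Jm : ℝ)) ^ (m + 1) * (2 * M)) * (m + 1 : ℕ) * 20 =
          (2 * (8 * (4 * (Jm : ℝ)) ^ (m + 1) * 2) * (m + 1 : ℕ) * 20) * M := by ring
        _ ≤ a * x ^ u := by
            gcongr
            rw [ha]; linarith
    calc _ ≤ (a * x ^ (u - (3 / 2 - c))) ^ (2 * J) := by gcongr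
      _ = a ^ (2 * J) * x ^ (2 * (J : ℝ) * u - 3 * J + 2 * J * c) := by
          rw [mul_pow, ← rpow_natCast (x ^ (u - (3 / 2 - c))), ← rpow_mul hx0.le]
          congr 2; push_cast; ring
      _ ≤ _ := by
          gcongr
  -- second factor
  have hE0 : 0 ≤ exp (-(π / 4) * R₀ ^ 2 * (R₀ ^ (-1 + e3)) ^ 2) := (exp_pos _).le
  have hDJ0 : 0 ≤ Dc x M (s + 1) ^ J := by positivity
  have hQ : 1 ≤ R₀ ^ e3 := one_le_rpow hR1 (by positivity)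
  have hXY : x ^ ((2 * (J : ℝ) - 2) * d - r) ≤ x ^ ((2 * (J : ℝ) - 1) * d - r) := by
    apply rpow_le_rpow_of_exponent_le hx
    linarith
  have F2 : Dc x M (s + 1) ^ J * ((2 * rr J M (R₀ ^ (-1 + e3)) (s + 1) + 1) *
      (rw2 J M (R₀ ^ (-1 + e3)) (s + 1) + 1)) +
            Dc x M (s + 1) ^ (2 * J) * exp (-(π / 4) * R₀ ^ 2 * (R₀ ^ (-1 + e3)) ^ 2) ≤
      2 * (c₁ ^ Jm * x ^ ((J : ℝ) * (2 - d))) *
        ((2 * c₂ + 1) * (c₃ + 1) * (R₀ ^ e3) ^ 2 * (x ^ ((2 * (J : ℝ) - 1) * d - r) * x ^ ((2 * (J : ℝ) - 2) * d - r) +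
          2 * x ^ ((2 * (J : ℝ) - 1) * d - r) + 1)) := by
    have := l6_sum hrr0 hrw0 hQ hc₂0 hc₃0 (rpow_pos_of_pos hx0 _).le (rpow_pos_of_pos hx0 _).le hXY hrr hrw
      _ _ hDJ0 DE
    rw [two_mul J, pow_add]
    refine this.trans ?_
    gcongr
  have MJ : (M : ℝ) ^ J ≤ x ^ ((J : ℝ) * u) := by
    calc (M : ℝ) ^ J ≤ (x ^ u) ^ J := by gcongr
      _ = _ := by rw [← rpow_natCast, ← rpow_mul hx0.le, mul_comm]
  have hJr : (2 : ℝ) ≤ J := by exact_mod_cast hJ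
  have hcount := l6_count (u := u) (c := c) (Q := (R₀ ^ e3) ^ 2) hx (by positivity) H1 H2 H3
  have hbr0 : 0 ≤ Dc x M (s + 1) ^ J * ((2 * rr J M (R₀ ^ (-1 + e3)) (s + 1) + 1) *
      (rw2 J M (R₀ ^ (-1 + e3)) (s + 1) + 1)) +
            Dc x M (s + 1) ^ (2 * J) * exp (-(π / 4) * R₀ ^ 2 * (R₀ ^ (-1 + e3)) ^ 2) := by positivity
  calc _ ≤ a ^ (2 * Jm) * x ^ (2 * (J : ℝ) * u - 3 * J + 2 * J * c) *
        (20 * (8 * x ^ d * x ^ ((J : ℝ) * u) * (2 * (c₁ ^ Jm * x ^ ((J : ℝ) * (2 - d))) *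
        ((2 * c₂ + 1) * (c₃ + 1) * (R₀ ^ e3) ^ 2 * (x ^ ((2 * (J : ℝ) - 1) * d - r) * x ^ ((2 * (J : ℝ) - 2) * d - r) +
          2 * x ^ ((2 * (J : ℝ) - 1) * d - r) + 1))))) := by
        gcongr
    _ = a ^ (2 * Jm) * (20 * 8 * 2 * c₁ ^ Jm * ((2 * c₂ + 1) * (c₃ + 1))) *
        (x ^ (2 * (J : ℝ) * u - 3 * J + 2 * J * c) *
        (x ^ d * x ^ ((J : ℝ) * u) * (x ^ ((J : ℝ) * (2 - d)) *
        ((R₀ ^ e3) ^ 2 * (x ^ ((2 * (J : ℝ) - 1) * d - r) * x ^ ((2 * (J : ℝ) - 2) * d - r) +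
          2 * x ^ ((2 * (J : ℝ) - 1) * d - r) + 1))))) := by ring
    _ ≤ a ^ (2 * Jm) * (20 * 8 * 2 * c₁ ^ Jm * ((2 * c₂ + 1) * (c₃ + 1))) * (4 * (R₀ ^ e3) ^ 2 *
        (x ^ (3 * (J : ℝ) * u + 2 * J * c - 1 / 10) * x ^ (-(1 + r)))) := by gcongr
    _ ≤ a ^ (2 * Jm) * (20 * 8 * 2 * c₁ ^ Jm * (4 * ((2 * c₂ + 1) * (c₃ + 1)))) * (R₀ * x)⁻¹ *
          x ^ (-(1 / 40) : ℝ) := by
        have g1 : x ^ (-(1 + r)) = (R₀ * x)⁻¹ := by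
          rw [rpow_neg hx0.le, rpow_add hx0, rpow_one, hRx, mul_comm]
        have g2 : (R₀ ^ e3) ^ 2 ≤ x ^ (2 * e3 / ε) := by
          calc (R₀ ^ e3) ^ 2 = (R₀ ^ ε) ^ (2 * e3 / ε) := by
                rw [← rpow_mul hR0.le, mul_div_cancel₀ _ hε.ne', ← rpow_natCast, ← rpow_mul hR0.le]
                congr 1; push_cast; ring
            _ ≤ _ := by gcongr
        have g3 : (R₀ ^ e3) ^ 2 * x ^ (3 * (J : ℝ) * u + 2 * J * c - 1 / 10) ≤ x ^ (-(1 / 40) : ℝ) := by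
          calc _ ≤ x ^ (2 * e3 / ε) * x ^ (3 * (J : ℝ) * u + 2 * J * c - 1 / 10) := by gcongr
            _ = x ^ (2 * e3 / ε + (3 * (J : ℝ) * u + 2 * J * c - 1 / 10)) := by
                rw [rpow_add hx0 (2 * e3 / ε) (3 * (J : ℝ) * u + 2 * J * c - 1 / 10)]
            _ ≤ x ^ (-(1 / 40) : ℝ) := by
                apply rpow_le_rpow_of_exponent_le hx
                have hJJ' : (J : ℝ) ≤ Jm := by exact_mod_cast hJJ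
                have hmm : 60 * (Jm : ℝ) ≤ m := by exact_mod_cast hm
                have q1 : 2 * e3 / ε ≤ 1 / 40 := by
                  rw [div_le_iff₀ hε]; linarith
                have q2 : 3 * (J : ℝ) * u ≤ 1 / 40 := by
                  rw [hu, mul_one_div, div_le_iff₀ (by positivity)]
                  linarith
                have q3 : 2 * (J : ℝ) * c ≤ 1 / 40 := by
                  have : (J : ℝ) * c ≤ Jm * c := by gcongr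
                  linarith
                linarith
        rw [g1]
        have hB : 0 ≤ a ^ (2 * Jm) * (20 * 8 * 2 * c₁ ^ Jm * ((2 * c₂ + 1) * (c₃ + 1))) * 4 * (R₀ * x)⁻¹ := by
          positivity
        calc a ^ (2 * Jm) * (20 * 8 * 2 * c₁ ^ Jm * ((2 * c₂ + 1) * (c₃ + 1))) * (4 * (R₀ ^ e3) ^ 2 *
              (x ^ (3 * (J : ℝ) * u + 2 * J * c - 1 / 10) * (R₀ * x)⁻¹))
            = a ^ (2 * Jm) * (20 * 8 * 2 * c₁ ^ Jm * ((2 * c₂ + 1) * (c₃ + 1))) * 4 * (R₀ * x)⁻¹ *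
              ((R₀ ^ e3) ^ 2 * x ^ (3 * (J : ℝ) * u + 2 * J * c - 1 / 10)) := by ring
          _ ≤ a ^ (2 * Jm) * (20 * 8 * 2 * c₁ ^ Jm * ((2 * c₂ + 1) * (c₃ + 1))) * 4 * (R₀ * x)⁻¹ *
              x ^ (-(1 / 40) : ℝ) := by gcongr
          _ = _ := by ring

end Pool.Agent.Helper76.EO
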