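import Pool.Agent.Helper76.EO.L3
import Pool.Agent.Helper76.EO.L6

/-!
# EO-L7: choice of all parameters

PROOF. `Jm = ⌊1/ε⌋₊ + 3`, `m = 60 Jm`, `c = 1/(4m)` (`80 Jm c = 1/3`), `e2 = 1/80`, `e3 = ε/200`. As `exponents` (Helper22/AE/X5): for
`R₀^ε ≤ x ≤ R₀^(1/2+e2)`: `r = log R₀/log x ≤ 1/ε`, `r ≥ 1/(1/2+1/80) = 80/41 ≥ 39/20`, `d = (s+1)/(2m) ≤ 1/2 + 1/(2m) ≤ 13/25`.
`choose_J2`, `hyp_ok2`, `final_bound2`. Condition on `D`: `Dc x M (m+1) ≤ C x^(2-(m+1)/(2m)) = C x^(3/2 - 1/(2m))` (`Dc_le2`), and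
`C ≤ x^(1/(2m) - c)` for `R₀` large.
-/

open Real Set Filter Topology

set_option autoImplicit false

namespace Pool.Agent.Helper76.EO

open Pool.Agent.Helper22.AE

theorem exponents2 {ε : ℝ} (hε : 0 < ε) (hε1 : ε ≤ 1) :
    ∃ (m : ℕ) (e2 e3 c C R₁ : ℝ), 1 ≤ m ∧ 0 < e2 ∧ e2 ≤ 1 / 4 ∧ 0 < e3 ∧ 0 < c ∧ c ≤ 1 ∧ 0 < C ∧ 1 ≤ R₁ ∧
      ∀ R₀ : ℝ, R₁ ≤ R₀ → ∀ x : ℝ, R₀ ^ ε ≤ x → x ≤ R₀ ^ (1 / 2 + e2) →
      ∀ M : ℕ, M = ⌊x ^ (1 / (2 * (m : ℝ)))⌋₊ → ∀ Jm : ℕ, Jm = ⌊1 / ε⌋₊ + 3 →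
        1 ≤ M ∧ 2 * (8 * (4 * (Jm : ℝ)) ^ (m + 1) * Dc x M (m + 1)) * 20 ≤ x ^ (3 / 2 - c) ∧
        ∀ s < m + 1, ∃ J : ℕ, 2 ≤ J ∧ J ≤ Jm ∧
          J * 4 ^ J * (2 * R₀ ^ (-1 + e3)) ≤ x * (1 / (2 * (M : ℝ) ^ (s + 1))) ^ (2 * J - 1) ∧
          50 * J * 4 ^ J * R₀ ^ (-1 + e3) < (1 / (2 * (M : ℝ) ^ (s + 1))) ^ (2 * J - 3) ∧
          (2 * (8 * (4 * (Jm : ℝ)) ^ (m + 1) * (2 * M)) * (m + 1 : ℕ) * 20 / x ^ (3 / 2 - c)) ^ (2 * J) *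
            (20 * (8 * (M : ℝ) ^ s * M ^ J * (Dc x M (s + 1) ^ J *
              ((2 * rr J M (R₀ ^ (-1 + e3)) (s + 1) + 1) * (rw2 J M (R₀ ^ (-1 + e3)) (s + 1) + 1)) +
              Dc x M (s + 1) ^ (2 * J) * exp (-(π / 4) * R₀ ^ 2 * (R₀ ^ (-1 + e3)) ^ 2)))) ≤
            C * (R₀ * x)⁻¹ * x ^ (-(1 / 40) : ℝ) := by
  set e2 : ℝ := 1 / 80 with he2
  set e3 : ℝ := ε / 200 with he3
  set Jm0 : ℕ := ⌊1 / ε⌋₊ + 3 with hJm0
  set m : ℕ := 60 * Jm0 with hm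
  set c : ℝ := 1 / (4 * (m : ℝ)) with hc
  have he2p : 0 < e2 := by rw [he2]; norm_num
  have he3p : 0 < e3 := by positivity
  have hJ3 : 3 ≤ Jm0 := by omega
  have hm1 : 1 ≤ m := by omega
  have hm25 : 25 ≤ m := by omega
  have hmR : (1 : ℝ) ≤ m := by exact_mod_cast hm1
  have hm25R : (25 : ℝ) ≤ m := by exact_mod_cast hm25
  have hm0 : (m : ℝ) ≠ 0 := by positivity
  have hmJ : (m : ℝ) = 60 * Jm0 := by rw [hm]; push_cast; rfl
  have hJpos : (0 : ℝ) < Jm0 := by exact_mod_cast (by omega : 0 < Jm0)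
  have hcp : 0 < c := by positivity
  have hc1 : c ≤ 1 := by
    rw [hc, div_le_iff₀ (by positivity)]
    linarith
  have hcJ : 80 * (Jm0 : ℝ) * c ≤ 1 := by
    rw [hc, hmJ, mul_one_div, div_le_iff₀ (by positivity)]
    linarith
  obtain ⟨Ra, hRa1, hRa⟩ := hyp_ok2 hε hε1 he3p le_rfl hm25 Jm0
  obtain ⟨C, Rb, hC, hRb1, hRb⟩ := final_bound2 (e3 := e3) hε hε1 hcp he3p
    (by rw [he3]; linarith) hJ3 hcJ (le_refl m)
  set C' : ℝ := 2 * (8 * (4 * (Jm0 : ℝ)) ^ (m + 1) * (10 * (5 * 2 ^ (2 * m) + 1))) * 20 with hC'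
  have hC'0 : 0 ≤ C' := by positivity
  set X0 : ℝ := max ((2:ℝ) ^ (2 * m)) (max (C' ^ (1 / c)) 2) with hX0
  have hX02 : (2:ℝ) ≤ X0 := (le_max_right _ _).trans (le_max_right _ _)
  refine ⟨m, e2, e3, c, C, max (max Ra Rb) (max (X0 ^ (1 / ε)) 2), hm1, he2p,
    by rw [he2]; norm_num, he3p, hcp, hc1, hC,
    le_trans (by norm_num) ((le_max_right _ _).trans (le_max_right _ _)), ?_⟩
  intro R₀ hR₀ x hx1 hx2 M hM Jm hJm
  have hR2 : (2:ℝ) ≤ R₀ := ((le_max_right _ _).trans (le_max_right _ _)).trans hR₀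
  have hRaR : Ra ≤ R₀ := ((le_max_left _ _).trans (le_max_left _ _)).trans hR₀
  have hRbR : Rb ≤ R₀ := ((le_max_right _ _).trans (le_max_left _ _)).trans hR₀
  have hRc : X0 ^ (1 / ε) ≤ R₀ := ((le_max_left _ _).trans (le_max_right _ _)).trans hR₀
  have hR0 : (0:ℝ) < R₀ := by linarith
  have hxX : X0 ≤ x := by
    refine le_trans ?_ hx1
    calc X0 = (X0 ^ (1 / ε)) ^ ε := by
          rw [← Real.rpow_mul (by linarith), one_div_mul_cancel hε.ne', Real.rpow_one]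
      _ ≤ R₀ ^ ε := Real.rpow_le_rpow (by positivity) hRc hε.le
  have hx2' : (2:ℝ) ≤ x := hX02.trans hxX
  have hx0 : (0:ℝ) < x := by linarith
  have hxpow : (2:ℝ) ^ (2 * m) ≤ x := (le_max_left _ _).trans hxX
  have hlogR : 0 < Real.log R₀ := Real.log_pos (by linarith)
  have hlogx : 0 < Real.log x := Real.log_pos (by linarith)
  have hxR : x ≤ R₀ := by
    refine hx2.trans ?_
    calc R₀ ^ (1 / 2 + e2) ≤ R₀ ^ (1:ℝ) :=
          Real.rpow_le_rpow_of_exponent_le (by linarith) (by rw [he2]; norm_num)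
      _ = R₀ := Real.rpow_one _
  set r : ℝ := Real.log R₀ / Real.log x with hr
  have hr1 : r ≤ 1 / ε := by
    rw [hr, div_le_div_iff₀ hlogx hε, one_mul]
    have := Real.log_le_log (by positivity) hx1
    rw [Real.log_rpow hR0] at this
    linarith
  have hr2 : 39 / 20 ≤ r := by
    rw [hr, le_div_iff₀ hlogx]
    have := Real.log_le_log hx0 hx2
    rw [Real.log_rpow hR0, he2] at this
    linarith
  have hJeq : Jm = Jm0 := hJm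
  have hfp := floor_pow hm1 hxpow hM 1
  refine ⟨by omega, ?_, ?_⟩
  · have hD := Dc_le2 hm1 hxpow hM (t := m + 1) (by omega)
    have e1' : (2:ℝ) - ((m + 1 : ℕ) : ℝ) / (2 * m) = 3 / 2 - 2 * c := by
      rw [hc]
      push_cast
      field_simp
      ring
    rw [e1'] at hD
    have hxe : C' ≤ x ^ c := by
      have h1 : C' ^ (1 / c) ≤ x := ((le_max_left _ _).trans (le_max_right _ _)).trans hxX
      calc C' = (C' ^ (1 / c)) ^ c := by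
            rw [← Real.rpow_mul hC'0, one_div_mul_cancel hcp.ne', Real.rpow_one]
        _ ≤ x ^ c := Real.rpow_le_rpow (by positivity) h1 hcp.le
    rw [hJeq]
    calc 2 * (8 * (4 * (Jm0 : ℝ)) ^ (m + 1) * Dc x M (m + 1)) * 20
        ≤ 2 * (8 * (4 * (Jm0 : ℝ)) ^ (m + 1) *
          (10 * (5 * 2 ^ (2 * m) + 1) * x ^ ((3:ℝ) / 2 - 2 * c))) * 20 := by
          refine mul_le_mul_of_nonneg_right (mul_le_mul_of_nonneg_left
            (mul_le_mul_of_nonneg_left hD (by positivity)) (by norm_num)) (by norm_num)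
      _ = C' * x ^ ((3:ℝ) / 2 - 2 * c) := by rw [hC']; ring
      _ ≤ x ^ c * x ^ ((3:ℝ) / 2 - 2 * c) := mul_le_mul_of_nonneg_right hxe (by positivity)
      _ = x ^ (3 / 2 - c) := by
          rw [← Real.rpow_add hx0]
          congr 1
          ring
  · intro s hs
    have hd0 : 0 < ((s : ℝ) + 1) / (2 * m) := by positivity
    have hd1 : ((s : ℝ) + 1) / (2 * m) ≤ 13 / 25 := by
      rw [div_le_div_iff₀ (by positivity) (by norm_num)]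
      have : (s : ℝ) + 1 ≤ m + 1 := by exact_mod_cast hs
      linarith
    obtain ⟨J, hJ2, hJ3', hJ4, hJ5, hJ6, hJ7⟩ := choose_J2 (r := r)
      (d := ((s : ℝ) + 1) / (2 * m)) hr2 hd0 hd1
    have hJJm : J ≤ Jm0 := by
      have h1 : (J : ℝ) ≤ 1 / ε + 3 := by linarith
      have h2 : J ≤ ⌊1 / ε + (3:ℕ)⌋₊ := Nat.le_floor (by push_cast; exact h1)
      rwa [Nat.floor_add_natCast (by positivity)] at h2
    have hh := hRa R₀ hRaR x hx1 s hs J hJ2 hJJm hJ4 M hM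
    have hf := hRb R₀ hRbR x hx1 hxR s hs J hJ2 hJJm hJ5 hJ6 hJ7 M hM
    refine ⟨J, hJ2, by rw [hJeq]; exact hJJm, hh.1, hh.2, ?_⟩
    rw [hJeq]
    exact hf

end Pool.Agent.Helper76.EO
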