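import Pool.Agent.Helper92.EO.OBase

/-!
# EO-R0: definitions for the lower bound in the positive direction
-/

open MeasureTheory Real Set Filter Topology

set_option autoImplicit false

namespace Pool.Agent.Helper76.EO

open Pool.Agent.Helper22.AE Pool.Agent.Helper92.EO

/-- primitive vectors of length at most `M` -/
noncomputable def primk (M : ℝ) : Finset (ℤ × ℤ) := by
  classical exact (kset M).filter (fun k => Int.gcd k.1 k.2 = 1)

/-- the amplitudes of the main term -/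
noncomputable def amk (W H : ℝ → ℝ) (K : ℝ) (k : ℤ × ℤ) : ℝ :=
  1 / π * nk k ^ (-(3 / 2) : ℝ) * √(rho H (tk k)) * W (nk k * H (tk k) / K)

/-- separation of the frequencies of length at most `M` at the scale `X` -/
def Sep (H : ℝ → ℝ) (M X : ℝ) : Prop :=
  ∀ m : ℤ × ℤ → ℤ, ∀ p₀ ∈ primk M, (∀ p, p ≠ p₀ → |m p| ≤ 1) → |m p₀| ≤ (⌈M⌉₊ : ℤ) + 1 → (∃ p ∈ primk M, m p ≠ 0) →
    X ^ (-(1 / 2) : ℝ) ≤ |∑ p ∈ primk M, (m p : ℝ) * (nk p * H (tk p))|

/-- the constant in the choice of `K` -/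
noncomputable def c1 (A : ℕ) : ℝ := 1 / (25 * ((A : ℝ) + 1))

/-- the number `K` used at the scale `2^N` -/
noncomputable def KN (A N : ℕ) : ℝ := c1 A * √(log (2 ^ N))

end Pool.Agent.Helper76.EO
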