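import Pool.Agent.Helper22.AE.Defs

/-!
# EO-R1: a Riesz product

Abstract lemma. `P` finite, `lam : P → ℝ`, `T R = ∑_{k ∈ S} a k cos (2π R j k lam (pr k) + φ)`, `a k ≥ 0`, `j k ≥ 1`, `S₁ = ∑_{j k = 1} a k`.
PROOF. `Pr R = ∏_{p ∈ P} (1 + cos (2π R lam p + φ)) ≥ 0`. Expand: `1 + cos x = ∑_{e ∈ {-1,0,1}} cf e exp (i e x)`, `cf 0 = 1`, `cf (±1) = 1/2`, so
`Pr R = ∑_ε (∏ cf (ε p)) exp (i φ ∑ ε p) ee (R ∑ ε p lam p)`, `ε : P → {-1, 0, 1}` (`Finset.prod_sum` / `Finset.prod_univ_sum`). `3^|P|` terms with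
coefficients of norm `≤ 1`.
(a) `∫_X^{2X} Pr ≤ X + 3^|P|/(π θ) ≤ 2X`: the term `ε = 0` gives `X`; the others have frequency `|∑ ε p lam p| ≥ θ` by `hsep` (any `p₀` with
`M ≥ 1`; if `P` is empty there are no other terms) and `‖∫_X^{2X} ee (R μ) dR‖ ≤ 1/(π |μ|)`.
(b) `∫_X^{2X} a k cos (2π R j lam (pr k) + φ) Pr R dR`: `cos y = (exp (iy) + exp (-iy))/2`. The frequency of a term is `∑ m p lam p`,
`m = ε ± j e_{pr k}` on `P`; if `m ≠ 0` on `P` it is `≥ θ` in absolute value (`hsep` with `p₀ = pr k`, `|m p₀| ≤ j k + 1 ≤ M`). `m = 0` iff `j k = 1` and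
`ε = ∓ e_{pr k}`; these two terms give `a k (1/2)(1/2) X` each, in total `a k X/2`. So the integral is `≥ a k X/2 [j k = 1] - a k 3^|P|/(π θ)`.
(c) Sum: `∫ T Pr ≥ X S₁/2 - (∑ a) 3^|P|/(π θ) ≥ X S₁/2 - X S₁/(4π)`. If `T < S₁/8` on `[X, 2X]` then `∫ T Pr ≤ (S₁/8) ∫ Pr ≤ X S₁/4`: contradiction
if `S₁ > 0`; if `S₁ = 0` then all `a k = 0` by `h2` and `T = 0`.
-/

open MeasureTheory Real Set Filter Topology

set_option autoImplicit false

namespace Pool.Agent.Helper76.EO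

open Pool.Agent.Helper22.AE

/-- the integral of a partial product against a cosine -/
private noncomputable def RF {ι : Type} (lam : ι → ℝ) (φ X : ℝ) (Q : Finset ι) (ν ψ : ℝ) : ℝ :=
  ∫ R in X..(2 * X), (∏ p ∈ Q, (1 + cos (2 * π * (R * lam p) + φ))) * cos (2 * π * (R * ν) + ψ)

private theorem RF_insert {ι : Type} [DecidableEq ι] (lam : ι → ℝ) (φ X : ℝ) {Q : Finset ι} {a : ι} (ha : a ∉ Q) (ν ψ : ℝ) :
    RF lam φ X (insert a Q) ν ψ = RF lam φ X Q ν ψ + (1 / 2) * RF lam φ X Q (ν + lam a) (ψ + φ) +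
      (1 / 2) * RF lam φ X Q (ν - lam a) (ψ - φ) := by
  unfold RF
  rw [← intervalIntegral.integral_const_mul, ← intervalIntegral.integral_const_mul, ← intervalIntegral.integral_add,
    ← intervalIntegral.integral_add]
  · apply intervalIntegral.integral_congr
    intro R _
    simp only
    rw [Finset.prod_insert ha]
    have h1 : 2 * π * (R * (ν + lam a)) + (ψ + φ) = (2 * π * (R * ν) + ψ) + (2 * π * (R * lam a) + φ) := by ring
    have h2 : 2 * π * (R * (ν - lam a)) + (ψ - φ) = (2 * π * (R * ν) + ψ) - (2 * π * (R * lam a) + φ) := by ring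
    rw [h1, h2, Real.cos_add (2 * π * (R * ν) + ψ), Real.cos_sub (2 * π * (R * ν) + ψ)]
    ring
  · apply Continuous.intervalIntegrable; fun_prop
  · apply Continuous.intervalIntegrable; fun_prop
  · apply Continuous.intervalIntegrable; fun_prop
  · apply Continuous.intervalIntegrable; fun_prop

private theorem RF_empty {ι : Type} (lam : ι → ℝ) (φ X : ℝ) {θ ν : ℝ} (hθ : 0 < θ) (hν : θ ≤ |ν|) (ψ : ℝ) :
    |RF lam φ X ∅ ν ψ| ≤ 1 / (π * θ) := by
  unfold RF
  have hν0 : ν ≠ 0 := by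
    intro h; rw [h, abs_zero] at hν; linarith
  have hc : (2 * π * ν) ≠ 0 := by
    have := Real.pi_pos
    positivity
  have h1 : ∀ R : ℝ, (∏ p ∈ (∅ : Finset ι), (1 + cos (2 * π * (R * lam p) + φ))) * cos (2 * π * (R * ν) + ψ) =
      cos ((2 * π * ν) * R + ψ) := by
    intro R
    rw [Finset.prod_empty, one_mul]
    congr 1; ring
  simp_rw [h1]
  rw [intervalIntegral.integral_comp_mul_add (fun x => cos x) hc, integral_cos, smul_eq_mul, abs_mul, abs_inv]
  have h2 : |sin (2 * π * ν * (2 * X) + ψ) - sin (2 * π * ν * X + ψ)| ≤ 2 := by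
    have h3 := Real.abs_sin_le_one (2 * π * ν * (2 * X) + ψ)
    have h4 := Real.abs_sin_le_one (2 * π * ν * X + ψ)
    calc _ ≤ |sin (2 * π * ν * (2 * X) + ψ)| + |sin (2 * π * ν * X + ψ)| := abs_sub _ _
      _ ≤ 2 := by linarith
  have h5 : 2 * π * θ ≤ |2 * π * ν| := by
    rw [abs_mul, abs_of_pos (by positivity : (0 : ℝ) < 2 * π)]
    exact mul_le_mul_of_nonneg_left hν (by positivity)
  calc |2 * π * ν|⁻¹ * |sin (2 * π * ν * (2 * X) + ψ) - sin (2 * π * ν * X + ψ)| ≤ (2 * π * θ)⁻¹ * 2 := by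
        gcongr
    _ = 1 / (π * θ) := by field_simp

private theorem RF_bound {ι : Type} [DecidableEq ι] (lam : ι → ℝ) (φ X : ℝ) {θ : ℝ} (hθ : 0 < θ) (Q : Finset ι) :
    ∀ ν ψ : ℝ, (∀ ε : ι → ℤ, (∀ p, |ε p| ≤ 1) → (∀ p, p ∉ Q → ε p = 0) → θ ≤ |ν + ∑ p ∈ Q, (ε p : ℝ) * lam p|) →
      |RF lam φ X Q ν ψ| ≤ 2 ^ Q.card / (π * θ) := by
  induction Q using Finset.induction_on with
  | empty =>
    intro ν ψ h
    have h1 := h (fun _ => 0) (by simp) (by simp)
    simp only [Finset.sum_empty, add_zero] at h1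
    simpa using RF_empty lam φ X hθ h1 ψ
  | insert a Q ha ih =>
    intro ν ψ h
    have key : ∀ s : ℤ, |s| ≤ 1 → ∀ ε : ι → ℤ, (∀ p, |ε p| ≤ 1) → (∀ p, p ∉ Q → ε p = 0) →
        θ ≤ |(ν + s * lam a) + ∑ p ∈ Q, (ε p : ℝ) * lam p| := by
      intro s hs ε hε hε0
      have h1 := h (Function.update ε a s) (by
        intro p
        by_cases hp : p = a
        · subst hp; rw [Function.update_self]; exact hs
        · rw [Function.update_of_ne hp]; exact hε p) (by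
        intro p hp
        rw [Finset.mem_insert, not_or] at hp
        rw [Function.update_of_ne hp.1]
        exact hε0 p hp.2)
      rw [Finset.sum_insert ha, Function.update_self] at h1
      have h2 : ∑ p ∈ Q, ((Function.update ε a s p : ℤ) : ℝ) * lam p = ∑ p ∈ Q, (ε p : ℝ) * lam p := by
        apply Finset.sum_congr rfl
        intro p hp
        rw [Function.update_of_ne (show p ≠ a from fun h => ha (h ▸ hp))]
      rw [h2, ← add_assoc] at h1
      exact h1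
    rw [RF_insert lam φ X ha]
    have h1 := ih ν ψ (by simpa using key 0 (by norm_num))
    have h2 := ih (ν + lam a) (ψ + φ) (by simpa using key 1 (by norm_num))
    have h3 := ih (ν - lam a) (ψ - φ) (by simpa [sub_eq_add_neg] using key (-1) (by norm_num))
    rw [Finset.card_insert_of_notMem ha, pow_succ]
    rw [abs_le] at h1 h2 h3 ⊢
    have h4 : (2 : ℝ) ^ Q.card * 2 / (π * θ) = 2 * (2 ^ Q.card / (π * θ)) := by ring
    rw [h4]
    constructor <;> linarith [h1.1, h1.2, h2.1, h2.2, h3.1, h3.2]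

private theorem RF_near {ι : Type} [DecidableEq ι] (lam : ι → ℝ) (φ X : ℝ) {θ : ℝ} (hθ : 0 < θ) (Q : Finset ι) :
    (∀ ε : ι → ℤ, (∀ p, |ε p| ≤ 1) → (∀ p, p ∉ Q → ε p = 0) → (∃ p ∈ Q, ε p ≠ 0) → θ ≤ |∑ p ∈ Q, (ε p : ℝ) * lam p|) →
      |RF lam φ X Q 0 0 - X| ≤ (2 ^ Q.card - 1) / (π * θ) := by
  induction Q using Finset.induction_on with
  | empty =>
    intro h
    unfold RF
    simp
    ring_nf
  | insert a Q ha ih =>
    intro h
    have key : ∀ s : ℤ, |s| ≤ 1 → ∀ ε : ι → ℤ, (∀ p, |ε p| ≤ 1) → (∀ p, p ∉ Q → ε p = 0) → (s ≠ 0 ∨ ∃ p ∈ Q, ε p ≠ 0) →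
        θ ≤ |(0 + s * lam a) + ∑ p ∈ Q, (ε p : ℝ) * lam p| := by
      intro s hs ε hε hε0 hne
      have h2 : ∑ p ∈ Q, ((Function.update ε a s p : ℤ) : ℝ) * lam p = ∑ p ∈ Q, (ε p : ℝ) * lam p := by
        apply Finset.sum_congr rfl
        intro p hp
        rw [Function.update_of_ne (show p ≠ a from fun h => ha (h ▸ hp))]
      have h1 := h (Function.update ε a s) (by
        intro p
        by_cases hp : p = a
        · subst hp; rw [Function.update_self]; exact hs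
        · rw [Function.update_of_ne hp]; exact hε p) (by
        intro p hp
        rw [Finset.mem_insert, not_or] at hp
        rw [Function.update_of_ne hp.1]
        exact hε0 p hp.2) (by
        rcases hne with h0 | ⟨p, hp, hp0⟩
        · exact ⟨a, Finset.mem_insert_self a Q, by rw [Function.update_self]; exact h0⟩
        · exact ⟨p, Finset.mem_insert_of_mem hp, by rw [Function.update_of_ne (show p ≠ a from fun h => ha (h ▸ hp))]; exact hp0⟩)
      rw [Finset.sum_insert ha, Function.update_self, h2] at h1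
      rw [zero_add]
      exact h1
    rw [RF_insert lam φ X ha]
    have h1 := ih (fun ε hε hε0 hne => by simpa using key 0 (by norm_num) ε hε hε0 (Or.inr hne))
    have h2 := RF_bound lam φ X hθ Q (0 + lam a) (0 + φ) (fun ε hε hε0 => by simpa using key 1 (by norm_num) ε hε hε0 (Or.inl (by norm_num)))
    have h3 := RF_bound lam φ X hθ Q (0 - lam a) (0 - φ) (fun ε hε hε0 => by
      simpa [sub_eq_add_neg] using key (-1) (by norm_num) ε hε hε0 (Or.inl (by norm_num)))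
    rw [Finset.card_insert_of_notMem ha, pow_succ]
    rw [abs_le] at h1 h2 h3 ⊢
    have h4 : ((2 : ℝ) ^ Q.card * 2 - 1) / (π * θ) = (2 ^ Q.card - 1) / (π * θ) + 2 ^ Q.card / (π * θ) := by ring
    rw [h4]
    constructor <;> linarith [h1.1, h1.2, h2.1, h2.2, h3.1, h3.2]

theorem riesz {ι τ : Type} (P : Finset ι) (lam : ι → ℝ) (S : Finset τ) (a : τ → ℝ) (pr : τ → ι) (j : τ → ℕ)
    (ha : ∀ k ∈ S, 0 ≤ a k) (hj : ∀ k ∈ S, 1 ≤ j k) (hpr : ∀ k ∈ S, pr k ∈ P) {M : ℤ} (hM1 : 1 ≤ M)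
    (hM : ∀ k ∈ S, (j k : ℤ) + 1 ≤ M) {θ X φ : ℝ} (hθ : 0 < θ) (hX : 0 < X)
    (hsep : ∀ m : ι → ℤ, ∀ p₀ ∈ P, (∀ p, p ≠ p₀ → |m p| ≤ 1) → |m p₀| ≤ M → (∃ p ∈ P, m p ≠ 0) →
      θ ≤ |∑ p ∈ P, (m p : ℝ) * lam p|)
    (h1 : (3 : ℝ) ^ P.card ≤ θ * X)
    (h2 : (3 : ℝ) ^ P.card * ∑ k ∈ S, a k ≤ θ * X * ((∑ k ∈ S.filter (fun k => j k = 1), a k) / 4)) :
    ∃ R ∈ Icc X (2 * X), (∑ k ∈ S.filter (fun k => j k = 1), a k) / 8 ≤
      ∑ k ∈ S, a k * cos (2 * π * (R * (j k * lam (pr k))) + φ) := by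
  classical
  set S1 : ℝ := ∑ k ∈ S.filter (fun k => j k = 1), a k with hS1
  have hS1nn : 0 ≤ S1 := Finset.sum_nonneg fun k hk => ha k (Finset.mem_filter.1 hk).1
  have hsum_nn : 0 ≤ ∑ k ∈ S, a k := Finset.sum_nonneg ha
  have h23 : (2 : ℝ) ^ P.card ≤ 3 ^ P.card := pow_le_pow_left₀ (by norm_num) (by norm_num) _
  have hpi := Real.pi_pos
  have hpi3 := Real.pi_gt_three
  rcases hS1nn.eq_or_lt with h0 | hS1pos
  · -- trivial case
    refine ⟨X, ⟨le_rfl, by linarith⟩, ?_⟩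
    rw [← h0] at h2 ⊢
    have h3 : ∑ k ∈ S, a k ≤ 0 := by
      by_contra hcon
      push Not at hcon
      have : 0 < (3 : ℝ) ^ P.card * ∑ k ∈ S, a k := by positivity
      linarith
    have h4 : ∑ k ∈ S, a k = 0 := le_antisymm h3 hsum_nn
    have h5 := (Finset.sum_eq_zero_iff_of_nonneg ha).1 h4
    rw [Finset.sum_eq_zero (fun k hk => by rw [h5 k hk, zero_mul])]
    norm_num
  -- (a)
  have hsum_upd : ∀ (Q : Finset ι) (p₀ : ι), p₀ ∉ Q → ∀ (ε : ι → ℤ) (s : ℤ),
      ∑ p ∈ insert p₀ Q, ((Function.update ε p₀ s p : ℤ) : ℝ) * lam p = s * lam p₀ + ∑ p ∈ Q, (ε p : ℝ) * lam p := by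
    intro Q p₀ hp₀ ε s
    rw [Finset.sum_insert hp₀, Function.update_self]
    congr 1
    apply Finset.sum_congr rfl
    intro p hp
    rw [Function.update_of_ne (show p ≠ p₀ from fun h => hp₀ (h ▸ hp))]
  have hsmall : ∀ Q ⊆ P, ∀ ε : ι → ℤ, (∀ p, |ε p| ≤ 1) → (∀ p, p ∉ Q → ε p = 0) → (∃ p ∈ Q, ε p ≠ 0) →
      θ ≤ |∑ p ∈ Q, (ε p : ℝ) * lam p| := by
    intro Q hQ ε hε hε0 ⟨p, hp, hpne⟩
    have h3 := hsep ε p (hQ hp) (fun p' _ => hε p') ((hε p).trans hM1) ⟨p, hQ hp, hpne⟩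
    rw [← Finset.sum_subset hQ (fun p' _ hp' => by rw [hε0 p' hp']; simp)] at h3
    exact h3
  have hA : ∀ Q ⊆ P, |RF lam φ X Q 0 0 - X| ≤ (2 ^ Q.card - 1) / (π * θ) := fun Q hQ =>
    RF_near lam φ X hθ Q (hsmall Q hQ)
  -- (b)
  have hB : ∀ k ∈ S, (if j k = 1 then X / 2 else 0) - 2 ^ P.card / (π * θ) ≤ RF lam φ X P (j k * lam (pr k)) φ := by
    intro k hk
    set p₀ := pr k with hp₀
    have hp₀P : p₀ ∈ P := hpr k hk
    set Q := P.erase p₀ with hQ
    have hQn : p₀ ∉ Q := Finset.notMem_erase p₀ P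
    have hQP : Q ⊆ P := Finset.erase_subset _ _
    have hPQ : insert p₀ Q = P := Finset.insert_erase hp₀P
    have hcard : P.card = Q.card + 1 := by rw [← hPQ, Finset.card_insert_of_notMem hQn]
    have hbig : ∀ s : ℤ, s ≠ 0 → |s| ≤ M → ∀ ψ, |RF lam φ X Q (s * lam p₀) ψ| ≤ 2 ^ Q.card / (π * θ) := by
      intro s hs hsM ψ
      apply RF_bound lam φ X hθ Q
      intro ε hε hε0
      have h3 := hsep (Function.update ε p₀ s) p₀ hp₀P (by
        intro p hp
        rw [Function.update_of_ne hp]; exact hε p) (by rw [Function.update_self]; exact hsM)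
        ⟨p₀, hp₀P, by rw [Function.update_self]; exact hs⟩
      rw [← hPQ, hsum_upd Q p₀ hQn] at h3
      exact h3
    have hjM := hM k hk
    have hj1 := hj k hk
    rw [← hPQ, RF_insert lam φ X hQn]
    have e1 := hbig (j k) (by omega) (by rw [abs_of_nonneg (by omega)]; omega) φ
    have e2 := hbig (j k + 1) (by omega) (by rw [abs_of_nonneg (by omega)]; omega) (φ + φ)
    have r2 : ((j k : ℝ) * lam p₀ + lam p₀) = (((j k : ℤ) + 1 : ℤ) : ℝ) * lam p₀ := by push_cast; ring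
    have r3 : ((j k : ℝ) * lam p₀ - lam p₀) = (((j k : ℤ) - 1 : ℤ) : ℝ) * lam p₀ := by push_cast; ring
    rw [r2, sub_self]
    rw [Finset.card_insert_of_notMem hQn, pow_succ]
    have h4 : (2 : ℝ) ^ Q.card * 2 / (π * θ) = 2 * (2 ^ Q.card / (π * θ)) := by ring
    rw [h4]
    rw [abs_le] at e1 e2
    have e1' := e1.1
    have e2' := e2.1
    rw [Int.cast_natCast] at e1'
    by_cases hj1' : j k = 1
    · rw [if_pos hj1', r3]
      have h5 : (((j k : ℤ) - 1 : ℤ) : ℝ) * lam p₀ = 0 := by rw [hj1']; simp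
      rw [h5]
      have e3 := (abs_le.1 (hA Q hQP)).1
      have h6 : ((2 : ℝ) ^ Q.card - 1) / (π * θ) ≤ 2 ^ Q.card / (π * θ) := by
        gcongr; linarith
      linarith
    · rw [if_neg hj1', r3]
      have e3 := hbig (j k - 1) (by omega) (by rw [abs_of_nonneg (by omega)]; omega) 0
      have e3' := (abs_le.1 e3).1
      linarith
  -- (c)
  by_contra hcon
  push Not at hcon
  set Pr : ℝ → ℝ := fun R => ∏ p ∈ P, (1 + cos (2 * π * (R * lam p) + φ)) with hPr
  have hPrnn : ∀ R, 0 ≤ Pr R := by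
    intro R
    apply Finset.prod_nonneg
    intro p _
    linarith [Real.neg_one_le_cos (2 * π * (R * lam p) + φ)]
  have hPrc : Continuous Pr := by rw [hPr]; fun_prop
  have hI1 : ∫ R in X..(2 * X), Pr R = RF lam φ X P 0 0 := by
    unfold RF
    apply intervalIntegral.integral_congr
    intro R _
    simp [hPr]
  have hI2 : ∫ R in X..(2 * X), (∑ k ∈ S, a k * cos (2 * π * (R * (j k * lam (pr k))) + φ)) * Pr R =
      ∑ k ∈ S, a k * RF lam φ X P (j k * lam (pr k)) φ := by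
    have h3 : ∀ R : ℝ, (∑ k ∈ S, a k * cos (2 * π * (R * (j k * lam (pr k))) + φ)) * Pr R =
        ∑ k ∈ S, a k * (Pr R * cos (2 * π * (R * (j k * lam (pr k))) + φ)) := by
      intro R
      rw [Finset.sum_mul]
      apply Finset.sum_congr rfl
      intro k _
      ring
    simp_rw [h3]
    rw [intervalIntegral.integral_finsetSum]
    · apply Finset.sum_congr rfl
      intro k _
      rw [intervalIntegral.integral_const_mul]
      rfl
    · intro k _
      apply Continuous.intervalIntegrable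
      fun_prop
  have hle : ∫ R in X..(2 * X), (∑ k ∈ S, a k * cos (2 * π * (R * (j k * lam (pr k))) + φ)) * Pr R ≤
      ∫ R in X..(2 * X), (S1 / 8) * Pr R := by
    apply intervalIntegral.integral_mono_on (by linarith)
    · apply Continuous.intervalIntegrable; fun_prop
    · apply Continuous.intervalIntegrable; fun_prop
    · intro R hR
      exact mul_le_mul_of_nonneg_right (hcon R hR).le (hPrnn R)
  rw [hI2, intervalIntegral.integral_const_mul, hI1] at hle
  have hlow : S1 * (X / 2) - (∑ k ∈ S, a k) * (2 ^ P.card / (π * θ)) ≤ ∑ k ∈ S, a k * RF lam φ X P (j k * lam (pr k)) φ := by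
    have h3 : S1 * (X / 2) - (∑ k ∈ S, a k) * (2 ^ P.card / (π * θ)) =
        ∑ k ∈ S, a k * ((if j k = 1 then X / 2 else 0) - 2 ^ P.card / (π * θ)) := by
      simp_rw [mul_sub]
      rw [Finset.sum_sub_distrib, ← Finset.sum_mul]
      congr 1
      rw [hS1, Finset.sum_filter, Finset.sum_mul]
      apply Finset.sum_congr rfl
      intro k _
      split_ifs <;> ring
    rw [h3]
    exact Finset.sum_le_sum fun k hk => mul_le_mul_of_nonneg_left (hB k hk) (ha k hk)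
  have hA' := (abs_le.1 (hA P (Finset.Subset.refl P))).2
  have hθX : 0 < θ * X := by positivity
  have b1 : (∑ k ∈ S, a k) * (2 ^ P.card / (π * θ)) ≤ X * S1 / 12 := by
    rw [mul_div_assoc', div_le_iff₀ (by positivity)]
    have h5 : (∑ k ∈ S, a k) * 2 ^ P.card ≤ θ * X * (S1 / 4) := by
      calc (∑ k ∈ S, a k) * 2 ^ P.card ≤ (∑ k ∈ S, a k) * 3 ^ P.card := by gcongr
        _ = 3 ^ P.card * ∑ k ∈ S, a k := mul_comm _ _
        _ ≤ _ := h2
    have h6 : θ * X * (S1 / 4) ≤ X * S1 / 12 * (π * θ) := by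
      have h7 : 0 ≤ θ * X * S1 := by positivity
      nlinarith
    linarith
  have b2 : ((2 : ℝ) ^ P.card - 1) / (π * θ) ≤ X / 3 := by
    rw [div_le_iff₀ (by positivity)]
    have h5 : (2 : ℝ) ^ P.card - 1 ≤ θ * X := by linarith
    have h6 : θ * X ≤ X / 3 * (π * θ) := by nlinarith
    linarith
  have b3 : RF lam φ X P 0 0 ≤ X + X / 3 := by linarith
  have b4 : S1 / 8 * RF lam φ X P 0 0 ≤ S1 / 8 * (X + X / 3) := by gcongr
  have hXS : 0 < X * S1 := by positivity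
  nlinarith

end Pool.Agent.Helper76.EO
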