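import Pool.Agent.Helper76.EO.Base

/-!
# EO-S1: the bumps

PROOF. `bmp_smooth`, `bmp_per`: composition. `bmp_bound`: `norm_iteratedFDeriv_comp_le` (Faa di Bruno bound) with `g = smoothTransition` (each
derivative of order `≤ s` is bounded: order `0` by `1`; order `≥ 1` is continuous and vanishes off `[0, 1]`) and inner function
`2 - lamj j (1 - cos (θ - ctr))`, whose derivatives of order `≥ 1` are bounded by `lamj j ≤ 4^j ≤ (4^j)^i` (`2/π² ≤ 1`).
`bmp_one`: put `x = θ - ctr j i - 2πm`, `|x| ≤ π/2^j`; `1 - cos x < x²/2 ≤ π²/(2·4^j)` for `x ≠ 0` (`Real.one_sub_sq_div_two_lt_cos`), so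
`lamj j (1 - cos x) < 1` and the argument of `smoothTransition` is `> 1` near `θ` (continuity).
`bmp_zero`: `θ - ctr j i = x + 2π(i' - i)/2^j + 2πm`, `|x| ≤ π/2^j`, `i' - i` even, nonzero, `|i' - i| ≤ 2^j - 2`; so the distance `y` of
`θ - ctr j i` to `2πℤ` satisfies `3π/2^j ≤ y ≤ π` and `1 - cos y = 2 sin²(y/2) ≥ 2 y²/π²` (`Real.mul_le_sin`), `lamj j (1 - cos y) ≥ 36/π² > 2`.
-/

open Real Set Filter Topology

set_option autoImplicit false

namespace Pool.Agent.Helper76.EO

open Pool.Agent.Helper22.AE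

private theorem s1_abs_cos (n : ℕ) : (∀ x, |iteratedDeriv n Real.sin x| ≤ 1) ∧
    ∀ x, |iteratedDeriv n Real.cos x| ≤ 1 := by
  induction n with
  | zero =>
    refine ⟨fun x => ?_, fun x => ?_⟩
    · rw [iteratedDeriv_zero]; exact Real.abs_sin_le_one x
    · rw [iteratedDeriv_zero]; exact Real.abs_cos_le_one x
  | succ n ih =>
    refine ⟨fun x => ?_, fun x => ?_⟩
    · rw [Real.iteratedDeriv_add_one_sin]; exact ih.2 x
    · rw [Real.iteratedDeriv_add_one_cos, Pi.neg_apply, abs_neg]; exact ih.1 x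

/-- all derivatives of the smooth transition function are bounded -/
private theorem s1_bound_st (n : ℕ) : ∃ M : ℝ, 0 ≤ M ∧
    ∀ x, ‖iteratedFDeriv ℝ n Real.smoothTransition x‖ ≤ M := by
  have hc : Continuous (iteratedDeriv n Real.smoothTransition) :=
    (Real.smoothTransition.contDiff (n := n)).continuous_iteratedDeriv n le_rfl
  obtain ⟨M, hM⟩ := isCompact_Icc.exists_bound_of_continuousOn (s := Icc (0 : ℝ) 1)
    hc.continuousOn
  refine ⟨max M 1, le_max_of_le_right zero_le_one, fun x => ?_⟩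
  rw [norm_iteratedFDeriv_eq_norm_iteratedDeriv]
  by_cases hx : x ∈ Icc (0 : ℝ) 1
  · exact (hM x hx).trans (le_max_left _ _)
  · have hconst : ∃ c : ℝ, |c| ≤ 1 ∧ Real.smoothTransition =ᶠ[𝓝 x] fun _ => c := by
      rw [mem_Icc, not_and_or, not_le, not_le] at hx
      rcases hx with hx | hx
      · refine ⟨0, by simp, ?_⟩
        filter_upwards [gt_mem_nhds hx] with y hy
        exact Real.smoothTransition.zero_of_nonpos (le_of_lt hy)
      · refine ⟨1, by simp, ?_⟩
        filter_upwards [lt_mem_nhds hx] with y hy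
        exact Real.smoothTransition.one_of_one_le (le_of_lt hy)
    obtain ⟨c, hc1, hc2⟩ := hconst
    rw [hc2.iteratedDeriv_eq n, iteratedDeriv_const]
    split_ifs
    · exact hc1.trans (le_max_right _ _)
    · rw [norm_zero]; exact le_max_of_le_right zero_le_one

private theorem s1_lamj_nonneg (j : ℕ) : 0 ≤ lamj j := by
  unfold lamj; positivity

private theorem s1_lamj_le (j : ℕ) : lamj j ≤ 4 ^ j := by
  unfold lamj
  have h1 : (2 : ℝ) ≤ π ^ 2 := by nlinarith [Real.pi_gt_three]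
  rw [div_le_iff₀ (by positivity)]
  have h2 : (0 : ℝ) < 4 ^ j := by positivity
  nlinarith

private theorem s1_inner (j i : ℕ) : ContDiff ℝ (⊤ : ℕ∞)
    (fun θ : ℝ => 2 - lamj j * (1 - cos (θ - ctr j i))) := by
  fun_prop

theorem bmp_smooth (j i : ℕ) : ContDiff ℝ (⊤ : ℕ∞) (bmp j i) := by
  exact Real.smoothTransition.contDiff.comp (s1_inner j i)

theorem bmp_per (j i : ℕ) : Function.Periodic (bmp j i) (2 * π) := by
  intro θ
  unfold bmp
  have h : θ + 2 * π - ctr j i = θ - ctr j i + 2 * π := by ring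
  rw [h, Real.cos_add_two_pi]

theorem bmp_bound (s : ℕ) : ∃ C : ℝ, 0 ≤ C ∧ ∀ (j i : ℕ) (θ : ℝ), |iteratedDeriv s (bmp j i) θ| ≤ C * (4 ^ j) ^ s := by
  choose M hM0 hM using s1_bound_st
  set C : ℝ := ∑ n ∈ Finset.range (s + 1), M n with hC
  have hC0 : 0 ≤ C := Finset.sum_nonneg (fun n _ => hM0 n)
  have hMC : ∀ n ≤ s, M n ≤ C := fun n hn =>
    Finset.single_le_sum (fun m _ => hM0 m) (Finset.mem_range.2 (Nat.lt_succ_of_le hn))
  refine ⟨s.factorial * C, by positivity, fun j i θ => ?_⟩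
  have hD : ∀ k, 1 ≤ k → k ≤ s →
      ‖iteratedFDeriv ℝ k (fun θ : ℝ => 2 - lamj j * (1 - cos (θ - ctr j i))) θ‖ ≤
        ((4 : ℝ) ^ j) ^ k := by
    intro k hk _
    rw [norm_iteratedFDeriv_eq_norm_iteratedDeriv]
    have e : (fun θ : ℝ => 2 - lamj j * (1 - cos (θ - ctr j i))) =
        fun θ : ℝ => (2 - lamj j) + lamj j * cos (θ - ctr j i) := by
      funext θ; ring
    rw [e, iteratedDeriv_const_add hk, iteratedDeriv_const_mul_field,
      iteratedDeriv_comp_sub_const, norm_mul, Real.norm_eq_abs, Real.norm_eq_abs,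
      abs_of_nonneg (s1_lamj_nonneg j)]
    have h1 := (s1_abs_cos k).2 (θ - ctr j i)
    have h2 : (1 : ℝ) ≤ 4 ^ j := one_le_pow₀ (by norm_num)
    calc lamj j * |iteratedDeriv k cos (θ - ctr j i)| ≤ 4 ^ j * 1 := by
          apply mul_le_mul (s1_lamj_le j) h1 (abs_nonneg _) (by positivity)
      _ = ((4 : ℝ) ^ j) ^ 1 := by ring
      _ ≤ ((4 : ℝ) ^ j) ^ k := pow_le_pow_right₀ h2 hk
  have key := norm_iteratedFDeriv_comp_le (N := (⊤ : ℕ∞))
    (Real.smoothTransition.contDiff (n := ⊤)) (s1_inner j i) (n := s)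
    (by exact_mod_cast le_top) θ (C := C) (D := (4 : ℝ) ^ j)
    (fun n hn => (hM n _).trans (hMC n hn)) hD
  rw [norm_iteratedFDeriv_eq_norm_iteratedDeriv] at key
  exact key

theorem bmp_one {j i : ℕ} (hj : 1 ≤ j) {θ : ℝ} {m : ℤ} (h : |θ - ctr j i - 2 * π * m| ≤ π / 2 ^ j) :
    bmp j i =ᶠ[𝓝 θ] fun _ => 1 := by
  have hcos : cos (θ - ctr j i) = cos (θ - ctr j i - 2 * π * m) := by
    have e : θ - ctr j i - 2 * π * m = θ - ctr j i - m * (2 * π) := by ring
    rw [e, Real.cos_sub_int_mul_two_pi]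
  have hlt : lamj j * (1 - cos (θ - ctr j i)) < 1 := by
    rw [hcos]
    set x := θ - ctr j i - 2 * π * m with hx
    by_cases h0 : x = 0
    · rw [h0, Real.cos_zero]; norm_num
    · have h1 := Real.one_sub_sq_div_two_lt_cos h0
      have h2 : x ^ 2 ≤ (π / 2 ^ j) ^ 2 := by
        rw [← sq_abs]
        exact pow_le_pow_left₀ (abs_nonneg _) h 2
      have h3 : 1 - cos x < (π / 2 ^ j) ^ 2 / 2 := by linarith
      have h4 : (0 : ℝ) < lamj j := by unfold lamj; positivity
      have h5 : lamj j * ((π / 2 ^ j) ^ 2 / 2) = 1 := by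
        unfold lamj
        have e : (4 : ℝ) ^ j = (2 ^ j) ^ 2 := by
          rw [← pow_mul, mul_comm, pow_mul]; norm_num
        rw [e]
        have hpi : π ≠ 0 := Real.pi_ne_zero
        field_simp
      calc lamj j * (1 - cos x) < lamj j * ((π / 2 ^ j) ^ 2 / 2) :=
            mul_lt_mul_of_pos_left h3 h4
        _ = 1 := h5
  have hgt : (1 : ℝ) < 2 - lamj j * (1 - cos (θ - ctr j i)) := by linarith
  filter_upwards [((s1_inner j i).continuous.tendsto θ).eventually (lt_mem_nhds hgt)] with y hy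
  exact Real.smoothTransition.one_of_one_le (le_of_lt hy)

private theorem s1_far {j : ℕ} {y : ℝ} (h1 : 3 * π / 2 ^ j ≤ y) (h2 : y ≤ 2 * π - 3 * π / 2 ^ j) :
    2 < lamj j * (1 - cos y) := by
  have hpi := Real.pi_pos
  have hP : (0 : ℝ) < 2 ^ j := by positivity
  have hy0 : 0 ≤ y := le_trans (by positivity) h1
  have hsin : 3 / 2 ^ j ≤ sin (y / 2) := by
    rcases le_total y π with hy | hy
    · have h3 := Real.mul_le_sin (x := y / 2) (by linarith) (by linarith)
      refine le_trans ?_ h3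
      have e : 2 / π * (y / 2) = y / π := by field_simp
      rw [e, le_div_iff₀ hpi]
      calc 3 / 2 ^ j * π = 3 * π / 2 ^ j := by ring
        _ ≤ y := h1
    · have h4 : y ≤ 2 * π := by
        have : 0 ≤ 3 * π / 2 ^ j := by positivity
        linarith
      have h3 := Real.mul_le_sin (x := π - y / 2) (by linarith) (by linarith)
      rw [Real.sin_pi_sub] at h3
      refine le_trans ?_ h3
      have e : 2 / π * (π - y / 2) = (2 * π - y) / π := by field_simp
      rw [e, le_div_iff₀ hpi]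
      calc 3 / 2 ^ j * π = 3 * π / 2 ^ j := by ring
        _ ≤ 2 * π - y := by linarith
  have hPs : 3 ≤ 2 ^ j * sin (y / 2) := by
    rw [div_le_iff₀ hP] at hsin
    linarith
  have hcos : 1 - cos y = 2 * sin (y / 2) ^ 2 := by
    have e1 := Real.cos_two_mul (y / 2)
    have e2 := Real.sin_sq_add_cos_sq (y / 2)
    rw [show 2 * (y / 2) = y by ring] at e1
    linarith
  rw [hcos]
  unfold lamj
  have e : (4 : ℝ) ^ j = (2 ^ j) ^ 2 := by
    rw [← pow_mul, mul_comm, pow_mul]; norm_num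
  rw [e]
  have e2 : 2 * ((2 : ℝ) ^ j) ^ 2 / π ^ 2 * (2 * sin (y / 2) ^ 2) =
      4 * (2 ^ j * sin (y / 2)) ^ 2 / π ^ 2 := by ring
  rw [e2, lt_div_iff₀ (by positivity)]
  have h9 : 9 ≤ (2 ^ j * sin (y / 2)) ^ 2 := by nlinarith
  have hpi2 : π ^ 2 < 18 := by nlinarith [Real.pi_lt_d2, Real.pi_gt_three]
  linarith

theorem bmp_zero {j i i' : ℕ} (hj : 1 ≤ j) (hi : i < 2 ^ j) (hi' : i' < 2 ^ j) (hne : i ≠ i') (hpar : i % 2 = i' % 2)
    {θ : ℝ} {m : ℤ} (h : |θ - ctr j i' - 2 * π * m| ≤ π / 2 ^ j) : bmp j i =ᶠ[𝓝 θ] fun _ => 0 := by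
  have hpi := Real.pi_pos
  have hP : (0 : ℝ) < 2 ^ j := by positivity
  have h2j : ∃ q : ℕ, 2 ^ j = 2 * q := by
    obtain ⟨k, rfl⟩ : ∃ k, j = k + 1 := ⟨j - 1, by omega⟩
    exact ⟨2 ^ k, by ring⟩
  obtain ⟨q, hq⟩ := h2j
  set x := θ - ctr j i' - 2 * π * m with hx
  have hxl := (abs_le.1 h).1
  have hxr := (abs_le.1 h).2
  set y : ℝ := x + 2 * ((i' : ℝ) - i) * π / 2 ^ j with hy
  have hcos : cos (θ - ctr j i) = cos y := by
    have e : θ - ctr j i = y + m * (2 * π) := by
      rw [hy, hx]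
      unfold ctr
      field_simp
      ring
    rw [e, Real.cos_add_int_mul_two_pi]
  have hmain : 2 < lamj j * (1 - cos y) := by
    rcases lt_or_gt_of_ne hne with hlt | hlt
    · have a1 : i + 2 ≤ i' := by omega
      have a2 : i' + 2 ≤ 2 ^ j + i := by omega
      have b1 : (i : ℝ) + 2 ≤ i' := by exact_mod_cast a1
      have b2 : (i' : ℝ) + 2 ≤ 2 ^ j + i := by exact_mod_cast a2
      apply s1_far
      · have c1 : 4 * π / 2 ^ j ≤ 2 * ((i' : ℝ) - i) * π / 2 ^ j := by
          apply div_le_div_of_nonneg_right _ hP.le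
          nlinarith
        have c2 : 4 * π / 2 ^ j = 3 * π / 2 ^ j + π / 2 ^ j := by ring
        linarith
      · have c1 : 2 * ((i' : ℝ) - i) * π / 2 ^ j ≤ 2 * (2 ^ j - 2) * π / 2 ^ j := by
          apply div_le_div_of_nonneg_right _ hP.le
          nlinarith
        have c2 : 2 * ((2 : ℝ) ^ j - 2) * π / 2 ^ j = 2 * π - 4 * (π / 2 ^ j) := by
          field_simp
          ring
        have c3 : 3 * π / 2 ^ j = 3 * (π / 2 ^ j) := by ring
        linarith
    · have a1 : i' + 2 ≤ i := by omega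
      have a2 : i + 2 ≤ 2 ^ j + i' := by omega
      have b1 : (i' : ℝ) + 2 ≤ i := by exact_mod_cast a1
      have b2 : (i : ℝ) + 2 ≤ 2 ^ j + i' := by exact_mod_cast a2
      rw [← Real.cos_neg]
      have hny : -y = -x + 2 * ((i : ℝ) - i') * π / 2 ^ j := by rw [hy]; ring
      rw [hny]
      apply s1_far
      · have c1 : 4 * π / 2 ^ j ≤ 2 * ((i : ℝ) - i') * π / 2 ^ j := by
          apply div_le_div_of_nonneg_right _ hP.le
          nlinarith
        have c2 : 4 * π / 2 ^ j = 3 * π / 2 ^ j + π / 2 ^ j := by ring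
        linarith
      · have c1 : 2 * ((i : ℝ) - i') * π / 2 ^ j ≤ 2 * (2 ^ j - 2) * π / 2 ^ j := by
          apply div_le_div_of_nonneg_right _ hP.le
          nlinarith
        have c2 : 2 * ((2 : ℝ) ^ j - 2) * π / 2 ^ j = 2 * π - 4 * (π / 2 ^ j) := by
          field_simp
          ring
        have c3 : 3 * π / 2 ^ j = 3 * (π / 2 ^ j) := by ring
        linarith
  have hlt : 2 - lamj j * (1 - cos (θ - ctr j i)) < 0 := by rw [hcos]; linarith
  filter_upwards [((s1_inner j i).continuous.tendsto θ).eventually (gt_mem_nhds hlt)] with z hz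
  exact Real.smoothTransition.zero_of_nonpos (le_of_lt hz)

end Pool.Agent.Helper76.EO
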