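import Pool.Agent.Helper76.EO.S9
import Pool.Agent.Helper22.AE.C6

/-!
# EO-S10: the averaged exponential sum at a fixed radius

PROOF. `Λ = 2 (t + ...)`, `W ω = ∫_{gs} k0 β α ‖TS(α, ω)‖ dα`. Pointwise `‖TS‖ ≤ Λ + (‖TS‖ - Λ)⁺ ≤ Λ + 25·4^n (2+2B) 1_{‖TS‖ > Λ}`, so
`W ≤ 20 Λ + Y`, `Y ω = 25·4^n (2+2B) ∫_{gs} k0 β α 1_{‖TS(α, ω)‖ > Λ} dα` (`∫_{gs} k0 ≤ 20`, cf. `k0_gs` in Helper22/AE/C6, private: copy).
Tonelli (`TS` is jointly continuous in `(ω, α)`: `Psi_cont` for `s = 0, 1, 2`, `c` continuous in `α`): `∫ Y dPP ≤ 25·4^n (2+2B) 20 · 8 exp(..)`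
(`cond_tail` for each `α ∈ gs`), Markov: `PP {Y > 1} ≤ ∫ Y`.
-/

open MeasureTheory Real Set Filter Topology

set_option autoImplicit false

namespace Pool.Agent.Helper76.EO

open Pool.Agent.Helper22.AE

private lemma s10_psi1 {F : Fam} (hF : F.Good) (ω : Sp) (θ : ℝ) :
    HasDerivAt (Psi F ω) (iteratedDeriv 1 (Psi F ω) θ) θ := by
  have h := (Psi_smooth hF ω).differentiable (by simp)
  rw [iteratedDeriv_one]
  exact (h θ).hasDerivAt

private lemma s10_psi2 {F : Fam} (hF : F.Good) (ω : Sp) (θ : ℝ) :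
    HasDerivAt (deriv (Psi F ω)) (iteratedDeriv 2 (Psi F ω) θ) θ := by
  have h := (Psi_smooth hF ω).differentiable_iteratedDeriv (m := 1) (by exact_mod_cast WithTop.coe_lt_top _)
  rw [iteratedDeriv_one] at h
  rw [iteratedDeriv_succ, iteratedDeriv_one]
  exact (h θ).hasDerivAt

private lemma s10_h1 {H₀ : ℝ → ℝ} (h0 : ContDiff ℝ 2 H₀) (θ : ℝ) : HasDerivAt H₀ (deriv H₀ θ) θ :=
  ((h0.differentiable (by norm_num)) θ).hasDerivAt

private lemma s10_h2 {H₀ : ℝ → ℝ} (h0 : ContDiff ℝ 2 H₀) (θ : ℝ) :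
    HasDerivAt (deriv H₀) (deriv (deriv H₀) θ) θ := by
  have h1 : ContDiff ℝ 1 (deriv H₀) := ((contDiff_succ_iff_deriv (n := 1)).1 h0).2.2
  exact ((h1.differentiable (by norm_num)) θ).hasDerivAt

private lemma s10_deriv {F : Fam} (hF : F.Good) {H₀ : ℝ → ℝ} (h0 : ContDiff ℝ 2 H₀) (ω : Sp) :
    deriv (Hr F H₀ ω) = fun θ => deriv H₀ θ + iteratedDeriv 1 (Psi F ω) θ := by
  funext θ
  exact ((s10_h1 h0 θ).add (s10_psi1 hF ω θ)).deriv

private lemma s10_deriv2 {F : Fam} (hF : F.Good) {H₀ : ℝ → ℝ} (h0 : ContDiff ℝ 2 H₀) (ω : Sp) :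
    deriv (deriv (Hr F H₀ ω)) = fun θ => deriv (deriv H₀) θ + iteratedDeriv 2 (Psi F ω) θ := by
  rw [s10_deriv hF h0]
  funext θ
  have h := s10_psi2 hF ω θ
  rw [← iteratedDeriv_one] at h
  exact ((s10_h2 h0 θ).add h).deriv

private lemma s10_c0 {F : Fam} (hF : F.Good) {H₀ : ℝ → ℝ} (h0 : ContDiff ℝ 2 H₀) :
    Continuous (fun q : Sp × ℝ => Hr F H₀ q.1 q.2) := by
  have h := Psi_cont hF 0
  simp only [iteratedDeriv_zero] at h
  exact (h0.continuous.comp continuous_snd).add h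

private lemma s10_c1 {F : Fam} (hF : F.Good) {H₀ : ℝ → ℝ} (h0 : ContDiff ℝ 2 H₀) :
    Continuous (fun q : Sp × ℝ => deriv (Hr F H₀ q.1) q.2) := by
  have h := Psi_cont hF 1
  have h1 : Continuous (deriv H₀) := ((contDiff_succ_iff_deriv (n := 1)).1 h0).2.2.continuous
  simp only [s10_deriv hF h0]
  exact (h1.comp continuous_snd).add h

private lemma s10_c2 {F : Fam} (hF : F.Good) {H₀ : ℝ → ℝ} (h0 : ContDiff ℝ 2 H₀) :
    Continuous (fun q : Sp × ℝ => deriv (deriv (Hr F H₀ q.1)) q.2) := by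
  have h := Psi_cont hF 2
  have h1 : ContDiff ℝ 1 (deriv H₀) := ((contDiff_succ_iff_deriv (n := 1)).1 h0).2.2
  have h2 : Continuous (deriv (deriv H₀)) := h1.continuous_deriv (by norm_num)
  simp only [s10_deriv2 hF h0]
  exact (h2.comp continuous_snd).add h

/-- joint continuity of the exponential sum -/
theorem TS_cont {F : Fam} (hF : F.Good) {H₀ : ℝ → ℝ} (h0 : ContDiff ℝ 2 H₀) (n : ℕ) (A : Finset (ℤ × ℤ))
    (c : ℝ → ℤ × ℤ → ℂ) (hc : ∀ k, Continuous (fun α => c α k)) (a0 b0 R : ℝ) :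
    Continuous (fun q : Sp × ℝ => TS n A (c q.2) a0 b0 R q.2 (Hr F H₀ q.1)) := by
  unfold TS
  refine continuous_finsetSum _ (fun k _ => ?_)
  have hsh : Continuous (fun q : Sp × ℝ => (q.1, tk k + q.2)) := by fun_prop
  have h0' := (s10_c0 hF h0).comp hsh
  have h1' := (s10_c1 hF h0).comp hsh
  have h2' := (s10_c2 hF h0).comp hsh
  have hc' := (hc k).comp (continuous_snd (X := Sp) (Y := ℝ))
  have hrho : Continuous (fun q : Sp × ℝ => rho (Hr F H₀ q.1) (tk k + q.2)) := by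
    unfold rho
    exact h0'.add h2'
  have hg : Continuous (fun q : Sp × ℝ => gph (Hr F H₀ q.1) k q.2) := by
    unfold gph
    exact (h0'.mul (Real.continuous_cos.comp continuous_snd)).sub
      (h1'.mul (Real.continuous_sin.comp continuous_snd))
  refine Continuous.mul (Continuous.mul hc' ?_) (ee_cont.comp ?_)
  · exact Complex.continuous_ofReal.comp (continuous_const.add (continuous_const.mul hrho))
  · exact (continuous_const.mul hg).neg

private lemma s10_k0_cont {β : ℝ} (hβ : 0 < β) : Continuous (k0 β) := by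
  unfold k0
  exact continuous_const.div (by fun_prop) (fun α => by positivity)

private lemma s10_k0_nonneg {β : ℝ} (hβ : 0 < β) (α : ℝ) : 0 ≤ k0 β α := by
  unfold k0
  positivity

private lemma s10_gs_compact : IsCompact gs := by
  refine isCompact_Icc.inter_right ?_
  exact isClosed_le continuous_const (by fun_prop)

private lemma s10_k0_gs {β : ℝ} (hβ : 0 < β) : ∫ α in gs, k0 β α ≤ 20 := by
  have hpi := Real.pi_pos
  refine le_trans ?_ (k0_int hβ)
  rw [intervalIntegral.integral_of_le (by linarith), ← integral_Icc_eq_integral_Ioc]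
  refine setIntegral_mono_set ((s10_k0_cont hβ).continuousOn.integrableOn_compact isCompact_Icc) ?_ ?_
  · exact ae_of_all _ (fun α => s10_k0_nonneg hβ α)
  · exact (inter_subset_left (s := Icc (-π) π)).eventuallyLE

private lemma s10_TS_norm {B : ℝ} (hB0 : 0 ≤ B) {H : ℝ → ℝ} (hH : Bdd2 B H) (n : ℕ) (Q : ℝ) (c : ℤ × ℤ → ℂ)
    (hc : ∀ k, ‖c k‖ ≤ 1) {a0 b0 R α : ℝ} (ha0 : |a0| ≤ 2) (hb0 : |b0| ≤ 2) :
    ‖TS n (Bq n Q) c a0 b0 R α H‖ ≤ 25 * 4 ^ n * (2 + 2 * B) := by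
  have hsub : Bq n Q ⊆ blk n := by
    intro k hk
    unfold Bq at hk
    classical
    rw [Finset.mem_filter] at hk
    exact hk.1
  have hcard : ((Bq n Q).card : ℝ) ≤ 25 * 4 ^ n := by
    refine le_trans ?_ (blk_card n)
    exact_mod_cast Finset.card_le_card hsub
  unfold TS
  refine (norm_sum_le _ _).trans ?_
  refine (Finset.sum_le_card_nsmul _ _ (2 + 2 * B) (fun k _ => ?_)).trans ?_
  · rw [norm_mul, norm_mul, ee_norm, mul_one, Complex.norm_real, Real.norm_eq_abs]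
    have h1 : |a0 + b0 * rho H (tk k + α)| ≤ 2 + 2 * B := by
      refine (abs_add_le _ _).trans ?_
      rw [abs_mul]
      have h2 := hH.b2 (tk k + α)
      have h3 : |b0| * |rho H (tk k + α)| ≤ 2 * B := mul_le_mul hb0 h2 (abs_nonneg _) (by norm_num)
      linarith
    calc ‖c k‖ * |a0 + b0 * rho H (tk k + α)| ≤ 1 * (2 + 2 * B) :=
          mul_le_mul (hc k) h1 (abs_nonneg _) (by norm_num)
      _ = _ := one_mul _
  · rw [nsmul_eq_mul]
    exact mul_le_mul_of_nonneg_right hcard (by linarith)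

theorem fixed_R {F : Fam} (hF : F.Good) {am : ℕ → ℝ} (hW : F.Wav am) {B : ℝ} (hB0 : 0 ≤ B) {H₀ : ℝ → ℝ}
    (h0 : ContDiff ℝ 2 H₀) (hB : ∀ ω, Bdd2 B (Hr F H₀ ω)) {n j : ℕ} {Q : ℝ} (hQ : 1 ≤ Q) (hQ2 : Q ≤ 2 ^ n)
    (hj : 2 ^ n * Q ≤ 2 ^ j) (hj1 : 1 ≤ j) (ham : 0 < am j) (ham1 : am j ≤ 1) (c : ℝ → ℤ × ℤ → ℂ)
    (hcc : ∀ k, Continuous (fun α => c α k)) (hc : ∀ α k, ‖c α k‖ ≤ 1)
    {a0 b0 R t β : ℝ} (ha0 : |a0| ≤ 2) (hb0 : |b0| ≤ 2) (hR : 0 < R) (ht : 0 ≤ t) (hβ : 0 < β) :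
    PP.real {ω | 20 * (2 * (t + 50 * (2 + 2 * B + 2) * 2 ^ n / (R * am j))) + 1 <
        ∫ α in gs, k0 β α * ‖TS n (Bq n Q) (c α) a0 b0 R α (Hr F H₀ ω)‖} ≤
      4000 * 4 ^ n * (2 + 2 * B) * exp (-t ^ 2 / (16 * ((2 + 2 * B) ^ 2 * (8000 * (2 ^ n) ^ 3 / Q)))) := by
  set Λ : ℝ := 2 * (t + 50 * (2 + 2 * B + 2) * 2 ^ n / (R * am j)) with hΛ
  set e : ℝ := exp (-t ^ 2 / (16 * ((2 + 2 * B) ^ 2 * (8000 * (2 ^ n) ^ 3 / Q)))) with he
  set M : ℝ := 25 * 4 ^ n * (2 + 2 * B) with hM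
  have hM0 : 0 ≤ M := by positivity
  have hΛ0 : 0 ≤ Λ := by positivity
  -- the exponential sum
  set T : Sp × ℝ → ℝ := fun q => ‖TS n (Bq n Q) (c q.2) a0 b0 R q.2 (Hr F H₀ q.1)‖ with hT
  have hTc : Continuous T := (TS_cont hF h0 n (Bq n Q) c hcc a0 b0 R).norm
  have hTM : ∀ q, T q ≤ M := fun q => s10_TS_norm hB0 (hB q.1) n Q (c q.2) (hc q.2) ha0 hb0
  set E : Set (Sp × ℝ) := {q | Λ < T q} with hE
  have hEo : IsOpen E := isOpen_lt continuous_const hTc
  have hEm : MeasurableSet E := hEo.measurableSet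
  set g : Sp × ℝ → ℝ := E.indicator (fun q => M * k0 β q.2) with hg
  have hkc := s10_k0_cont hβ
  have hk0 := s10_k0_nonneg hβ
  have hg0 : ∀ q, 0 ≤ g q := fun q => indicator_nonneg (fun q _ => mul_nonneg hM0 (hk0 q.2)) q
  have hkint : IntegrableOn (k0 β) gs := hkc.continuousOn.integrableOn_compact s10_gs_compact
  -- integrability on the product
  have hint : Integrable g (PP.prod (volume.restrict gs)) := by
    refine Integrable.indicator ?_ hEm
    exact (Integrable.comp_snd (hkint.const_mul M) PP)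
  set Y : Sp → ℝ := fun ω => ∫ α in gs, g (ω, α) with hY
  have hYint : Integrable Y PP := hint.integral_prod_left
  have hY0 : ∀ ω, 0 ≤ Y ω := fun ω => integral_nonneg (fun α => hg0 (ω, α))
  -- the pointwise bound
  have hpt : ∀ ω, ∫ α in gs, k0 β α * T (ω, α) ≤ 20 * Λ + Y ω := by
    intro ω
    have hgm : Measurable (fun α : ℝ => g (ω, α)) := by
      have hgm' : Measurable g := ((hkc.measurable.comp measurable_snd).const_mul M).indicator hEm
      exact hgm'.comp measurable_prodMk_left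
    have hgi : IntegrableOn (fun α => g (ω, α)) gs := by
      refine Integrable.mono' (hkint.const_mul M) hgm.aestronglyMeasurable (ae_of_all _ (fun α => ?_))
      rw [Real.norm_of_nonneg (hg0 _)]
      exact indicator_le_self' (fun _ _ => mul_nonneg hM0 (hk0 _)) _
    have h1 : ∫ α in gs, k0 β α * T (ω, α) ≤ ∫ α in gs, (k0 β α * Λ + g (ω, α)) := by
      refine integral_mono_of_nonneg (ae_of_all _ (fun α => mul_nonneg (hk0 α) (norm_nonneg _)))
        ((hkint.mul_const Λ).add hgi) (ae_of_all _ (fun α => ?_))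
      show k0 β α * T (ω, α) ≤ k0 β α * Λ + g (ω, α)
      by_cases hq : (ω, α) ∈ E
      · have e1 : g (ω, α) = M * k0 β α := indicator_of_mem hq _
        rw [e1]
        nlinarith [mul_le_mul_of_nonneg_left (hTM (ω, α)) (hk0 α), mul_nonneg (hk0 α) hΛ0]
      · have e1 : g (ω, α) = 0 := indicator_of_notMem hq _
        have e2 : T (ω, α) ≤ Λ := not_lt.1 hq
        rw [e1, add_zero]
        exact mul_le_mul_of_nonneg_left e2 (hk0 α)
    refine h1.trans ?_
    rw [integral_add (hkint.mul_const Λ) hgi, integral_mul_const]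
    have h2 := mul_le_mul_of_nonneg_right (s10_k0_gs hβ) hΛ0
    linarith
  -- Markov
  have hsub : {ω | 20 * Λ + 1 < ∫ α in gs, k0 β α * ‖TS n (Bq n Q) (c α) a0 b0 R α (Hr F H₀ ω)‖} ⊆ {ω | 1 ≤ Y ω} := by
    intro ω hω
    have h1 : 20 * Λ + 1 < ∫ α in gs, k0 β α * T (ω, α) := hω
    have h2 := hpt ω
    show 1 ≤ Y ω
    linarith
  have hmark := mul_meas_ge_le_integral_of_nonneg (ae_of_all PP hY0) hYint 1
  rw [one_mul] at hmark
  refine (measureReal_mono hsub (measure_ne_top _ _)).trans (hmark.trans ?_)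
  -- Tonelli
  have hswap : ∫ ω, Y ω ∂PP = ∫ α in gs, ∫ ω, g (ω, α) ∂PP := by
    exact integral_integral_swap (f := fun ω α => g (ω, α)) hint
  rw [hswap]
  have hα : ∀ α ∈ gs, ∫ ω, g (ω, α) ∂PP ≤ M * k0 β α * (8 * e) := by
    intro α hα
    have h1 := cond_tail hF hW hB0 h0 hB hQ hQ2 hj hj1 ham ham1 (c α) (hc α) ha0 hb0 hR hα.2 ht
    have hEα : MeasurableSet {ω : Sp | Λ < T (ω, α)} := measurable_prodMk_right hEm
    have h2 : (fun ω => g (ω, α)) = {ω : Sp | Λ < T (ω, α)}.indicator (fun _ => M * k0 β α) := by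
      funext ω
      by_cases hq : (ω, α) ∈ E
      · have e1 : g (ω, α) = M * k0 β α := indicator_of_mem hq _
        rw [e1, indicator_of_mem (show ω ∈ {ω : Sp | Λ < T (ω, α)} from hq)]
      · have e1 : g (ω, α) = 0 := indicator_of_notMem hq _
        rw [e1, indicator_of_notMem (show ω ∉ {ω : Sp | Λ < T (ω, α)} from hq)]
    rw [h2, integral_indicator_const _ hEα, smul_eq_mul, mul_comm]
    exact mul_le_mul_of_nonneg_left h1 (mul_nonneg hM0 (hk0 α))
  have hgi2 : IntegrableOn (fun α => M * k0 β α * (8 * e)) gs := (hkint.const_mul M).mul_const _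
  have hfin : ∫ α in gs, ∫ ω, g (ω, α) ∂PP ≤ ∫ α in gs, M * k0 β α * (8 * e) := by
    refine setIntegral_mono_on ?_ hgi2 s10_gs_compact.measurableSet hα
    exact hint.integral_prod_right
  refine hfin.trans ?_
  rw [integral_mul_const, integral_const_mul]
  have h3 := mul_le_mul_of_nonneg_left (s10_k0_gs hβ) hM0
  have he0 : 0 < e := exp_pos _
  calc (M * ∫ α in gs, k0 β α) * (8 * e) ≤ (M * 20) * (8 * e) :=
        mul_le_mul_of_nonneg_right h3 (by positivity)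
    _ = 4000 * 4 ^ n * (2 + 2 * B) * e := by rw [hM]; ring

end Pool.Agent.Helper76.EO
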