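import Pool.Agent.Helper76.EO.S10

/-!
# EO-S11: all radii of a dyadic interval

PROOF of `TS_lip`: each term: `|b0 - b0'| |rho| ≤ B |R - R'|/R₀`, amplitude `≤ 2 + 2B`, and `|ee x - ee y| ≤ 2π |x - y|` with
`|R - R'| nk k |gph H k α| ≤ |R - R'| 2^(n+1) 2B`; at most `25·4^n` terms (`blk_card`, `Bq n Q ⊆ blk n`).
PROOF of `all_R`. Grid `R_g = 2^N + g (2^N)^(-3)`, `g ≤ (2^N)^4`. For `R ∈ [2^N, 2·2^N]` there is a grid point with `|R - R_g| ≤ (2^N)^(-3)`, and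
`W(R) ≤ W(R_g) + 20 C` by `TS_lip` with `2n ≤ N` (`b0 = R/2^N`). `t² = 1600 ((2+2B)² 8000 (2^n)³/Q) log (2^N)`, so `exp (-t²/(16V)) = (2^N)^(-100)`;
`50(4+2B) 2^n/(R am j) ≤ 50(4+2B)/κ₀` since `R ≥ 2^N`, `am j ≥ κ₀ 2^(-N/4)`, `n ≤ N/2`. For fixed `N` the number of `(n, g)` is
`≤ (N+1)((2^N)^4 + 1)`; the sum of the probabilities over `n, g` is `≤ C (N+1) (2^N)^5 (2^N)^(-100)·(2^N)`, summable: Borel-Cantelli. The weights
`c N n σ` and `a0 N σ` are given in advance (countably many; `a0` does not depend on `R`). `lvl N n` satisfies `2^n Q0 ≤ 2^lvl` (`Nat.le_pow_clog`),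
`1 ≤ Q0 ≤ 2^n` and `lvl ≥ 1` for `N ≥ 2`, `√(log 2^N) ≤ 2^n`.
-/

open MeasureTheory Real Set Filter Topology

set_option autoImplicit false

namespace Pool.Agent.Helper76.EO

open Pool.Agent.Helper22.AE

private lemma s11_ee_lip (x y : ℝ) : ‖ee x - ee y‖ ≤ 2 * π * |x - y| := by
  have h := Convex.norm_image_sub_le_of_norm_hasDerivWithin_le (f := ee) (f' := fun z => 2 * π * Complex.I * ee z)
    (C := 2 * π) (s := Set.univ) (x := y) (y := x) (fun z _ => (ee_hasDerivAt z).hasDerivWithinAt)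
    (fun z _ => by
      rw [norm_mul, ee_norm, mul_one, norm_mul, Complex.norm_I, mul_one, norm_mul, Complex.norm_ofNat, Complex.norm_real,
        Real.norm_of_nonneg pi_pos.le]) convex_univ (mem_univ _) (mem_univ _)
  rwa [Real.norm_eq_abs] at h

private lemma s11_blk {n : ℕ} {k : ℤ × ℤ} (hk : k ∈ blk n) : 0 ≤ nk k ∧ nk k ≤ 2 * 2 ^ n := by
  unfold blk at hk
  have h := (Finset.mem_filter.1 hk).2.2.le
  refine ⟨norm_nonneg _, ?_⟩
  rw [pow_succ] at h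
  linarith

private lemma s11_gph {B : ℝ} {H : ℝ → ℝ} (hH : Bdd2 B H) (k : ℤ × ℤ) (α : ℝ) : |gph H k α| ≤ 2 * B := by
  unfold gph
  refine (abs_sub _ _).trans ?_
  rw [abs_mul, abs_mul]
  have h0 : 0 ≤ B := (abs_nonneg _).trans (hH.b0 0)
  have h1 := mul_le_mul (hH.b0 (tk k + α)) (abs_cos_le_one α) (abs_nonneg _) h0
  have h2 := mul_le_mul (hH.b1 (tk k + α)) (abs_sin_le_one α) (abs_nonneg _) h0
  linarith

theorem TS_lip {B : ℝ} (hB0 : 0 ≤ B) {H : ℝ → ℝ} (hH : Bdd2 B H) (n : ℕ) (Q : ℝ) (c : ℤ × ℤ → ℂ) (hc : ∀ k, ‖c k‖ ≤ 1)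
    {a0 b0 R₀ R R' α : ℝ} (ha0 : |a0| ≤ 2) (hb0 : |b0| ≤ 1) (hR₀ : 1 ≤ R₀) (hR : R ∈ Icc R₀ (2 * R₀))
    (hR' : R' ∈ Icc R₀ (2 * R₀)) :
    ‖TS n (Bq n Q) c a0 (b0 * (R / R₀)) R α H‖ ≤ ‖TS n (Bq n Q) c a0 (b0 * (R' / R₀)) R' α H‖ +
      2000 * (1 + B) ^ 2 * 8 ^ n * |R - R'| := by
  have hR0 : 0 < R₀ := by linarith
  have hsub : Bq n Q ⊆ blk n := by
    unfold Bq
    exact Finset.filter_subset _ _
  -- the difference of two terms
  have hterm : ∀ k ∈ Bq n Q, ‖c k * (((a0 + b0 * (R / R₀) * rho H (tk k + α) : ℝ) : ℂ)) * ee (-(R * nk k * gph H k α)) -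
      c k * (((a0 + b0 * (R' / R₀) * rho H (tk k + α) : ℝ) : ℂ)) * ee (-(R' * nk k * gph H k α))‖ ≤
      |R - R'| * (B + (2 + 2 * B) * (2 * π * (2 * 2 ^ n * (2 * B)))) := by
    intro k hk
    obtain ⟨hn0, hn1⟩ := s11_blk (hsub hk)
    have hg := s11_gph hH k α
    have hρ := hH.b2 (tk k + α)
    set ρ := rho H (tk k + α) with hρdef
    set E := ee (-(R * nk k * gph H k α)) with hE
    set E' := ee (-(R' * nk k * gph H k α)) with hE'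
    set A : ℝ := a0 + b0 * (R / R₀) * ρ with hA
    set A' : ℝ := a0 + b0 * (R' / R₀) * ρ with hA'
    have e1 : c k * ((A : ℝ) : ℂ) * E - c k * ((A' : ℝ) : ℂ) * E' =
        c k * (((A - A' : ℝ) : ℂ) * E + ((A' : ℝ) : ℂ) * (E - E')) := by
      push_cast
      ring
    rw [e1, norm_mul]
    have hd : |A - A'| ≤ |R - R'| * B := by
      have : A - A' = b0 * ((R - R') / R₀) * ρ := by
        rw [hA, hA']
        ring
      rw [this, abs_mul, abs_mul, abs_div, abs_of_pos hR0]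
      have h1 : |R - R'| / R₀ ≤ |R - R'| := div_le_self (abs_nonneg _) hR₀
      have h2 : |b0| * (|R - R'| / R₀) ≤ 1 * |R - R'| := mul_le_mul hb0 h1 (by positivity) (by norm_num)
      calc |b0| * (|R - R'| / R₀) * |ρ| ≤ (1 * |R - R'|) * B := mul_le_mul h2 hρ (abs_nonneg _) (by positivity)
        _ = _ := by ring
    have ha' : |A'| ≤ 2 + 2 * B := by
      rw [hA']
      refine (abs_add_le _ _).trans ?_
      have h1 : |R' / R₀| ≤ 2 := by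
        rw [abs_of_nonneg (div_nonneg (by linarith [hR'.1]) hR0.le), div_le_iff₀ hR0]
        exact hR'.2
      have h2 : |b0 * (R' / R₀)| ≤ 1 * 2 := by
        rw [abs_mul]
        exact mul_le_mul hb0 h1 (abs_nonneg _) (by norm_num)
      have h3 : |b0 * (R' / R₀) * ρ| ≤ 1 * 2 * B := by
        rw [abs_mul]
        exact mul_le_mul h2 hρ (abs_nonneg _) (by norm_num)
      linarith
    have he : ‖E - E'‖ ≤ |R - R'| * (2 * π * (2 * 2 ^ n * (2 * B))) := by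
      refine (s11_ee_lip _ _).trans ?_
      have : -(R * nk k * gph H k α) - -(R' * nk k * gph H k α) = -((R - R') * (nk k * gph H k α)) := by ring
      rw [this, abs_neg, abs_mul]
      have h1 : |nk k * gph H k α| ≤ 2 * 2 ^ n * (2 * B) := by
        rw [abs_mul, abs_of_nonneg hn0]
        exact mul_le_mul hn1 hg (abs_nonneg _) (by positivity)
      have h2 := mul_le_mul_of_nonneg_left h1 (abs_nonneg (R - R'))
      have h3 := mul_le_mul_of_nonneg_left h2 (by positivity : 0 ≤ 2 * π)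
      linarith
    have hE1 : ‖E‖ = 1 := ee_norm _
    calc ‖c k‖ * ‖((A - A' : ℝ) : ℂ) * E + ((A' : ℝ) : ℂ) * (E - E')‖
        ≤ 1 * (|A - A'| + |A'| * ‖E - E'‖) := by
          refine mul_le_mul (hc k) ?_ (norm_nonneg _) (by norm_num)
          refine (norm_add_le _ _).trans ?_
          rw [norm_mul, norm_mul, hE1, mul_one, Complex.norm_real, Complex.norm_real, Real.norm_eq_abs, Real.norm_eq_abs]
      _ ≤ 1 * (|R - R'| * B + (2 + 2 * B) * (|R - R'| * (2 * π * (2 * 2 ^ n * (2 * B))))) := by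
          have := mul_le_mul ha' he (norm_nonneg _) (by positivity)
          linarith
      _ = _ := by ring
  have hdiff : ‖TS n (Bq n Q) c a0 (b0 * (R / R₀)) R α H - TS n (Bq n Q) c a0 (b0 * (R' / R₀)) R' α H‖ ≤
      25 * 4 ^ n * (|R - R'| * (B + (2 + 2 * B) * (2 * π * (2 * 2 ^ n * (2 * B))))) := by
    unfold TS
    rw [← Finset.sum_sub_distrib]
    refine (norm_sum_le _ _).trans ((Finset.sum_le_card_nsmul _ _ _ hterm).trans ?_)
    rw [nsmul_eq_mul]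
    refine mul_le_mul_of_nonneg_right ?_ (by positivity)
    exact (by exact_mod_cast Finset.card_le_card hsub : ((Bq n Q).card : ℝ) ≤ (blk n).card).trans (blk_card n)
  have hnum : 25 * 4 ^ n * (|R - R'| * (B + (2 + 2 * B) * (2 * π * (2 * 2 ^ n * (2 * B))))) ≤
      2000 * (1 + B) ^ 2 * 8 ^ n * |R - R'| := by
    have h8 : (8 : ℝ) ^ n = 4 ^ n * 2 ^ n := by rw [← mul_pow]; norm_num
    have h2 : (1 : ℝ) ≤ 2 ^ n := one_le_pow₀ (by norm_num)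
    have hπ := pi_lt_d2
    have hBB : 0 ≤ B * (1 + B) := by positivity
    have h3 : B + (2 + 2 * B) * (2 * π * (2 * 2 ^ n * (2 * B))) ≤ 80 * (1 + B) ^ 2 * 2 ^ n := by
      have e : (2 + 2 * B) * (2 * π * (2 * 2 ^ n * (2 * B))) = 16 * π * (B * (1 + B)) * 2 ^ n := by ring
      rw [e]
      have h4 : 16 * π * (B * (1 + B)) ≤ 51 * (B * (1 + B)) := mul_le_mul_of_nonneg_right (by linarith) hBB
      have h5 : B ≤ (1 + B) ^ 2 * 2 ^ n := by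
        have : B ≤ (1 + B) ^ 2 := by nlinarith
        have h6 : (1 + B) ^ 2 * 1 ≤ (1 + B) ^ 2 * 2 ^ n := mul_le_mul_of_nonneg_left h2 (by positivity)
        linarith
      have h7 : 16 * π * (B * (1 + B)) * 2 ^ n ≤ 51 * (1 + B) ^ 2 * 2 ^ n := by
        refine mul_le_mul_of_nonneg_right ?_ (by positivity)
        nlinarith
      nlinarith [mul_nonneg (sq_nonneg (1 + B)) (by positivity : (0 : ℝ) ≤ 2 ^ n)]
    have h9 := mul_le_mul_of_nonneg_left h3 (by positivity : 0 ≤ 25 * 4 ^ n * |R - R'|)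
    calc _ = 25 * 4 ^ n * |R - R'| * (B + (2 + 2 * B) * (2 * π * (2 * 2 ^ n * (2 * B)))) := by ring
      _ ≤ _ := h9
      _ = _ := by rw [h8]; ring
  have h := norm_sub_norm_le (TS n (Bq n Q) c a0 (b0 * (R / R₀)) R α H) (TS n (Bq n Q) c a0 (b0 * (R' / R₀)) R' α H)
  linarith

theorem Q0_lvl {N n : ℕ} (hN : 2 ≤ N) (hn : √(log (2 ^ N)) ≤ 2 ^ n) :
    1 ≤ Q0 N n ∧ Q0 N n ≤ 2 ^ n ∧ 2 ^ n * Q0 N n ≤ 2 ^ lvl N n ∧ 1 ≤ lvl N n ∧ lvl N n ≤ 2 * n + 3 := by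
  have hL : 1 < log (2 ^ N) := by
    rw [Real.log_pow]
    have h1 := Real.log_two_gt_d9
    have h2 : (2 : ℝ) ≤ N := by exact_mod_cast hN
    nlinarith
  have hK : (1 : ℝ) ≤ 2 ^ n := one_le_pow₀ (by norm_num)
  have hQ1 : 1 < Q0 N n := by
    unfold Q0
    have h1 : 1 < log (2 ^ N) ^ (3 / 8 : ℝ) := Real.one_lt_rpow hL (by norm_num)
    have h2 : 1 ≤ ((2 : ℝ) ^ n) ^ (1 / 4 : ℝ) := Real.one_le_rpow hK (by norm_num)
    calc 1 < log (2 ^ N) ^ (3 / 8 : ℝ) := h1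
      _ ≤ _ := le_mul_of_one_le_right (by positivity) h2
  have hQ2 : Q0 N n ≤ 2 ^ n := by
    unfold Q0
    have h1 : log (2 ^ N) ^ (3 / 8 : ℝ) ≤ ((2 : ℝ) ^ n) ^ (3 / 4 : ℝ) := by
      have h2 : log (2 ^ N) ^ (3 / 8 : ℝ) = (√(log (2 ^ N))) ^ (3 / 4 : ℝ) := by
        rw [Real.sqrt_eq_rpow, ← Real.rpow_mul (by linarith)]
        norm_num
      rw [h2]
      exact Real.rpow_le_rpow (Real.sqrt_nonneg _) hn (by norm_num)
    calc log (2 ^ N) ^ (3 / 8 : ℝ) * ((2 : ℝ) ^ n) ^ (1 / 4 : ℝ) ≤ ((2 : ℝ) ^ n) ^ (3 / 4 : ℝ) * ((2 : ℝ) ^ n) ^ (1 / 4 : ℝ) :=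
          mul_le_mul_of_nonneg_right h1 (by positivity)
      _ = 2 ^ n := by
          rw [← Real.rpow_add (by positivity)]
          norm_num
  have hKQ : 1 < 2 ^ n * Q0 N n := by nlinarith
  refine ⟨hQ1.le, hQ2, ?_, ?_, ?_⟩
  · unfold lvl
    refine (Nat.le_ceil _).trans ?_
    exact_mod_cast Nat.le_pow_clog (by norm_num) _
  · unfold lvl
    refine Nat.clog_pos (by norm_num) ?_
    have : 1 < ⌈2 ^ n * Q0 N n⌉₊ := Nat.lt_ceil.2 (by exact_mod_cast hKQ)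
    omega
  · unfold lvl
    have h1 : ⌈2 ^ n * Q0 N n⌉₊ ≤ 2 ^ (2 * n) := by
      rw [Nat.ceil_le]
      push_cast
      calc 2 ^ n * Q0 N n ≤ 2 ^ n * 2 ^ n := mul_le_mul_of_nonneg_left hQ2 (by positivity)
        _ = 2 ^ (2 * n) := by rw [← pow_add]; congr 1; ring
    have h2 : Nat.clog 2 ⌈2 ^ n * Q0 N n⌉₊ ≤ Nat.clog 2 (2 ^ (2 * n)) := Nat.clog_mono_right 2 h1
    rw [Nat.clog_pow 2 _ (by norm_num)] at h2
    omega

private lemma s11_k0_cont {β : ℝ} (hβ : 0 < β) : Continuous (k0 β) := by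
  unfold k0
  exact continuous_const.div (by fun_prop) (fun α => by positivity)

private lemma s11_k0_nonneg {β : ℝ} (hβ : 0 < β) (α : ℝ) : 0 ≤ k0 β α := by
  unfold k0
  positivity

private lemma s11_gs_compact : IsCompact gs := by
  refine isCompact_Icc.inter_right ?_
  exact isClosed_le continuous_const (by fun_prop)

private lemma s11_k0_gs {β : ℝ} (hβ : 0 < β) : ∫ α in gs, k0 β α ≤ 20 := by
  have hpi := Real.pi_pos
  refine le_trans ?_ (k0_int hβ)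
  rw [intervalIntegral.integral_of_le (by linarith), ← integral_Icc_eq_integral_Ioc]
  refine setIntegral_mono_set ((s11_k0_cont hβ).continuousOn.integrableOn_compact isCompact_Icc) ?_ ?_
  · exact ae_of_all _ (fun α => s11_k0_nonneg hβ α)
  · exact (inter_subset_left (s := Icc (-π) π)).eventuallyLE

private lemma s11_fix {F : Fam} (hF : F.Good) {am : ℕ → ℝ} (hW : F.Wav am) (ham : ∀ j, 0 < am j ∧ am j ≤ 1) {κ₀ : ℝ} (hκ : 0 < κ₀)
    {B : ℝ} (hB0 : 0 ≤ B) {H₀ : ℝ → ℝ} (h0 : ContDiff ℝ 2 H₀) (hB : ∀ ω, Bdd2 B (Hr F H₀ ω))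
    {N n : ℕ} (hN : 2 ≤ N) (hn : √(log (2 ^ N)) ≤ 2 ^ n) (hn2 : 2 * n ≤ N)
    (hk : κ₀ * 2 ^ (-(N : ℝ) / 4) ≤ am (lvl N n))
    (c : ℝ → ℤ × ℤ → ℂ) (hcc : ∀ k, Continuous (fun α => c α k)) (hc : ∀ α k, ‖c α k‖ ≤ 1)
    {a0 b0 R : ℝ} (ha0 : |a0| ≤ 2) (hb0 : |b0| ≤ 2) (hR : 2 ^ N ≤ R) :
    PP.real {ω | 1600 * (2 + 2 * B) * √8000 * (((2 : ℝ) ^ n) ^ (3 / 2 : ℝ) * √(log (2 ^ N)) * (Q0 N n) ^ (-(1 / 2) : ℝ)) +
        (2000 * (4 + 2 * B) / κ₀ + 1) <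
        ∫ α in gs, k0 (((2 : ℝ) ^ N * 2 ^ n) ^ (-(1 / 2) : ℝ)) α *
          ‖TS n (Bq n (Q0 N n)) (c α) a0 b0 R α (Hr F H₀ ω)‖} ≤
      4000 * (2 + 2 * B) * (1 / 2) ^ (99 * N) := by
  obtain ⟨hQ1, hQ2, hj, hj1, -⟩ := Q0_lvl hN hn
  have hQ0 : 0 < Q0 N n := by linarith
  have hL : 0 ≤ log (2 ^ N : ℝ) := Real.log_nonneg (one_le_pow₀ (by norm_num))
  set X : ℝ := ((2 : ℝ) ^ n) ^ (3 / 2 : ℝ) * √(log (2 ^ N)) * (Q0 N n) ^ (-(1 / 2) : ℝ) with hX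
  have hX0 : 0 ≤ X := by positivity
  set t : ℝ := 40 * (2 + 2 * B) * √8000 * X with ht
  have ht0 : 0 ≤ t := by positivity
  have h2N : (0 : ℝ) < 2 ^ N := by positivity
  have hR0 : 0 < R := h2N.trans_le hR
  obtain ⟨ham0, ham1⟩ := ham (lvl N n)
  have key := fixed_R hF hW hB0 h0 hB hQ1 hQ2 hj hj1 ham0 ham1 c hcc hc (t := t)
    (β := ((2 : ℝ) ^ N * 2 ^ n) ^ (-(1 / 2) : ℝ)) ha0 hb0 hR0 ht0 (by positivity)
  have hX2 : X ^ 2 = (2 ^ n) ^ 3 * log (2 ^ N) / Q0 N n := by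
    rw [hX, mul_pow, mul_pow, Real.sq_sqrt hL]
    have e1 : (((2 : ℝ) ^ n) ^ (3 / 2 : ℝ)) ^ 2 = (2 ^ n) ^ 3 := by
      rw [← Real.rpow_natCast, ← Real.rpow_mul (by positivity)]
      have : (3 / 2 : ℝ) * (2 : ℕ) = (3 : ℕ) := by norm_num
      rw [this, Real.rpow_natCast]
    have e2 : (Q0 N n ^ (-(1 / 2) : ℝ)) ^ 2 = (Q0 N n)⁻¹ := by
      rw [← Real.rpow_natCast, ← Real.rpow_mul hQ0.le]
      have : (-(1 / 2) : ℝ) * (2 : ℕ) = -1 := by norm_num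
      rw [this, Real.rpow_neg_one]
    rw [e1, e2]
    ring
  have hexp : exp (-t ^ 2 / (16 * ((2 + 2 * B) ^ 2 * (8000 * (2 ^ n) ^ 3 / Q0 N n)))) = (1 / 2) ^ (100 * N) := by
    have e1 : -t ^ 2 / (16 * ((2 + 2 * B) ^ 2 * (8000 * (2 ^ n) ^ 3 / Q0 N n))) = -(100 * log (2 ^ N)) := by
      have h8 : √8000 ^ 2 = (8000 : ℝ) := Real.sq_sqrt (by norm_num)
      have hBp : 0 < 2 + 2 * B := by linarith
      rw [ht, mul_pow, mul_pow, mul_pow, h8, hX2]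
      field_simp
      ring
    rw [e1, Real.log_pow, Real.exp_neg]
    have e2 : 100 * ((N : ℝ) * log 2) = ((100 * N : ℕ) : ℝ) * log 2 := by push_cast; ring
    rw [e2, Real.exp_nat_mul, Real.exp_log (by norm_num), one_div, inv_pow]
  rw [hexp] at key
  have h2n : (2 : ℝ) ^ n / (R * am (lvl N n)) ≤ 1 / κ₀ := by
    rw [div_le_div_iff₀ (by positivity) hκ, one_mul]
    have e1 : (2 : ℝ) ^ n ≤ 2 ^ N * 2 ^ (-(N : ℝ) / 4) := by
      rw [← Real.rpow_natCast, ← Real.rpow_natCast, ← Real.rpow_add (by norm_num)]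
      refine Real.rpow_le_rpow_of_exponent_le (by norm_num) ?_
      have : 2 * (n : ℝ) ≤ N := by exact_mod_cast hn2
      have h0 : (0 : ℝ) ≤ n := by positivity
      linarith
    calc 2 ^ n * κ₀ ≤ 2 ^ N * 2 ^ (-(N : ℝ) / 4) * κ₀ := mul_le_mul_of_nonneg_right e1 hκ.le
      _ = 2 ^ N * (κ₀ * 2 ^ (-(N : ℝ) / 4)) := by ring
      _ ≤ R * am (lvl N n) := mul_le_mul hR hk (by positivity) hR0.le
  have hthr : 20 * (2 * (t + 50 * (2 + 2 * B + 2) * 2 ^ n / (R * am (lvl N n)))) + 1 ≤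
      1600 * (2 + 2 * B) * √8000 * X + (2000 * (4 + 2 * B) / κ₀ + 1) := by
    have e1 : 50 * (2 + 2 * B + 2) * 2 ^ n / (R * am (lvl N n)) = 50 * (4 + 2 * B) * (2 ^ n / (R * am (lvl N n))) := by ring
    have e2 := mul_le_mul_of_nonneg_left h2n (by positivity : 0 ≤ 50 * (4 + 2 * B))
    have e3 : 2000 * (4 + 2 * B) / κ₀ = 40 * (50 * (4 + 2 * B) * (1 / κ₀)) := by ring
    rw [e1, e3, ht]
    linarith
  refine (measureReal_mono (fun ω hω => ?_) (measure_ne_top _ _)).trans (key.trans ?_)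
  · rw [Set.mem_ofPred_eq] at hω ⊢
    exact hthr.trans_lt hω
  · have e1 : (4 : ℝ) ^ n ≤ 2 ^ N := by
      calc (4 : ℝ) ^ n = 2 ^ (2 * n) := by rw [pow_mul]; norm_num
        _ ≤ 2 ^ N := pow_le_pow_right₀ (by norm_num) hn2
    have e2 : (1 / 2 : ℝ) ^ (100 * N) = (1 / 2) ^ N * (1 / 2) ^ (99 * N) := by rw [← pow_add]; congr 1; ring
    have e3 : (4 : ℝ) ^ n * (1 / 2) ^ N ≤ 1 := by
      rw [one_div, inv_pow, ← div_eq_mul_inv, div_le_one h2N]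
      exact e1
    calc 4000 * 4 ^ n * (2 + 2 * B) * (1 / 2) ^ (100 * N) = 4000 * (2 + 2 * B) * (1 / 2) ^ (99 * N) * (4 ^ n * (1 / 2) ^ N) := by
          rw [e2]; ring
      _ ≤ 4000 * (2 + 2 * B) * (1 / 2) ^ (99 * N) * 1 := mul_le_mul_of_nonneg_left e3 (by positivity)
      _ = _ := mul_one _

/-- grid point -/
private noncomputable def s11_g (N g : ℕ) : ℝ := 2 ^ N + g / (2 ^ N) ^ 3

private lemma s11_g_mem {N g : ℕ} (hg : g ≤ 2 ^ (4 * N)) : s11_g N g ∈ Icc ((2 : ℝ) ^ N) (2 * 2 ^ N) := by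
  unfold s11_g
  have h : (0 : ℝ) < 2 ^ N := by positivity
  refine ⟨le_add_of_nonneg_right (by positivity), ?_⟩
  have h1 : (g : ℝ) / (2 ^ N) ^ 3 ≤ 2 ^ N := by
    rw [div_le_iff₀ (by positivity)]
    calc (g : ℝ) ≤ ((2 ^ (4 * N) : ℕ) : ℝ) := by exact_mod_cast hg
      _ = 2 ^ N * (2 ^ N) ^ 3 := by push_cast; ring
  linarith

private lemma s11_g_near {N : ℕ} {R : ℝ} (hR : R ∈ Icc ((2 : ℝ) ^ N) (2 * 2 ^ N)) :
    ∃ g : ℕ, g ≤ 2 ^ (4 * N) ∧ |R - s11_g N g| ≤ 1 / (2 ^ N) ^ 3 := by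
  have h : (0 : ℝ) < 2 ^ N := by positivity
  have h3 : (0 : ℝ) < (2 ^ N) ^ 3 := by positivity
  have hx : 0 ≤ (R - 2 ^ N) * (2 ^ N) ^ 3 := mul_nonneg (by linarith [hR.1]) h3.le
  refine ⟨⌊(R - 2 ^ N) * (2 ^ N) ^ 3⌋₊, ?_, ?_⟩
  · refine Nat.floor_le_of_le ?_
    push_cast
    calc (R - 2 ^ N) * (2 ^ N) ^ 3 ≤ 2 ^ N * (2 ^ N) ^ 3 := mul_le_mul_of_nonneg_right (by linarith [hR.2]) h3.le
      _ = 2 ^ (4 * N) := by ring
  · unfold s11_g
    set g := ⌊(R - 2 ^ N) * (2 ^ N) ^ 3⌋₊ with hg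
    have h1 : (g : ℝ) ≤ (R - 2 ^ N) * (2 ^ N) ^ 3 := Nat.floor_le hx
    have h2 : (R - 2 ^ N) * (2 ^ N) ^ 3 < g + 1 := Nat.lt_floor_add_one _
    have e : R - (2 ^ N + (g : ℝ) / (2 ^ N) ^ 3) = ((R - 2 ^ N) * (2 ^ N) ^ 3 - g) / (2 ^ N) ^ 3 := by
      field_simp
      ring
    rw [e, abs_div, abs_of_pos h3, abs_of_nonneg (by linarith)]
    exact div_le_div_of_nonneg_right (by linarith) h3.le

theorem all_R {F : Fam} (hF : F.Good) {am : ℕ → ℝ} (hW : F.Wav am) (ham : ∀ j, 0 < am j ∧ am j ≤ 1) {κ₀ : ℝ} (hκ : 0 < κ₀)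
    {B : ℝ} (hB0 : 0 ≤ B) {H₀ : ℝ → ℝ} (h0 : ContDiff ℝ 2 H₀) (hB : ∀ ω, Bdd2 B (Hr F H₀ ω))
    (c : ℕ → ℕ → Bool → ℝ → ℤ × ℤ → ℂ) (hcc : ∀ N n σ k, Continuous (fun α => c N n σ α k)) (hc : ∀ N n σ α k, ‖c N n σ α k‖ ≤ 1)
    (a0 b0 : ℕ → Bool → ℝ) (ha0 : ∀ N σ, |a0 N σ| ≤ 2) (hb0 : ∀ N σ, b0 N σ = 0 ∨ b0 N σ = 1) :
    ∃ C : ℝ, 0 ≤ C ∧ ∀ᵐ ω ∂PP, ∀ᶠ N : ℕ in atTop, ∀ n : ℕ, √(log (2 ^ N)) ≤ 2 ^ n → 2 * n ≤ N →
      κ₀ * 2 ^ (-(N : ℝ) / 4) ≤ am (lvl N n) → ∀ σ : Bool, ∀ R ∈ Icc ((2 : ℝ) ^ N) (2 * 2 ^ N),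
        ∫ α in gs, k0 (((2 : ℝ) ^ N * 2 ^ n) ^ (-(1 / 2) : ℝ)) α *
          ‖TS n (Bq n (Q0 N n)) (c N n σ α) (a0 N σ) (b0 N σ * (R / 2 ^ N)) R α (Hr F H₀ ω)‖ ≤
        C * (((2 : ℝ) ^ n) ^ (3 / 2 : ℝ) * √(log (2 ^ N)) * (Q0 N n) ^ (-(1 / 2) : ℝ)) + C := by
  classical
  have hb1 : ∀ N σ, |b0 N σ| ≤ 1 := by
    intro N σ
    rcases hb0 N σ with h | h <;> rw [h] <;> norm_num
  set C1 : ℝ := 1600 * (2 + 2 * B) * √8000 with hC1
  set C2 : ℝ := 2000 * (4 + 2 * B) / κ₀ + 1 with hC2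
  set C3 : ℝ := 40000 * (1 + B) ^ 2 with hC3
  have hC1p : 0 ≤ C1 := by positivity
  have hC2p : 0 ≤ C2 := by positivity
  have hC3p : 0 ≤ C3 := by positivity
  -- the averaged sum
  set W : ℕ → ℕ → Bool → ℝ → Sp → ℝ := fun N n σ R ω => ∫ α in gs, k0 (((2 : ℝ) ^ N * 2 ^ n) ^ (-(1 / 2) : ℝ)) α *
    ‖TS n (Bq n (Q0 N n)) (c N n σ α) (a0 N σ) (b0 N σ * (R / 2 ^ N)) R α (Hr F H₀ ω)‖ with hWdef
  set X : ℕ → ℕ → ℝ := fun N n => ((2 : ℝ) ^ n) ^ (3 / 2 : ℝ) * √(log (2 ^ N)) * (Q0 N n) ^ (-(1 / 2) : ℝ) with hXdef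
  set I : ℕ → Finset (ℕ × Bool × ℕ) := fun N =>
    ((Finset.range (N + 1)) ×ˢ (Finset.univ : Finset Bool) ×ˢ (Finset.range (2 ^ (4 * N) + 1))).filter
      (fun i => 2 ≤ N ∧ √(log (2 ^ N)) ≤ 2 ^ i.1 ∧ 2 * i.1 ≤ N ∧ κ₀ * 2 ^ (-(N : ℝ) / 4) ≤ am (lvl N i.1)) with hI
  set bad : ℕ → ℕ × Bool × ℕ → Set Sp := fun N i =>
    {ω | C1 * X N i.1 + C2 < W N i.1 i.2.1 (s11_g N i.2.2) ω} with hbad
  have hbadp : ∀ N, ∀ i ∈ I N, PP.real (bad N i) ≤ 4000 * (2 + 2 * B) * (1 / 2) ^ (99 * N) := by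
    intro N i hi
    obtain ⟨hi1, hN2, hn, hn2, hk⟩ := Finset.mem_filter.1 hi
    have hg : i.2.2 ≤ 2 ^ (4 * N) := by
      have := (Finset.mem_product.1 (Finset.mem_product.1 hi1).2).2
      rw [Finset.mem_range] at this
      omega
    have hm := s11_g_mem hg
    refine s11_fix hF hW ham hκ hB0 h0 hB hN2 hn hn2 hk (c N i.1 i.2.1) (hcc N i.1 i.2.1) (hc N i.1 i.2.1) (ha0 N i.2.1) ?_ hm.1
    rw [abs_mul]
    have h2N : (0 : ℝ) < 2 ^ N := by positivity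
    have h1 : |s11_g N i.2.2 / 2 ^ N| ≤ 2 := by
      rw [abs_of_nonneg (div_nonneg (by linarith [hm.1]) h2N.le), div_le_iff₀ h2N]
      exact hm.2
    have := mul_le_mul (hb1 N i.2.1) h1 (abs_nonneg _) (by norm_num)
    linarith
  have hcard : ∀ N, ((I N).card : ℝ) ≤ 4 * (2 ^ N) ^ 5 := by
    intro N
    have h1 : (I N).card ≤ (N + 1) * (2 * (2 ^ (4 * N) + 1)) := by
      refine (Finset.card_filter_le _ _).trans ?_
      rw [Finset.card_product, Finset.card_product, Finset.card_range, Finset.card_range, Finset.card_univ, Fintype.card_bool]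
    have h2 : N + 1 ≤ 2 ^ N := Nat.lt_two_pow_self
    have h3 : 2 ^ (4 * N) + 1 ≤ 2 * 2 ^ (4 * N) := by
      have : 0 < 2 ^ (4 * N) := by positivity
      omega
    have h4 : (I N).card ≤ 2 ^ N * (2 * (2 * 2 ^ (4 * N))) :=
      h1.trans (Nat.mul_le_mul h2 (Nat.mul_le_mul_left _ h3))
    calc ((I N).card : ℝ) ≤ ((2 ^ N * (2 * (2 * 2 ^ (4 * N))) : ℕ) : ℝ) := by exact_mod_cast h4
      _ = 4 * (2 ^ N) ^ 5 := by push_cast; ring
  have hun : ∀ N, PP (⋃ i ∈ I N, bad N i) ≤ ENNReal.ofReal (16000 * (2 + 2 * B) * (1 / 2) ^ N) := by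
    intro N
    have h1 : PP.real (⋃ i ∈ I N, bad N i) ≤ 16000 * (2 + 2 * B) * (1 / 2) ^ N := by
      refine (measureReal_biUnion_finset_le _ _).trans ?_
      refine (Finset.sum_le_card_nsmul _ _ _ (hbadp N)).trans ?_
      rw [nsmul_eq_mul]
      have h2 : (1 / 2 : ℝ) ^ (99 * N) ≤ (1 / 2) ^ (6 * N) := pow_le_pow_of_le_one (by norm_num) (by norm_num) (by omega)
      have h3 : (1 / 2 : ℝ) ^ (6 * N) = ((2 ^ N) ^ 5)⁻¹ * (1 / 2) ^ N := by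
        rw [one_div, inv_pow, inv_pow, ← mul_inv, ← pow_mul, ← pow_add]
        congr 2
        ring
      have h4 : (0 : ℝ) < (2 ^ N) ^ 5 := by positivity
      calc ((I N).card : ℝ) * (4000 * (2 + 2 * B) * (1 / 2) ^ (99 * N))
          ≤ (4 * (2 ^ N) ^ 5) * (4000 * (2 + 2 * B) * (1 / 2) ^ (6 * N)) :=
            mul_le_mul (hcard N) (mul_le_mul_of_nonneg_left h2 (by positivity)) (by positivity) (by positivity)
        _ = _ := by
            rw [h3]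
            field_simp
            ring
    rw [← ofReal_measureReal (measure_ne_top _ _)]
    exact ENNReal.ofReal_le_ofReal h1
  have hsum : ∑' N, PP (⋃ i ∈ I N, bad N i) ≠ ⊤ := by
    have h1 : Summable (fun N : ℕ => 16000 * (2 + 2 * B) * (1 / 2 : ℝ) ^ N) :=
      (summable_geometric_of_lt_one (by norm_num) (by norm_num)).mul_left _
    exact ne_top_of_le_ne_top h1.tsum_ofReal_ne_top (ENNReal.tsum_le_tsum hun)
  refine ⟨C1 + C2 + C3, by positivity, ?_⟩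
  filter_upwards [ae_eventually_notMem hsum] with ω hω
  filter_upwards [hω, eventually_ge_atTop 2] with N hN hN2
  intro n hn hn2 hk σ R hR
  obtain ⟨g, hg, hRg⟩ := s11_g_near hR
  have hm := s11_g_mem hg
  have h2N : (1 : ℝ) ≤ 2 ^ N := one_le_pow₀ (by norm_num)
  have hmem : (n, σ, g) ∈ I N := by
    refine Finset.mem_filter.2 ⟨?_, hN2, hn, hn2, hk⟩
    refine Finset.mem_product.2 ⟨Finset.mem_range.2 (by omega), Finset.mem_product.2 ⟨Finset.mem_univ _, Finset.mem_range.2 (Nat.lt_succ_of_le hg)⟩⟩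
  have hgood : W N n σ (s11_g N g) ω ≤ C1 * X N n + C2 := by
    by_contra hlt
    push Not at hlt
    exact hN (Set.mem_iUnion₂.2 ⟨(n, σ, g), hmem, hlt⟩)
  have hX0 : 0 ≤ X N n := by
    have := (Q0_lvl hN2 hn).1
    have h1 : 0 ≤ Q0 N n := by linarith
    rw [hXdef]
    positivity
  set β : ℝ := ((2 : ℝ) ^ N * 2 ^ n) ^ (-(1 / 2) : ℝ) with hβ
  have hβ0 : 0 < β := by positivity
  have hcont : ∀ R' : ℝ, Continuous (fun α : ℝ => k0 β α *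
      ‖TS n (Bq n (Q0 N n)) (c N n σ α) (a0 N σ) (b0 N σ * (R' / 2 ^ N)) R' α (Hr F H₀ ω)‖) := by
    intro R'
    have h1 := TS_cont hF h0 n (Bq n (Q0 N n)) (c N n σ) (hcc N n σ) (a0 N σ) (b0 N σ * (R' / 2 ^ N)) R'
    have h2 := h1.comp (Continuous.prodMk_right ω)
    exact (s11_k0_cont hβ0).mul h2.norm
  set D : ℝ := 2000 * (1 + B) ^ 2 * 8 ^ n * |R - s11_g N g| with hD
  have hD0 : 0 ≤ D := by positivity
  have hDle : D ≤ 2000 * (1 + B) ^ 2 := by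
    have h1 : (8 : ℝ) ^ n * |R - s11_g N g| ≤ 1 := by
      have h8 : (8 : ℝ) ^ n ≤ (2 ^ N) ^ 3 := by
        have : (8 : ℝ) ^ n = (2 ^ n) ^ 3 := by rw [← pow_mul, mul_comm, pow_mul]; norm_num
        rw [this]
        exact pow_le_pow_left₀ (by positivity) (pow_le_pow_right₀ (by norm_num) (by omega)) 3
      calc (8 : ℝ) ^ n * |R - s11_g N g| ≤ (2 ^ N) ^ 3 * (1 / (2 ^ N) ^ 3) :=
            mul_le_mul h8 hRg (abs_nonneg _) (by positivity)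
        _ = 1 := by field_simp
    calc D = 2000 * (1 + B) ^ 2 * (8 ^ n * |R - s11_g N g|) := by rw [hD]; ring
      _ ≤ 2000 * (1 + B) ^ 2 * 1 := mul_le_mul_of_nonneg_left h1 (by positivity)
      _ = _ := mul_one _
  have hWle : W N n σ R ω ≤ W N n σ (s11_g N g) ω + C3 := by
    have h1 : ∀ α : ℝ, k0 β α *
        ‖TS n (Bq n (Q0 N n)) (c N n σ α) (a0 N σ) (b0 N σ * (R / 2 ^ N)) R α (Hr F H₀ ω)‖ ≤
        k0 β α * ‖TS n (Bq n (Q0 N n)) (c N n σ α) (a0 N σ) (b0 N σ * (s11_g N g / 2 ^ N)) (s11_g N g) α (Hr F H₀ ω)‖ +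
          D * k0 β α := by
      intro α
      have h2 := TS_lip hB0 (hB ω) n (Q0 N n) (c N n σ α) (hc N n σ α) (α := α) (ha0 N σ) (hb1 N σ) h2N hR hm
      have h3 := mul_le_mul_of_nonneg_left h2 (s11_k0_nonneg hβ0 α)
      rw [← hD] at h3
      linarith
    have hi1 := (hcont R).continuousOn.integrableOn_compact (μ := volume) s11_gs_compact
    have hi2 := (hcont (s11_g N g)).continuousOn.integrableOn_compact (μ := volume) s11_gs_compact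
    have hi3 : IntegrableOn (fun α => D * k0 β α) gs :=
      (continuous_const.mul (s11_k0_cont hβ0)).continuousOn.integrableOn_compact s11_gs_compact
    calc W N n σ R ω ≤ ∫ α in gs, (k0 β α * ‖TS n (Bq n (Q0 N n)) (c N n σ α) (a0 N σ) (b0 N σ * (s11_g N g / 2 ^ N))
            (s11_g N g) α (Hr F H₀ ω)‖ + D * k0 β α) := integral_mono hi1 (hi2.add hi3) (fun α => h1 α)
      _ = W N n σ (s11_g N g) ω + D * ∫ α in gs, k0 β α := by
          rw [integral_add hi2 hi3, integral_const_mul]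
      _ ≤ W N n σ (s11_g N g) ω + C3 := by
          have h4 := mul_le_mul hDle (s11_k0_gs hβ0) (integral_nonneg (fun α => s11_k0_nonneg hβ0 α)) (by positivity)
          have h5 : 2000 * (1 + B) ^ 2 * 20 = C3 := by rw [hC3]; ring
          linarith
  have hfin : C1 * X N n + C2 + C3 ≤ (C1 + C2 + C3) * X N n + (C1 + C2 + C3) := by
    have h1 : 0 ≤ (C2 + C3) * X N n := mul_nonneg (by positivity) hX0
    nlinarith
  exact (hWle.trans (add_le_add_left hgood C3)).trans hfin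

end Pool.Agent.Helper76.EO
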