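import Pool.Agent.Helper76.EO.S3

/-!
# EO-S4: Hoeffding's inequality for complex functions of independent coordinates

PROOF. Under `PP` the coordinates are independent (`iIndepFun_infinitePi` in `Mathlib/Probability/Independence/InfinitePi`) with law `mu`
(`infinitePi_map_eval`). `X p = Re (f p (u p) - ∫ f p dmu)` are independent, mean zero, `|X p| ≤ 2 nb p`: Hoeffding's lemma
`hasSubgaussianMGF_of_mem_Icc` (parameter `((b - a)/2)^2 = (2 nb p)^2`), sums `HasSubgaussianMGF.measure_sum_ge_le_of_iIndepFun`: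
`PP (s ≤ ∑ X p) ≤ exp (-s²/(2 ∑ 4 nb²))`. If `‖Z‖ > t` for `Z = ∑ (f p (u p) - ∫ f p)` then `|Re Z| > t/√2` or `|Im Z| > t/√2`: four events
(`±Re`, `±Im`), each of probability `≤ exp (-(t²/2)/(8V)) = exp (-t²/(16V))`. The event in the statement implies `‖Z‖ > t`.
(`nb p ≥ 0` for `p ∈ A` follows from the bound. `t = 0`: right side `4`. `V > 0` is assumed: monotone in `V`.)
-/

open MeasureTheory ProbabilityTheory Real Set Filter Topology

set_option autoImplicit false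

namespace Pool.Agent.Helper76.EO

open Pool.Agent.Helper22.AE

/-- Hoeffding's inequality for real functions of independent coordinates -/
private lemma s4_real (A : Finset (ℕ × ℕ)) (g : ℕ × ℕ → ℝ → ℝ) (hg : ∀ p, Measurable (g p)) (nb : ℕ × ℕ → ℝ)
    (hnb : ∀ p ∈ A, ∀ x, |g p x| ≤ nb p) {V s : ℝ} (hV : ∑ p ∈ A, nb p ^ 2 ≤ V) (hs : 0 ≤ s) :
    PP.real {u : Sp | s ≤ ∑ p ∈ A, (g p (u p) - ∫ x, g p x ∂mu)} ≤ exp (-s ^ 2 / (2 * V)) := by
  have hV0 : 0 ≤ V := le_trans (Finset.sum_nonneg fun p _ => sq_nonneg (nb p)) hV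
  have hint : ∀ p, ∫ u : Sp, g p (u p) ∂PP = ∫ x, g p x ∂mu := by
    intro p
    have h := Measure.infinitePi_map_eval (fun _ : ℕ × ℕ => mu) p
    have h2 : ∫ x, g p x ∂mu = ∫ x, g p x ∂((Measure.infinitePi (fun _ : ℕ × ℕ => mu)).map (fun u : Sp => u p)) := by
      rw [h]
    rw [h2, integral_map (measurable_pi_apply p).aemeasurable (hg p).aestronglyMeasurable]
    rfl
  have hind : iIndepFun (fun p (u : Sp) => g p (u p) - ∫ x, g p x ∂mu) PP := by
    have h := iIndepFun_infinitePi (P := fun _ : ℕ × ℕ => mu) (X := fun p x => g p x - ∫ x, g p x ∂mu)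
      (fun p => (hg p).sub_const _)
    exact h
  have hsub : ∀ p ∈ A, HasSubgaussianMGF (fun u : Sp => g p (u p) - ∫ x, g p x ∂mu)
      ((‖nb p - -nb p‖₊ / 2) ^ 2) PP := by
    intro p hp
    have h := hasSubgaussianMGF_of_mem_Icc (μ := PP) (X := fun u : Sp => g p (u p)) (a := -nb p) (b := nb p)
      ((hg p).comp (measurable_pi_apply p)).aemeasurable
      (Filter.Eventually.of_forall fun u => abs_le.1 (hnb p hp (u p)))
    rw [hint p] at h
    exact h
  have hsum := HasSubgaussianMGF.sum_of_iIndepFun hind (s := A) hsub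
  have hc : ((∑ p ∈ A, (‖nb p - -nb p‖₊ / 2) ^ 2 : NNReal) : ℝ) ≤ V := by
    refine le_trans (le_of_eq ?_) hV
    push_cast
    refine Finset.sum_congr rfl fun p _ => ?_
    rw [sub_neg_eq_add, Real.norm_eq_abs, div_pow, sq_abs]
    ring
  have hV' : HasSubgaussianMGF (fun u : Sp => ∑ p ∈ A, (g p (u p) - ∫ x, g p x ∂mu)) V.toNNReal PP := by
    refine ⟨hsum.integrable_exp_mul, fun t => (hsum.mgf_le t).trans (exp_le_exp.2 ?_)⟩
    have h3 : (0 : ℝ) ≤ t ^ 2 := sq_nonneg t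
    have h4 := mul_le_mul_of_nonneg_right hc h3
    rw [Real.coe_toNNReal V hV0]
    linarith
  have hfin := hV'.measure_ge_le hs
  rw [Real.coe_toNNReal V hV0] at hfin
  exact hfin

private lemma s4_dir (A : Finset (ℕ × ℕ)) (f : ℕ × ℕ → ℝ → ℂ) (hf : ∀ p, Measurable (f p)) (nb : ℕ × ℕ → ℝ)
    (hnb : ∀ p ∈ A, ∀ x, ‖f p x‖ ≤ nb p) {V s : ℝ} (hV : ∑ p ∈ A, nb p ^ 2 ≤ V) (hs : 0 ≤ s) (c : ℂ) (hc : ‖c‖ = 1) :
    PP.real {u : Sp | s ≤ (c * (∑ p ∈ A, f p (u p) - ∑ p ∈ A, ∫ x, f p x ∂mu)).re} ≤ exp (-s ^ 2 / (2 * V)) := by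
  have h := s4_real A (fun p x => (c * f p x).re) (fun p => Complex.measurable_re.comp ((hf p).const_mul c)) nb
    (fun p hp x => (Complex.abs_re_le_norm _).trans (by rw [norm_mul, hc, one_mul]; exact hnb p hp x)) hV hs
  have heq : ∀ u : Sp, (c * (∑ p ∈ A, f p (u p) - ∑ p ∈ A, ∫ x, f p x ∂mu)).re =
      ∑ p ∈ A, ((c * f p (u p)).re - ∫ x, (c * f p x).re ∂mu) := by
    intro u
    rw [← Finset.sum_sub_distrib, Finset.mul_sum, Complex.re_sum]
    refine Finset.sum_congr rfl fun p hp => ?_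
    rw [mul_sub, Complex.sub_re]
    congr 1
    have hi : Integrable (fun x => c * f p x) mu := by
      refine Integrable.of_bound ((hf p).const_mul c).aestronglyMeasurable (nb p) (Filter.Eventually.of_forall fun x => ?_)
      rw [norm_mul, hc, one_mul]
      exact hnb p hp x
    have h2 := Complex.reCLM.integral_comp_comm hi
    have h3 : ∫ x, c * f p x ∂mu = c * ∫ x, f p x ∂mu := integral_const_mul c _
    rw [h3] at h2
    exact h2.symm
  simp only [heq]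
  exact h

theorem hoeffding_c (A : Finset (ℕ × ℕ)) (f : ℕ × ℕ → ℝ → ℂ) (hf : ∀ p, Measurable (f p)) (nb mb : ℕ × ℕ → ℝ)
    (hnb : ∀ p ∈ A, ∀ x, ‖f p x‖ ≤ nb p) (hmb : ∀ p ∈ A, ‖∫ x, f p x ∂mu‖ ≤ mb p) {V t : ℝ}
    (hV : ∑ p ∈ A, nb p ^ 2 ≤ V) (hV0 : 0 < V) (ht : 0 ≤ t) :
    PP.real {u : Sp | t + ∑ p ∈ A, mb p < ‖∑ p ∈ A, f p (u p)‖} ≤ 4 * exp (-t ^ 2 / (16 * V)) := by
  set s := t / Real.sqrt 2 with hs
  have hs0 : 0 ≤ s := by positivity
  have hs2 : s ^ 2 = t ^ 2 / 2 := by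
    rw [hs, div_pow, Real.sq_sqrt (by norm_num)]
  set E : ℂ → Set Sp := fun c => {u : Sp | s ≤ (c * (∑ p ∈ A, f p (u p) - ∑ p ∈ A, ∫ x, f p x ∂mu)).re} with hE
  have hEb : ∀ c : ℂ, ‖c‖ = 1 → PP.real (E c) ≤ exp (-t ^ 2 / (16 * V)) := by
    intro c hc
    refine (s4_dir A f hf nb hnb hV hs0 c hc).trans (exp_le_exp.2 ?_)
    rw [hs2, div_le_div_iff₀ (by positivity) (by positivity)]
    have h1 : 0 ≤ t ^ 2 * V := by positivity
    nlinarith
  have hsub : {u : Sp | t + ∑ p ∈ A, mb p < ‖∑ p ∈ A, f p (u p)‖} ⊆ ((E 1 ∪ E (-1)) ∪ (E Complex.I ∪ E (-Complex.I))) := by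
    intro u hu
    rw [mem_ofPred_eq] at hu
    set Z := ∑ p ∈ A, f p (u p) - ∑ p ∈ A, ∫ x, f p x ∂mu with hZ
    have h1 : ‖∑ p ∈ A, ∫ x, f p x ∂mu‖ ≤ ∑ p ∈ A, mb p := (norm_sum_le _ _).trans (Finset.sum_le_sum hmb)
    have h2 : t < ‖Z‖ := by
      have h3 : ‖∑ p ∈ A, f p (u p)‖ ≤ ‖Z‖ + ‖∑ p ∈ A, ∫ x, f p x ∂mu‖ := by
        have h4 : ∑ p ∈ A, f p (u p) = Z + ∑ p ∈ A, ∫ x, f p x ∂mu := by rw [hZ]; ring
        rw [h4]
        exact norm_add_le _ _
      linarith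
    have h5 : t ^ 2 < Z.re ^ 2 + Z.im ^ 2 := by
      have h6 : ‖Z‖ ^ 2 = Z.re ^ 2 + Z.im ^ 2 := by
        rw [← Complex.normSq_eq_norm_sq, Complex.normSq_apply]
        ring
      rw [← h6]
      exact pow_lt_pow_left₀ h2 ht (by norm_num)
    have h7 : s ^ 2 ≤ Z.re ^ 2 ∨ s ^ 2 ≤ Z.im ^ 2 := by
      rw [hs2]
      by_contra hcon
      rw [not_or, not_le, not_le] at hcon
      linarith
    rcases h7 with h7 | h7
    · have h8 : s ≤ |Z.re| := by
        rw [← abs_of_nonneg hs0]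
        exact sq_le_sq.1 h7
      rcases le_abs.1 h8 with h9 | h9
      · left; left
        rw [hE, mem_ofPred_eq, one_mul]
        exact h9
      · left; right
        rw [hE, mem_ofPred_eq, neg_mul, one_mul, Complex.neg_re]
        exact h9
    · have h8 : s ≤ |Z.im| := by
        rw [← abs_of_nonneg hs0]
        exact sq_le_sq.1 h7
      rcases le_abs.1 h8 with h9 | h9
      · right; right
        rw [hE, mem_ofPred_eq, neg_mul, Complex.neg_re, Complex.I_mul_re, neg_neg]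
        exact h9
      · right; left
        rw [hE, mem_ofPred_eq, Complex.I_mul_re]
        exact h9
  have hfin : ∀ S : Set Sp, PP S ≠ ⊤ := fun S => measure_ne_top _ _
  calc PP.real {u : Sp | t + ∑ p ∈ A, mb p < ‖∑ p ∈ A, f p (u p)‖}
      ≤ PP.real ((E 1 ∪ E (-1)) ∪ (E Complex.I ∪ E (-Complex.I))) := measureReal_mono hsub (hfin _)
    _ ≤ PP.real (E 1 ∪ E (-1)) + PP.real (E Complex.I ∪ E (-Complex.I)) := measureReal_union_le _ _
    _ ≤ (PP.real (E 1) + PP.real (E (-1))) + (PP.real (E Complex.I) + PP.real (E (-Complex.I))) :=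
        add_le_add (measureReal_union_le _ _) (measureReal_union_le _ _)
    _ ≤ 4 * exp (-t ^ 2 / (16 * V)) := by
        have e1 := hEb 1 (by simp)
        have e2 := hEb (-1) (by simp)
        have e3 := hEb Complex.I (by simp)
        have e4 := hEb (-Complex.I) (by simp)
        linarith

end Pool.Agent.Helper76.EO
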