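import Pool.Agent.Helper76.EO.Base

/-!
# EO-S5: oscillating integrals against the uniform law

PROOF. On `[-1, 1]` `clip x = x`, so the integral is `(1/2) ∫_{-1}^{1} (a + b x) e(-t x) dx`. `∫_{-1}^1 e(-tx) dx` has norm `≤ 1/(π|t|)` and by
parts `∫_{-1}^1 x e(-tx) dx` has norm `≤ 2/(2π|t|) + (1/(2π|t|)) · 2 = 2/(π|t|)`.
-/

open MeasureTheory Real Set Filter Topology

set_option autoImplicit false

namespace Pool.Agent.Helper76.EO

open Pool.Agent.Helper22.AE

theorem char_bound (a b t : ℝ) (ht : t ≠ 0) :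
    ‖∫ x, (((a + b * clip x : ℝ) : ℂ)) * ee (-(t * clip x)) ∂mu‖ ≤ (|a| + |b|) / |t| := by
  -- reduction to an interval integral
  have h1 : ∫ x, (((a + b * clip x : ℝ) : ℂ)) * ee (-(t * clip x)) ∂mu =
      (2 : ℝ)⁻¹ • ∫ x in (-1 : ℝ)..1, (((a + b * x : ℝ) : ℂ)) * ee (-(t * x)) := by
    unfold mu
    rw [integral_smul_measure, intervalIntegral.integral_of_le (by norm_num),
      ← integral_Icc_eq_integral_Ioc]
    congr 1
    · simp
    · refine setIntegral_congr_fun measurableSet_Icc fun x hx => ?_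
      have hc : clip x = x := by
        unfold clip
        rw [min_eq_right hx.2, max_eq_right hx.1]
      simp only [hc]
  -- integration by parts
  set z : ℂ := -(2 * π * Complex.I * t) with hz
  have hz0 : z ≠ 0 := by
    rw [hz]
    simp [ht, pi_ne_zero, Complex.I_ne_zero]
  have hzn : ‖z‖ = 2 * π * |t| := by
    rw [hz, norm_neg]
    simp [abs_of_pos pi_pos]
  set v : ℝ → ℂ := fun x => ee (-(t * x)) * z⁻¹ with hv
  have hvn : ∀ x, ‖v x‖ = (2 * π * |t|)⁻¹ := by
    intro x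
    simp only [hv]
    rw [norm_mul, ee_norm, one_mul, norm_inv, hzn]
  have hvc : Continuous v := by
    simp only [hv]
    exact (ee_cont.comp (by fun_prop)).mul continuous_const
  have hv' : ∀ x, HasDerivAt v (ee (-(t * x))) x := by
    intro x
    have g1 : HasDerivAt (fun x : ℝ => -(t * x)) (-t) x := by
      have h := (hasDerivAt_id x).const_mul (-t)
      simp only [id, mul_one, neg_mul] at h
      exact h
    have g2 := ((ee_hasDerivAt (-(t * x))).scomp x g1).mul_const z⁻¹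
    have g3 : (-t) • (2 * π * Complex.I * ee (-(t * x))) * z⁻¹ = ee (-(t * x)) := by
      rw [Complex.real_smul, mul_inv_eq_iff_eq_mul₀ hz0, hz]
      push_cast
      ring
    rw [g3] at g2
    exact g2
  have hu' : ∀ x : ℝ, HasDerivAt (fun x : ℝ => ((a + b * x : ℝ) : ℂ)) (b : ℂ) x := by
    intro x
    have g1 : HasDerivAt (fun x : ℝ => a + b * x) b x := by
      simpa using ((hasDerivAt_id x).const_mul b).const_add a
    exact g1.ofReal_comp
  have h2 := intervalIntegral.integral_mul_deriv_eq_deriv_mul (a := (-1 : ℝ)) (b := 1)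
    (fun x _ => hu' x) (fun x _ => hv' x) (intervalIntegrable_const)
    ((ee_cont.comp (by fun_prop : Continuous fun x : ℝ => -(t * x))).intervalIntegrable _ _)
  have h3 : ‖∫ x in (-1 : ℝ)..1, (b : ℂ) * v x‖ ≤ |b| * (2 * π * |t|)⁻¹ * |1 - (-1 : ℝ)| := by
    refine intervalIntegral.norm_integral_le_of_norm_le_const fun x _ => ?_
    rw [norm_mul, hvn, Complex.norm_real, Real.norm_eq_abs]
  have h4 : |1 - (-1 : ℝ)| = 2 := by norm_num
  rw [h4] at h3
  have ht' : 0 < |t| := abs_pos.2 ht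
  have hw : (2 * π * |t|)⁻¹ ≤ 1 / (6 * |t|) := by
    rw [inv_eq_one_div]
    apply one_div_le_one_div_of_le (by positivity)
    nlinarith [pi_gt_three]
  have hw0 : 0 ≤ (2 * π * |t|)⁻¹ := by positivity
  rw [h1, norm_smul, h2]
  have h5 : ‖((a + b * 1 : ℝ) : ℂ) * v 1 - ((a + b * (-1) : ℝ) : ℂ) * v (-1) -
      ∫ x in (-1 : ℝ)..1, (b : ℂ) * v x‖ ≤ (2 * |a| + 4 * |b|) * (2 * π * |t|)⁻¹ := by
    refine (norm_sub_le _ _).trans ?_
    have e1 : ‖((a + b * 1 : ℝ) : ℂ) * v 1 - ((a + b * (-1) : ℝ) : ℂ) * v (-1)‖ ≤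
        (2 * |a| + 2 * |b|) * (2 * π * |t|)⁻¹ := by
      refine (norm_sub_le _ _).trans ?_
      rw [norm_mul (((a + b * 1 : ℝ)) : ℂ) (v 1), norm_mul (((a + b * (-1) : ℝ)) : ℂ) (v (-1)),
        hvn, hvn, Complex.norm_real, Complex.norm_real, Real.norm_eq_abs, Real.norm_eq_abs]
      have k1 : |a + b * 1| ≤ |a| + |b| := by rw [mul_one]; exact abs_add_le a b
      have k2 : |a + b * (-1)| ≤ |a| + |b| := by
        have := abs_add_le a (b * (-1))
        rwa [abs_mul, abs_neg, abs_one, mul_one] at this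
      nlinarith
    nlinarith
  have h6 : (2 * |a| + 4 * |b|) * (2 * π * |t|)⁻¹ ≤ (2 * |a| + 4 * |b|) * (1 / (6 * |t|)) :=
    mul_le_mul_of_nonneg_left hw (by positivity)
  have h7 : ‖(2 : ℝ)⁻¹‖ = 1 / 2 := by norm_num
  rw [h7]
  calc 1 / 2 * ‖((a + b * 1 : ℝ) : ℂ) * v 1 - ((a + b * (-1) : ℝ) : ℂ) * v (-1) -
      ∫ x in (-1 : ℝ)..1, (b : ℂ) * v x‖ ≤ 1 / 2 * ((2 * |a| + 4 * |b|) * (1 / (6 * |t|))) := by
        gcongr
        exact h5.trans h6
    _ = (|a| / 6 + |b| / 3) / |t| := by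
        field_simp
        ring
    _ ≤ (|a| + |b|) / |t| := by
        gcongr
        · linarith [abs_nonneg a]
        · linarith [abs_nonneg b]

end Pool.Agent.Helper76.EO
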