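import Pool.Agent.Helper76.EO.Base

/-!
# EO-S6: lattice points in a strip parallel to a lattice vector

PROOF. `k ∈ blk n`, `x = 2^n ≤ nk k < 2x`. `g = gcd`, `k = g q`, `q` primitive, `prm k = nk q = nk k/g` (call it `|q|`). `crs k k' = g (q × k')`.
Integers `m = q × k'` with `|g m| ≤ h`: at most `2h/g + 1`. For a fixed `m`: if `k', k''` are two solutions then `q × (k' - k'') = 0`, so
`k' - k'' = t q` with `t ∈ ℤ` (`q` primitive: `Int.isCoprime_iff_gcd_eq_one`, `IsCoprime.dvd_of_dvd_mul_left`), and `‖k' - k''‖ < 4x`: fixing one solution,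
`t` lies in an interval: at most `4x/|q| + 1` solutions (order the solutions by `t`, or: the set of the `t` has diameter `< 4x/|q|`).
Total `≤ (2h/g + 1)(4x/|q| + 1) = 8hx/(g|q|) + 2h/g + 4x/|q| + 1`, with `g |q| = nk k ≥ x` and `1/g = |q|/nk k ≤ 2` (as `|q| ≤ nk k`; `g ≥ 1`):
`≤ 8h + 4h + 4x/|q| + 1`.
-/

open Real Set Filter Topology

set_option autoImplicit false

namespace Pool.Agent.Helper76.EO

open Pool.Agent.Helper22.AE

private theorem card_int_diam (S : Finset ℤ) (D : ℝ) (hD : 0 ≤ D)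
    (h : ∀ a ∈ S, ∀ b ∈ S, (a : ℝ) - b ≤ D) : (S.card : ℝ) ≤ D + 1 := by
  rcases S.eq_empty_or_nonempty with rfl | hne
  · simp only [Finset.card_empty, Nat.cast_zero]; linarith
  have hsub : S ⊆ Finset.Icc (S.min' hne) (S.max' hne) := fun a ha =>
    Finset.mem_Icc.2 ⟨S.min'_le a ha, S.le_max' a ha⟩
  have h1 := Finset.card_le_card hsub
  rw [Int.card_Icc] at h1
  have h2 := h _ (S.max'_mem hne) _ (S.min'_mem hne)
  have h3 : S.min' hne ≤ S.max' hne := S.min'_le _ (S.max'_mem hne)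
  have h4 : (((S.max' hne + 1 - S.min' hne).toNat : ℤ) : ℝ) = ((S.max' hne + 1 - S.min' hne : ℤ) : ℝ) := by
    rw [Int.toNat_of_nonneg (by omega)]
  have h5 : (S.card : ℝ) ≤ (((S.max' hne + 1 - S.min' hne).toNat : ℤ) : ℝ) := by exact_mod_cast h1
  rw [h4] at h5
  push_cast at h5
  linarith

private theorem cz_eq (k : ℤ × ℤ) : cz k = (k.1 : ℂ) + (k.2 : ℂ) * Complex.I := by
  apply Complex.ext <;> simp [cz]

open Classical in
theorem cross_count {n : ℕ} {k : ℤ × ℤ} (hk : k ∈ blk n) {h : ℝ} (hh : 0 ≤ h) :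
    (((blk n).filter (fun k' => |(crs k k' : ℝ)| ≤ h)).card : ℝ) ≤ 12 * h + 4 * 2 ^ n / prm k + 1 := by
  have hkn : (2 : ℝ) ^ n ≤ nk k := by
    unfold blk at hk
    rw [Finset.mem_filter] at hk
    exact hk.2.1
  have hx : (0 : ℝ) < 2 ^ n := by positivity
  have hk0 : 0 < nk k := by linarith
  have hkne : k.1 ≠ 0 ∨ k.2 ≠ 0 := by
    by_contra hc
    push Not at hc
    unfold nk at hk0
    rw [cz_eq, hc.1, hc.2] at hk0
    simp at hk0
  obtain ⟨g, hgdef⟩ : ∃ g : ℕ, g = Int.gcd k.1 k.2 := ⟨_, rfl⟩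
  have hg : 0 < g := by
    rw [hgdef, Int.gcd_pos_iff]
    exact hkne
  have hgr : (1 : ℝ) ≤ g := by exact_mod_cast hg
  obtain ⟨q1, hq1⟩ : (g : ℤ) ∣ k.1 := by rw [hgdef]; exact Int.gcd_dvd_left _ _
  obtain ⟨q2, hq2⟩ : (g : ℤ) ∣ k.2 := by rw [hgdef]; exact Int.gcd_dvd_right _ _
  obtain ⟨u, v, huv⟩ : ∃ u v : ℤ, u * q1 + v * q2 = 1 := by
    have h1 := Int.gcd_eq_gcd_ab k.1 k.2
    rw [← hgdef] at h1
    refine ⟨Int.gcdA k.1 k.2, Int.gcdB k.1 k.2, ?_⟩
    have hg0 : (g : ℤ) ≠ 0 := by exact_mod_cast hg.ne'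
    apply mul_left_cancel₀ hg0
    set A := Int.gcdA k.1 k.2
    set B := Int.gcdB k.1 k.2
    rw [hq1, hq2] at h1
    linarith
  set Q : ℝ := prm k with hQ
  have hgQ : g * Q = nk k := by
    rw [hQ, prm, ← hgdef]
    field_simp
  have hQ0 : 0 < Q := by
    have : 0 < g * Q := by rw [hgQ]; exact hk0
    exact (mul_pos_iff_of_pos_left (by linarith)).1 this
  -- the vector `q`
  have hqn : ‖((q1 : ℂ) + (q2 : ℂ) * Complex.I)‖ = Q := by
    have h1 : nk k = g * ‖((q1 : ℂ) + (q2 : ℂ) * Complex.I)‖ := by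
      unfold nk
      rw [cz_eq, hq1, hq2]
      have : (((g * q1 : ℤ) : ℂ) + ((g * q2 : ℤ) : ℂ) * Complex.I) =
          (g : ℂ) * ((q1 : ℂ) + (q2 : ℂ) * Complex.I) := by push_cast; ring
      rw [this, norm_mul, Complex.norm_natCast]
    rw [← hgQ] at h1
    exact (mul_left_cancel₀ (by positivity) h1).symm
  set A := (blk n).filter (fun k' => |(crs k k' : ℝ)| ≤ h) with hA
  set f : ℤ × ℤ → ℤ := fun k' => q1 * k'.2 - q2 * k'.1 with hf
  have hcr : ∀ k', crs k k' = g * f k' := by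
    intro k'
    simp only [crs, hf]
    rw [hq1, hq2]
    ring
  -- one fibre
  have hfib : ∀ m ∈ A.image f, (((A.filter (fun k' => f k' = m)).card : ℕ) : ℝ) ≤ 4 * 2 ^ n / Q + 1 := by
    intro m _
    set τ : ℤ × ℤ → ℤ := fun k' => u * k'.1 + v * k'.2 with hτ
    have hdiff : ∀ a ∈ A.filter (fun k' => f k' = m), ∀ b ∈ A.filter (fun k' => f k' = m),
        a.1 - b.1 = (τ a - τ b) * q1 ∧ a.2 - b.2 = (τ a - τ b) * q2 := by
      intro a ha b hb
      have ha' := (Finset.mem_filter.1 ha).2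
      have hb' := (Finset.mem_filter.1 hb).2
      simp only [hf] at ha' hb'
      have e : q1 * (a.2 - b.2) = q2 * (a.1 - b.1) := by linarith
      simp only [hτ]
      constructor
      · calc a.1 - b.1 = (u * q1 + v * q2) * (a.1 - b.1) := by rw [huv, one_mul]
          _ = u * q1 * (a.1 - b.1) + v * (q2 * (a.1 - b.1)) := by ring
          _ = u * q1 * (a.1 - b.1) + v * (q1 * (a.2 - b.2)) := by rw [e]
          _ = _ := by ring
      · calc a.2 - b.2 = (u * q1 + v * q2) * (a.2 - b.2) := by rw [huv, one_mul]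
          _ = u * (q1 * (a.2 - b.2)) + v * q2 * (a.2 - b.2) := by ring
          _ = u * (q2 * (a.1 - b.1)) + v * q2 * (a.2 - b.2) := by rw [e]
          _ = _ := by ring
    have hinj : Set.InjOn τ (A.filter (fun k' => f k' = m) : Set (ℤ × ℤ)) := by
      intro a ha b hb hab
      obtain ⟨h1, h2⟩ := hdiff a ha b hb
      rw [hab, sub_self, zero_mul] at h1 h2
      exact Prod.ext (by linarith) (by linarith)
    rw [← Finset.card_image_of_injOn hinj]
    refine card_int_diam _ _ (by positivity) ?_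
    intro s hs t ht
    obtain ⟨a, ha, rfl⟩ := Finset.mem_image.1 hs
    obtain ⟨b, hb, rfl⟩ := Finset.mem_image.1 ht
    obtain ⟨h1, h2⟩ := hdiff a ha b hb
    have hna : nk a < 2 ^ (n + 1) := by
      have := (Finset.mem_filter.1 (Finset.mem_filter.1 ha).1).1
      unfold blk at this
      rw [Finset.mem_filter] at this
      exact this.2.2
    have hnb : nk b < 2 ^ (n + 1) := by
      have := (Finset.mem_filter.1 (Finset.mem_filter.1 hb).1).1
      unfold blk at this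
      rw [Finset.mem_filter] at this
      exact this.2.2
    have h3 : cz a - cz b = ((τ a - τ b : ℤ) : ℂ) * ((q1 : ℂ) + (q2 : ℂ) * Complex.I) := by
      have e1 : ((a.1 - b.1 : ℤ) : ℂ) = (((τ a - τ b) * q1 : ℤ) : ℂ) := by rw [h1]
      have e2 : ((a.2 - b.2 : ℤ) : ℂ) = (((τ a - τ b) * q2 : ℤ) : ℂ) := by rw [h2]
      rw [cz_eq, cz_eq]
      push_cast at e1 e2 ⊢
      linear_combination e1 + Complex.I * e2
    have h4 : |((τ a - τ b : ℤ) : ℝ)| * Q ≤ 4 * 2 ^ n := by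
      have h5 : ‖cz a - cz b‖ = |((τ a - τ b : ℤ) : ℝ)| * Q := by
        rw [h3, norm_mul, hqn, Complex.norm_intCast]
      rw [← h5]
      have h6 := norm_sub_le (cz a) (cz b)
      have h7 : ‖cz a‖ = nk a := rfl
      have h8 : ‖cz b‖ = nk b := rfl
      rw [pow_succ] at hna hnb
      linarith
    rw [le_div_iff₀ hQ0]
    refine le_trans ?_ h4
    have h9 := le_abs_self ((τ a - τ b : ℤ) : ℝ)
    push_cast at h9 ⊢
    gcongr
  have himg : ((A.image f).card : ℝ) ≤ 2 * h / g + 1 := by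
    refine card_int_diam _ _ (by positivity) ?_
    intro s hs t ht
    obtain ⟨a, ha, rfl⟩ := Finset.mem_image.1 hs
    obtain ⟨b, hb, rfl⟩ := Finset.mem_image.1 ht
    have h1 := (Finset.mem_filter.1 ha).2
    have h2 := (Finset.mem_filter.1 hb).2
    rw [hcr] at h1 h2
    push_cast at h1 h2
    rw [le_div_iff₀ (by linarith)]
    have h3 := (abs_le.1 h1).2
    have h4 := (abs_le.1 h2).1
    linarith
  have hsum : (A.card : ℝ) ≤ (2 * h / g + 1) * (4 * 2 ^ n / Q + 1) := by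
    rw [Finset.card_eq_sum_card_image f A]
    push_cast
    calc ∑ m ∈ A.image f, (((A.filter (fun k' => f k' = m)).card : ℕ) : ℝ)
        ≤ ∑ m ∈ A.image f, (4 * 2 ^ n / Q + 1) := Finset.sum_le_sum hfib
      _ = (A.image f).card * (4 * 2 ^ n / Q + 1) := by rw [Finset.sum_const, nsmul_eq_mul]
      _ ≤ _ := by
          gcongr
  refine hsum.trans ?_
  have e : (2 * h / g + 1) * (4 * 2 ^ n / Q + 1) = 8 * h * (2 ^ n / (g * Q)) + 2 * h / g + 4 * 2 ^ n / Q + 1 := by
    field_simp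
    ring
  rw [e, hgQ]
  have h1 : 2 ^ n / nk k ≤ 1 := by rw [div_le_one hk0]; exact hkn
  have h2 : 2 * h / g ≤ 2 * h := div_le_self (by positivity) hgr
  have h3 : 8 * h * (2 ^ n / nk k) ≤ 8 * h * 1 := by gcongr
  linarith

end Pool.Agent.Helper76.EO
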