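import Pool.Agent.Helper76.EO.S1b
import Pool.Agent.Helper76.EO.S6
import Pool.Agent.Helper22.AE.D3

/-!
# EO-S8: number of pairs of points in the same arc

PROOF. `∑_i n_i² = #{(k, k') ∈ Bq² : aix k = aix k'} ≤ ∑_{k ∈ Bq} #{k' ∈ blk n : |crs k k'| ≤ h}`, `h = 8π 4^n/2^j ≤ 8π 2^n/Q` (`aix_cross`, `hj`),
`cross_count`: `≤ 12h + 4·2^n/prm k + 1 ≤ (96π + 4 + 1) 2^n/Q` (`prm k > Q`, `Q ≤ 2^n`), `#blk n ≤ 25·4^n`: total `≤ 25·307 (2^n)³/Q`.
-/

open Real Set Filter Topology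

set_option autoImplicit false

namespace Pool.Agent.Helper76.EO

open Pool.Agent.Helper22.AE

private lemma s8_mem {n : ℕ} {Q : ℝ} {k : ℤ × ℤ} : k ∈ Bq n Q ↔ k ∈ blk n ∧ Q < prm k := by
  unfold Bq
  classical
  rw [Finset.mem_filter]

theorem pairs_bound {n j : ℕ} {Q α : ℝ} (hQ : 1 ≤ Q) (hQ2 : Q ≤ 2 ^ n) (hj : 2 ^ n * Q ≤ 2 ^ j) :
    ∑ i ∈ Finset.range (2 ^ j), (((Bq n Q).filter (fun k => aix j α k = i)).card : ℝ) ^ 2 ≤ 8000 * (2 ^ n) ^ 3 / Q := by
  classical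
  have hQ0 : (0 : ℝ) < Q := by linarith
  have hx0 : (0 : ℝ) < 2 ^ n := by positivity
  have hj0 : (0 : ℝ) < 2 ^ j := by positivity
  have hsub : Bq n Q ⊆ blk n := fun k hk => (s8_mem.1 hk).1
  -- the sum is a sum over the points
  have h1 : ∑ i ∈ Finset.range (2 ^ j), (((Bq n Q).filter (fun k => aix j α k = i)).card : ℝ) ^ 2 =
      ∑ k ∈ Bq n Q, (((Bq n Q).filter (fun k' => aix j α k' = aix j α k)).card : ℝ) := by
    rw [← Finset.sum_fiberwise_of_maps_to (s := Bq n Q) (t := Finset.range (2 ^ j)) (g := fun k => aix j α k)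
      (fun k _ => Finset.mem_range.2 (aix_lt j α k))]
    refine Finset.sum_congr rfl fun i _ => ?_
    rw [Finset.sum_congr rfl (g := fun _ => (((Bq n Q).filter (fun k => aix j α k = i)).card : ℝ))]
    · rw [Finset.sum_const, nsmul_eq_mul, sq]
    · intro k hk
      rw [(Finset.mem_filter.1 hk).2]
  rw [h1]
  have hbound : ∀ k ∈ Bq n Q, (((Bq n Q).filter (fun k' => aix j α k' = aix j α k)).card : ℝ) ≤ 307 * 2 ^ n / Q := by
    intro k hk
    have hk1 := (s8_mem.1 hk).1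
    have hk2 := (s8_mem.1 hk).2
    have hp0 : 0 < prm k := lt_trans hQ0 hk2
    have h2 : (((Bq n Q).filter (fun k' => aix j α k' = aix j α k)).card : ℝ) ≤
        (((blk n).filter (fun k' => |(crs k k' : ℝ)| ≤ 8 * π * 4 ^ n / 2 ^ j)).card : ℝ) := by
      have : ((Bq n Q).filter (fun k' => aix j α k' = aix j α k)).card ≤
          ((blk n).filter (fun k' => |(crs k k' : ℝ)| ≤ 8 * π * 4 ^ n / 2 ^ j)).card := by
        refine Finset.card_le_card fun k' hk' => ?_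
        rw [Finset.mem_filter] at hk' ⊢
        exact ⟨hsub hk'.1, aix_cross hk1 (hsub hk'.1) hk'.2.symm⟩
      exact_mod_cast this
    have h3 := cross_count hk1 (h := 8 * π * 4 ^ n / 2 ^ j) (by positivity)
    have h4 : (8 * π * 4 ^ n / 2 ^ j : ℝ) ≤ 8 * π * (2 ^ n / Q) := by
      rw [mul_div_assoc]
      refine mul_le_mul_of_nonneg_left ?_ (by positivity)
      rw [div_le_div_iff₀ hj0 hQ0]
      have e : (4 : ℝ) ^ n = 2 ^ n * 2 ^ n := by
        rw [← mul_pow]; norm_num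
      rw [e]
      nlinarith [mul_le_mul_of_nonneg_left hj hx0.le]
    have h5 : (4 : ℝ) * 2 ^ n / prm k ≤ 4 * (2 ^ n / Q) := by
      rw [mul_div_assoc]
      refine mul_le_mul_of_nonneg_left ?_ (by norm_num)
      exact div_le_div_of_nonneg_left hx0.le hQ0 hk2.le
    have h6 : (1 : ℝ) ≤ 2 ^ n / Q := by
      rw [le_div_iff₀ hQ0]
      linarith
    have h7 : π < 3.1416 := Real.pi_lt_d4
    have h8 : 8 * π * (2 ^ n / Q) ≤ 8 * 3.1416 * (2 ^ n / Q) :=
      mul_le_mul_of_nonneg_right (by linarith) (by positivity)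
    rw [mul_div_assoc]
    linarith
  refine (Finset.sum_le_sum hbound).trans ?_
  rw [Finset.sum_const, nsmul_eq_mul]
  have h9 : ((Bq n Q).card : ℝ) ≤ 25 * (2 ^ n * 2 ^ n) := by
    have e : (4 : ℝ) ^ n = 2 ^ n * 2 ^ n := by
      rw [← mul_pow]; norm_num
    rw [← e]
    refine le_trans ?_ (blk_card n)
    exact_mod_cast Finset.card_le_card hsub
  have h10 : (0 : ℝ) ≤ 307 * 2 ^ n / Q := by positivity
  refine (mul_le_mul_of_nonneg_right h9 h10).trans ?_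
  have h11 : (25 * (2 ^ n * 2 ^ n) * (307 * 2 ^ n / Q) : ℝ) = 7675 * ((2 ^ n) ^ 3 / Q) := by ring
  have h12 : (8000 * (2 ^ n) ^ 3 / Q : ℝ) = 8000 * ((2 ^ n) ^ 3 / Q) := by ring
  rw [h11, h12]
  exact mul_le_mul_of_nonneg_right (by norm_num) (by positivity)

end Pool.Agent.Helper76.EO
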