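import Pool.Agent.Helper76.EO.S1
import Pool.Agent.Helper76.EO.S2
import Pool.Agent.Helper76.EO.S4
import Pool.Agent.Helper76.EO.S5
import Pool.Agent.Helper76.EO.S8

/-!
# EO-S9: large deviations of the exponential sum at a fixed radius and angle

PROOF. `Bq n Q` is split by the parity of `aix j α k`: `TS = T⁰ + T¹`; if `‖TS‖ > 2(t + m)` then `‖T^c‖ > t + m` for some `c`, `m = 50(D+2)2^n/(R am j)`.
Fix `c`, `A = cls j c`. The event `{‖T^c‖ > t + m}` is open (`Psi_cont`). `resample_le` with `A`: fix `ω` and let `ω' = A.piecewise u ω`,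
`ω'' = A.piecewise 0 ω`. For `k` with `aix j α k = i`, `i % 2 = c`, `θ = tk k + α`: by `Psi_split`, `Wav`, `bmp_one`, `bmp_zero`, `aix_arc`:
near `θ` one has `Hr F H₀ ω' = Hr F H₀ ω'' + am j * clip (u (j, i))` (a constant), so `gph (Hr ω') k α = gph (Hr ω'') k α + am j clip(u(j,i)) cos α`,
`rho (Hr ω') θ = rho (Hr ω'') θ + am j clip (u (j,i))`. Therefore `T^c = ∑_{p ∈ A} f p (u p)`,
`f (j, i) x = ∑_{k : aix k = i} c k ee(-(R nk k gph (Hr ω'') k α)) (a_k + b clip x) ee(-(t_k clip x))`, `a_k = a0 + b0 rho (Hr ω'') θ_k`,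
`b = b0 am j`, `t_k = R nk k am j cos α`, `|t_k| ≥ R 2^n am j/2`. `‖f (j,i) x‖ ≤ D n_i`: the amplitude is `a0 + b0 rho (Hr ω')` at a sample `ω'` with
coordinate `x` at `(j, i)`, `|rho| ≤ B`; `D = 2 + 2B`; `n_i` the number of the `k`. `‖∫ f dmu‖ ≤ n_i (D + 2) 2/(R 2^n am j)` (`char_bound`).
`∑ D² n_i² ≤ D² 8000 (2^n)³/Q` (`pairs_bound`), `∑ n_i ≤ 25·4^n` (`blk_card`). `hoeffding_c`.
-/

open MeasureTheory Real Set Filter Topology

set_option autoImplicit false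

namespace Pool.Agent.Helper76.EO

open Pool.Agent.Helper22.AE

private lemma s9_mem_cls {j c : ℕ} {p : ℕ × ℕ} : p ∈ cls j c ↔ p.1 = j ∧ p.2 < 2 ^ j ∧ p.2 % 2 = c := by
  unfold cls
  rw [Finset.mem_map]
  constructor
  · rintro ⟨i, hi, rfl⟩
    rw [Finset.mem_filter, Finset.mem_range] at hi
    exact ⟨rfl, hi.1, hi.2⟩
  · rintro ⟨h1, h2, h3⟩
    refine ⟨p.2, ?_, ?_⟩
    · rw [Finset.mem_filter, Finset.mem_range]
      exact ⟨h2, h3⟩
    · rw [← h1]
      rfl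

/-- near the point the resampled function differs by a constant -/
private lemma s9_near {F : Fam} (hF : F.Good) {am : ℕ → ℝ} (hW : F.Wav am) (H₀ : ℝ → ℝ) {j c : ℕ} (hj1 : 1 ≤ j)
    (α : ℝ) (k : ℤ × ℤ) (hc : aix j α k % 2 = c) (u ω : Sp) :
    Hr F H₀ ((cls j c).piecewise u ω) =ᶠ[𝓝 (tk k + α)]
      fun θ => Hr F H₀ ((cls j c).piecewise 0 ω) θ + am j * clip (u (j, aix j α k)) := by
  obtain ⟨m, hm⟩ := aix_arc j α k
  have hlt := aix_lt j α k
  have hall : ∀ᶠ θ in 𝓝 (tk k + α), ∀ p ∈ cls j c, F.f p θ = if p = (j, aix j α k) then 1 else 0 := by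
    rw [Filter.eventually_all_finset]
    intro p hp
    rw [s9_mem_cls] at hp
    obtain ⟨h1, h2, h3⟩ := hp
    have hfp : F.f p = bmp j p.2 := by
      have := (hW j p.2 hj1 h2).1
      rw [← this, ← h1]
    by_cases he : p = (j, aix j α k)
    · have h4 : p.2 = aix j α k := by rw [he]
      filter_upwards [bmp_one hj1 hm] with θ hθ
      rw [if_pos he, hfp, h4]
      exact hθ
    · have h4 : p.2 ≠ aix j α k := by
        intro h
        apply he
        rw [← h, ← h1]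
      filter_upwards [bmp_zero hj1 h2 hlt h4 (by rw [h3, hc]) hm] with θ hθ
      rw [if_neg he, hfp]
      exact hθ
  filter_upwards [hall] with θ hθ
  unfold Hr
  rw [Psi_split hF, ← add_assoc]
  congr 1
  have hp0 : (j, aix j α k) ∈ cls j c := s9_mem_cls.2 ⟨rfl, hlt, hc⟩
  rw [Finset.sum_eq_single (j, aix j α k)]
  · rw [hθ _ hp0, if_pos rfl, mul_one, (hW j _ hj1 hlt).2]
  · intro p hp hne
    rw [hθ p hp, if_neg hne, mul_zero]
  · exact fun h => absurd hp0 h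

private lemma s9_rho {f g : ℝ → ℝ} {θ e : ℝ} (h : f =ᶠ[𝓝 θ] fun x => g x + e) :
    rho f θ = rho g θ + e ∧ f θ = g θ + e ∧ deriv f θ = deriv g θ := by
  have h1 : deriv f =ᶠ[𝓝 θ] deriv g := by
    refine h.deriv.trans (Filter.Eventually.of_forall fun x => ?_)
    exact deriv_add_const e
  have h2 : deriv (deriv f) θ = deriv (deriv g) θ := h1.deriv_eq
  refine ⟨?_, h.eq_of_nhds, h1.eq_of_nhds⟩
  unfold rho
  rw [h2, h.eq_of_nhds]
  ring

private lemma s9_gph {f g : ℝ → ℝ} {k : ℤ × ℤ} {α e : ℝ} (h : f =ᶠ[𝓝 (tk k + α)] fun x => g x + e) :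
    gph f k α = gph g k α + e * cos α := by
  obtain ⟨_, h1, h2⟩ := s9_rho h
  unfold gph
  rw [h1, h2]
  ring

/-- the part of the exponential sum with arcs of parity `c` -/
private noncomputable def TC (n : ℕ) (B : Finset (ℤ × ℤ)) (j cc : ℕ) (c : ℤ × ℤ → ℂ) (a0 b0 R α : ℝ) (H : ℝ → ℝ) : ℂ :=
  TS n (B.filter (fun k => aix j α k % 2 = cc)) c a0 b0 R α H

private lemma s9_split (n : ℕ) (B : Finset (ℤ × ℤ)) (j : ℕ) (c : ℤ × ℤ → ℂ) (a0 b0 R α : ℝ) (H : ℝ → ℝ) :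
    TS n B c a0 b0 R α H = TC n B j 0 c a0 b0 R α H + TC n B j 1 c a0 b0 R α H := by
  unfold TC TS
  have h1 : B.filter (fun k => aix j α k % 2 = 1) = B.filter (fun k => ¬ aix j α k % 2 = 0) := by
    refine Finset.filter_congr fun k _ => ?_
    omega
  rw [h1, Finset.sum_filter_add_sum_filter_not]

/-- the summand of `TS` depends continuously on the sample -/
private lemma s9_cont {F : Fam} (hF : F.Good) {H₀ : ℝ → ℝ} (h0 : ContDiff ℝ 2 H₀) (n : ℕ) (B : Finset (ℤ × ℤ))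
    (c : ℤ × ℤ → ℂ) (a0 b0 R α : ℝ) : Continuous (fun ω : Sp => TS n B c a0 b0 R α (Hr F H₀ ω)) := by
  have hs2 : ∀ ω, ContDiff ℝ 2 (Psi F ω) := fun ω => by exact_mod_cast (contDiff_infty.1 (Psi_smooth hF ω)) 2
  have d1 : ∀ ω, deriv (Hr F H₀ ω) = fun θ => deriv H₀ θ + deriv (Psi F ω) θ := by
    intro ω
    funext θ
    exact deriv_add (h0.differentiable (by norm_num) θ) ((hs2 ω).differentiable (by norm_num) θ)
  have dd : ∀ {f : ℝ → ℝ}, ContDiff ℝ 2 f → Differentiable ℝ (deriv f) := by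
    intro f hf
    have h1 : ContDiff ℝ (1 + 1) f := by
      have : (1 + 1 : WithTop ℕ∞) = 2 := by norm_num
      rw [this]; exact hf
    exact (contDiff_succ_iff_deriv.1 h1).2.2.differentiable (by norm_num)
  have d2 : ∀ ω θ, deriv (deriv (Hr F H₀ ω)) θ = deriv (deriv H₀) θ + deriv (deriv (Psi F ω)) θ := by
    intro ω θ
    rw [d1]
    exact deriv_add (dd h0 θ) (dd (hs2 ω) θ)
  have c0 : ∀ θ, Continuous (fun ω : Sp => Hr F H₀ ω θ) := by
    intro θ
    have h := (Psi_cont hF 0).comp (Continuous.prodMk continuous_id (continuous_const (y := θ)))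
    simp only [iteratedDeriv_zero] at h
    exact continuous_const.add h
  have c1 : ∀ θ, Continuous (fun ω : Sp => deriv (Hr F H₀ ω) θ) := by
    intro θ
    have h := (Psi_cont hF 1).comp (Continuous.prodMk continuous_id (continuous_const (y := θ)))
    simp only [iteratedDeriv_one] at h
    have h2 : (fun ω : Sp => deriv (Hr F H₀ ω) θ) = fun ω => deriv H₀ θ + deriv (Psi F ω) θ := by
      funext ω
      rw [d1]
    rw [h2]
    exact continuous_const.add h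
  have c2 : ∀ θ, Continuous (fun ω : Sp => deriv (deriv (Hr F H₀ ω)) θ) := by
    intro θ
    have h := (Psi_cont hF 2).comp (Continuous.prodMk continuous_id (continuous_const (y := θ)))
    simp only [iteratedDeriv_succ, iteratedDeriv_zero] at h
    have h2 : (fun ω : Sp => deriv (deriv (Hr F H₀ ω)) θ) = fun ω => deriv (deriv H₀) θ + deriv (deriv (Psi F ω)) θ := by
      funext ω
      rw [d2]
    rw [h2]
    exact continuous_const.add h
  unfold TS
  refine continuous_finsetSum _ fun k _ => ?_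
  refine (continuous_const.mul ?_).mul ?_
  · refine Complex.continuous_ofReal.comp ?_
    unfold rho
    exact continuous_const.add (continuous_const.mul ((c0 _).add (c2 _)))
  · refine ee_cont.comp ?_
    unfold gph
    exact (continuous_const.mul (((c0 _).mul continuous_const).sub ((c1 _).mul continuous_const))).neg

/-- the functions of the single coordinates -/
private noncomputable def s9f (F : Fam) (am : ℕ → ℝ) (H₀ : ℝ → ℝ) (n j cc : ℕ) (Q : ℝ) (c : ℤ × ℤ → ℂ) (a0 b0 R α : ℝ)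
    (ω : Sp) (p : ℕ × ℕ) (x : ℝ) : ℂ :=
  ∑ k ∈ (Bq n Q).filter (fun k => (j, aix j α k) = p),
    (c k * ee (-(R * nk k * gph (Hr F H₀ ((cls j cc).piecewise 0 ω)) k α))) *
      ((((a0 + b0 * rho (Hr F H₀ ((cls j cc).piecewise 0 ω)) (tk k + α)) + b0 * am j * clip x : ℝ) : ℂ) *
        ee (-((R * nk k * am j * cos α) * clip x)))

private lemma s9_f_cont (F : Fam) (am : ℕ → ℝ) (H₀ : ℝ → ℝ) (n j cc : ℕ) (Q : ℝ) (c : ℤ × ℤ → ℂ) (a0 b0 R α : ℝ)
    (ω : Sp) (p : ℕ × ℕ) : Continuous (s9f F am H₀ n j cc Q c a0 b0 R α ω p) := by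
  unfold s9f
  refine continuous_finsetSum _ fun k _ => ?_
  refine continuous_const.mul (Continuous.mul ?_ ?_)
  · exact Complex.continuous_ofReal.comp (continuous_const.add (continuous_const.mul clip_cont))
  · exact ee_cont.comp (continuous_const.mul clip_cont).neg

/-- the resampled sum is a sum of functions of single coordinates -/
private lemma s9_sum {F : Fam} (hF : F.Good) {am : ℕ → ℝ} (hW : F.Wav am) (H₀ : ℝ → ℝ) (n : ℕ) {j : ℕ} (cc : ℕ) (hj1 : 1 ≤ j)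
    (Q : ℝ) (c : ℤ × ℤ → ℂ) (a0 b0 R α : ℝ) (u ω : Sp) :
    TC n (Bq n Q) j cc c a0 b0 R α (Hr F H₀ ((cls j cc).piecewise u ω)) =
      ∑ p ∈ cls j cc, s9f F am H₀ n j cc Q c a0 b0 R α ω p (u p) := by
  classical
  unfold TC TS s9f
  rw [← Finset.sum_fiberwise_of_maps_to (s := (Bq n Q).filter (fun k => aix j α k % 2 = cc)) (t := cls j cc)
    (g := fun k => (j, aix j α k))]
  · refine Finset.sum_congr rfl fun p hp => ?_
    rw [s9_mem_cls] at hp
    have h1 : ((Bq n Q).filter (fun k => aix j α k % 2 = cc)).filter (fun k => (j, aix j α k) = p) =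
        (Bq n Q).filter (fun k => (j, aix j α k) = p) := by
      rw [Finset.filter_filter]
      refine Finset.filter_congr fun k _ => ?_
      constructor
      · exact fun h => h.2
      · intro h
        refine ⟨?_, h⟩
        rw [← hp.2.2, ← h]
    rw [h1]
    refine Finset.sum_congr rfl fun k hk => ?_
    have hk2 := (Finset.mem_filter.1 hk).2
    have hpar : aix j α k % 2 = cc := by
      rw [← hp.2.2, ← hk2]
    have h2 := s9_near hF hW H₀ hj1 α k hpar u ω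
    rw [hk2] at h2
    rw [(s9_rho h2).1, s9_gph h2]
    have h3 : -(R * nk k * (gph (Hr F H₀ ((cls j cc).piecewise 0 ω)) k α + am j * clip (u p) * cos α)) =
        -(R * nk k * gph (Hr F H₀ ((cls j cc).piecewise 0 ω)) k α) + -((R * nk k * am j * cos α) * clip (u p)) := by ring
    rw [h3, ee_add]
    have h4 : a0 + b0 * (rho (Hr F H₀ ((cls j cc).piecewise 0 ω)) (tk k + α) + am j * clip (u p)) =
        (a0 + b0 * rho (Hr F H₀ ((cls j cc).piecewise 0 ω)) (tk k + α)) + b0 * am j * clip (u p) := by ring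
    rw [h4]
    ring
  · intro k hk
    rw [s9_mem_cls]
    exact ⟨rfl, aix_lt j α k, (Finset.mem_filter.1 hk).2⟩

private lemma s9_amp {B a0 b0 r : ℝ} (ha0 : |a0| ≤ 2) (hb0 : |b0| ≤ 2) (hr : |r| ≤ B) : |a0 + b0 * r| ≤ 2 + 2 * B := by
  refine (abs_add_le _ _).trans ?_
  rw [abs_mul]
  have h1 : |b0| * |r| ≤ 2 * B := mul_le_mul hb0 hr (abs_nonneg _) (by norm_num)
  linarith

private lemma s9_blk {n : ℕ} {Q : ℝ} {k : ℤ × ℤ} (hk : k ∈ Bq n Q) : k ∈ blk n ∧ (2 : ℝ) ^ n ≤ nk k := by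
  classical
  unfold Bq at hk
  have h1 := (Finset.mem_filter.1 hk).1
  refine ⟨h1, ?_⟩
  unfold blk at h1
  exact (Finset.mem_filter.1 h1).2.1

private lemma s9_f_le {F : Fam} (hF : F.Good) {am : ℕ → ℝ} (hW : F.Wav am) {B : ℝ} (hB0 : 0 ≤ B) {H₀ : ℝ → ℝ}
    (hB : ∀ ω, Bdd2 B (Hr F H₀ ω)) (n : ℕ) {j : ℕ} (cc : ℕ) (hj1 : 1 ≤ j) (Q : ℝ) {c : ℤ × ℤ → ℂ} (hc : ∀ k, ‖c k‖ ≤ 1)
    {a0 b0 : ℝ} (R α : ℝ) (ha0 : |a0| ≤ 2) (hb0 : |b0| ≤ 2) (ω : Sp) {p : ℕ × ℕ} (hp : p ∈ cls j cc) (x : ℝ) :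
    ‖s9f F am H₀ n j cc Q c a0 b0 R α ω p x‖ ≤
      (2 + 2 * B) * (((Bq n Q).filter (fun k => (j, aix j α k) = p)).card : ℝ) := by
  unfold s9f
  refine (norm_sum_le _ _).trans ?_
  have h1 : ∀ k ∈ (Bq n Q).filter (fun k => (j, aix j α k) = p),
      ‖(c k * ee (-(R * nk k * gph (Hr F H₀ ((cls j cc).piecewise 0 ω)) k α))) *
      ((((a0 + b0 * rho (Hr F H₀ ((cls j cc).piecewise 0 ω)) (tk k + α)) + b0 * am j * clip x : ℝ) : ℂ) *
        ee (-((R * nk k * am j * cos α) * clip x)))‖ ≤ 2 + 2 * B := by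
    intro k hk
    have hk2 := (Finset.mem_filter.1 hk).2
    have hpar : aix j α k % 2 = cc := by
      rw [s9_mem_cls] at hp
      rw [← hp.2.2, ← hk2]
    have h2 := (s9_rho (s9_near hF hW H₀ hj1 α k hpar (fun _ => x) ω)).1
    rw [norm_mul, norm_mul, norm_mul, ee_norm, ee_norm, mul_one, mul_one, Complex.norm_real, Real.norm_eq_abs]
    have h3 : (a0 + b0 * rho (Hr F H₀ ((cls j cc).piecewise 0 ω)) (tk k + α)) + b0 * am j * clip x =
        a0 + b0 * rho (Hr F H₀ ((cls j cc).piecewise (fun _ => x) ω)) (tk k + α) := by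
      rw [h2]
      ring
    rw [h3]
    have h4 := s9_amp ha0 hb0 ((hB ((cls j cc).piecewise (fun _ => x) ω)).b2 (tk k + α))
    have h5 : ‖c k‖ * |a0 + b0 * rho (Hr F H₀ ((cls j cc).piecewise (fun _ => x) ω)) (tk k + α)| ≤ 1 * (2 + 2 * B) :=
      mul_le_mul (hc k) h4 (abs_nonneg _) (by norm_num)
    linarith
  refine (Finset.sum_le_sum h1).trans ?_
  rw [Finset.sum_const, nsmul_eq_mul, mul_comm]

private lemma s9_int {F : Fam} {am : ℕ → ℝ} {B : ℝ} (hB0 : 0 ≤ B) {H₀ : ℝ → ℝ}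
    (hB : ∀ ω, Bdd2 B (Hr F H₀ ω)) (n : ℕ) {j : ℕ} (cc : ℕ) (ham : 0 < am j) (ham1 : am j ≤ 1) (Q : ℝ)
    {c : ℤ × ℤ → ℂ} (hc : ∀ k, ‖c k‖ ≤ 1) {a0 b0 R α : ℝ} (ha0 : |a0| ≤ 2) (hb0 : |b0| ≤ 2) (hR : 0 < R)
    (hα : 1 / 2 ≤ |cos α|) (ω : Sp) (p : ℕ × ℕ) :
    ‖∫ x, s9f F am H₀ n j cc Q c a0 b0 R α ω p x ∂mu‖ ≤
      ((2 + 2 * B + 2) * 2 / (R * 2 ^ n * am j)) * (((Bq n Q).filter (fun k => (j, aix j α k) = p)).card : ℝ) := by
  unfold s9f
  rw [integral_finsetSum]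
  · refine (norm_sum_le _ _).trans ?_
    have h1 : ∀ k ∈ (Bq n Q).filter (fun k => (j, aix j α k) = p),
        ‖∫ x, (c k * ee (-(R * nk k * gph (Hr F H₀ ((cls j cc).piecewise 0 ω)) k α))) *
        ((((a0 + b0 * rho (Hr F H₀ ((cls j cc).piecewise 0 ω)) (tk k + α)) + b0 * am j * clip x : ℝ) : ℂ) *
          ee (-((R * nk k * am j * cos α) * clip x))) ∂mu‖ ≤ (2 + 2 * B + 2) * 2 / (R * 2 ^ n * am j) := by
      intro k hk
      have hk1 := s9_blk (Finset.mem_filter.1 hk).1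
      have h2n : (0 : ℝ) < 2 ^ n := by positivity
      have hnk : 0 < nk k := lt_of_lt_of_le h2n hk1.2
      have hcos : 0 < |cos α| := by linarith
      have ht : R * nk k * am j * cos α ≠ 0 := by
        have : cos α ≠ 0 := abs_pos.1 hcos
        positivity
      rw [integral_const_mul, norm_mul, norm_mul, ee_norm, mul_one]
      have h2 := char_bound (a0 + b0 * rho (Hr F H₀ ((cls j cc).piecewise 0 ω)) (tk k + α)) (b0 * am j)
        (R * nk k * am j * cos α) ht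
      have h3 := s9_amp ha0 hb0 ((hB ((cls j cc).piecewise 0 ω)).b2 (tk k + α))
      have h4 : |b0 * am j| ≤ 2 := by
        rw [abs_mul, abs_of_pos ham]
        calc |b0| * am j ≤ 2 * 1 := mul_le_mul hb0 ham1 ham.le (by norm_num)
          _ = 2 := by norm_num
      have h5 : R * 2 ^ n * am j / 2 ≤ |R * nk k * am j * cos α| := by
        rw [abs_mul, abs_of_pos (by positivity : 0 < R * nk k * am j)]
        have e1 : R * 2 ^ n * am j ≤ R * nk k * am j :=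
          mul_le_mul_of_nonneg_right (mul_le_mul_of_nonneg_left hk1.2 hR.le) ham.le
        calc R * 2 ^ n * am j / 2 = R * 2 ^ n * am j * (1 / 2) := by ring
          _ ≤ R * nk k * am j * |cos α| := mul_le_mul e1 hα (by norm_num) (by positivity)
      have h6 : (|a0 + b0 * rho (Hr F H₀ ((cls j cc).piecewise 0 ω)) (tk k + α)| + |b0 * am j|) /
          |R * nk k * am j * cos α| ≤ (2 + 2 * B + 2) / (R * 2 ^ n * am j / 2) := by
        refine div_le_div₀ (by positivity) (by linarith) (by positivity) h5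
      have h7 : (2 + 2 * B + 2) / (R * 2 ^ n * am j / 2) = (2 + 2 * B + 2) * 2 / (R * 2 ^ n * am j) := by
        field_simp
      rw [h7] at h6
      calc ‖c k‖ * ‖∫ x, ((((a0 + b0 * rho (Hr F H₀ ((cls j cc).piecewise 0 ω)) (tk k + α)) + b0 * am j * clip x : ℝ) : ℂ) *
          ee (-((R * nk k * am j * cos α) * clip x))) ∂mu‖
          ≤ 1 * ((2 + 2 * B + 2) * 2 / (R * 2 ^ n * am j)) :=
            mul_le_mul (hc k) (h2.trans h6) (norm_nonneg _) (by norm_num)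
        _ = (2 + 2 * B + 2) * 2 / (R * 2 ^ n * am j) := one_mul _
    refine (Finset.sum_le_sum h1).trans ?_
    rw [Finset.sum_const, nsmul_eq_mul, mul_comm]
  · intro k _
    have hcont : Continuous (fun x : ℝ => (c k * ee (-(R * nk k * gph (Hr F H₀ ((cls j cc).piecewise 0 ω)) k α))) *
        ((((a0 + b0 * rho (Hr F H₀ ((cls j cc).piecewise 0 ω)) (tk k + α)) + b0 * am j * clip x : ℝ) : ℂ) *
          ee (-((R * nk k * am j * cos α) * clip x)))) := by
      refine continuous_const.mul (Continuous.mul ?_ ?_)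
      · exact Complex.continuous_ofReal.comp (continuous_const.add (continuous_const.mul clip_cont))
      · exact ee_cont.comp (continuous_const.mul clip_cont).neg
    refine Integrable.of_bound hcont.aestronglyMeasurable
      (‖c k‖ * (|a0 + b0 * rho (Hr F H₀ ((cls j cc).piecewise 0 ω)) (tk k + α)| + |b0 * am j|)) (Filter.Eventually.of_forall fun x => ?_)
    rw [norm_mul, norm_mul, norm_mul, ee_norm, ee_norm, mul_one, mul_one, Complex.norm_real, Real.norm_eq_abs]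
    refine mul_le_mul_of_nonneg_left ?_ (norm_nonneg _)
    refine (abs_add_le _ _).trans (add_le_add le_rfl ?_)
    rw [abs_mul (b0 * am j)]
    exact mul_le_of_le_one_right (abs_nonneg _) (clip_le x)

private lemma s9_sum_cls (j cc : ℕ) (g : ℕ × ℕ → ℝ) :
    ∑ p ∈ cls j cc, g p = ∑ i ∈ (Finset.range (2 ^ j)).filter (fun i => i % 2 = cc), g (j, i) := by
  unfold cls
  rw [Finset.sum_map]
  rfl

private lemma s9_card (n j cc : ℕ) (Q α : ℝ) :
    ∑ p ∈ cls j cc, (((Bq n Q).filter (fun k => (j, aix j α k) = p)).card : ℝ) ≤ 25 * 4 ^ n := by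
  classical
  have h1 : ∑ p ∈ cls j cc, (((Bq n Q).filter (fun k => (j, aix j α k) = p)).card : ℝ) ≤
      ((Bq n Q).card : ℝ) := by
    have h2 : ∑ p ∈ cls j cc, ((Bq n Q).filter (fun k => (j, aix j α k) = p)).card ≤ (Bq n Q).card := by
      rw [← Finset.card_biUnion]
      · exact Finset.card_le_card (Finset.biUnion_subset.2 fun p _ => Finset.filter_subset _ _)
      · intro p _ p' _ hne
        rw [Function.onFun, Finset.disjoint_left]
        intro k hk hk'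
        exact hne ((Finset.mem_filter.1 hk).2.symm.trans (Finset.mem_filter.1 hk').2)
    exact_mod_cast h2
  refine h1.trans (le_trans ?_ (blk_card n))
  exact_mod_cast Finset.card_le_card fun k hk => (s9_blk hk).1

/-- the large deviation bound for one parity -/
private lemma s9_tail {F : Fam} (hF : F.Good) {am : ℕ → ℝ} (hW : F.Wav am) {B : ℝ} (hB0 : 0 ≤ B) {H₀ : ℝ → ℝ}
    (h0 : ContDiff ℝ 2 H₀) (hB : ∀ ω, Bdd2 B (Hr F H₀ ω)) {n j : ℕ} (cc : ℕ) {Q : ℝ} (hQ : 1 ≤ Q) (hQ2 : Q ≤ 2 ^ n)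
    (hj : 2 ^ n * Q ≤ 2 ^ j) (hj1 : 1 ≤ j) (ham : 0 < am j) (ham1 : am j ≤ 1) (c : ℤ × ℤ → ℂ) (hc : ∀ k, ‖c k‖ ≤ 1)
    {a0 b0 R α t : ℝ} (ha0 : |a0| ≤ 2) (hb0 : |b0| ≤ 2) (hR : 0 < R) (hα : 1 / 2 ≤ |cos α|) (ht : 0 ≤ t) :
    PP.real {ω | t + 50 * (2 + 2 * B + 2) * 2 ^ n / (R * am j) < ‖TC n (Bq n Q) j cc c a0 b0 R α (Hr F H₀ ω)‖} ≤
      4 * exp (-t ^ 2 / (16 * ((2 + 2 * B) ^ 2 * (8000 * (2 ^ n) ^ 3 / Q)))) := by
  have h2n : (0 : ℝ) < 2 ^ n := by positivity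
  have hQ0 : (0 : ℝ) < Q := by linarith
  refine resample_le (cls j cc) ?_ (by positivity) ?_
  · have hcont : Continuous (fun ω : Sp => ‖TC n (Bq n Q) j cc c a0 b0 R α (Hr F H₀ ω)‖) := by
      unfold TC
      exact (s9_cont hF h0 n _ c a0 b0 R α).norm
    exact measurableSet_lt measurable_const hcont.measurable
  · intro ω
    have h1 := hoeffding_c (cls j cc) (s9f F am H₀ n j cc Q c a0 b0 R α ω)
      (fun p => (s9_f_cont F am H₀ n j cc Q c a0 b0 R α ω p).measurable)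
      (fun p => (2 + 2 * B) * (((Bq n Q).filter (fun k => (j, aix j α k) = p)).card : ℝ))
      (fun p => ((2 + 2 * B + 2) * 2 / (R * 2 ^ n * am j)) * (((Bq n Q).filter (fun k => (j, aix j α k) = p)).card : ℝ))
      (fun p hp x => s9_f_le hF hW hB0 hB n cc hj1 Q hc R α ha0 hb0 ω hp x)
      (fun p _ => s9_int hB0 hB n cc ham ham1 Q hc ha0 hb0 hR hα ω p)
      (V := (2 + 2 * B) ^ 2 * (8000 * (2 ^ n) ^ 3 / Q)) ?_ (by positivity) ht
    · refine le_trans (measureReal_mono ?_ (measure_ne_top _ _)) h1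
      intro u hu
      have hu' : t + 50 * (2 + 2 * B + 2) * 2 ^ n / (R * am j) <
          ‖TC n (Bq n Q) j cc c a0 b0 R α (Hr F H₀ ((cls j cc).piecewise u ω))‖ := hu
      rw [s9_sum hF hW H₀ n cc hj1 Q c a0 b0 R α u ω] at hu'
      refine lt_of_le_of_lt ?_ hu'
      rw [← Finset.mul_sum]
      have h2 := s9_card n j cc Q α
      have h3 : (2 + 2 * B + 2) * 2 / (R * 2 ^ n * am j) *
          ∑ p ∈ cls j cc, (((Bq n Q).filter (fun k => (j, aix j α k) = p)).card : ℝ) ≤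
          (2 + 2 * B + 2) * 2 / (R * 2 ^ n * am j) * (25 * 4 ^ n) :=
        mul_le_mul_of_nonneg_left h2 (by positivity)
      have h4 : (2 + 2 * B + 2) * 2 / (R * 2 ^ n * am j) * (25 * 4 ^ n) =
          50 * (2 + 2 * B + 2) * 2 ^ n / (R * am j) := by
        have e : (4 : ℝ) ^ n = 2 ^ n * 2 ^ n := by
          rw [← mul_pow]; norm_num
        rw [e]
        field_simp
        ring
      linarith
    · have h5 : ∀ p : ℕ × ℕ, ((2 + 2 * B) * (((Bq n Q).filter (fun k => (j, aix j α k) = p)).card : ℝ)) ^ 2 =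
          (2 + 2 * B) ^ 2 * (((Bq n Q).filter (fun k => (j, aix j α k) = p)).card : ℝ) ^ 2 := fun p => mul_pow _ _ _
      simp only [h5]
      rw [← Finset.mul_sum]
      refine mul_le_mul_of_nonneg_left ?_ (by positivity)
      rw [s9_sum_cls j cc (fun p => (((Bq n Q).filter (fun k => (j, aix j α k) = p)).card : ℝ) ^ 2)]
      refine le_trans ?_ (pairs_bound (n := n) (j := j) (Q := Q) (α := α) hQ hQ2 hj)
      have h6 : ∀ i : ℕ, (Bq n Q).filter (fun k => (j, aix j α k) = (j, i)) = (Bq n Q).filter (fun k => aix j α k = i) := by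
        intro i
        refine Finset.filter_congr fun k _ => ?_
        rw [Prod.mk.injEq]
        exact ⟨fun h => h.2, fun h => ⟨rfl, h⟩⟩
      simp only [h6]
      exact Finset.sum_le_sum_of_subset_of_nonneg (Finset.filter_subset _ _) fun i _ _ => sq_nonneg _

theorem cond_tail {F : Fam} (hF : F.Good) {am : ℕ → ℝ} (hW : F.Wav am) {B : ℝ} (hB0 : 0 ≤ B) {H₀ : ℝ → ℝ}
    (h0 : ContDiff ℝ 2 H₀) (hB : ∀ ω, Bdd2 B (Hr F H₀ ω)) {n j : ℕ} {Q : ℝ} (hQ : 1 ≤ Q) (hQ2 : Q ≤ 2 ^ n)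
    (hj : 2 ^ n * Q ≤ 2 ^ j) (hj1 : 1 ≤ j) (ham : 0 < am j) (ham1 : am j ≤ 1) (c : ℤ × ℤ → ℂ) (hc : ∀ k, ‖c k‖ ≤ 1)
    {a0 b0 R α t : ℝ} (ha0 : |a0| ≤ 2) (hb0 : |b0| ≤ 2) (hR : 0 < R) (hα : 1 / 2 ≤ |cos α|) (ht : 0 ≤ t) :
    PP.real {ω | 2 * (t + 50 * (2 + 2 * B + 2) * 2 ^ n / (R * am j)) < ‖TS n (Bq n Q) c a0 b0 R α (Hr F H₀ ω)‖} ≤
      8 * exp (-t ^ 2 / (16 * ((2 + 2 * B) ^ 2 * (8000 * (2 ^ n) ^ 3 / Q)))) := by
  set m := 50 * (2 + 2 * B + 2) * 2 ^ n / (R * am j) with hm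
  have hA : ∀ cc : ℕ, PP.real {ω | t + m < ‖TC n (Bq n Q) j cc c a0 b0 R α (Hr F H₀ ω)‖} ≤
      4 * exp (-t ^ 2 / (16 * ((2 + 2 * B) ^ 2 * (8000 * (2 ^ n) ^ 3 / Q)))) := fun cc =>
    s9_tail hF hW hB0 h0 hB cc hQ hQ2 hj hj1 ham ham1 c hc ha0 hb0 hR hα ht
  have hsub : {ω | 2 * (t + m) < ‖TS n (Bq n Q) c a0 b0 R α (Hr F H₀ ω)‖} ⊆
      {ω | t + m < ‖TC n (Bq n Q) j 0 c a0 b0 R α (Hr F H₀ ω)‖} ∪
        {ω | t + m < ‖TC n (Bq n Q) j 1 c a0 b0 R α (Hr F H₀ ω)‖} := by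
    intro ω hω
    have hω' : 2 * (t + m) < ‖TS n (Bq n Q) c a0 b0 R α (Hr F H₀ ω)‖ := hω
    rw [s9_split n (Bq n Q) j] at hω'
    have h1 := norm_add_le (TC n (Bq n Q) j 0 c a0 b0 R α (Hr F H₀ ω)) (TC n (Bq n Q) j 1 c a0 b0 R α (Hr F H₀ ω))
    by_contra hcon
    rw [mem_union, not_or] at hcon
    have h2 : ¬ (t + m < ‖TC n (Bq n Q) j 0 c a0 b0 R α (Hr F H₀ ω)‖) := hcon.1
    have h3 : ¬ (t + m < ‖TC n (Bq n Q) j 1 c a0 b0 R α (Hr F H₀ ω)‖) := hcon.2
    rw [not_lt] at h2 h3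
    linarith
  calc PP.real {ω | 2 * (t + m) < ‖TS n (Bq n Q) c a0 b0 R α (Hr F H₀ ω)‖}
      ≤ PP.real ({ω | t + m < ‖TC n (Bq n Q) j 0 c a0 b0 R α (Hr F H₀ ω)‖} ∪
        {ω | t + m < ‖TC n (Bq n Q) j 1 c a0 b0 R α (Hr F H₀ ω)‖}) := measureReal_mono hsub (measure_ne_top _ _)
    _ ≤ _ := measureReal_union_le _ _
    _ ≤ 8 * exp (-t ^ 2 / (16 * ((2 + 2 * B) ^ 2 * (8000 * (2 ^ n) ^ 3 / Q)))) := by
      have h1 := hA 0
      have h2 := hA 1
      linarith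

end Pool.Agent.Helper76.EO
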