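import Pool.Agent.Helper76.EO.Base
import Pool.Agent.Helper22.AE.C2

/-!
# EO-V1: the block sum without positivity

PROOF. `Vt_eq`: `ft_polar` for each `k ∈ blk n` (`k ≠ 0`). `vt_bound`: the proof of `vk_bound` (Helper22/AE/C2) and of `polar_ibp` (C1) use only that
`G` is `C²` and `2π`-periodic: copy them with `hG : ContDiff ℝ 2 G`, `hp : Function.Periodic G (2 * π)`.
-/

open MeasureTheory Real Set Filter Topology

set_option autoImplicit false

namespace Pool.Agent.Helper76.EO

open Pool.Agent.Helper22.AE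

private theorem den_pos {β : ℝ} (hβ : 0 < β) (α : ℝ) : 0 < sin α ^ 2 + β ^ 2 := by positivity

private theorem k0_cont {β : ℝ} (hβ : 0 < β) : Continuous (fun α => k0 β α) := by
  unfold k0
  exact continuous_const.div (by fun_prop) (fun α => (den_pos hβ α).ne')

private theorem f_hasDerivAt {β : ℝ} (hβ : 0 < β) (α : ℝ) :
    HasDerivAt (fun x => sin x * cos x / (sin x ^ 2 + β ^ 2)) (fd β α) α := by
  have hd := den_pos hβ α
  have h1 := ((hasDerivAt_sin α).mul (hasDerivAt_cos α)).div (((hasDerivAt_sin α).pow 2).add_const (β ^ 2)) hd.ne'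
  refine h1.congr_deriv ?_
  simp only [Pi.mul_apply, Pi.pow_apply]
  unfold fd
  rw [cos_two_mul']
  push_cast
  ring

private theorem polar_ibp' {G : ℝ → ℝ} (hG2 : ContDiff ℝ 2 G) {k : ℤ × ℤ} (hk : k ≠ 0) {β : ℝ} (hβ : 0 < β) :
    ∫ α in (-π)..π, ((cos α * rho G (tk k + α) : ℝ) : ℂ) * ee (-(nk k * gph G k α)) =
      (∫ α in (-π)..π, ((β * k0 β α * cos α * rho G (tk k + α) : ℝ) : ℂ) * ee (-(nk k * gph G k α))) -
      1 / (2 * π * Complex.I * (nk k : ℂ)) * ∫ α in (-π)..π, ((fd β α : ℝ) : ℂ) * ee (-(nk k * gph G k α)) := by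
  have hn := nk_pos hk
  have hn' : (nk k : ℂ) ≠ 0 := by exact_mod_cast hn.ne'
  have hπ' : (π : ℂ) ≠ 0 := by exact_mod_cast pi_pos.ne'
  have hI := Complex.I_ne_zero
  have hGc : Continuous G := hG2.continuous
  have hG1 : ContDiff ℝ 1 (deriv G) := by
    have h : ContDiff ℝ (1 + 1) G := by
      have e : (1 + 1 : WithTop ℕ∞) = 2 := by norm_num
      rw [e]
      exact hG2
    exact (contDiff_succ_iff_deriv.1 h).2.2
  have hG1c : Continuous (deriv G) := hG1.continuous
  have hG2c : Continuous (deriv (deriv G)) := hG1.continuous_deriv (by norm_num)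
  have hrc : Continuous (fun α => rho G (tk k + α)) := by
    unfold rho
    exact (hGc.comp (by fun_prop)).add (hG2c.comp (by fun_prop))
  have hgc : Continuous (fun α => gph G k α) := by
    unfold gph
    exact ((hGc.comp (by fun_prop)).mul continuous_cos).sub ((hG1c.comp (by fun_prop)).mul continuous_sin)
  have hEc : Continuous (fun α => ee (-(nk k * gph G k α))) := ee_cont.comp (by fun_prop)
  have hkc := k0_cont hβ
  have hfdc : Continuous (fun α => fd β α) := by
    unfold fd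
    exact Continuous.div (by fun_prop) (by fun_prop) (fun α => (pow_pos (den_pos hβ α) 2).ne')
  -- the derivative of `E`
  have hE : ∀ α, HasDerivAt (fun x => ee (-(nk k * gph G k x)))
      (2 * π * Complex.I * (nk k : ℂ) * (((rho G (tk k + α) * sin α : ℝ) : ℂ) * ee (-(nk k * gph G k α)))) α := by
    intro α
    have h1 := ((gph_hasDerivAt hG2 k α).const_mul (nk k)).neg
    have h2 := (ee_hasDerivAt (-(nk k * gph G k α))).scomp α h1
    refine h2.congr_deriv ?_
    rw [Complex.real_smul]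
    push_cast
    ring
  have hf : ∀ α, HasDerivAt (fun x : ℝ => ((sin x * cos x / (sin x ^ 2 + β ^ 2) : ℝ) : ℂ)) ((fd β α : ℝ) : ℂ) α :=
    fun α => (f_hasDerivAt hβ α).ofReal_comp
  have hE'c : Continuous (fun α => 2 * π * Complex.I * (nk k : ℂ) *
      (((rho G (tk k + α) * sin α : ℝ) : ℂ) * ee (-(nk k * gph G k α)))) := by
    refine continuous_const.mul (Continuous.mul ?_ hEc)
    exact Complex.continuous_ofReal.comp (hrc.mul continuous_sin)
  have hibp := intervalIntegral.integral_mul_deriv_eq_deriv_mul (a := -π) (b := π)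
    (fun α _ => hf α) (fun α _ => hE α)
    ((Complex.continuous_ofReal.comp hfdc).intervalIntegrable _ _) (hE'c.intervalIntegrable _ _)
  have hb1 : (((sin π * cos π / (sin π ^ 2 + β ^ 2) : ℝ)) : ℂ) = 0 := by
    rw [sin_pi]
    simp
  have hb2 : (((sin (-π) * cos (-π) / (sin (-π) ^ 2 + β ^ 2) : ℝ)) : ℂ) = 0 := by
    rw [sin_neg, sin_pi]
    simp
  rw [hb1, hb2, zero_mul, zero_mul, sub_zero, zero_sub] at hibp
  -- the splitting
  have hsplit : ∀ α, ((cos α * rho G (tk k + α) : ℝ) : ℂ) * ee (-(nk k * gph G k α)) =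
      ((β * k0 β α * cos α * rho G (tk k + α) : ℝ) : ℂ) * ee (-(nk k * gph G k α)) +
      1 / (2 * π * Complex.I * (nk k : ℂ)) * ((((sin α * cos α / (sin α ^ 2 + β ^ 2) : ℝ)) : ℂ) *
        (2 * π * Complex.I * (nk k : ℂ) * (((rho G (tk k + α) * sin α : ℝ) : ℂ) * ee (-(nk k * gph G k α))))) := by
    intro α
    have hd := den_pos hβ α
    have e1 : 1 / (2 * π * Complex.I * (nk k : ℂ)) * ((((sin α * cos α / (sin α ^ 2 + β ^ 2) : ℝ)) : ℂ) *
        (2 * π * Complex.I * (nk k : ℂ) * (((rho G (tk k + α) * sin α : ℝ) : ℂ) * ee (-(nk k * gph G k α))))) =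
        ((sin α * cos α / (sin α ^ 2 + β ^ 2) * (rho G (tk k + α) * sin α) : ℝ) : ℂ) * ee (-(nk k * gph G k α)) := by
      have hne : 2 * (π : ℂ) * Complex.I * (nk k : ℂ) ≠ 0 :=
        mul_ne_zero (mul_ne_zero (mul_ne_zero two_ne_zero hπ') hI) hn'
      rw [Complex.ofReal_mul (sin α * cos α / (sin α ^ 2 + β ^ 2))]
      generalize (((sin α * cos α / (sin α ^ 2 + β ^ 2) : ℝ)) : ℂ) = A
      generalize (((rho G (tk k + α) * sin α : ℝ)) : ℂ) = B
      generalize ee (-(nk k * gph G k α)) = D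
      generalize 2 * (π : ℂ) * Complex.I * (nk k : ℂ) = M at hne
      field_simp
    rw [e1, ← add_mul, ← Complex.ofReal_add]
    congr 2
    unfold k0
    field_simp
    ring
  have hi1 : IntervalIntegrable (fun α => ((β * k0 β α * cos α * rho G (tk k + α) : ℝ) : ℂ) * ee (-(nk k * gph G k α)))
      volume (-π) π := by
    apply Continuous.intervalIntegrable
    refine Continuous.mul ?_ hEc
    exact Complex.continuous_ofReal.comp (((continuous_const.mul hkc).mul continuous_cos).mul hrc)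
  have hfc : Continuous (fun x : ℝ => ((sin x * cos x / (sin x ^ 2 + β ^ 2) : ℝ) : ℂ)) :=
    continuous_iff_continuousAt.2 fun α => (hf α).continuousAt
  have hi2 : IntervalIntegrable (fun α => 1 / (2 * π * Complex.I * (nk k : ℂ)) * ((((sin α * cos α / (sin α ^ 2 + β ^ 2) : ℝ)) : ℂ) *
        (2 * π * Complex.I * (nk k : ℂ) * (((rho G (tk k + α) * sin α : ℝ) : ℂ) * ee (-(nk k * gph G k α))))))
      volume (-π) π := by
    apply Continuous.intervalIntegrable
    exact continuous_const.mul (hfc.mul hE'c)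
  rw [intervalIntegral.integral_congr (g := fun α => ((β * k0 β α * cos α * rho G (tk k + α) : ℝ) : ℂ) * ee (-(nk k * gph G k α)) +
      1 / (2 * π * Complex.I * (nk k : ℂ)) * ((((sin α * cos α / (sin α ^ 2 + β ^ 2) : ℝ)) : ℂ) *
        (2 * π * Complex.I * (nk k : ℂ) * (((rho G (tk k + α) * sin α : ℝ) : ℂ) * ee (-(nk k * gph G k α)))))) (fun α _ => hsplit α),
    intervalIntegral.integral_add hi1 hi2, intervalIntegral.integral_const_mul, hibp, mul_neg, ← sub_eq_add_neg]

private lemma c2_k0_cont {β : ℝ} (hβ : 0 < β) : Continuous (k0 β) := by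
  unfold k0
  exact continuous_const.div (by fun_prop) (fun α => by positivity)

private lemma c2_k0_nonneg {β : ℝ} (hβ : 0 < β) (α : ℝ) : 0 ≤ k0 β α := by
  unfold k0
  positivity

private lemma c2_fd_cont {β : ℝ} (hβ : 0 < β) : Continuous (fd β) := by
  unfold fd
  exact Continuous.div (by fun_prop) (by fun_prop) (fun α => by positivity)

private lemma c2_deriv_cd {G : ℝ → ℝ} (hG : ContDiff ℝ 2 G) : ContDiff ℝ 1 (deriv G) :=
  ((contDiff_succ_iff_deriv (n := 1)).1 hG).2.2

private lemma c2_rho_cont {G : ℝ → ℝ} (hG : ContDiff ℝ 2 G) : Continuous (rho G) := by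
  unfold rho
  exact hG.continuous.add ((c2_deriv_cd hG).continuous_deriv le_rfl)

private lemma c2_gph_cont {G : ℝ → ℝ} (hG : ContDiff ℝ 2 G) (k : ℤ × ℤ) : Continuous (gph G k) := by
  have h1 := hG.continuous
  have h2 := (c2_deriv_cd hG).continuous
  unfold gph
  fun_prop

private lemma c2_E_cont {G : ℝ → ℝ} (hG : ContDiff ℝ 2 G) (k : ℤ × ℤ) :
    Continuous (fun α : ℝ => ee (-(nk k * gph G k α))) := by
  have h1 := c2_gph_cont hG k
  have h2 := ee_cont
  fun_prop

private lemma c2_ne {n : ℕ} {k : ℤ × ℤ} (hk : k ∈ blk n) : k ≠ 0 := by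
  intro h0
  simp only [blk, Finset.mem_filter] at hk
  have h1 : nk k = 0 := by
    rw [h0]
    simp [nk, cz, Complex.ext_iff]
  have h2 : (0 : ℝ) < 2 ^ n := by positivity
  linarith [hk.2.1]

theorem Vt_eq {G : ℝ → ℝ} (hG : IsSupp G) (φ : ℝ × ℝ → ℝ) (δ : ℝ) (n : ℕ) : VK φ G δ n = Vt φ G δ n := by
  unfold VK Vt
  refine Finset.sum_congr rfl fun k hk => ?_
  rw [ft_polar hG (c2_ne hk)]

theorem vt_bound {G : ℝ → ℝ} (hG : ContDiff ℝ 2 G) (hp : Function.Periodic G (2 * π)) (φ : ℝ × ℝ → ℝ) (δ : ℝ) (n : ℕ)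
    {β : ℝ} (hβ : 0 < β) :
    ‖Vt φ G δ n‖ ≤
      β * (∫ α in (-π)..π, k0 β α * ‖∑ k ∈ blk n, fhat φ (δ * k.1) (δ * k.2) / (nk k : ℂ) *
        ((rho G (tk k + α) : ℝ) : ℂ) * ee (-(nk k * gph G k α))‖) +
      1 / β * (∫ α in (-π)..π, k0 β α * ‖∑ k ∈ blk n, fhat φ (δ * k.1) (δ * k.2) / (nk k : ℂ) ^ 2 *
        ee (-(nk k * gph G k α))‖) := by
  have hkc := c2_k0_cont hβ
  have hfc := c2_fd_cont hβ
  have hrc := c2_rho_cont hG
  have hEc := c2_E_cont hG
  have hpi := Real.pi_pos
  set S1 : ℝ → ℂ := fun α => ∑ k ∈ blk n, fhat φ (δ * k.1) (δ * k.2) / (nk k : ℂ) *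
        ((rho G (tk k + α) : ℝ) : ℂ) * ee (-(nk k * gph G k α)) with hS1
  set S2 : ℝ → ℂ := fun α => ∑ k ∈ blk n, fhat φ (δ * k.1) (δ * k.2) / (nk k : ℂ) ^ 2 *
        ee (-(nk k * gph G k α)) with hS2
  have hS1c : Continuous S1 := by
    refine continuous_finsetSum _ (fun k _ => ?_)
    refine Continuous.mul (continuous_const.mul ?_) (hEc k)
    exact Complex.continuous_ofReal.comp (hrc.comp (continuous_const.add continuous_id))
  have hS2c : Continuous S2 := by
    refine continuous_finsetSum _ (fun k _ => ?_)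
    exact continuous_const.mul (hEc k)
  -- the exact formula
  have key : Vt φ G δ n =
      -(1 / (2 * π * Complex.I)) * (∫ α in (-π)..π, ((β * k0 β α * cos α : ℝ) : ℂ) * S1 α) +
      (1 / (2 * π * Complex.I)) ^ 2 * (∫ α in (-π)..π, ((fd β α : ℝ) : ℂ) * S2 α) := by
    have e1 : (∫ α in (-π)..π, ((β * k0 β α * cos α : ℝ) : ℂ) * S1 α) =
        ∑ k ∈ blk n, fhat φ (δ * k.1) (δ * k.2) / (nk k : ℂ) *
          ∫ α in (-π)..π, ((β * k0 β α * cos α * rho G (tk k + α) : ℝ) : ℂ) * ee (-(nk k * gph G k α)) := by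
      have h1 : ∀ α, ((β * k0 β α * cos α : ℝ) : ℂ) * S1 α = ∑ k ∈ blk n,
          fhat φ (δ * k.1) (δ * k.2) / (nk k : ℂ) *
          (((β * k0 β α * cos α * rho G (tk k + α) : ℝ) : ℂ) * ee (-(nk k * gph G k α))) := by
        intro α
        rw [hS1]
        simp only [Finset.mul_sum]
        refine Finset.sum_congr rfl (fun k _ => ?_)
        push_cast
        ring
      simp only [h1]
      rw [intervalIntegral.integral_finsetSum]
      · refine Finset.sum_congr rfl (fun k _ => ?_)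
        rw [intervalIntegral.integral_const_mul]
      · intro k _
        refine Continuous.intervalIntegrable ?_ _ _
        refine continuous_const.mul (Continuous.mul ?_ (hEc k))
        refine Complex.continuous_ofReal.comp (Continuous.mul (by fun_prop) ?_)
        exact hrc.comp (continuous_const.add continuous_id)
    have e2 : (∫ α in (-π)..π, ((fd β α : ℝ) : ℂ) * S2 α) =
        ∑ k ∈ blk n, fhat φ (δ * k.1) (δ * k.2) / (nk k : ℂ) ^ 2 *
          ∫ α in (-π)..π, ((fd β α : ℝ) : ℂ) * ee (-(nk k * gph G k α)) := by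
      have h1 : ∀ α, ((fd β α : ℝ) : ℂ) * S2 α = ∑ k ∈ blk n,
          fhat φ (δ * k.1) (δ * k.2) / (nk k : ℂ) ^ 2 *
          (((fd β α : ℝ) : ℂ) * ee (-(nk k * gph G k α))) := by
        intro α
        rw [hS2]
        simp only [Finset.mul_sum]
        refine Finset.sum_congr rfl (fun k _ => ?_)
        ring
      simp only [h1]
      rw [intervalIntegral.integral_finsetSum]
      · refine Finset.sum_congr rfl (fun k _ => ?_)
        rw [intervalIntegral.integral_const_mul]
      · intro k _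
        refine Continuous.intervalIntegrable ?_ _ _
        exact continuous_const.mul ((Complex.continuous_ofReal.comp hfc).mul (hEc k))
    rw [e1, e2, Vt, Finset.mul_sum, Finset.mul_sum, ← Finset.sum_add_distrib]
    refine Finset.sum_congr rfl (fun k hk => ?_)
    have hk0 := c2_ne hk
    have hnk : (nk k : ℂ) ≠ 0 := by exact_mod_cast (nk_pos hk0).ne'
    have hpi' : (π : ℂ) ≠ 0 := by exact_mod_cast hpi.ne'
    have hI := Complex.I_ne_zero
    rw [polar_ibp' hG hk0 hβ]
    field_simp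
    ring
  have hn1 : ‖∫ α in (-π)..π, ((β * k0 β α * cos α : ℝ) : ℂ) * S1 α‖ ≤
      β * ∫ α in (-π)..π, k0 β α * ‖S1 α‖ := by
    rw [← intervalIntegral.integral_const_mul]
    refine (intervalIntegral.norm_integral_le_integral_norm (by linarith)).trans ?_
    refine intervalIntegral.integral_mono_on (by linarith) ?_ ?_ ?_
    · refine Continuous.intervalIntegrable ?_ _ _
      exact ((Complex.continuous_ofReal.comp (by fun_prop)).mul hS1c).norm
    · refine Continuous.intervalIntegrable ?_ _ _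
      exact continuous_const.mul (hkc.mul hS1c.norm)
    · intro α _
      have h0 := c2_k0_nonneg hβ α
      rw [norm_mul, Complex.norm_real, Real.norm_eq_abs, abs_mul, abs_mul, abs_of_pos hβ, abs_of_nonneg h0]
      have hc := Real.abs_cos_le_one α
      have h1 : β * k0 β α * |cos α| ≤ β * k0 β α * 1 :=
        mul_le_mul_of_nonneg_left hc (mul_nonneg hβ.le h0)
      calc β * k0 β α * |cos α| * ‖S1 α‖ ≤ (β * k0 β α * 1) * ‖S1 α‖ :=
            mul_le_mul_of_nonneg_right h1 (norm_nonneg _)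
        _ = β * (k0 β α * ‖S1 α‖) := by ring
  have hn2 : ‖∫ α in (-π)..π, ((fd β α : ℝ) : ℂ) * S2 α‖ ≤
      3 / β * ∫ α in (-π)..π, k0 β α * ‖S2 α‖ := by
    rw [← intervalIntegral.integral_const_mul]
    refine (intervalIntegral.norm_integral_le_integral_norm (by linarith)).trans ?_
    refine intervalIntegral.integral_mono_on (by linarith) ?_ ?_ ?_
    · refine Continuous.intervalIntegrable ?_ _ _
      exact ((Complex.continuous_ofReal.comp hfc).mul hS2c).norm
    · refine Continuous.intervalIntegrable ?_ _ _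
      exact continuous_const.mul (hkc.mul hS2c.norm)
    · intro α _
      rw [norm_mul, Complex.norm_real, Real.norm_eq_abs]
      calc |fd β α| * ‖S2 α‖ ≤ (3 / β * k0 β α) * ‖S2 α‖ :=
            mul_le_mul_of_nonneg_right (fd_le hβ α) (norm_nonneg _)
        _ = 3 / β * (k0 β α * ‖S2 α‖) := by ring
  have hI1 : 0 ≤ ∫ α in (-π)..π, k0 β α * ‖S1 α‖ :=
    intervalIntegral.integral_nonneg (by linarith)
      (fun α _ => mul_nonneg (c2_k0_nonneg hβ α) (norm_nonneg _))
  have hI2 : 0 ≤ ∫ α in (-π)..π, k0 β α * ‖S2 α‖ :=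
    intervalIntegral.integral_nonneg (by linarith)
      (fun α _ => mul_nonneg (c2_k0_nonneg hβ α) (norm_nonneg _))
  have hc1 : ‖-(1 / (2 * π * Complex.I))‖ ≤ 1 := by
    rw [norm_neg, norm_div, norm_mul, norm_mul, Complex.norm_I, Complex.norm_real, norm_one,
      Real.norm_eq_abs, abs_of_pos hpi, Complex.norm_ofNat, mul_one]
    rw [div_le_one (by positivity)]
    linarith [Real.pi_gt_three]
  have hc2 : ‖(1 / (2 * π * Complex.I)) ^ 2‖ * 3 ≤ 1 := by
    rw [norm_pow, norm_div, norm_mul, norm_mul, Complex.norm_I, Complex.norm_real, norm_one,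
      Real.norm_eq_abs, abs_of_pos hpi, Complex.norm_ofNat, mul_one]
    have h3 : 1 / (2 * π) ≤ 1 / 6 := one_div_le_one_div_of_le (by norm_num) (by linarith [Real.pi_gt_three])
    have h4 : 0 ≤ 1 / (2 * π) := by positivity
    nlinarith
  rw [key]
  refine (norm_add_le _ _).trans ?_
  rw [norm_mul, norm_mul]
  refine add_le_add ?_ ?_
  · calc ‖-(1 / (2 * π * Complex.I))‖ * ‖∫ α in (-π)..π, ((β * k0 β α * cos α : ℝ) : ℂ) * S1 α‖
        ≤ 1 * (β * ∫ α in (-π)..π, k0 β α * ‖S1 α‖) :=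
          mul_le_mul hc1 hn1 (norm_nonneg _) zero_le_one
      _ = β * ∫ α in (-π)..π, k0 β α * ‖S1 α‖ := one_mul _
  · calc ‖(1 / (2 * π * Complex.I)) ^ 2‖ * ‖∫ α in (-π)..π, ((fd β α : ℝ) : ℂ) * S2 α‖
        ≤ ‖(1 / (2 * π * Complex.I)) ^ 2‖ * (3 / β * ∫ α in (-π)..π, k0 β α * ‖S2 α‖) :=
          mul_le_mul_of_nonneg_left hn2 (norm_nonneg _)
      _ = (‖(1 / (2 * π * Complex.I)) ^ 2‖ * 3) * (1 / β * ∫ α in (-π)..π, k0 β α * ‖S2 α‖) := by ring
      _ ≤ 1 * (1 / β * ∫ α in (-π)..π, k0 β α * ‖S2 α‖) :=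
          mul_le_mul_of_nonneg_right hc2 (by positivity)
      _ = 1 / β * ∫ α in (-π)..π, k0 β α * ‖S2 α‖ := one_mul _

end Pool.Agent.Helper76.EO
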